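import Pool.Agent.Lib.MP_8f66f0_al_CC.End.KR
import Pool.Agent.Lib.MP_8f66f0_al_CC.Sys.RingKZ

/-!
# Project GLn: one-sided ladders (ring level statements)

The ideals `J` of flag systems have only LEFT local units, and an element of `J` is, modulo `J'`, only on
the left in the corners `T b`. `LadL` is the one-sided version of `CC.Lad`.
-/

set_option autoImplicit false

namespace Pool.Agent.FL

open Pool.Agent.Wald Matrix
open Pool.Agent.CC (KR Cg Ex Spc Gen Flq KZ KQ)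

/-- Left local units. -/
def LUl {R : Type} [Ring R] (J : Ideal R) : Prop :=
  ∀ s : Finset R, (∀ x ∈ s, x ∈ J) → ∃ e ∈ J, e * e = e ∧ ∀ x ∈ s, e * x = x

/-- The data of a step from `J'` to `J`, one-sided: rings `T b`, ideals `I b` and corner inclusions
`ε b : T b → R` modulo `J'`, indexed by a directed order. -/
structure LadL (R : Type) [Ring R] (J' J : Ideal R) (β : Type) [Preorder β] (T : β → Type)
    [∀ b, Ring (T b)] (I : ∀ b, Ideal (T b)) (ε : ∀ b, T b →ₙ+* R) : Prop where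
  le : J' ≤ J
  dir : ∀ b c : β, ∃ d, b ≤ d ∧ c ≤ d
  mem : ∀ b x, ε b x ∈ J
  pre : ∀ b x, ε b x ∈ J' ↔ x ∈ I b
  /-- corners modulo `J'` -/
  cor : ∀ b, ∀ x ∈ J, ∃ c : T b, ε b 1 * x * ε b 1 - ε b c ∈ J'
  mono : ∀ b b', b ≤ b' → ∀ c : T b, ∃ c' : T b', ε b c - ε b' c' ∈ J'
  /-- the left local units of `J` come from the rings `T b` modulo `J'` -/
  dec : ∀ s : Finset R, (∀ x ∈ s, x ∈ J) → ∃ b, ∃ e ∈ J, e * e = e ∧ (∀ x ∈ s, e * x = x) ∧
    e - ε b 1 ∈ J'

/-- Conjugation invariance. (As in `CC/End/Conj.lean`: `g * z * g' = 1 + (g * e) * ((z - 1) * g')` and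
`1 + ((z - 1) * g') * (g * e) = 1 + (z - 1) * e`; for `g = 1` the same, so both are equal to
`κ (1 + (z - 1) * e)`.) -/
def S_conjL : Prop :=
  ∀ (R : Type) [Ring R] (J : Ideal R) [J.IsTwoSided] (K : Type) [CommGroup K] (κ : KR R J K),
    LUl J → ∀ (n : Type) [Fintype n] [DecidableEq n] (g g' z : Matrix n n R), g * g' = 1 →
      g' * g = 1 → IsUnit z → Cg J z 1 → κ.f (g * z * g') = κ.f z

/-- Uniqueness. PROOF. `z = 1 + x`, `e * x = x` and `e = ε b 1 mod J'` (`dec`);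
`κ z = κ (1 + e x) = κ (1 + x e)` (`e`, `x` over `J`), and `x e = e x e = ε b c mod J'` (`cor`), so
`1 + x e` is `Ex (ε b) z' mod J'`, and then as in `CC/End/Uni.lean` (`Gen`, `Flq`). -/
def S_uniL : Prop :=
  ∀ (R : Type) [Ring R] (J' J : Ideal R) [J'.IsTwoSided] [J.IsTwoSided] (β : Type) [Preorder β]
    (T : β → Type) [∀ b, Ring (T b)] (I : ∀ b, Ideal (T b)) (ε : ∀ b, T b →ₙ+* R)
    (M : ∀ (n : Type) [Fintype n] [DecidableEq n], Matrix n n R → Prop),
    LadL R J' J β T I ε → Spc R J M → Gen J' J T ε M → (∀ b, Flq (T b)) →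
    ∀ (K : Type) [CommGroup K] (κ : KR R J K),
    (∀ (n : Type) [Fintype n] [DecidableEq n] (z : Matrix n n R), IsUnit z → Cg J' z 1 →
      κ.f z = 1) →
    (∀ (n : Type) [Fintype n] [DecidableEq n] (z : Matrix n n R), M n z → κ.f z = 1) →
    ∀ (n : Type) [Fintype n] [DecidableEq n] (z : Matrix n n R), IsUnit z → Cg J z 1 → κ.f z = 1

/-- `CC.S_ext` with the conjugation invariance of `κ` in place of `LU J'`. (Port of `CC/End/Ext2.lean`,
where `LU J'` is only used for `Cj κ`; `CC/End/Ext1.lean` can be imported.) -/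
def S_extC : Prop :=
  ∀ (R : Type) [Ring R] (J' J : Ideal R) [J'.IsTwoSided] [J.IsTwoSided] (β : Type) [Preorder β]
    [Nonempty β] (T : β → Type) [∀ b, Ring (T b)] (I : ∀ b, Ideal (T b)) (ε : ∀ b, T b →ₙ+* R)
    (M : ∀ (n : Type) [Fintype n] [DecidableEq n], Matrix n n R → Prop),
    CC.Lad R J' J β T I ε → Spc R J M → Gen J' J T ε M → (∀ b, Flq (T b)) →
    ∀ (K : Type) [CommGroup K] (κ : KR R J' K),
    (∀ (n : Type) [Fintype n] [DecidableEq n] (g g' z : Matrix n n R), g * g' = 1 →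
      g' * g = 1 → IsUnit z → Cg J' z 1 → κ.f (g * z * g') = κ.f z) →
    (∀ (b : β) (n m : Type) [Fintype n] [DecidableEq n] [Fintype m] [DecidableEq m]
      (w : Matrix m m R) (r : Matrix (n ⊕ m) (n ⊕ m) (T b)) (x : Matrix (n ⊕ m) (n ⊕ m) R),
      M m w → IsUnit r → IsUnit x → Cg J' x 1 → fromBlocks 1 0 0 w = Ex (ε b) r * x →
      κ.f x = 1) →
    ∃ κ' : KR R J K,
      (∀ (n : Type) [Fintype n] [DecidableEq n] (z : Matrix n n R), IsUnit z → Cg J' z 1 →
        κ'.f z = κ.f z) ∧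
      ∀ (n : Type) [Fintype n] [DecidableEq n] (z : Matrix n n R), M n z → κ'.f z = 1

/-- Extension. PROOF. Let `Jc = {y | ∃ b c, y - ε b c ∈ J'}` and `Rc = {y | ∃ n : ℤ, y - n ∈ Jc}`, a subring
of `R` with the two-sided ideals `J' ≤ Jc`. `CC.Lad` holds for `(Rc, J', Jc)`. (1) `S_extC` gives an
invariant `κc` of `Rc`, `Jc`; the special matrices `w` are over `Rc` by `hM`. (2) Corner extension: for
`z = 1 + x` invertible over `R`, `x` over `J`, choose `e` as in `dec` and put `κ' z = κc (1 + x * e)`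
(`x * e` is over `Jc`). Independent of `e`: for `e''` with `e'' e = e`, `e'' x = x`:
`κc (1 + e (x e'')) = κc (1 + (x e'') e)`. Multiplicative: `(1 + x e)(1 + y e) = 1 + (x + y + x y) e`.
For `x` over `J'` take `e' e = e'`, `e'` in `J'` a left unit of `x`. -/
def S_extL : Prop :=
  ∀ (R : Type) [Ring R] (J' J : Ideal R) [J'.IsTwoSided] [J.IsTwoSided] (β : Type) [Preorder β]
    [Nonempty β] (T : β → Type) [∀ b, Ring (T b)] (I : ∀ b, Ideal (T b)) (ε : ∀ b, T b →ₙ+* R)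
    (M : ∀ (n : Type) [Fintype n] [DecidableEq n], Matrix n n R → Prop),
    LadL R J' J β T I ε → Spc R J M → Gen J' J T ε M → (∀ b, Flq (T b)) → LUl J' →
    (∀ (n : Type) [Fintype n] [DecidableEq n] (w : Matrix n n R), M n w →
      ∃ (b : β) (w' : Matrix n n (T b)), Cg J' w (Ex (ε b) w')) →
    ∀ (K : Type) [CommGroup K] (κ : KR R J' K),
    (∀ (b : β) (n m : Type) [Fintype n] [DecidableEq n] [Fintype m] [DecidableEq m]
      (w : Matrix m m R) (r : Matrix (n ⊕ m) (n ⊕ m) (T b)) (x : Matrix (n ⊕ m) (n ⊕ m) R),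
      M m w → IsUnit r → IsUnit x → Cg J' x 1 → fromBlocks 1 0 0 w = Ex (ε b) r * x →
      κ.f x = 1) →
    ∃ κ' : KR R J K,
      (∀ (n : Type) [Fintype n] [DecidableEq n] (z : Matrix n n R), IsUnit z → Cg J' z 1 →
        κ'.f z = κ.f z) ∧
      ∀ (n : Type) [Fintype n] [DecidableEq n] (z : Matrix n n R), M n z → κ'.f z = 1

/-- Corners, idempotents. PROOF. `e = p + x`, `x` over `J`, `p = pj P`; `q` from `dec`, `q x = x`, `q = ε b 1`
modulo `J'`. With `a = q e q`, `b = q e (1 - q)`: `a b + b p = b`, `a b p = 0` (exactly), `u = 1 + (b p - a b)`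
is unipotent, `1 mod J`, and `u⁻¹ e u = a + p (1 - q)`; `a = ε b a' mod J'` (`cor`), so
`u⁻¹ e u = Em (ε b) P eb mod J'` and the proof of `CC.kz_of_lad` applies. -/
def S_kzL : Prop :=
  ∀ (R : Type) [Ring R] (J' J : Ideal R) [J'.IsTwoSided] [J.IsTwoSided] (β : Type) [Preorder β]
    (T : β → Type) [∀ b, Ring (T b)] (I : ∀ b, Ideal (T b)) (ε : ∀ b, T b →ₙ+* R),
    LadL R J' J β T I ε → (∀ b, KQ (I b)) → KZ J J' J

end Pool.Agent.FL
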