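import Pool.Agent.Lib.MP_8f66f0_al_FL.Rays
import Pool.Agent.Lib.MP_8f66f0_al_GLC.HTDefs
import Pool.Agent.Lib.MP_8f66f0_al_FL.SpecR
import Pool.Agent.Lib.MP_8f66f0_al_CC.End.Spec
import Pool.Agent.Lib.MP_8f66f0_al_CC.Sys.Base
import Pool.Agent.Lib.MP_8f66f0_al_Hier.Defs

/-!
# Project GLn, part D: statements (generation M1, extension M2, Lemma E) for flag systems

Port of `MP_8f66f0_al_CC/End/Spec.lean` and `FinSpec.lean`. `mcf z` is the matrix `z` over `U Γ k S` as a
matrix over the ring of all column finite matrices. Rays, shifts: `Rays.lean` (the slot of the phase `1`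
moves). `Sp S` is the class of the special matrices: the monomial matrices which are, up to finitely many
rows, diagonal matrices of shifts along rays of `S`. `Lft S d`: invertible matrices modulo `J d` lift;
`Lft1 S`: invertible matrices modulo `J 0` lift after adding shifts along rays.

Finite blocks: `GLC.HT k Γ S` (idempotent matrices over `k[Γ]` which respect the base labels are stably
diagonal), `KTk κ S`: the invariant `κ` kills the invertible matrices which respect the base labels.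
`HTd k Γ S`: `HT` for all iterated derived systems of `S`. PROVED already: `mem_J_zero`, `flq`.
-/

set_option autoImplicit false

namespace Pool.Agent.FL

open Pool.Agent.Wald Pool.Agent.Ind Pool.Agent.WaldL Pool.Agent.FH Matrix
open Pool.Agent.BB Pool.Agent.GLC
open Pool.Agent.CC (KR Cg Ex Spc Gen Flq Kil KilM)
open scoped Pointwise Polynomial

/-- `HT` for the derived systems, up to `r` derivations. -/
def HTn (k Γ C : Type) [Group Γ] [PartialOrder C] [MulAction Γ C] [CommRing k] :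
    ℕ → ∀ (Y B : Type) [PartialOrder B] [MulAction Γ B], FSys Y B C → Prop
  | 0, _, _, _, _, _ => True
  | r + 1, _, _, _, _, S => ∀ d b : ℕ, 1 ≤ d → HT k Γ (S.der d b) ∧ HTn k Γ C r _ _ (S.der d b)

section Defs

variable {Y B C Γ k : Type} [Group Γ] [PartialOrder B] [MulAction Γ B] [OrdAct Γ B]
  [PartialOrder C] [MulAction Γ C] [OrdAct Γ C] [CommRing k]

variable (k Γ) in
/-- The hereditary hypothesis on projectives. -/
def HTd (S : FSys Y B C) : Prop := ∀ r, HTn k Γ C r Y B S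

/-- The invariant `κ` kills the invertible matrices which respect the base labels. -/
def KTk {K : Type} [CommGroup K] (κ : K1Fun (MonoidAlgebra k Γ) K) (S : FSys Y B C) : Prop :=
  ∀ (n : Type) [Fintype n] [DecidableEq n] (c : n → Y) (a b : Matrix n n (MonoidAlgebra k Γ)),
    Resp (fun i => S.base (c i)) (fun i => S.base (c i)) a →
    Resp (fun i => S.base (c i)) (fun i => S.base (c i)) b → a * b = 1 → b * a = 1 → κ.f a = 1

/-- A matrix over `U` as a matrix over `CF`. -/
abbrev mcf {S : FSys Y B C} {m n : Type} (z : Matrix m n (U Γ k S)) :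
    Matrix m n (CF Y (MonoidAlgebra k Γ)) := z.map Subtype.val

/-- The block of a matrix on a finite set of objects. -/
noncomputable def blk {A : Type} [Ring A] (s : Finset Y) {n : Type} (z : Matrix n n (CF Y A)) :
    Matrix (n × s) (n × s) A := fun p q => ent (z p.1 q.1) p.2 q.2

/-- The rows of `z - 1` are supported on `s`. -/
def Spp {A : Type} [Ring A] (s : Finset Y) {n : Type} [DecidableEq n] (z : Matrix n n (CF Y A)) :
    Prop := ∀ i j y' y, ent (z i j - (1 : Matrix n n (CF Y A)) i j) y' y ≠ 0 → y' ∈ s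

/-- Monomial matrices with entries in the group. -/
def Mon {m : Type} (z : Matrix m m (CF Y (MonoidAlgebra k Γ))) : Prop :=
  ∃ (σ : Equiv.Perm (m × Y)) (g : m × Y → Γ), ∀ i j y' y x,
    (σ (j, y) = (i, y') ∧ x = g (j, y) → cf (z i j) x y' y = 1) ∧
    (¬ (σ (j, y) = (i, y') ∧ x = g (j, y)) → cf (z i j) x y' y = 0)

open Classical in
/-- The sum of the signs of the shifts whose base label is in the orbit of `c`. -/
noncomputable def wgt (Γ : Type) [Group Γ] [MulAction Γ B] (S : FSys Y B C) {m : Type} [Fintype m]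
    (r : m → Option (Bool × (ℕ ↪ Y))) (c : B) : ℤ :=
  ∑ l, if ∃ b ρ, r l = some (b, ρ) ∧ S.base (ρ 0) ∈ MulAction.orbit Γ c then sgn (r l) else 0

/-- `w` is a monomial matrix which is the diagonal matrix of the shifts `r`, up to finitely many rows. -/
def SpR (S : FSys Y B C) {m : Type} [Fintype m] [DecidableEq m]
    (r : m → Option (Bool × (ℕ ↪ Y))) (w : Matrix m m (U Γ k S)) : Prop :=
  IsUnit w ∧ Mon (mcf w) ∧ Rys S r ∧
    Cg (JR Y (MonoidAlgebra k Γ)) (mcf w) (dgO (MonoidAlgebra k Γ) r)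

/-- The special matrices. -/
def Sp (S : FSys Y B C) (m : Type) [Fintype m] [DecidableEq m] (w : Matrix m m (U Γ k S)) : Prop :=
  ∃ r : m → Option (Bool × (ℕ ↪ Y)), SpR S r w

variable (Γ k)

/-- Invertible matrices modulo `J d` lift. -/
def Lft (S : FSys Y B C) (d : ℕ) : Prop :=
  ∀ (n : Type) [Fintype n] [DecidableEq n] (z z' : Matrix n n (U Γ k S)),
    Cg (J Γ k S d) (z * z') 1 → Cg (J Γ k S d) (z' * z) 1 →
    ∃ (m : Type) (_ : Fintype m) (_ : DecidableEq m) (u : Matrix (n ⊕ m) (n ⊕ m) (U Γ k S)),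
      IsUnit u ∧ Cg (J Γ k S d) u (fromBlocks z 0 0 1)

/-- Invertible matrices modulo `J 0` lift after adding shifts along rays. -/
def Lft1 (S : FSys Y B C) : Prop :=
  ∀ (n : Type) [Fintype n] [DecidableEq n] (z z' : Matrix n n (U Γ k S)),
    Cg (J Γ k S 0) (z * z') 1 → Cg (J Γ k S 0) (z' * z) 1 →
    ∃ (m : Type) (_ : Fintype m) (_ : DecidableEq m) (r : m → Option (Bool × (ℕ ↪ Y)))
      (u : Matrix (n ⊕ m) (n ⊕ m) (U Γ k S)), IsUnit u ∧ Rys S r ∧
      Cg (JR Y (MonoidAlgebra k Γ)) (mcf u)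
        (fromBlocks (mcf z) 0 0 (dgO (MonoidAlgebra k Γ) r))

/-- The lifting hypotheses for the derived systems of `S`. -/
def LftD (S : FSys Y B C) : Prop :=
  (∀ b, Lft1 Γ k (S.der 1 b)) ∧ ∀ d b, 2 ≤ d → Lft Γ k (S.der d b) (d - 1)

/-- The ladder of `S` from `J (d - 1)` to `J d`. -/
def LadS (S : FSys Y B C) (d : ℕ) : Prop :=
  LadL (U Γ k S) (J Γ k S (d - 1)) (J Γ k S d) ℕ (fun b => U Γ k (S.der d b))
    (fun b => J Γ k (S.der d b) (d - 1)) (fun b => eps Γ k S d b)

variable {Γ k}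

/-- The hypotheses on the invariant `κ` of `J 0` in the extension theorem: it kills the matrices of the
derived systems which are `1` up to finitely many rows, and the finite monomial matrices. -/
def Ini {K : Type} [CommGroup K] (S : FSys Y B C) (κ : KR (U Γ k S) (J Γ k S 0) K) : Prop :=
  (∀ (d b : ℕ), 1 ≤ d → ∀ (n : Type) [Fintype n] [DecidableEq n]
    (z : Matrix n n (U Γ k (S.der d b))), IsUnit z → Cg (J Γ k (S.der d b) 0) z 1 →
    κ.f (Ex (eps Γ k S d b) z) = 1) ∧
  ∀ (n : Type) [Fintype n] [DecidableEq n] (z : Matrix n n (U Γ k S)), IsUnit z →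
    Cg (J Γ k S 0) z 1 → Mon (mcf z) → κ.f z = 1

end Defs

/-! ### Statements -/

/-- The ladder and the local units. PROOF. `eps b 1` = projection on `{R b = d}`. `dec`: the projection
`e` on `{R h ≤ d}`, `e - eps h 1` = projection on `{R h ≤ d - 1}`. `cor`, `mono`: `z` with rows and columns
in `{R b = d}`; let `h` be as in `Far` for `h' = b`; drop the rows with `R h ≤ d - 1`; the others have
`d ≤ R h y' ≤ R b y = d`, so the labels of the phase `d` are respected. -/
def S_lad : Prop :=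
  ∀ (Y B C Γ k : Type) [Group Γ] [PartialOrder B] [MulAction Γ B] [OrdAct Γ B] [PartialOrder C]
    [MulAction Γ C] [OrdAct Γ C] [CommRing k] (S : FSys Y B C) (d : ℕ), 1 ≤ d →
    LadS Γ k S d ∧ LUl (J Γ k S (d - 1)) ∧ LUl (J Γ k S d)

/-- The invariant of the matrices which are `1` up to finitely many rows. (`z = [[blk, *], [0, 1]]` for
the objects in `s` and not in `s`.) -/
def S_fin0 : Prop :=
  ∀ (Y A K : Type) [Ring A] [CommGroup K] (κ : K1Fun A K), ∃ κ0 : KR (CF Y A) (JR Y A) K,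
    ∀ (n : Type) [Fintype n] [DecidableEq n] [DecidableEq Y] (z : Matrix n n (CF Y A))
      (s : Finset Y), IsUnit z → Spp s z → κ0.f z = κ.f (blk s z)

/-- Fredholm index: an invertible matrix over a field which is a diagonal matrix of shifts up to
finitely many rows: the sum of the signs is `0`. (Port of `CC/End/Idx0.lean`.) -/
def S_idx0 : Prop :=
  ∀ (Y F : Type) [Field F] (m : Type) [Fintype m] [DecidableEq m]
    (r : m → Option (Bool × (ℕ ↪ Y))) (u : Matrix m m (CF Y F)), IsUnit u →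
    Cg (JR Y F) u (dgO F r) → ∑ l, sgn (r l) = 0

/-- Products, inverses and sums of monomial matrices. (Port of `CC/End/Mon.lean`.) -/
def S_monc : Prop :=
  ∀ (Y k Γ : Type) [CommRing k] [Group Γ] [DecidableEq Y],
    (∀ (m : Type) [Fintype m] [DecidableEq m], Mon (1 : Matrix m m (CF Y (MonoidAlgebra k Γ)))) ∧
    (∀ (m : Type) [Fintype m] [DecidableEq m] (z w : Matrix m m (CF Y (MonoidAlgebra k Γ))),
      Mon z → Mon w → Mon (z * w)) ∧
    (∀ (m : Type) [Fintype m] [DecidableEq m] (z w : Matrix m m (CF Y (MonoidAlgebra k Γ))),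
      Mon z → z * w = 1 → w * z = 1 → Mon w) ∧
    (∀ (m n : Type) [Fintype m] [DecidableEq m] [Fintype n] [DecidableEq n]
      (z : Matrix m m (CF Y (MonoidAlgebra k Γ))) (w : Matrix n n (CF Y (MonoidAlgebra k Γ))),
      Mon z → Mon w → Mon (fromBlocks z 0 0 w)) ∧
    (∀ (m n : Type) [Fintype m] [DecidableEq m] [Fintype n] [DecidableEq n] (e : m ≃ n)
      (z : Matrix m m (CF Y (MonoidAlgebra k Γ))), Mon z → Mon (z.submatrix e.symm e.symm))

/-- Monomial matrices which are `1` up to finitely many rows are killed. (Port of `CC/End/Mon.lean`.) -/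
def S_mon0 : Prop :=
  ∀ (Y L Γ K : Type) [CommRing L] [Nontrivial L] [Group Γ] [CommGroup K]
    (κ : K1Fun (MonoidAlgebra L Γ) K), KU κ → ∀ (m : Type) [Fintype m] [DecidableEq m]
    [DecidableEq Y] (s : Finset Y) (z : Matrix m m (CF Y (MonoidAlgebra L Γ))), Mon z →
    Spp s z → κ.f (blk s z) = 1

/-- The index of an invertible matrix which is a diagonal matrix of shifts up to finitely many rows is
`0` on every orbit of base labels. PROOF. For an orbit `Γ c` let `Yc = {y | base y ∈ Γ c}`. The map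
`z ↦ z⁰`, `z⁰ (y', y) = ∑ over g with g • base y = base y' of cf z g y' y` (`y', y ∈ Yc`, values in
`k / m`, `m` a maximal ideal) is a ring homomorphism (antisymmetry of `≤`); apply `S_idx0`. -/
def S_idx : Prop :=
  ∀ (Y B C Γ k : Type) [Group Γ] [PartialOrder B] [MulAction Γ B] [OrdAct Γ B] [PartialOrder C]
    [MulAction Γ C] [OrdAct Γ C] [CommRing k] [Nontrivial k] (S : FSys Y B C) (m : Type)
    [Fintype m] [DecidableEq m] (r : m → Option (Bool × (ℕ ↪ Y))) (u : Matrix m m (U Γ k S)),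
    Rys S r → IsUnit u → Cg (JR Y (MonoidAlgebra k Γ)) (mcf u) (dgO (MonoidAlgebra k Γ) r) →
    ∀ c, wgt Γ S r c = 0

/-- Balanced shifts are realised by special matrices. (Pair the outgoing rays with the incoming rays in
the same orbit of base labels; `[shL ρ', 0; g E(ρ 0, ρ' 0), shR ρ]`, `g • base (ρ' 0) = base (ρ 0)`.) -/
def S_bal : Prop :=
  ∀ (Y B C Γ k : Type) [Group Γ] [PartialOrder B] [MulAction Γ B] [OrdAct Γ B] [PartialOrder C]
    [MulAction Γ C] [OrdAct Γ C] [CommRing k] (S : FSys Y B C) (m : Type) [Fintype m]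
    [DecidableEq m] (r : m → Option (Bool × (ℕ ↪ Y))), Rys S r → (∀ c, wgt Γ S r c = 0) →
    ∃ w : Matrix m m (U Γ k S), SpR S r w

/-- The special matrices form a class in the sense of `Spc`, and come from the rings of the derived
systems modulo `J 0`. -/
def S_spc : Prop :=
  ∀ (Y B C Γ k : Type) [Group Γ] [PartialOrder B] [MulAction Γ B] [OrdAct Γ B] [PartialOrder C]
    [MulAction Γ C] [OrdAct Γ C] [CommRing k] (S : FSys Y B C),
    Spc (U Γ k S) (J Γ k S 1) (fun n _ _ w => Sp S n w) ∧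
    ∀ (n : Type) [Fintype n] [DecidableEq n] (w : Matrix n n (U Γ k S)), Sp S n w →
      ∃ (b : ℕ) (w' : Matrix n n (U Γ k (S.der 1 b))), Cg (J Γ k S 0) w (Ex (eps Γ k S 1 b) w')

/-- Special matrices of a derived system are special. -/
def S_spe : Prop :=
  ∀ (Y B C Γ k : Type) [Group Γ] [PartialOrder B] [MulAction Γ B] [OrdAct Γ B] [PartialOrder C]
    [MulAction Γ C] [OrdAct Γ C] [CommRing k] (S : FSys Y B C) (d b : ℕ) (m : Type) [Fintype m]
    [DecidableEq m] (w : Matrix m m (U Γ k (S.der d b))), Sp (S.der d b) m w →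
    Sp S m (Ex (eps Γ k S d b) w)

/-- Generation at `d = 1`. `z = Ex z' mod J 0`; `z'` is invertible modulo `J 0` (`LadL.cor`, `LadL.pre`);
`Lft1` gives `u = z' + dgO r`; the rays of the derived system are rays of `S`; `S_idx` for `S` and
`S_bal` for `S` give the special matrix. -/
def S_gen1 : Prop :=
  ∀ (Y B C Γ k : Type) [Group Γ] [PartialOrder B] [MulAction Γ B] [OrdAct Γ B] [PartialOrder C]
    [MulAction Γ C] [OrdAct Γ C] [CommRing k] [Nontrivial k] (S : FSys Y B C),
    (∀ b, Lft1 Γ k (S.der 1 b)) →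
    Gen (J Γ k S 0) (J Γ k S 1) (fun b => U Γ k (S.der 1 b)) (fun b => eps Γ k S 1 b)
      (fun n _ _ w => Sp S n w)

/-- Generation at `d ≥ 2`. -/
def S_genf : Prop :=
  ∀ (Y B C Γ k : Type) [Group Γ] [PartialOrder B] [MulAction Γ B] [OrdAct Γ B] [PartialOrder C]
    [MulAction Γ C] [OrdAct Γ C] [CommRing k] (S : FSys Y B C) (d : ℕ), 2 ≤ d →
    (∀ b, Lft Γ k (S.der d b) (d - 1)) →
    Gen (J Γ k S (d - 1)) (J Γ k S d) (fun b => U Γ k (S.der d b)) (fun b => eps Γ k S d b)
      (fun n _ _ w => w = 1)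

/-- M1: an invariant on `J d` which kills `J 0` and the special matrices is trivial. (Induction on `d`
with `S_uniL`.) -/
def S_M1 : Prop :=
  ∀ (Y B C Γ k : Type) [Group Γ] [PartialOrder B] [MulAction Γ B] [OrdAct Γ B] [PartialOrder C]
    [MulAction Γ C] [OrdAct Γ C] [CommRing k] [Nontrivial k] (S : FSys Y B C), LftD Γ k S →
    ∀ (d : ℕ) (K : Type) [CommGroup K] (κ : KR (U Γ k S) (J Γ k S d) K), Kil κ (J Γ k S 0) →
    (1 ≤ d → KilM κ fun n _ _ w => Sp S n w) → Kil κ (J Γ k S d)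

/-- `triv` of `S_extL` at `d = 1`. PROOF. `w = dgO r`, up to finitely many rows; the entries of `w` in the
block `l` come from the derived system modulo `J 0`, so a tail of each ray of `w` is a ray of the derived
system; `S_idx` for the derived system, `S_bal` for it: there is a special `m'` over `U (der 1 b)` with
`m' = r mod J 0`. `x = Ex (r⁻¹ m') * (Ex m')⁻¹ (1 ⊕ w)`: the first factor is `1` up to finitely many rows
over the derived system, the second one a finite monomial matrix. -/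
def S_triv1 : Prop :=
  ∀ (Y B C Γ k K : Type) [Group Γ] [PartialOrder B] [MulAction Γ B] [OrdAct Γ B] [PartialOrder C]
    [MulAction Γ C] [OrdAct Γ C] [CommRing k] [Nontrivial k] [CommGroup K] (S : FSys Y B C)
    (κ : KR (U Γ k S) (J Γ k S 0) K), Ini S κ →
    ∀ (b : ℕ) (n m : Type) [Fintype n] [DecidableEq n] [Fintype m] [DecidableEq m]
      (w : Matrix m m (U Γ k S)) (r : Matrix (n ⊕ m) (n ⊕ m) (U Γ k (S.der 1 b)))
      (x : Matrix (n ⊕ m) (n ⊕ m) (U Γ k S)), Sp S m w → IsUnit r → IsUnit x →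
      Cg (J Γ k S 0) x 1 → fromBlocks 1 0 0 w = Ex (eps Γ k S 1 b) r * x → κ.f x = 1

/-- `triv` of `S_extL` at `d ≥ 2`: `S_M1` for the derived system and the pull back of `κ`. -/
def S_trivf : Prop :=
  ∀ (Y B C Γ k K : Type) [Group Γ] [PartialOrder B] [MulAction Γ B] [OrdAct Γ B] [PartialOrder C]
    [MulAction Γ C] [OrdAct Γ C] [CommRing k] [Nontrivial k] [CommGroup K] (S : FSys Y B C)
    (d : ℕ), 2 ≤ d → (∀ b, LftD Γ k (S.der d b)) → ∀ (κ0 : KR (U Γ k S) (J Γ k S 0) K)
    (κ : KR (U Γ k S) (J Γ k S (d - 1)) K), Ini S κ0 →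
    (∀ (n : Type) [Fintype n] [DecidableEq n] (z : Matrix n n (U Γ k S)), IsUnit z →
      Cg (J Γ k S 0) z 1 → κ.f z = κ0.f z) → (KilM κ fun n _ _ w => Sp S n w) →
    ∀ (b : ℕ) (n : Type) [Fintype n] [DecidableEq n]
      (r : Matrix n n (U Γ k (S.der d b))), IsUnit r → Cg (J Γ k (S.der d b) (d - 1)) r 1 →
      κ.f (Ex (eps Γ k S d b) r) = 1

/-- M2: the extension theorem. -/
def S_M2 : Prop :=
  ∀ (Y B C Γ k K : Type) [Group Γ] [PartialOrder B] [MulAction Γ B] [OrdAct Γ B] [PartialOrder C]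
    [MulAction Γ C] [OrdAct Γ C] [CommRing k] [Nontrivial k] [CommGroup K] (S : FSys Y B C),
    LftD Γ k S → (∀ d b, 2 ≤ d → LftD Γ k (S.der d b)) →
    ∀ (κ0 : KR (U Γ k S) (J Γ k S 0) K), Ini S κ0 →
    ∀ d, ∃ κ : KR (U Γ k S) (J Γ k S d) K,
      (∀ (n : Type) [Fintype n] [DecidableEq n] (z : Matrix n n (U Γ k S)), IsUnit z →
        Cg (J Γ k S 0) z 1 → κ.f z = κ0.f z) ∧ (1 ≤ d → KilM κ fun n _ _ w => Sp S n w)

/-- The invariant of `J 0`: restriction of `S_fin0` to `U`. The blocks of `z` on the finite sets of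
objects of a derived system respect the base labels: `KTk`. -/
def S_ini : Prop :=
  ∀ (Y B C Γ L K : Type) [Group Γ] [PartialOrder B] [MulAction Γ B] [OrdAct Γ B] [PartialOrder C]
    [MulAction Γ C] [OrdAct Γ C] [CommRing L] [Nontrivial L] [CommGroup K] (S : FSys Y B C)
    (κ : K1Fun (MonoidAlgebra L Γ) K), KU κ →
    (∀ d b, 1 ≤ d → KTk κ (S.der d b)) →
    ∃ κ0 : KR (U Γ L S) (J Γ L S 0) K, Ini S κ0 ∧
      ∀ (n : Type) [Fintype n] [DecidableEq n] [DecidableEq Y] (z : Matrix n n (U Γ L S))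
        (s : Finset Y), IsUnit z → Spp s (mcf z) → κ0.f z = κ.f (blk s (mcf z))

/-! ### Lemma E -/

/-- A finite idempotent of an exact system is conjugate, by matrices which are `1` modulo `J 0`, to a
diagonal idempotent which is `pj (Sum.elim P R)` up to finitely many objects. PROOF. (1) Remove the
infinite part: `e = p + q x`, `q` the projection on a finite set, unipotent conjugation as in `S_kzL`. (2) The
finite block respects the base labels: `HT`, as in `CC/Sys/FinS.lean` (`fs`). -/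
def S_fs : Prop :=
  ∀ (Y B C Γ k : Type) [Group Γ] [PartialOrder B] [MulAction Γ B] [OrdAct Γ B] [PartialOrder C]
    [MulAction Γ C] [OrdAct Γ C] [CommRing k] (S : FSys Y B C), HT k Γ S →
    ∀ (n : Type) [Fintype n] [DecidableEq n] (P : n → Prop) (e : Matrix n n (U Γ k S)), e * e = e →
    CC.MC (J Γ k S 0) e (CC.pj P) →
    ∃ (m : Type) (_ : Fintype m) (_ : DecidableEq m) (R : m → Prop)
      (v v' : Matrix (n ⊕ m) (n ⊕ m) (U Γ k S)) (s : Finset Y) (X : n ⊕ m → Set Y), v * v' = 1 ∧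
      v' * v = 1 ∧ CC.MC (J Γ k S 0) v 1 ∧ (∀ p y, y ∉ s → (y ∈ X p ↔ Sum.elim P R p)) ∧
      ∀ p q y' y,
        ((p = q ∧ y' = y ∧ y ∈ X p) →
          ent ((v * fromBlocks e 0 0 (CC.pj R) * v') p q).1 y' y = 1) ∧
        (¬ (p = q ∧ y' = y ∧ y ∈ X p) →
          ent ((v * fromBlocks e 0 0 (CC.pj R) * v') p q).1 y' y = 0)

/-- Idempotents modulo `J 0` in exact systems of rank `d ≥ 2`: absorb a point `y` with the partner of `ph1`
(same base label: the matrix units with the entry `1` between `y` and its partner are in `U`) and the ray of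
the partner in the phase `1` (`1` modulo `J 1 ≤ J (d - 1)`). (Port of `CC/Sys/AB.lean`.) -/
def S_AB : Prop :=
  ∀ (Y B C Γ k : Type) [Group Γ] [PartialOrder B] [MulAction Γ B] [OrdAct Γ B] [PartialOrder C]
    [MulAction Γ C] [OrdAct Γ C] [CommRing k] (S : FSys Y B C) (d : ℕ), S.Exact Γ d → 2 ≤ d →
    HT k Γ S → CC.KZ (J Γ k S 0) ⊥ (J Γ k S 1)

/-- Lifting for `d = 1` (all objects have a phase `1`). (Port of `CC/Sys/L1.lean`, `CC/Sys/L1F.lean`.) -/
def S_L1 : Prop :=
  ∀ (Y B C Γ k : Type) [Group Γ] [PartialOrder B] [MulAction Γ B] [OrdAct Γ B] [PartialOrder C]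
    [MulAction Γ C] [OrdAct Γ C] [CommRing k] (S : FSys Y B C), S.Exact Γ 1 →
    HT k Γ S → Lft1 Γ k S

/-- The base change and the map to the Laurent series. (Port of `CC/Sys/Psi.lean`.) -/
def S_psi : Prop :=
  ∀ (Y B C Γ k k' : Type) [Group Γ] [PartialOrder B] [MulAction Γ B] [OrdAct Γ B] [PartialOrder C]
    [MulAction Γ C] [OrdAct Γ C] [CommRing k] [CommRing k'] (D : CC.TwE k k') (S : FSys Y B C)
    (d : ℕ),
    ∃ (j : U Γ k S →+* U Γ k' S) (y y' : U Γ k' S)
      (Ψ : U Γ k' S →+* LaurentSeries (U Γ k S ⧸ J Γ k S d)),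
      (∀ x g v w, cf (j x).1 g v w = D.i (cf x.1 g v w)) ∧
      (∀ x, Ψ (j x) = HahnSeries.C (Ideal.Quotient.mk (J Γ k S d) x)) ∧
      Ψ y = HahnSeries.single 1 1 ∧ (∀ z ∈ J Γ k' S d, Ψ z = 0) ∧ (∀ x, y * j x = j x * y) ∧
      y * y' = 1 ∧ y' * y = 1

/-- Output of Lemma E: the lifting hypotheses hold over the Euclidean domains `L` and over `L[t]`.
(Port of `CC/Sys/Lift.lean`, `CC/Sys/PsiData.lean`, `CC/Sys/TwI.lean`, `CC/Sys/SE.lean`: induction on `d`
for all exact systems `S` with `HT k Γ S` and `HTd k Γ S` for all `k` of the tower.) -/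
def S_E : Prop :=
  ∀ (Y B C Γ : Type) [Group Γ] [PartialOrder B] [MulAction Γ B] [OrdAct Γ B] [PartialOrder C]
    [MulAction Γ C] [OrdAct Γ C] (S : FSys Y B C),
    (∀ (L : Type) [CommRing L] [IsDomain L], IsEuc L → HTd Γ L S ∧ HTd Γ L[X] S) →
    ∀ (L : Type) [CommRing L] [IsDomain L], IsEuc L → LftD Γ L S ∧ LftD Γ L[X] S

/-! ### Exports -/

/-- The coefficientwise homomorphism. -/
def IsBc {Y B C Γ k k' : Type} [Group Γ] [PartialOrder B] [MulAction Γ B] [OrdAct Γ B]
    [PartialOrder C] [MulAction Γ C] [OrdAct Γ C] [CommRing k] [CommRing k'] (S : FSys Y B C)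
    (φ : k →+* k') (F : U Γ k S →+* U Γ k' S) : Prop :=
  ∀ (z : U Γ k S) g y' y, cf (F z).1 g y' y = φ (cf z.1 g y' y)

/-- Base change. -/
def S_bc : Prop :=
  ∀ (Y B C Γ k k' : Type) [Group Γ] [PartialOrder B] [MulAction Γ B] [OrdAct Γ B] [PartialOrder C]
    [MulAction Γ C] [OrdAct Γ C] [CommRing k] [CommRing k'] (S : FSys Y B C) (φ : k →+* k'),
    ∃ F : U Γ k S →+* U Γ k' S, IsBc S φ F

/-- `κU` extends the invariant `κ` of the finite blocks. -/
def Exk {Y B C Γ L K : Type} [Group Γ] [PartialOrder B] [MulAction Γ B] [OrdAct Γ B]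
    [PartialOrder C] [MulAction Γ C] [OrdAct Γ C] [CommRing L] [CommGroup K] (S : FSys Y B C)
    (κ : K1Fun (MonoidAlgebra L Γ) K) (κU : K1Fun (U Γ L S) K) : Prop :=
  ∀ (n : Type) [Fintype n] [DecidableEq n] [DecidableEq Y] (z : Matrix n n (U Γ L S))
    (s : Finset Y), IsUnit z → Spp s (mcf z) → κU.f z = κ.f (blk s (mcf z))

/-- `κU` kills the special matrices. -/
def KilSp {Y B C Γ L K : Type} [Group Γ] [PartialOrder B] [MulAction Γ B] [OrdAct Γ B]
    [PartialOrder C] [MulAction Γ C] [OrdAct Γ C] [CommRing L] [CommGroup K] (S : FSys Y B C)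
    (κU : K1Fun (U Γ L S) K) : Prop :=
  ∀ (n : Type) [Fintype n] [DecidableEq n] (w : Matrix n n (U Γ L S)), Sp S n w → κU.f w = 1

/-- All phases are at most `N`. -/
def Bdd {Y B C : Type} (S : FSys Y B C) (N : ℕ) : Prop := ∀ y, ∀ s ∈ S.A y, s.1 ≤ N

/-- M1 for `K1Fun`s. -/
def S_M1K : Prop :=
  ∀ (Y B C Γ k : Type) [Group Γ] [PartialOrder B] [MulAction Γ B] [OrdAct Γ B] [PartialOrder C]
    [MulAction Γ C] [OrdAct Γ C] [CommRing k] [Nontrivial k] (S : FSys Y B C) (N : ℕ), Bdd S N →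
    LftD Γ k S → ∀ (K : Type) [CommGroup K] (κ : K1Fun (U Γ k S) K),
    (∀ (n : Type) [Fintype n] [DecidableEq n] (z : Matrix n n (U Γ k S)), IsUnit z →
      Cg (J Γ k S 0) z 1 → κ.f z = 1) → KilSp S κ →
    ∀ (n : Type) [Fintype n] [DecidableEq n] (z : Matrix n n (U Γ k S)), IsUnit z → κ.f z = 1

/-- M2 for `K1Fun`s. EXPORT: the invariant `κ` of `L[Γ]` extends to `U`. -/
def S_M2K : Prop :=
  ∀ (Y B C Γ L K : Type) [Group Γ] [PartialOrder B] [MulAction Γ B] [OrdAct Γ B] [PartialOrder C]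
    [MulAction Γ C] [OrdAct Γ C] [CommRing L] [IsDomain L] [CommGroup K] (S : FSys Y B C) (N : ℕ)
    (κ : K1Fun (MonoidAlgebra L Γ) K), KU κ → IsEuc L → Bdd S N →
    (∀ (L : Type) [CommRing L] [IsDomain L], IsEuc L → HTd Γ L S ∧ HTd Γ L[X] S) →
    (∀ d b, 1 ≤ d → KTk κ (S.der d b)) →
    ∃ κU : K1Fun (U Γ L S) K, Exk S κ κU ∧ KilSp S κU

/-- The homotopy on `U`. EXPORT. (`S_M1K` over `L[t]` for the quotient of the two invariants; the finite
blocks by `CC.S_nk`.) -/
def S_hom : Prop :=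
  ∀ (Y B C Γ L K : Type) [Group Γ] [PartialOrder B] [MulAction Γ B] [OrdAct Γ B] [PartialOrder C]
    [MulAction Γ C] [OrdAct Γ C] [CommRing L] [IsDomain L] [CommGroup K] (S : FSys Y B C) (N : ℕ)
    (κ : K1Fun (MonoidAlgebra L Γ) K) (κU : K1Fun (U Γ L S) K)
    (F0 F1 : U Γ L[X] S →+* U Γ L S), Hier.SS Γ → IsEuc L → Bdd S N → LftD Γ L[X] S →
    Exk S κ κU → KilSp S κU → IsBc S (Polynomial.evalRingHom 0) F0 →
    IsBc S (Polynomial.evalRingHom 1) F1 →
    ∀ (n : Type) [Fintype n] [DecidableEq n] (z : Matrix n n (U Γ L[X] S)), IsUnit z →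
      κU.f (z.map F0) = κU.f (z.map F1)

/-- `S0` is a full subsystem of `S`, with finer base labels. -/
structure Over {Y0 Y B B0 C : Type} (Γ : Type) [Group Γ] [PartialOrder B] [MulAction Γ B]
    [PartialOrder B0] [MulAction Γ B0] (i : Y0 → Y) (S0 : FSys Y0 B0 C) (S : FSys Y B C) :
    Prop where
  inj : Function.Injective i
  A : ∀ y, S.A (i y) = S0.A y
  lab : ∀ y, S.lab (i y) = S0.lab y
  re : ∀ φ, Gd φ → ∀ y, S.re φ (i y) = i (S0.re φ y)
  base : ∀ (g : Γ) (y y' : Y0), g • S0.base y ≤ S0.base y' → g • S.base (i y) ≤ S.base (i y')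

/-- Forgetting the finer base labels. -/
def S_fl : Prop :=
  ∀ (Y0 Y B B0 C Γ k : Type) [Group Γ] [PartialOrder B] [MulAction Γ B] [OrdAct Γ B]
    [PartialOrder B0] [MulAction Γ B0] [OrdAct Γ B0] [PartialOrder C] [MulAction Γ C]
    [OrdAct Γ C] [CommRing k] (i : Y0 → Y) (S0 : FSys Y0 B0 C) (S : FSys Y B C)
    (h : Over Γ i S0 S),
    ∃ I : U Γ k S0 →ₙ+* U Γ k S, (∀ z, (I z).1 = push h.inj z.1) ∧
      (∀ z ∈ J Γ k S0 0, I z ∈ J Γ k S 0) ∧
      ∀ (n : Type) [Fintype n] [DecidableEq n] (w : Matrix n n (U Γ k S0)), Sp S0 n w →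
        Sp S n (Ex I w)

/-- EXPORT: the invertible matrices over the ring of a subsystem with finer base labels with `KTk` are
killed. (`S_M1K` for `S0` and the invariant `z ↦ κU.f (Ex I z)`; the finite blocks: `Exk` for the image
of `s`, the block is `fromBlocks (blk s z) 0 0 1` up to the order of the rows.) -/
def S_end0 : Prop :=
  ∀ (Y0 Y B B0 C Γ L K : Type) [Group Γ] [PartialOrder B] [MulAction Γ B] [OrdAct Γ B]
    [PartialOrder B0] [MulAction Γ B0] [OrdAct Γ B0] [PartialOrder C] [MulAction Γ C]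
    [OrdAct Γ C] [CommRing L] [IsDomain L] [CommGroup K] (i : Y0 → Y) (S0 : FSys Y0 B0 C)
    (S : FSys Y B C) (N : ℕ) (κ : K1Fun (MonoidAlgebra L Γ) K) (κU : K1Fun (U Γ L S) K)
    (h : Over Γ i S0 S) (I : U Γ L S0 →ₙ+* U Γ L S), (∀ z, (I z).1 = push h.inj z.1) →
    Bdd S N → Exk S κ κU → KilSp S κU → LftD Γ L S0 → KTk κ S0 →
    ∀ (n : Type) [Fintype n] [DecidableEq n] (z : Matrix n n (U Γ L S0)), IsUnit z →
      κU.f (Ex I z) = 1

end Pool.Agent.FL
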