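import Pool.Agent.Lib.MP_8f66f0_al_CC.Sys.AB0
import Pool.Agent.Lib.MP_8f66f0_al_FL.Spec

/-!
# Project GLn, part D: absorbing the finite part (`S_AB`)

Port of `MP_8f66f0_al_CC/Sys/AB.lean`. For exact systems of rank `d ≥ 2`, idempotents which are diagonal
modulo `J 0` are stably conjugate to diagonal idempotents, by matrices which are congruent to `1` modulo
`J 1`. The object `y` is absorbed by the ray of its partner (`FSys.ph1`) in the phase `1`; the partner has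
the base label of `y`, so the matrix units between `y` and the partner are in `U`.
-/

set_option autoImplicit false
set_option linter.unusedSectionVars false

namespace Pool.Agent.FL

open Matrix
open Pool.Agent.CC (MC KZ pj pj_sum pj_submatrix mc_bot absorb)

section K

variable {Y Γ k : Type} [Group Γ] [CommRing k]

open Classical in
private theorem prK_mul_EK (T : Set Y) (g : Γ) (y' y : Y) :
    prK (MonoidAlgebra k Γ) T * EK k g y' y = if y' ∈ T then EK k g y' y else 0 := by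
  refine ent_ext fun v x => ?_
  rw [ent_prK_mul]
  by_cases hv : v = y'
  · subst hv
    split_ifs
    · rfl
    · exact (ent_zero _ _).symm
  · have h0 : ent (EK k g y' y) v x = 0 := by
      by_contra h
      exact hv (EK_ne h).1
    split_ifs
    · rfl
    · rw [h0, ent_zero]
    · exact h0.symm
    · exact (ent_zero _ _).symm

open Classical in
private theorem EK_mul_prK (T : Set Y) (g : Γ) (y' y : Y) :
    EK k g y' y * prK (MonoidAlgebra k Γ) T = if y ∈ T then EK k g y' y else 0 := by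
  refine ent_ext fun v x => ?_
  rw [ent_mul_prK]
  by_cases hx : x = y
  · subst hx
    split_ifs
    · rfl
    · exact (ent_zero _ _).symm
  · have h0 : ent (EK k g y' y) v x = 0 := by
      by_contra h
      exact hx (EK_ne h).2
    split_ifs
    · rfl
    · rw [h0, ent_zero]
    · exact h0.symm
    · exact (ent_zero _ _).symm

private theorem prK_mul_prK {A : Type} [Ring A] (T T' : Set Y) :
    prK A T * prK A T' = prK A (T ∩ T') := by
  classical
  refine ent_ext fun y x => ?_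
  rw [ent_prK_mul, ent_prK, ent_prK]
  by_cases h : y = x
  · subst h
    by_cases h1 : y ∈ T <;> by_cases h2 : y ∈ T' <;> simp [h1, h2]
  · simp [h]

private theorem EK_mul_shR (ρ : ℕ ↪ Y) (g : Γ) (a : Y) :
    EK k g a (ρ 0) * shR (MonoidAlgebra k Γ) ρ = 0 := by
  classical
  refine ent_ext fun v x => ?_
  rw [ent_zero]
  by_contra hne
  obtain ⟨w, hw⟩ := exists_of_ent_mul hne
  have h1 := (EK_ne (left_ne_zero_of_mul hw)).2
  have h2 := right_ne_zero_of_mul hw
  rw [ent_shR, ne_eq, ite_eq_right_iff, Classical.not_imp] at h2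
  exact shM_ne ρ x (h2.1.trans h1)

private theorem shL_mul_EK (ρ : ℕ ↪ Y) (g : Γ) (a : Y) :
    shL (MonoidAlgebra k Γ) ρ * EK k g (ρ 0) a = 0 := by
  classical
  refine ent_ext fun v x => ?_
  rw [ent_zero]
  by_contra hne
  obtain ⟨w, hw⟩ := exists_of_ent_mul hne
  have h1 := (EK_ne (right_ne_zero_of_mul hw)).1
  have h2 := left_ne_zero_of_mul hw
  rw [ent_shL, ne_eq, ite_eq_right_iff, Classical.not_imp] at h2
  exact shM_ne ρ v (h2.1.trans h1)

private theorem EK_add_sh (ρ : ℕ ↪ Y) : EK k (1 : Γ) (ρ 0) (ρ 0) +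
    shR (MonoidAlgebra k Γ) ρ * shL (MonoidAlgebra k Γ) ρ = 1 := by
  rw [EK_one, ← one_sub_shR_shL]
  abel

private theorem prK_add_sum [DecidableEq Y] (s : Finset Y) :
    prK (MonoidAlgebra k Γ) {y | y ∉ s} + ∑ y : s, EK k (1 : Γ) y.1 y.1 = 1 := by
  classical
  have hs : ∀ (t : Finset s) v x, ent (∑ y ∈ t, EK k (1 : Γ) y.1 y.1) v x =
      ∑ y ∈ t, ent (EK k (1 : Γ) y.1 y.1) v x := by
    intro t v x
    induction t using Finset.induction_on with
    | empty => rw [Finset.sum_empty, Finset.sum_empty, ent_zero]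
    | insert a t ha ih => rw [Finset.sum_insert ha, Finset.sum_insert ha, ent_add, ih]
  refine ent_ext fun v x => ?_
  rw [ent_add, hs, ent_prK, ent_one]
  by_cases hvx : v = x
  · subst hvx
    by_cases hv : v ∈ s
    · rw [if_neg fun h => h.2 hv, if_pos rfl, zero_add,
        Finset.sum_eq_single (⟨v, hv⟩ : s) (fun y _ hy => ?_) fun h => absurd (Finset.mem_univ _) h,
        ent_EK, if_pos ⟨rfl, rfl⟩]
      · rfl
      · by_contra h
        exact hy (Subtype.ext (EK_ne h).1.symm)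
    · rw [if_pos ⟨rfl, hv⟩, if_pos rfl, Finset.sum_eq_zero fun y _ => ?_, add_zero]
      by_contra h
      have := (EK_ne h).1
      exact hv (this ▸ y.2)
  · rw [if_neg fun h => hvx h.1, if_neg hvx, zero_add]
    refine Finset.sum_eq_zero fun y _ => ?_
    by_contra h
    exact hvx ((EK_ne h).1.trans (EK_ne h).2.symm)

end K

section AB

variable {Y B C Γ k : Type} [Group Γ] [PartialOrder B] [MulAction Γ B] [OrdAct Γ B]
  [PartialOrder C] [MulAction Γ C] [OrdAct Γ C] [CommRing k]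
variable {S : FSys Y B C}

private theorem ab1 (hray : ∀ y : Y, ∃ ρ : ℕ ↪ Y, IsRay S ρ ∧ S.base (ρ 0) = S.base y) {N : Type}
    [Fintype N] [DecidableEq N] (P' : N → Prop) (s : Finset Y) (Z : N → Set Y)
    (hZ : ∀ p y, y ∉ s → (y ∈ Z p ↔ P' p)) :
    ∃ (M : Type) (_ : Fintype M) (_ : DecidableEq M) (R : M → Prop)
      (V V' : Matrix (N ⊕ M) (N ⊕ M) (U Γ k S)), V * V' = 1 ∧ V' * V = 1 ∧
      MC (J Γ k S 1) V 1 ∧
      V * fromBlocks (diagonal fun p => prU Γ k S (Z p)) 0 0 (pj R) * V' = pj (Sum.elim P' R) := by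
  classical
  choose ρ hρ hl using hray
  have hr : ∀ (a : Bool) (y : Y) (b : Bool) (ρ' : ℕ ↪ Y), some (a, ρ y) = some (b, ρ') →
      IsRay S ρ' := by
    intro a y b ρ' h
    have h1 : ρ y = ρ' := (Prod.ext_iff.1 (Option.some.inj h)).2
    exact h1 ▸ hρ y
  have hl1 : ∀ y, (1 : Γ) • S.base y ≤ S.base (ρ y 0) := fun y => by rw [one_smul, hl]
  have hl2 : ∀ y, (1 : Γ) • S.base (ρ y 0) ≤ S.base y := fun y => by rw [one_smul, hl]
  have hb0 : ∀ y, E S k (1 : Γ) y (ρ y 0) (hl2 y) ∈ J Γ k S 0 := fun y => E_mem_J _ _ _ _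
  have hc0 : ∀ y, E S k (1 : Γ) (ρ y 0) y (hl1 y) ∈ J Γ k S 0 := fun y => E_mem_J _ _ _ _
  have hbc : ∀ y, EK k (1 : Γ) y (ρ y 0) * EK k (1 : Γ) (ρ y 0) y = EK k (1 : Γ) y y := fun y => by
    rw [EK_mul, one_mul]
  have hcb : ∀ y, EK k (1 : Γ) (ρ y 0) y * EK k (1 : Γ) y (ρ y 0) =
      EK k (1 : Γ) (ρ y 0) (ρ y 0) := fun y => by
    rw [EK_mul, one_mul]
  have h2 : prU Γ k S {y | y ∉ s} + ∑ y : s, E S k (1 : Γ) y (ρ y 0) (hl2 y) *
      E S k (1 : Γ) (ρ y 0) y (hl1 y) = 1 := by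
    refine Subtype.ext ?_
    rw [Subring.coe_add, AddSubmonoidClass.coe_finsetSum]
    have h3 : ∀ y : s, ((E S k (1 : Γ) y (ρ y 0) (hl2 y) * E S k (1 : Γ) (ρ y 0) y (hl1 y) :
        U Γ k S) : CF Y (MonoidAlgebra k Γ)) = EK k (1 : Γ) y.1 y.1 := fun y => hbc y
    rw [Finset.sum_congr rfl fun y _ => h3 y]
    exact prK_add_sum s
  have h8 : ∀ y : s, E S k (1 : Γ) (ρ y 0) y (hl1 y) * E S k (1 : Γ) y (ρ y 0) (hl2 y) +
      shU Γ k (some (true, ρ y)) (hr true y) * shU Γ k (some (false, ρ y)) (hr false y) = 1 := by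
    refine fun y => Subtype.ext ?_
    change EK k (1 : Γ) (ρ y 0) y.1 * EK k (1 : Γ) y.1 (ρ y 0) +
      shR (MonoidAlgebra k Γ) (ρ y) * shL (MonoidAlgebra k Γ) (ρ y) = 1
    rw [hcb, EK_add_sh]
  have h10 : ∀ p, P' p → prU Γ k S {y | y ∉ s} * prU Γ k S (Z p) = prU Γ k S {y | y ∉ s} := by
    refine fun p hp => Subtype.ext ?_
    change prK (MonoidAlgebra k Γ) {y | y ∉ s} * prK _ (Z p) = prK _ {y | y ∉ s}
    rw [prK_mul_prK]
    congr 1
    ext y
    exact ⟨fun h => h.1, fun h => ⟨h, (hZ p y h).2 hp⟩⟩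
  have h11 : ∀ p, ¬ P' p → prU Γ k S {y | y ∉ s} * prU Γ k S (Z p) = 0 := by
    refine fun p hp => Subtype.ext ?_
    change prK (MonoidAlgebra k Γ) {y | y ∉ s} * prK _ (Z p) = 0
    rw [prK_mul_prK]
    refine ent_ext fun y x => ?_
    rw [ent_prK, ent_zero, if_neg]
    rintro ⟨rfl, h⟩
    exact hp ((hZ p y h.1).1 h.2)
  have ha : prU Γ k S {y | y ∉ s} - 1 ∈ J Γ k S 1 := by
    have h3 : prU Γ k S {y | y ∉ s} - 1 = - ∑ y : s, E S k (1 : Γ) y (ρ y 0) (hl2 y) *
      E S k (1 : Γ) (ρ y 0) y (hl1 y) := by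
      rw [← h2]
      abel
    rw [h3]
    refine Ideal.neg_mem_iff _ |>.2 (Ideal.sum_mem _ fun y _ => ?_)
    exact Ideal.mul_mem_left _ _ (J_mono S (Nat.zero_le _) (hc0 y))
  obtain ⟨V, V', e1, e2, e3, e4⟩ := absorb (X := U Γ k S) (N := N) (T := s)
    (prU Γ k S {y | y ∉ s}) (fun y => E S k (1 : Γ) y (ρ y 0) (hl2 y))
    (fun y => E S k (1 : Γ) (ρ y 0) y (hl1 y))
    (fun y => shU Γ k (some (true, ρ y)) (hr true y))
    (fun y => shU Γ k (some (false, ρ y)) (hr false y)) (fun p => prU Γ k S (Z p)) P'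
    (fun δ => δ.2.1 ∈ Z δ.1)
    (Subtype.ext (prK_mul_self _)) h2
    (fun y => Subtype.ext ((prK_mul_EK _ _ _ _).trans (if_neg fun h => h y.2)))
    (fun y => Subtype.ext ((EK_mul_prK _ _ _ _).trans (if_neg fun h => h y.2)))
    (fun y => Subtype.ext (EK_mul_shR (ρ y) _ _)) (fun y => Subtype.ext (shL_mul_EK (ρ y) _ _))
    (fun y => Subtype.ext (shL_mul_shR (ρ y)))
    h8 (fun y y' hy => Subtype.ext (EK_mul_ne _ _ _ _ _ _
      fun h => hy (Subtype.ext h))) h10 h11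
    (fun p y hy => Subtype.ext ((EK_mul_prK _ _ _ _).trans (if_pos hy)))
    (fun p y hy => Subtype.ext ((EK_mul_prK _ _ _ _).trans (if_neg hy)))
    (J Γ k S 1) ha (fun y => J_mono S (Nat.zero_le _) (hb0 y))
    (fun y => J_mono S (Nat.zero_le _) (hc0 y)) (fun y => shU_sub_one _ _)
    (fun y => shU_sub_one _ _)
  exact ⟨_, inferInstance, inferInstance, _, V, V', e1, e2, e3, e4⟩

private theorem exists_ray {d : ℕ} (hE : S.Exact Γ d) (hd : 2 ≤ d) (y : Y) :
    ∃ ρ : ℕ ↪ Y, IsRay S ρ ∧ S.base (ρ 0) = S.base y := by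
  have h1 : S.R 0 y ∈ S.F 0 y := S.R_mem (by rw [hE.1 y]; omega)
  rw [hE.1 y] at h1
  obtain ⟨n, hn⟩ := S.mem_F_zero.1 h1
  obtain ⟨y', ⟨a, -, ha⟩, -, hb, -⟩ := S.ph1 y ⟨(d, n), hn, hd⟩ 0
  have h2 : 1 ∈ S.F 0 y' := S.mem_F_zero.2 ⟨a, ha⟩
  exact ⟨S.ray y' h2, S.ray_isRay y' h2, by rw [S.ray_zero, hb]⟩

/-- **Absorption.** -/
theorem ab (h : S_fs) : S_AB := by
  intro Y B C Γ k _ _ _ _ _ _ _ _ S d hE hd hH n _ _ P e he heP
  classical
  obtain ⟨m, _, _, R, v, v', s, Z, a1, a1', a2, a3, a4⟩ := h Y B C Γ k S hH n P e he heP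
  have hD : v * fromBlocks e 0 0 (pj R) * v' = diagonal fun p => prU Γ k S (Z p) := by
    refine Matrix.ext fun p q => Subtype.ext (ent_ext fun y' y => ?_)
    by_cases h : p = q ∧ y' = y ∧ y ∈ Z p
    · rw [(a4 p q y' y).1 h]
      obtain ⟨rfl, rfl, h⟩ := h
      rw [diagonal_apply_eq]
      change 1 = ent (prK (MonoidAlgebra k Γ) (Z p)) y' y'
      rw [ent_prK, if_pos ⟨rfl, h⟩]
    · rw [(a4 p q y' y).2 h]
      by_cases hpq : p = q
      · subst hpq
        rw [diagonal_apply_eq]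
        change 0 = ent (prK (MonoidAlgebra k Γ) (Z p)) y' y
        rw [ent_prK, if_neg fun h' => h ⟨rfl, h'⟩]
      · rw [diagonal_apply_ne _ hpq]
        rfl
  obtain ⟨M, _, _, R', V, V', b1, b2, b3, b4⟩ := ab1 (Γ := Γ) (k := k) (S := S)
    (exists_ray hE hd) (Sum.elim P R) s Z a3
  have H : J Γ k S 0 ≤ J Γ k S 1 := J_mono S (Nat.zero_le _)
  let σ : n ⊕ (m ⊕ M) ≃ (n ⊕ m) ⊕ M := (Equiv.sumAssoc n m M).symm
  let v₁ : Matrix ((n ⊕ m) ⊕ M) ((n ⊕ m) ⊕ M) (U Γ k S) := fromBlocks v 0 0 1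
  let v₁' : Matrix ((n ⊕ m) ⊕ M) ((n ⊕ m) ⊕ M) (U Γ k S) := fromBlocks v' 0 0 1
  have c0 : ∀ A B : Matrix ((n ⊕ m) ⊕ M) ((n ⊕ m) ⊕ M) (U Γ k S),
      A.submatrix σ σ * B.submatrix σ σ = (A * B).submatrix σ σ := fun A B =>
    (Matrix.submatrix_mul_equiv A B σ σ σ)
  have cv : v₁ * v₁' = 1 := by
    change fromBlocks v 0 0 1 * fromBlocks v' 0 0 1 = 1
    rw [fromBlocks_multiply]
    simp [a1]
  have cv' : v₁' * v₁ = 1 := by
    change fromBlocks v' 0 0 1 * fromBlocks v 0 0 1 = 1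
    rw [fromBlocks_multiply]
    simp [a1']
  refine ⟨m ⊕ M, inferInstance, inferInstance, Sum.elim R R', (V * v₁).submatrix σ σ,
    (v₁' * V').submatrix σ σ, ?_, ?_, ?_, ?_⟩
  · rw [c0]
    have : V * v₁ * (v₁' * V') = V * (v₁ * v₁') * V' := by noncomm_ring
    rw [this, cv, mul_one, b1, submatrix_one_equiv]
  · rw [c0]
    have : v₁' * V' * (V * v₁) = v₁' * (V' * V) * v₁ := by noncomm_ring
    rw [this, b2, mul_one, cv', submatrix_one_equiv]
  · have h3 : MC (J Γ k S 1) v₁ 1 := by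
      rw [← fromBlocks_one]
      exact MC.fromBlocks (a2.mono H) (MC.refl _) (MC.refl _) (MC.refl _)
    have h4 := b3.mul h3
    rw [mul_one] at h4
    have h5 := h4.submatrix σ σ
    rwa [submatrix_one_equiv] at h5
  · rw [mc_bot]
    have h3 := congrArg (fun A => Matrix.submatrix A σ σ) b4
    rw [pj_submatrix _ _ σ.injective] at h3
    have e1 : (Sum.elim (Sum.elim P R) R') ∘ σ = Sum.elim P (Sum.elim R R') := by
      funext i
      rcases i with i | i | i <;> rfl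
    rw [e1] at h3
    rw [← h3, ← hD]
    have e3 : fromBlocks e 0 0 (pj (Sum.elim R R')) =
        (fromBlocks (fromBlocks e 0 0 (pj R)) 0 0 (pj R')).submatrix σ σ := by
      rw [pj_sum]
      ext i j
      rcases i with i | i | i <;> rcases j with j | j | j <;> rfl
    rw [e3, c0, c0]
    congr 1
    have e4 : fromBlocks (v * fromBlocks e 0 0 (pj R) * v') 0 0 (pj R') =
        v₁ * fromBlocks (fromBlocks e 0 0 (pj R)) 0 0 (pj R') * v₁' := by
      simp only [v₁, v₁']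
      rw [fromBlocks_multiply, fromBlocks_multiply]
      simp
    rw [e4]
    noncomm_ring

end AB

end Pool.Agent.FL
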