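import Pool.Agent.Lib.MP_8f66f0_al_FL.Spec

/-!
# Project GLn: balanced shifts are realised by special matrices

`PM σ g` is the matrix of the permutation `σ` of `m × Y` with the entries `g`. The outgoing and the
incoming rays are paired; the two rays of a pair form a line, and `σ` is the shift on these lines.
-/

set_option autoImplicit false
set_option linter.unusedSectionVars false

namespace Pool.Agent.FL

open Matrix
open Pool.Agent.CC (Cg)

section PM

variable {Y B C Γ k : Type} [Group Γ] [PartialOrder B] [MulAction Γ B] [OrdAct Γ B]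
  [PartialOrder C] [MulAction Γ C] [OrdAct Γ C] [CommRing k]
  {m : Type} [Fintype m] [DecidableEq m]

open Classical in
/-- The matrix of a permutation. -/
private noncomputable def PM (k : Type) [CommRing k] (σ : Equiv.Perm (m × Y)) (g : m × Y → Γ) :
    Matrix m m (CF Y (MonoidAlgebra k Γ)) := fun i j =>
  mkK (fun y' y => if σ (j, y) = (i, y') then MonoidAlgebra.single (g (j, y)) 1 else 0)
    (fun y => (Set.finite_singleton (σ (j, y)).2).subset fun y' hy => by
      by_cases h : σ (j, y) = (i, y')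
      · rw [Set.mem_singleton_iff, h]
      · exact absurd (if_neg h) hy)

open Classical in
private theorem ent_PM (σ : Equiv.Perm (m × Y)) (g : m × Y → Γ) (i j : m) (y' y : Y) :
    ent (PM k σ g i j) y' y =
      if σ (j, y) = (i, y') then MonoidAlgebra.single (g (j, y)) (1 : k) else 0 := ent_mkK _ _ _ _

private theorem ent_PM_pos {σ : Equiv.Perm (m × Y)} {g : m × Y → Γ} {i j : m} {y' y : Y}
    (h : σ (j, y) = (i, y')) :
    ent (PM k σ g i j) y' y = MonoidAlgebra.single (g (j, y)) (1 : k) := by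
  rw [ent_PM, if_pos h]

private theorem ent_PM_neg {σ : Equiv.Perm (m × Y)} {g : m × Y → Γ} {i j : m} {y' y : Y}
    (h : ¬ σ (j, y) = (i, y')) : ent (PM k σ g i j) y' y = 0 := by
  rw [ent_PM, if_neg h]

private theorem ent_sum' {A ι : Type} [Ring A] (s : Finset ι) (f : ι → CF Y A) (y x : Y) :
    ent (∑ l ∈ s, f l) y x = ∑ l ∈ s, ent (f l) y x := by
  classical
  induction s using Finset.induction_on with
  | empty => rw [Finset.sum_empty, Finset.sum_empty, ent_zero]
  | insert a s ha ih => rw [Finset.sum_insert ha, Finset.sum_insert ha, ent_add, ih]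

private theorem PM_mul (σ τ : Equiv.Perm (m × Y)) (g h : m × Y → Γ) :
    PM k σ g * PM k τ h = PM k (σ * τ) (fun p => g (τ p) * h p) := by
  refine Matrix.ext fun i j => ent_ext fun y' y => ?_
  rw [mul_apply, ent_sum']
  have h1 : ∀ l, ent (PM k σ g i l * PM k τ h l j) y' y =
      ent (PM k σ g i l) y' (τ (j, y)).2 * ent (PM k τ h l j) (τ (j, y)).2 y := by
    intro l
    rw [ent_mul_col _ _ y' y {(τ (j, y)).2}, Finset.sum_singleton]
    intro v hv
    rw [Finset.mem_singleton]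
    by_contra hc
    refine hv (ent_PM_neg fun h' => hc ?_)
    rw [h']
  rw [Finset.sum_congr rfl fun l _ => h1 l, Finset.sum_eq_single (τ (j, y)).1]
  · have h5 : ent (PM k τ h (τ (j, y)).1 j) (τ (j, y)).2 y =
        MonoidAlgebra.single (h (j, y)) (1 : k) := ent_PM_pos rfl
    rw [h5]
    by_cases hc : σ (τ (j, y)) = (i, y')
    · have h6 : ent (PM k σ g i (τ (j, y)).1) y' (τ (j, y)).2 =
          MonoidAlgebra.single (g (τ (j, y))) (1 : k) := ent_PM_pos hc
      have h7 : ent (PM k (σ * τ) (fun p => g (τ p) * h p) i j) y' y =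
          MonoidAlgebra.single (g (τ (j, y)) * h (j, y)) (1 : k) := ent_PM_pos hc
      rw [h6, h7, MonoidAlgebra.single_mul_single, one_mul]
    · have h6 : ent (PM k σ g i (τ (j, y)).1) y' (τ (j, y)).2 = 0 := ent_PM_neg hc
      have h7 : ent (PM k (σ * τ) (fun p => g (τ p) * h p) i j) y' y = 0 := ent_PM_neg hc
      rw [h6, h7, zero_mul]
  · intro l _ hl
    rw [ent_PM_neg (σ := τ), mul_zero]
    intro h'
    refine hl ?_
    rw [h']
  · intro h'
    exact absurd (Finset.mem_univ _) h'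

private theorem PM_one (g : m × Y → Γ) (hg : ∀ p, g p = 1) : PM k 1 g = 1 := by
  classical
  refine Matrix.ext fun i j => ent_ext fun y' y => ?_
  by_cases hc : j = i ∧ y = y'
  · obtain ⟨rfl, rfl⟩ := hc
    have h5 : ent (PM k 1 g j j) y y = MonoidAlgebra.single (g (j, y)) (1 : k) := ent_PM_pos rfl
    rw [h5, one_apply_eq, ent_one, if_pos rfl, hg, MonoidAlgebra.one_def]
  · rw [ent_PM_neg]
    · by_cases hij : i = j
      · rw [hij, one_apply_eq, ent_one, if_neg]
        intro h'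
        exact hc ⟨hij.symm, h'.symm⟩
      · rw [one_apply_ne hij, ent_zero]
    · intro h'
      rw [Equiv.Perm.one_apply, Prod.mk.injEq] at h'
      exact hc h'

private theorem cf_PM_pos {σ : Equiv.Perm (m × Y)} {g : m × Y → Γ} {i j : m} {y' y : Y} {x : Γ}
    (h : σ (j, y) = (i, y') ∧ x = g (j, y)) : cf (PM k σ g i j) x y' y = 1 := by
  classical
  rw [cf, ent_PM_pos h.1, MonoidAlgebra.coeff_single, Finsupp.single_apply, if_pos h.2.symm]

private theorem cf_PM_neg {σ : Equiv.Perm (m × Y)} {g : m × Y → Γ} {i j : m} {y' y : Y} {x : Γ}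
    (h : ¬ (σ (j, y) = (i, y') ∧ x = g (j, y))) : cf (PM k σ g i j) x y' y = 0 := by
  classical
  by_cases hc : σ (j, y) = (i, y')
  · rw [cf, ent_PM_pos hc, MonoidAlgebra.coeff_single, Finsupp.single_apply, if_neg]
    intro h'
    exact h ⟨hc, h'.symm⟩
  · rw [cf, ent_PM_neg hc]
    rfl

private theorem PM_mem {S : FSys Y B C} {σ : Equiv.Perm (m × Y)} {g : m × Y → Γ}
    (h1 : ∀ p, S.base (σ p).2 = g p • S.base p.2)
    (h2 : ∀ h' : ℕ, ∃ h : ℕ, ∀ p, Cmp S h h' (g p) (σ p).2 p.2 ∧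
      Cmp S h h' (g p)⁻¹ p.2 (σ p).2) (i j : m) : PM k σ g i j ∈ U Γ k S := by
  have h3 : ∀ x y' y, cf (PM k σ g i j) x y' y ≠ 0 → σ (j, y) = (i, y') ∧ x = g (j, y) := by
    intro x y' y h
    by_contra hc
    exact h (cf_PM_neg hc)
  refine ⟨?_, ?_, ?_⟩
  · intro x y' y h
    obtain ⟨h4, rfl⟩ := h3 x y' y h
    have := h1 (j, y)
    rw [h4] at this
    exact le_of_eq this.symm
  · intro h'
    obtain ⟨h, H⟩ := h2 h'
    refine ⟨h, fun x y' y hx => ?_⟩
    obtain ⟨h4, rfl⟩ := h3 x y' y hx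
    have := (H (j, y)).1
    rwa [h4] at this
  · refine ⟨Submodule.span ℤ {1}, Submodule.fg_span_singleton _, fun x y' y => ?_⟩
    by_cases hc : σ (j, y) = (i, y') ∧ x = g (j, y)
    · rw [cf_PM_pos hc]
      exact Submodule.mem_span_singleton_self 1
    · rw [cf_PM_neg hc]
      exact Submodule.zero_mem _

private theorem exists_U {S : FSys Y B C} {σ : Equiv.Perm (m × Y)} {g : m × Y → Γ}
    (h1 : ∀ p, S.base (σ p).2 = g p • S.base p.2)
    (h2 : ∀ h' : ℕ, ∃ h : ℕ, ∀ p, Cmp S h h' (g p) (σ p).2 p.2 ∧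
      Cmp S h h' (g p)⁻¹ p.2 (σ p).2) :
    ∃ w : Matrix m m (U Γ k S), mcf w = PM k σ g ∧ IsUnit w := by
  have q1 : ∀ p, σ (σ⁻¹ p) = p := fun p => DFunLike.congr_fun (mul_inv_cancel σ) p
  have q2 : ∀ p, σ⁻¹ (σ p) = p := fun p => DFunLike.congr_fun (inv_mul_cancel σ) p
  have h1' : ∀ p, S.base (σ⁻¹ p).2 = (g (σ⁻¹ p))⁻¹ • S.base p.2 := by
    intro p
    have := h1 (σ⁻¹ p)
    rw [q1] at this
    rw [this, inv_smul_smul]
  have h2' : ∀ h' : ℕ, ∃ h : ℕ, ∀ p, Cmp S h h' (g (σ⁻¹ p))⁻¹ (σ⁻¹ p).2 p.2 ∧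
      Cmp S h h' ((g (σ⁻¹ p))⁻¹)⁻¹ p.2 (σ⁻¹ p).2 := by
    intro h'
    obtain ⟨h, H⟩ := h2 h'
    refine ⟨h, fun p => ?_⟩
    have := H (σ⁻¹ p)
    rw [q1] at this
    exact ⟨this.2, by rw [inv_inv]; exact this.1⟩
  have hv : Function.Injective fun z : Matrix m m (U Γ k S) => z.map (U Γ k S).subtype :=
    fun a b hab => Matrix.ext fun i j => Subtype.ext (congrFun (congrFun hab i) j)
  obtain ⟨W, hW⟩ : ∃ W : Matrix m m (U Γ k S), W.map (U Γ k S).subtype = PM k σ g :=
    ⟨Matrix.of fun i j => ⟨PM k σ g i j, PM_mem h1 h2 i j⟩, Matrix.ext fun i j => rfl⟩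
  obtain ⟨W', hW'⟩ : ∃ W : Matrix m m (U Γ k S), W.map (U Γ k S).subtype =
      PM k σ⁻¹ (fun p => (g (σ⁻¹ p))⁻¹) :=
    ⟨Matrix.of fun i j => ⟨PM k σ⁻¹ (fun p => (g (σ⁻¹ p))⁻¹) i j, PM_mem h1' h2' i j⟩,
      Matrix.ext fun i j => rfl⟩
  refine ⟨W, hW, ⟨⟨W, W', hv ?_, hv ?_⟩, rfl⟩⟩
  · change (W * W').map (U Γ k S).subtype = Matrix.map 1 (U Γ k S).subtype
    rw [Matrix.map_mul, Matrix.map_one _ (map_zero _) (map_one _), hW, hW', PM_mul, mul_inv_cancel]
    exact PM_one _ fun p => mul_inv_cancel _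
  · change (W' * W).map (U Γ k S).subtype = Matrix.map 1 (U Γ k S).subtype
    rw [Matrix.map_mul, Matrix.map_one _ (map_zero _) (map_one _), hW, hW', PM_mul, inv_mul_cancel]
    refine PM_one _ fun p => ?_
    rw [q2]
    exact inv_mul_cancel _

end PM

section Pair

variable {Y C Γ : Type} [Group Γ] [MulAction Γ C] {m : Type} [Fintype m] [DecidableEq m]

/-- The pairing of the outgoing with the incoming rays. -/
private theorem exists_pair (lab : Y → C) (r : m → Option (Bool × (ℕ ↪ Y)))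
    (P Q : Type) (a : P → m) (b : Q → m) (ρ : P → ℕ ↪ Y) (ρ' : Q → ℕ ↪ Y)
    (ha : Function.Injective a) (hb : Function.Injective b)
    (hP : ∀ l, r (a l) = some (true, ρ l)) (hQ : ∀ l, r (b l) = some (false, ρ' l))
    (hP' : ∀ i q, r i = some (true, q) → ∃ l, a l = i)
    (hQ' : ∀ i q, r i = some (false, q) → ∃ l, b l = i)
    (h : ∀ c : C, Nat.card {i // ∃ q, r i = some (true, q) ∧ lab (q 0) ∈ MulAction.orbit Γ c} =
      Nat.card {i // ∃ q, r i = some (false, q) ∧ lab (q 0) ∈ MulAction.orbit Γ c}) :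
    ∃ π : P ≃ Q, ∀ l, ∃ g : Γ, g • lab (ρ' (π l) 0) = lab (ρ l 0) := by
  classical
  have hfP : Finite P := Finite.of_injective a ha
  have hfQ : Finite Q := Finite.of_injective b hb
  let f : P → MulAction.orbitRel.Quotient Γ C := fun l => Quotient.mk _ (lab (ρ l 0))
  let f' : Q → MulAction.orbitRel.Quotient Γ C := fun l => Quotient.mk _ (lab (ρ' l 0))
  have key : ∀ ω, Nonempty ({l // f l = ω} ≃ {l // f' l = ω}) := by
    intro ω
    obtain ⟨c, rfl⟩ := Quotient.exists_rep ω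
    have e1 : Nat.card {l // f l = Quotient.mk _ c} =
        Nat.card {i // ∃ q, r i = some (true, q) ∧ lab (q 0) ∈ MulAction.orbit Γ c} := by
      refine Nat.card_congr (Equiv.ofBijective (fun l => ⟨a l.1, ρ l.1, hP l.1, ?_⟩) ⟨?_, ?_⟩)
      · exact Quotient.exact l.2
      · intro l l' hl
        exact Subtype.ext (ha (congrArg Subtype.val hl))
      · rintro ⟨i, q, hi, hq⟩
        obtain ⟨l, rfl⟩ := hP' i q hi
        refine ⟨⟨l, ?_⟩, rfl⟩
        rw [hP, Option.some.injEq, Prod.mk.injEq] at hi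
        rw [← hi.2] at hq
        exact Quotient.sound hq
    have e2 : Nat.card {l // f' l = Quotient.mk _ c} =
        Nat.card {i // ∃ q, r i = some (false, q) ∧ lab (q 0) ∈ MulAction.orbit Γ c} := by
      refine Nat.card_congr (Equiv.ofBijective (fun l => ⟨b l.1, ρ' l.1, hQ l.1, ?_⟩) ⟨?_, ?_⟩)
      · exact Quotient.exact l.2
      · intro l l' hl
        exact Subtype.ext (hb (congrArg Subtype.val hl))
      · rintro ⟨i, q, hi, hq⟩
        obtain ⟨l, rfl⟩ := hQ' i q hi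
        refine ⟨⟨l, ?_⟩, rfl⟩
        rw [hQ, Option.some.injEq, Prod.mk.injEq] at hi
        rw [← hi.2] at hq
        exact Quotient.sound hq
    exact Finite.card_eq.1 (e1.trans ((h c).trans e2.symm))
  have e' := fun ω => Classical.choice (key ω)
  refine ⟨Equiv.ofFiberEquiv e', fun l => ?_⟩
  have h1 : f' (Equiv.ofFiberEquiv e' l) = f l := Equiv.ofFiberEquiv_map e' l
  have h2 : lab (ρ l 0) ∈ MulAction.orbit Γ (lab (ρ' (Equiv.ofFiberEquiv e' l) 0)) :=
    Quotient.exact h1.symm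
  exact h2

end Pair

section Wgt

variable {Y B C Γ : Type} [Group Γ] [MulAction Γ B]
  {m : Type} [Fintype m] [DecidableEq m]

private theorem wgt_card (S : FSys Y B C) (r : m → Option (Bool × (ℕ ↪ Y))) (c : B)
    (h : wgt Γ S r c = 0) :
    Nat.card {i // ∃ q, r i = some (true, q) ∧ S.base (q 0) ∈ MulAction.orbit Γ c} =
      Nat.card {i // ∃ q, r i = some (false, q) ∧ S.base (q 0) ∈ MulAction.orbit Γ c} := by
  classical
  have h1 : wgt Γ S r c = ∑ l, ((if ∃ q, r l = some (true, q) ∧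
      S.base (q 0) ∈ MulAction.orbit Γ c then (1 : ℤ) else 0) - if ∃ q, r l = some (false, q) ∧
      S.base (q 0) ∈ MulAction.orbit Γ c then (1 : ℤ) else 0) := by
    rw [wgt]
    refine Finset.sum_congr rfl fun l _ => ?_
    have hl : r l = none ∨ ∃ b ρ, r l = some (b, ρ) := by
      rcases r l with _ | ⟨b, ρ⟩
      · exact Or.inl rfl
      · exact Or.inr ⟨b, ρ, rfl⟩
    rcases hl with hl | ⟨b, ρ, hl⟩
    · simp [hl]
    · by_cases ho : S.base (ρ 0) ∈ MulAction.orbit Γ c
      · rcases b with _ | _ <;> simp [hl, ho, sgn]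
      · rcases b with _ | _ <;> simp [hl, ho]
  rw [h1, Finset.sum_sub_distrib, Finset.sum_boole, Finset.sum_boole] at h
  rw [Nat.card_eq_fintype_card, Nat.card_eq_fintype_card, Fintype.card_subtype,
    Fintype.card_subtype]
  have h2 := sub_eq_zero.1 h
  exact_mod_cast h2

end Wgt

section Ray

variable {Y : Type}

private theorem shM_iff (ρ : ℕ ↪ Y) (x y : Y) :
    ((∃ n, x = ρ n ∧ y = ρ (n + 1)) ∨ (x ∉ Set.range ρ ∧ y = x)) ↔ shM ρ x = y := by
  by_cases h : ∃ n, x = ρ n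
  · obtain ⟨n, rfl⟩ := h
    rw [shM_ray]
    constructor
    · rintro (⟨k, hk, rfl⟩ | ⟨h, _⟩)
      · rw [ρ.injective hk]
      · exact absurd ⟨n, rfl⟩ h
    · intro h
      exact Or.inl ⟨n, rfl, h.symm⟩
  · rw [shM_out ρ h]
    constructor
    · rintro (⟨k, hk, _⟩ | ⟨_, h⟩)
      · exact absurd ⟨k, hk⟩ h
      · exact h.symm
    · intro h'
      refine Or.inr ⟨?_, h'.symm⟩
      rintro ⟨k, hk⟩
      exact h ⟨k, hk.symm⟩

private theorem ent_shR' (A : Type) [Ring A] (ρ : ℕ ↪ Y) (y x : Y) [Decidable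
    ((∃ n, x = ρ n ∧ y = ρ (n + 1)) ∨ (x ∉ Set.range ρ ∧ y = x))] : ent (shR A ρ) y x =
    if (∃ n, x = ρ n ∧ y = ρ (n + 1)) ∨ (x ∉ Set.range ρ ∧ y = x) then 1 else 0 := by
  classical
  rw [ent_shR]
  exact if_congr (shM_iff ρ x y).symm rfl rfl

private theorem ent_shL' (A : Type) [Ring A] (ρ : ℕ ↪ Y) (x y : Y) [Decidable
    ((∃ n, x = ρ n ∧ y = ρ (n + 1)) ∨ (x ∉ Set.range ρ ∧ y = x))] : ent (shL A ρ) x y =
    if (∃ n, x = ρ n ∧ y = ρ (n + 1)) ∨ (x ∉ Set.range ρ ∧ y = x) then 1 else 0 := by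
  classical
  rw [ent_shL]
  exact if_congr (shM_iff ρ x y).symm rfl rfl

end Ray

theorem bal : S_bal := by
  classical
  intro Y B C Γ k _ _ _ _ _ _ _ _ S m _ _ r hr hw
  -- the rays
  let P := {i : m // ∃ q, r i = some (true, q)}
  let Q := {i : m // ∃ q, r i = some (false, q)}
  let ρ : P → ℕ ↪ Y := fun l => l.2.choose
  let ρ' : Q → ℕ ↪ Y := fun l => l.2.choose
  have hP : ∀ l : P, r l.1 = some (true, ρ l) := fun l => l.2.choose_spec
  have hQ : ∀ l : Q, r l.1 = some (false, ρ' l) := fun l => l.2.choose_spec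
  obtain ⟨π, hπ⟩ := exists_pair (Γ := Γ) S.base r P Q Subtype.val Subtype.val ρ ρ'
    Subtype.val_injective Subtype.val_injective hP hQ (fun i q hi => ⟨⟨i, q, hi⟩, rfl⟩)
    (fun i q hi => ⟨⟨i, q, hi⟩, rfl⟩) (fun c => wgt_card S r c (hw c))
  choose γ hγ using hπ
  have hPQ : ∀ (l : P) (l' : Q), l.1 ≠ l'.1 := by
    intro l l' h
    have h1 := hP l
    rw [h, hQ l', Option.some.injEq, Prod.mk.injEq] at h1
    exact absurd h1.1 (by decide)
  -- the lines
  let Lf : P × ℤ → m × Y := fun x => match x.2 with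
    | Int.ofNat n => (x.1.1, ρ x.1 n)
    | Int.negSucc n => ((π x.1).1, ρ' (π x.1) n)
  have hLf : Function.Injective Lf := by
    rintro ⟨l, z⟩ ⟨l', z'⟩ h
    rcases z with n | n <;> rcases z' with n' | n'
    · have h1 : l = l' := Subtype.ext (congrArg Prod.fst h)
      subst h1
      have h2 : n = n' := (ρ l).injective (congrArg Prod.snd h)
      rw [h2]
    · exact absurd (congrArg Prod.fst h) (hPQ l (π l'))
    · exact absurd (congrArg Prod.fst h) (Ne.symm (hPQ l' (π l)))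
    · have h1 : l = l' := π.injective (Subtype.ext (congrArg Prod.fst h))
      subst h1
      have h2 : n = n' := (ρ' (π l)).injective (congrArg Prod.snd h)
      rw [h2]
  let σ : Equiv.Perm (m × Y) := Equiv.Perm.viaEmbedding
    (Equiv.prodCongr (Equiv.refl P) (Equiv.addRight (1 : ℤ))) ⟨Lf, hLf⟩
  have hσ : ∀ l z, σ (Lf (l, z)) = Lf (l, z + 1) := fun l z =>
    Equiv.Perm.viaEmbedding_apply _ (⟨Lf, hLf⟩ : P × ℤ ↪ m × Y) (l, z)
  have s1 : ∀ (l : P) n, σ (l.1, ρ l n) = (l.1, ρ l (n + 1)) := fun l n => hσ l (Int.ofNat n)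
  have s2 : ∀ (l : P) n, σ ((π l).1, ρ' (π l) (n + 1)) = ((π l).1, ρ' (π l) n) := by
    intro l n
    have h1 := hσ l (Int.negSucc (n + 1))
    rw [show Int.negSucc (n + 1) + 1 = Int.negSucc n by simp [Int.negSucc_eq]] at h1
    exact h1
  have s3 : ∀ l : P, σ ((π l).1, ρ' (π l) 0) = (l.1, ρ l 0) := fun l => hσ l (Int.negSucc 0)
  have s4 : ∀ p, p ∉ Set.range Lf → σ p = p := fun p hp =>
    Equiv.Perm.viaEmbedding_apply_of_notMem _ (⟨Lf, hLf⟩ : P × ℤ ↪ m × Y) p hp
  -- the group elements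
  let g : m × Y → Γ := fun p =>
    if h : ∃ l : P, p = ((π l).1, ρ' (π l) 0) then γ h.choose else 1
  have g3 : ∀ l : P, g ((π l).1, ρ' (π l) 0) = γ l := by
    intro l
    have h : ∃ l' : P, ((π l).1, ρ' (π l) 0) = ((π l').1, ρ' (π l') 0) := ⟨l, rfl⟩
    have h1 : g ((π l).1, ρ' (π l) 0) = γ h.choose := dif_pos h
    rw [h1]
    have h2 := h.choose_spec
    rw [← π.injective (Subtype.ext (congrArg Prod.fst h2))]
  have g0 : ∀ p, (¬ ∃ l : P, p = ((π l).1, ρ' (π l) 0)) → g p = 1 := fun p hp => dif_neg hp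
  have g1 : ∀ (l : P) n, g (l.1, ρ l n) = 1 := by
    intro l n
    refine g0 _ ?_
    rintro ⟨l', h⟩
    exact hPQ l (π l') (congrArg Prod.fst h)
  have g2 : ∀ (l : P) n, g ((π l).1, ρ' (π l) (n + 1)) = 1 := by
    intro l n
    refine g0 _ ?_
    rintro ⟨l', h⟩
    have h1 : π l = π l' := Subtype.ext (congrArg Prod.fst h)
    have h2 : ρ' (π l) (n + 1) = ρ' (π l') 0 := congrArg Prod.snd h
    rw [← h1] at h2
    exact absurd ((ρ' (π l)).injective h2) (by omega)
  have g4 : ∀ p, p ∉ Set.range Lf → g p = 1 := by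
    intro p hp
    refine g0 _ ?_
    rintro ⟨l, rfl⟩
    exact hp ⟨(l, Int.negSucc 0), rfl⟩
  have cas : ∀ p, p ∉ Set.range Lf ∨ (∃ (l : P) (n : ℕ), p = (l.1, ρ l n)) ∨
      (∃ (l : P) (n : ℕ), p = ((π l).1, ρ' (π l) (n + 1))) ∨
      ∃ l : P, p = ((π l).1, ρ' (π l) 0) := by
    intro p
    by_cases hp : p ∈ Set.range Lf
    · obtain ⟨⟨l, z⟩, rfl⟩ := hp
      rcases z with n | n
      · exact Or.inr (Or.inl ⟨l, n, rfl⟩)
      · rcases n with _ | n
        · exact Or.inr (Or.inr (Or.inr ⟨l, rfl⟩))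
        · exact Or.inr (Or.inr (Or.inl ⟨l, n, rfl⟩))
    · exact Or.inl hp
  have hray : ∀ (i : m) (b : Bool) (q : ℕ ↪ Y), r i = some (b, q) → IsRay S q := hr
  have hlab : ∀ (q : ℕ ↪ Y), IsRay S q → ∀ n, S.base (q (n + 1)) = S.base (q n) := by
    intro q hq n
    rw [hq.base_eq (n + 1), hq.base_eq n]
  have hlab' : ∀ (q : ℕ ↪ Y), IsRay S q → ∀ n, S.lab (q (n + 1)) = S.lab (q n) := by
    intro q hq n
    rw [hq.lab_eq (n + 1), hq.lab_eq n]
  have hd : ∀ i : m, ∃ d : ℕ, ∀ (b : Bool) (q : ℕ ↪ Y), r i = some (b, q) →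
      S.R d (q 0) = 0 := by
    intro i
    by_cases h : ∃ b q, r i = some (b, q)
    · obtain ⟨b, q, hq⟩ := h
      obtain ⟨d, hd⟩ := S.exists_dead (q 0)
      refine ⟨d, fun b' q' hq' => ?_⟩
      rw [hq, Option.some.injEq, Prod.mk.injEq] at hq'
      rw [← hq'.2]
      exact hd
    · exact ⟨0, fun b q hq => absurd ⟨b, q, hq⟩ h⟩
  choose d hd using hd
  have hd' : ∀ (i : m) (b : Bool) (q : ℕ ↪ Y), r i = some (b, q) → ∀ h', S.R (h' + ∑ j, d j)
      (q 0) = 0 := by
    intro i b q hq h'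
    have h1 : d i ≤ h' + ∑ j, d j := (Finset.single_le_sum (f := d) (fun _ _ => Nat.zero_le _)
      (Finset.mem_univ i)).trans (Nat.le_add_left _ _)
    exact Nat.le_zero.1 ((S.R_anti h1 _).trans (le_of_eq (hd i b q hq)))
  have u1 : ∀ p, S.base (σ p).2 = g p • S.base p.2 := by
    intro p
    rcases cas p with hp | ⟨l, n, rfl⟩ | ⟨l, n, rfl⟩ | ⟨l, rfl⟩
    · rw [s4 p hp, g4 p hp, one_smul]
    · rw [s1, g1, one_smul]
      exact hlab _ (hray _ _ _ (hP l)) n
    · rw [s2, g2, one_smul]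
      exact (hlab _ (hray _ _ _ (hQ (π l))) n).symm
    · rw [s3, g3]
      exact (hγ l).symm
  -- steps of a ray
  have cmp1 : ∀ (q : ℕ ↪ Y), IsRay S q → ∀ h' n, Cmp S (h' + 1) h' (1 : Γ) (q (n + 1)) (q n) := by
    intro q hq h' n
    refine ⟨hq.down h' n, fun _ _ => ?_⟩
    rw [one_smul, hlab' q hq n]
  have cmp2 : ∀ (q : ℕ ↪ Y), IsRay S q → ∀ h' n, Cmp S (h' + 1) h' (1 : Γ) (q n) (q (n + 1)) := by
    intro q hq h' n
    refine ⟨(hq.up _ n).trans (S.R_anti (Nat.le_succ h') _), fun _ _ => ?_⟩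
    rw [one_smul, hlab' q hq n]
  have u2 : ∀ h' : ℕ, ∃ h : ℕ, ∀ p, Cmp S h h' (g p) (σ p).2 p.2 ∧
      Cmp S h h' (g p)⁻¹ p.2 (σ p).2 := by
    intro h'
    refine ⟨(h' + 1) + ∑ j, d j, fun p => ?_⟩
    have hle : h' + 1 ≤ (h' + 1) + ∑ j, d j := Nat.le_add_right _ _
    rcases cas p with hp | ⟨l, n, rfl⟩ | ⟨l, n, rfl⟩ | ⟨l, rfl⟩
    · rw [s4 p hp, g4 p hp, inv_one]
      exact ⟨(Cmp.refl S h' _).mono ((Nat.le_succ h').trans hle),
        (Cmp.refl S h' _).mono ((Nat.le_succ h').trans hle)⟩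
    · rw [s1, g1, inv_one]
      exact ⟨(cmp1 _ (hray _ _ _ (hP l)) h' n).mono hle, (cmp2 _ (hray _ _ _ (hP l)) h' n).mono hle⟩
    · rw [s2, g2, inv_one]
      exact ⟨(cmp2 _ (hray _ _ _ (hQ (π l))) h' n).mono hle,
        (cmp1 _ (hray _ _ _ (hQ (π l))) h' n).mono hle⟩
    · rw [s3]
      have h1 := hd' l.1 _ _ (hP l) (h' + 1)
      have h2 := hd' (π l).1 _ _ (hQ (π l)) (h' + 1)
      refine ⟨⟨?_, fun _ hp => ?_⟩, ⟨?_, fun _ hp => ?_⟩⟩
      · rw [h1]
        exact Nat.zero_le _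
      · rw [h1] at hp
        exact absurd hp (by decide)
      · rw [h2]
        exact Nat.zero_le _
      · rw [h2] at hp
        exact absurd hp (by decide)
  obtain ⟨w, hw1, hw2⟩ := exists_U (k := k) u1 u2
  refine ⟨w, hw2, ?_, hr, ?_⟩
  · rw [hw1]
    exact ⟨σ, g, fun i j y' y x => ⟨fun h => cf_PM_pos h, fun h => cf_PM_neg h⟩⟩
  · intro i j
    rw [hw1, mem_JR]
    have hfin : (Set.range fun l : P => ρ l 0).Finite := Set.finite_range _
    refine hfin.subset ?_
    rintro y' ⟨y, hp⟩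
    by_contra hc
    refine hp ?_
    rw [ent_sub, sub_eq_zero]
    by_cases hij : i = j
    · subst hij
      rw [dgO, diagonal_apply_eq]
      have hone : ∀ z : Y, g (i, y) = 1 → σ (i, y) = (i, z) →
          ent (PM k σ g i i) y' y = if y' = z then 1 else 0 := by
        intro z h1 h2
        by_cases h3 : y' = z
        · rw [ent_PM_pos (by rw [h2, h3]), h1, if_pos h3, MonoidAlgebra.one_def]
        · rw [ent_PM_neg, if_neg h3]
          rw [h2, Prod.mk.injEq]
          exact fun h => h3 h.2.symm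
      have hri : r i = none ∨ (∃ q, r i = some (true, q)) ∨ ∃ q, r i = some (false, q) := by
        rcases r i with _ | ⟨_ | _, q⟩
        · exact Or.inl rfl
        · exact Or.inr (Or.inr ⟨q, rfl⟩)
        · exact Or.inr (Or.inl ⟨q, rfl⟩)
      rcases hri with h0 | ⟨q, hq⟩ | ⟨q, hq⟩
      · have hn : (i, y) ∉ Set.range Lf := by
          rintro ⟨⟨l, z⟩, hz⟩
          rcases z with n | n
          · have h1 : l.1 = i := congrArg Prod.fst hz
            rw [← h1, hP] at h0
            exact absurd h0 (by simp)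
          · have h1 : (π l).1 = i := congrArg Prod.fst hz
            rw [← h1, hQ] at h0
            exact absurd h0 (by simp)
        rw [hone y (g4 _ hn) (s4 _ hn), h0]
        exact (ent_one _ _).symm
      · obtain ⟨l, hl, hlq⟩ : ∃ l : P, l.1 = i ∧ ρ l = q := by
          refine ⟨⟨i, q, hq⟩, rfl, ?_⟩
          have h1 := hq.symm.trans (hP ⟨i, q, hq⟩)
          rw [Option.some.injEq, Prod.mk.injEq] at h1
          exact h1.2.symm
        subst hl
        subst hlq
        rw [hq]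
        change _ = ent (shR (MonoidAlgebra k Γ) (ρ l)) y' y
        rw [ent_shR']
        by_cases hy : y ∈ Set.range (ρ l)
        · obtain ⟨n, rfl⟩ := hy
          rw [hone _ (g1 l n) (s1 l n)]
          refine if_congr ⟨fun h => Or.inl ⟨n, rfl, h⟩, ?_⟩ rfl rfl
          rintro (⟨n', h1, h2⟩ | ⟨h1, _⟩)
          · rw [(ρ l).injective h1]
            exact h2
          · exact absurd ⟨n, rfl⟩ h1
        · have hn : (l.1, y) ∉ Set.range Lf := by
            rintro ⟨⟨l', z⟩, hz⟩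
            rcases z with n | n
            · have h1 : l' = l := Subtype.ext (congrArg Prod.fst hz)
              have h2 : ρ l' n = y := congrArg Prod.snd hz
              rw [h1] at h2
              exact hy ⟨n, h2⟩
            · exact hPQ l (π l') (congrArg Prod.fst hz).symm
          rw [hone y (g4 _ hn) (s4 _ hn)]
          refine if_congr ⟨fun h => Or.inr ⟨hy, h⟩, ?_⟩ rfl rfl
          rintro (⟨n', h1, h2⟩ | ⟨_, h1⟩)
          · exact absurd ⟨n', h1.symm⟩ hy
          · exact h1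
      · obtain ⟨l, hl, hlq⟩ : ∃ l : P, (π l).1 = i ∧ ρ' (π l) = q := by
          refine ⟨π.symm ⟨i, q, hq⟩, ?_, ?_⟩
          · rw [Equiv.apply_symm_apply]
          · rw [Equiv.apply_symm_apply]
            have h1 := hq.symm.trans (hQ ⟨i, q, hq⟩)
            rw [Option.some.injEq, Prod.mk.injEq] at h1
            exact h1.2.symm
        subst hl
        subst hlq
        rw [hq]
        change _ = ent (shL (MonoidAlgebra k Γ) (ρ' (π l))) y' y
        rw [ent_shL']
        by_cases hy : y ∈ Set.range (ρ' (π l))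
        · obtain ⟨n, rfl⟩ := hy
          rcases n with _ | n
          · rw [ent_PM_neg, if_neg]
            · rintro (⟨n, _, h2⟩ | ⟨h1, h2⟩)
              · exact absurd ((ρ' (π l)).injective h2) (by omega)
              · exact h1 ⟨0, h2⟩
            · rw [s3, Prod.mk.injEq]
              exact fun h => hPQ l (π l) h.1
          · rw [hone _ (g2 l n) (s2 l n)]
            refine if_congr ⟨fun h => Or.inl ⟨n, h, rfl⟩, ?_⟩ rfl rfl
            rintro (⟨n', h1, h2⟩ | ⟨h1, h2⟩)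
            · have := (ρ' (π l)).injective h2
              rw [h1]
              congr 1
              omega
            · exact absurd ⟨n + 1, h2⟩ h1
        · have hn : ((π l).1, y) ∉ Set.range Lf := by
            rintro ⟨⟨l', z⟩, hz⟩
            rcases z with n | n
            · exact hPQ l' (π l) (congrArg Prod.fst hz)
            · have h1 : π l' = π l := Subtype.ext (congrArg Prod.fst hz)
              have h2 : ρ' (π l') n = y := congrArg Prod.snd hz
              rw [h1] at h2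
              exact hy ⟨n, h2⟩
          rw [hone y (g4 _ hn) (s4 _ hn)]
          refine if_congr ⟨fun h => Or.inr ⟨by rw [h]; exact hy, h.symm⟩, ?_⟩ rfl rfl
          rintro (⟨n', h1, h2⟩ | ⟨_, h1⟩)
          · exact absurd ⟨n' + 1, h2.symm⟩ hy
          · exact h1.symm
    · rw [dgO, diagonal_apply_ne _ hij, ent_zero]
      refine ent_PM_neg fun hs => ?_
      rcases cas (j, y) with hp' | ⟨l, n, hl⟩ | ⟨l, n, hl⟩ | ⟨l, hl⟩
      · rw [s4 _ hp', Prod.mk.injEq] at hs
        exact hij hs.1.symm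
      · rw [hl, s1, Prod.mk.injEq] at hs
        exact hij (hs.1.symm.trans (congrArg Prod.fst hl).symm)
      · rw [hl, s2, Prod.mk.injEq] at hs
        exact hij (hs.1.symm.trans (congrArg Prod.fst hl).symm)
      · rw [hl, s3, Prod.mk.injEq] at hs
        exact hc ⟨l, hs.2⟩

end Pool.Agent.FL
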