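import Pool.Agent.Lib.MP_8f66f0_al_FL.Spec

/-!
# Project GLn: base change (port of `CC/End/Bc.lean`)
-/

set_option autoImplicit false

namespace Pool.Agent.FL

section Map

variable {Y A A' : Type} [Ring A] [Ring A']

/-- The entries are changed by a ring homomorphism. -/
private noncomputable def bcM (f : A →+* A') (z : CF Y A) : CF Y A' :=
  mkK (fun y x => f (ent z y x)) fun x => (ent_col z x).subset fun y hy h0 => hy (by
    rw [h0, map_zero])

private theorem ent_bcM (f : A →+* A') (z : CF Y A) (y x : Y) :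
    ent (bcM f z) y x = f (ent z y x) := by
  rw [bcM, ent_mkK]

private noncomputable def bcMap (f : A →+* A') : CF Y A →+* CF Y A' where
  toFun := bcM f
  map_one' := by
    classical
    refine ent_ext fun y x => ?_
    rw [ent_bcM, ent_one, ent_one]
    split_ifs
    · exact map_one f
    · exact map_zero f
  map_mul' T U := by
    classical
    refine ent_ext fun y x => ?_
    rw [ent_bcM, ent_mul_col T U y x (ent_col U x).toFinset fun v hv => by
      rw [Set.Finite.mem_toFinset]; exact hv, ent_mul_col (bcM f T) (bcM f U) y x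
      (ent_col U x).toFinset fun v hv => by
        rw [Set.Finite.mem_toFinset]
        intro h0
        exact hv (by rw [ent_bcM, h0, map_zero]), map_sum]
    refine Finset.sum_congr rfl fun v _ => ?_
    rw [map_mul, ent_bcM, ent_bcM]
  map_zero' := by
    refine ent_ext fun y x => ?_
    rw [ent_bcM, ent_zero, ent_zero, map_zero]
  map_add' T U := by
    refine ent_ext fun y x => ?_
    rw [ent_bcM, ent_add, ent_add, ent_bcM, ent_bcM, map_add]

end Map

private theorem bc_cf {Y Γ k k' : Type} [Group Γ] [CommRing k] [CommRing k'] (φ : k →+* k')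
    (z : CF Y (MonoidAlgebra k Γ)) (g : Γ) (y' y : Y) :
    cf (bcMap (MonoidAlgebra.mapRingHom Γ φ) z) g y' y = φ (cf z g y' y) := by
  rw [cf]
  change (ent (bcM (MonoidAlgebra.mapRingHom Γ φ) z) y' y).coeff g = _
  rw [ent_bcM, MonoidAlgebra.coeff_mapRingHom]
  rfl

private theorem bc_ne {Y Γ k k' : Type} [Group Γ] [CommRing k] [CommRing k'] (φ : k →+* k')
    (z : CF Y (MonoidAlgebra k Γ)) (g : Γ) (y' y : Y)
    (h : cf (bcMap (MonoidAlgebra.mapRingHom Γ φ) z) g y' y ≠ 0) : cf z g y' y ≠ 0 := by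
  rw [bc_cf] at h
  intro h0
  exact h (by rw [h0, map_zero])

theorem bc : S_bc := by
  intro Y B C Γ k k' _ _ _ _ _ _ _ _ _ S φ
  refine ⟨((bcMap (MonoidAlgebra.mapRingHom Γ φ)).comp (U Γ k S).subtype).codRestrict
    (U Γ k' S) ?_, fun z g y' y => bc_cf φ z.1 g y' y⟩
  rintro ⟨z, h1, h2, P, hP, h3⟩
  refine ⟨fun g y' y hc => h1 g y' y (bc_ne φ z g y' y hc), fun h' => ?_,
    P.map φ.toAddMonoidHom.toIntLinearMap, hP.map _, fun g y' y => ?_⟩
  · obtain ⟨h, H⟩ := h2 h'
    exact ⟨h, fun g y' y hc => H g y' y (bc_ne φ z g y' y hc)⟩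
  · exact ⟨cf z g y' y, h3 g y' y, (bc_cf φ z g y' y).symm⟩

end Pool.Agent.FL
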