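import Pool.Agent.Lib.MP_8f66f0_al_FL.Spec

/-!
# Project GLn, part D: subsystems with finer base labels (port of `CC/End/End0.lean`)
-/

set_option autoImplicit false

namespace Pool.Agent.FL

open Pool.Agent.Wald Pool.Agent.Ind Pool.Agent.WaldL Pool.Agent.FH Matrix
open Pool.Agent.BB Pool.Agent.GLC
open Pool.Agent.CC (KR Cg Ex Spc Gen Flq Kil KilM)
open scoped Pointwise Polynomial

section ExLemmas

variable {R S : Type} [Ring R] [Ring S] (ε : S →ₙ+* R)

private theorem e0_mp_mul {n m p : Type} [Fintype m] (a : Matrix n m S) (b : Matrix m p S) :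
    (a * b).map ε = a.map ε * b.map ε := by
  ext i j
  simp only [map_apply, mul_apply, map_sum, map_mul]

private theorem e0_mp_add {n m : Type} (a b : Matrix n m S) :
    (a + b).map ε = a.map ε + b.map ε := by
  ext i j
  simp only [map_apply, Matrix.add_apply, map_add]

private theorem e0_one {n : Type} [DecidableEq n] : Ex ε (1 : Matrix n n S) = 1 := by
  ext i j
  simp only [Ex, sub_self, Matrix.add_apply, map_apply, Matrix.zero_apply, map_zero, add_zero]

private theorem e0_mul {n : Type} [Fintype n] [DecidableEq n] (a b : Matrix n n S) :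
    Ex ε (a * b) = Ex ε a * Ex ε b := by
  have h : a * b - 1 = (a - 1) + (b - 1) + (a - 1) * (b - 1) := by noncomm_ring
  rw [Ex, Ex, Ex, h, e0_mp_add, e0_mp_add, e0_mp_mul]
  noncomm_ring

private theorem e0_blocks {n m : Type} [DecidableEq n] [DecidableEq m] (A : Matrix n n S)
    (B : Matrix n m S) (C : Matrix m n S) (D : Matrix m m S) : Ex ε (fromBlocks A B C D) =
      fromBlocks (Ex ε A) (B.map ε) (C.map ε) (Ex ε D) := by
  ext (i | i) (j | j)
  · simp only [Ex, Matrix.add_apply, map_apply, Matrix.sub_apply, fromBlocks_apply₁₁, one_apply,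
      Sum.inl.injEq]
  · simp only [Ex, Matrix.add_apply, map_apply, Matrix.sub_apply, fromBlocks_apply₁₂, one_apply,
      reduceCtorEq, if_false, zero_add, sub_zero]
  · simp only [Ex, Matrix.add_apply, map_apply, Matrix.sub_apply, fromBlocks_apply₂₁, one_apply,
      reduceCtorEq, if_false, zero_add, sub_zero]
  · simp only [Ex, Matrix.add_apply, map_apply, Matrix.sub_apply, fromBlocks_apply₂₂, one_apply,
      Sum.inr.injEq]

private theorem e0_sub {n m : Type} [DecidableEq n] [DecidableEq m] (e : n ≃ m)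
    (A : Matrix n n S) : Ex ε (A.submatrix e.symm e.symm) = (Ex ε A).submatrix e.symm e.symm := by
  ext i j
  simp only [Ex, Matrix.add_apply, map_apply, Matrix.sub_apply, one_apply, submatrix_apply,
    EmbeddingLike.apply_eq_iff_eq]

private theorem e0_unit {n : Type} [Fintype n] [DecidableEq n] {a : Matrix n n S}
    (h : IsUnit a) : IsUnit (Ex ε a) := by
  obtain ⟨u, rfl⟩ := h
  refine ⟨⟨Ex ε (u : Matrix n n S), Ex ε ((u⁻¹ : (Matrix n n S)ˣ) : Matrix n n S), ?_, ?_⟩, rfl⟩
  · rw [← e0_mul, u.mul_inv, e0_one]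
  · rw [← e0_mul, u.inv_mul, e0_one]

/-- The pull back of an invariant along a non-unital homomorphism. -/
private def e0_pull {K : Type} [CommGroup K] (κ : K1Fun R K) : K1Fun S K where
  f A := κ.f (Ex ε A)
  mul A B hA hB := by
    rw [e0_mul]
    exact κ.mul _ _ (e0_unit ε hA) (e0_unit ε hB)
  reindex e A hA := by
    rw [e0_sub]
    exact κ.reindex e _ (e0_unit ε hA)
  tri A B D hA hD := by
    rw [e0_blocks, show (0 : Matrix _ _ S).map ε = 0 from Matrix.map_zero ε (map_zero ε)]
    exact κ.tri _ _ _ (e0_unit ε hA) (e0_unit ε hD)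

end ExLemmas

section Blk

variable {Y A : Type} [Ring A] {n : Type}

private theorem e0_ent_sum {J : Type} (t : Finset J) (f : J → CF Y A) (y' y : Y) :
    ent (∑ j ∈ t, f j) y' y = ∑ j ∈ t, ent (f j) y' y := by
  classical
  induction t using Finset.induction_on with
  | empty => rw [Finset.sum_empty, Finset.sum_empty, ent_zero]
  | insert a t ha ih => rw [Finset.sum_insert ha, Finset.sum_insert ha, ent_add, ih]

private theorem e0_ent_one_ne [DecidableEq n] {i j : n} {y' y : Y}
    (h : ent ((1 : Matrix n n (CF Y A)) i j) y' y ≠ 0) : i = j ∧ y' = y := by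
  classical
  rw [one_apply] at h
  split_ifs at h with h1
  · rw [ent_one] at h
    split_ifs at h with h2
    · exact ⟨h1, h2⟩
    · exact absurd rfl h
  · exact absurd (ent_zero y' y) h

private theorem e0_spp_ent [DecidableEq n] {s : Finset Y} {w : Matrix n n (CF Y A)}
    (hw : Spp s w) {i j : n} {y' y : Y} (hy : y ∈ s) (h : ent (w i j) y' y ≠ 0) : y' ∈ s := by
  by_contra hc
  have h1 : ent (w i j - (1 : Matrix n n (CF Y A)) i j) y' y = 0 := by
    by_contra h0
    exact hc (hw i j y' y h0)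
  rw [ent_sub, sub_eq_zero] at h1
  rw [h1] at h
  exact hc ((e0_ent_one_ne h).2 ▸ hy)

private theorem e0_blk_mul [Fintype n] [DecidableEq n] {s : Finset Y} (z w : Matrix n n (CF Y A))
    (hw : Spp s w) : blk s (z * w) = blk s z * blk s w := by
  ext p q
  rw [mul_apply, Fintype.sum_prod_type]
  change ent ((z * w) p.1 q.1) p.2 q.2 = _
  rw [mul_apply, e0_ent_sum]
  refine Finset.sum_congr rfl fun j _ => ?_
  rw [ent_mul_col _ _ _ _ s fun v hv => e0_spp_ent hw q.2.2 hv, ← Finset.sum_coe_sort]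
  rfl

private theorem e0_blk_one [DecidableEq n] [DecidableEq Y] (s : Finset Y) :
    blk s (1 : Matrix n n (CF Y A)) = 1 := by
  ext p q
  change ent ((1 : Matrix n n (CF Y A)) p.1 q.1) p.2 q.2 = _
  by_cases h : p = q
  · subst h
    rw [one_apply_eq, one_apply_eq, ent_one, if_pos rfl]
  · rw [one_apply_ne h]
    by_contra hc
    obtain ⟨h1, h2⟩ := e0_ent_one_ne hc
    exact h (Prod.ext h1 (Subtype.ext h2))

private theorem e0_spp_inv [Fintype n] [DecidableEq n] {s : Finset Y} {z w : Matrix n n (CF Y A)}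
    (hz : Spp s z) (h : z * w = 1) : Spp s w := by
  intro i j y' y hc
  have h1 : w - 1 = -((z - 1) * w) := by
    rw [sub_mul, h, one_mul, neg_sub]
  have h2 : w i j - (1 : Matrix n n (CF Y A)) i j = -(∑ l, (z - 1) i l * w l j) := by
    rw [← Matrix.sub_apply, h1, Matrix.neg_apply, mul_apply]
  rw [h2, ent_neg, e0_ent_sum] at hc
  obtain ⟨l, _, hl⟩ := Finset.exists_ne_zero_of_sum_ne_zero (neg_ne_zero.1 hc)
  obtain ⟨v, hv⟩ := exists_of_ent_mul hl
  exact hz i l y' v (left_ne_zero_of_mul hv)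

end Blk

section Mcf

variable {Y B C Γ k : Type} [Group Γ] [PartialOrder B] [MulAction Γ B] [OrdAct Γ B]
  [PartialOrder C] [MulAction Γ C] [OrdAct Γ C] [CommRing k] {S : FSys Y B C} {n : Type}

private theorem e0_mcf_mul [Fintype n] (z w : Matrix n n (U Γ k S)) :
    mcf (z * w) = mcf z * mcf w :=
  Matrix.map_mul (f := (U Γ k S).subtype)

private theorem e0_mcf_one [DecidableEq n] : mcf (1 : Matrix n n (U Γ k S)) = 1 :=
  Matrix.map_one (U Γ k S).subtype (map_zero _) (map_one _)

private theorem e0_one_apply [DecidableEq n] (i j : n) :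
    ((1 : Matrix n n (U Γ k S)) i j).1 = (1 : Matrix n n (CF Y (MonoidAlgebra k Γ))) i j :=
  congrFun (congrFun (e0_mcf_one (S := S) (n := n)) i) j

/-- A matrix which is `1` modulo `J 0` has finitely many rows. -/
private theorem e0_exists_spp [Fintype n] [DecidableEq n] {z : Matrix n n (U Γ k S)}
    (hz : Cg (J Γ k S 0) z 1) : ∃ s : Finset Y, Spp s (mcf z) := by
  classical
  have h1 : ∀ p : n × n, {y' : Y | ∃ y, ent (z p.1 p.2 - (1 : Matrix n n (U Γ k S)) p.1 p.2).1
      y' y ≠ 0}.Finite := fun p => mem_J_zero.1 (hz p.1 p.2)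
  refine ⟨Finset.univ.biUnion fun p => (h1 p).toFinset, fun i j y' y hc => ?_⟩
  refine Finset.mem_biUnion.2 ⟨(i, j), Finset.mem_univ _, ?_⟩
  rw [Set.Finite.mem_toFinset]
  refine ⟨y, ?_⟩
  change ent ((z i j).1 - ((1 : Matrix n n (U Γ k S)) i j).1) y' y ≠ 0
  rw [e0_one_apply]
  exact hc

end Mcf

theorem end0 (hM : S_M1K) (hfl : S_fl) : S_end0 := by
  classical
  intro Y0 Y B B0 C Γ L K _ _ _ _ _ _ _ _ _ _ _ _ _ i S0 S N κ κU h I hI hN hE hSp hLf hK n _ _ z hz
  have hN0 : Bdd S0 N := fun y s hs => hN (i y) s (by rw [h.A]; exact hs)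
  refine hM Y0 B0 C Γ L S0 N hN0 hLf K (e0_pull I κU) ?_ ?_ n z hz
  · intro n _ _ z hz hz0
    change κU.f (Ex I z) = 1
    obtain ⟨s, hs⟩ := e0_exists_spp hz0
    have e1 : ∀ p q, (Ex I z p q).1 = (1 : Matrix n n (CF Y (MonoidAlgebra L Γ))) p q +
        push h.inj (z p q - (1 : Matrix n n (U Γ L S0)) p q).1 := by
      intro p q
      rw [← hI, ← e0_one_apply (S := S)]
      rfl
    have hs' : Spp (s.image i) (mcf (Ex I z)) := by
      intro p q y' y hc
      change ent ((Ex I z p q).1 - (1 : Matrix n n (CF Y (MonoidAlgebra L Γ))) p q) y' y ≠ 0 at hc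
      rw [e1, add_sub_cancel_left] at hc
      obtain ⟨y0', y0, rfl, rfl, hd⟩ := ent_push_ne h.inj hc
      refine Finset.mem_image_of_mem i (hs p q y0' y0 ?_)
      change ent ((z p q).1 - (1 : Matrix n n (CF Y0 (MonoidAlgebra L Γ))) p q) y0' y0 ≠ 0
      rw [← e0_one_apply (S := S0)]
      exact hd
    rw [hE n (Ex I z) (s.image i) (e0_unit I hz) hs']
    obtain ⟨u, rfl⟩ := hz
    have hu1 : mcf u.1 * mcf u.2 = 1 := by rw [← e0_mcf_mul, u.val_inv, e0_mcf_one]
    have hu2 : mcf u.2 * mcf u.1 = 1 := by rw [← e0_mcf_mul, u.inv_val, e0_mcf_one]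
    have hs2 : Spp s (mcf u.2) := e0_spp_inv hs hu1
    have b1 : blk s (mcf u.1) * blk s (mcf u.2) = 1 := by
      rw [← e0_blk_mul _ _ hs2, hu1, e0_blk_one]
    have b2 : blk s (mcf u.2) * blk s (mcf u.1) = 1 := by
      rw [← e0_blk_mul _ _ hs, hu2, e0_blk_one]
    let e : (n × s) ≃ (n × (s.image i : Finset Y)) :=
      Equiv.prodCongr (Equiv.refl n) ((Equiv.Set.image i (s : Set Y0) h.inj).trans
        (Equiv.setCongr (by rw [Finset.coe_image])))
    have he : ∀ p : n × s, e p = (p.1, ⟨i p.2.1, Finset.mem_image_of_mem i p.2.2⟩) := fun p => rfl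
    have e2 : (blk s (mcf u.1)).submatrix e.symm e.symm = blk (s.image i) (mcf (Ex I u.1)) := by
      refine Matrix.ext fun p q => ?_
      obtain ⟨p, rfl⟩ := e.surjective p
      obtain ⟨q, rfl⟩ := e.surjective q
      rw [submatrix_apply, Equiv.symm_apply_apply, Equiv.symm_apply_apply, he, he]
      change ent (u.1 p.1 q.1).1 p.2 q.2 = ent (Ex I u.1 p.1 q.1).1 (i p.2) (i q.2)
      rw [e1, ent_add, ent_push]
      change _ = _ + ent ((u.1 p.1 q.1).1 - ((1 : Matrix n n (U Γ L S0)) p.1 q.1).1) p.2 q.2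
      rw [ent_sub, e0_one_apply]
      have e3 : ent ((1 : Matrix n n (CF Y (MonoidAlgebra L Γ))) p.1 q.1) (i p.2) (i q.2) =
          ent ((1 : Matrix n n (CF Y0 (MonoidAlgebra L Γ))) p.1 q.1) p.2 q.2 := by
        rw [one_apply, one_apply]
        split_ifs
        · rw [ent_one, ent_one]
          simp only [h.inj.eq_iff]
        · rw [ent_zero, ent_zero]
      rw [e3, add_sub_cancel]
    rw [← e2, κ.reindex e _ ⟨⟨_, _, b1, b2⟩, rfl⟩]
    refine hK (n × s) (fun p => p.2.1) _ _ ?_ ?_ b1 b2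
    · intro p q g hg
      exact (u.1 p.1 q.1).2.1 g p.2 q.2 hg
    · intro p q g hg
      exact (u.2 p.1 q.1).2.1 g p.2 q.2 hg
  · intro n _ _ w hw
    obtain ⟨I', hI', -, hI3⟩ := hfl Y0 Y B B0 C Γ L i S0 S h
    have hii : I = I' := NonUnitalRingHom.ext fun z => Subtype.ext ((hI z).trans (hI' z).symm)
    rw [← hii] at hI3
    exact hSp n (Ex I w) (hI3 n w hw)

end Pool.Agent.FL
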