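import Pool.Agent.Lib.MP_8f66f0_al_FL.SpecR
import Pool.Agent.Lib.MP_8f66f0_al_CC.End.Ext2

/-!
# Extension of relative invariants, with the conjugation invariance as a hypothesis
-/

set_option autoImplicit false

namespace Pool.Agent.FL

open Pool.Agent.Wald Matrix
open Pool.Agent.CC (KR Cg Ex Spc Gen Flq KZ KQ)

open Pool.Agent.CC.XE in
theorem extC : S_extC := by
  intro R _ J' J _ _ β _ _ T _ I ε M hL hM hG hF K _ κ hCj hT
  classical
  have hc : Cj κ := fun n _ _ g g' z h1 h2 h3 h4 => hCj n g g' z h1 h2 h3 h4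
  have ht : ∀ b, Tv κ (ε b) M := fun b => hT b
  -- existence at the level `b`
  have hex : ∀ (b : β) (n : Type) [Fintype n] [DecidableEq n] (z : Matrix n n R), IsUnit z →
      Cg J z 1 → (∃ z' : Matrix n n (T b), Cg J' z (Ex (ε b) z')) → ∃ k, Vl κ (ε b) M z k := by
    intro b n _ _ z hz hJ hl
    obtain ⟨z', hz'⟩ := hl
    obtain ⟨m, _, _, w, r, hw, hr, h⟩ := hG b n z z' hz hJ hz'
    exact vl_ex hM hz hw hr h
  have huq : ∀ (b : β) (n : Type) [Fintype n] [DecidableEq n] (z : Matrix n n R) (k k' : K),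
      Vl κ (ε b) M z k → Vl κ (ε b) M z k' → k = k' := fun b n _ _ z k k' h h' =>
    vl_uniq hc (ht b) hM h h'
  -- the flasque rings
  have hfl : ∀ (b d : β), b ≤ d → ∀ (n : Type) [Fintype n] [DecidableEq n]
      (r : Matrix n n (T b)), IsUnit r → Vl κ (ε d) M (Ex (ε b) r) 1 := by
    intro b d hbd
    have h1 : ∀ (n : Type) [Fintype n] [DecidableEq n] (r : Matrix n n (T b)), IsUnit r →
        ∃ k, Vl κ (ε d) M (Ex (ε b) r) k := by
      intro n _ _ r hr
      exact hex d n _ (ex_unit _ hr) (cg_ex hL r) (lv_mono hL hbd ⟨r, cg_refl _⟩)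
    let F : ∀ {n : Type} [Fintype n] [DecidableEq n], Matrix n n (T b) → K := fun {n} _ _ r =>
      if h : ∃ k, Vl κ (ε d) M (Ex (ε b) r) k then h.choose else 1
    have hF1 : ∀ (n : Type) [Fintype n] [DecidableEq n] (r : Matrix n n (T b)) (k : K),
        Vl κ (ε d) M (Ex (ε b) r) k → F r = k := by
      intro n _ _ r k hk
      have h2 : ∃ k, Vl κ (ε d) M (Ex (ε b) r) k := ⟨k, hk⟩
      have h3 : F r = h2.choose := dif_pos h2
      rw [h3]
      exact huq d n _ _ _ h2.choose_spec hk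
    let κ₁ : K1Fun (T b) K :=
      { f := F
        mul := by
          intro n _ _ A B hA hB
          obtain ⟨k, hk⟩ := h1 n A hA
          obtain ⟨l, hl⟩ := h1 n B hB
          rw [hF1 n A k hk, hF1 n B l hl]
          refine hF1 n _ _ ?_
          rw [ex_mul]
          exact vl_mul hc hM hk hl
        reindex := by
          intro n m _ _ _ _ e A hA
          obtain ⟨k, hk⟩ := h1 n A hA
          rw [hF1 n A k hk]
          refine hF1 m _ _ ?_
          rw [ex_sub]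
          exact vl_sub e.symm hk
        tri := by
          intro n m _ _ _ _ A B D hA hD
          obtain ⟨k, hk⟩ := h1 n A hA
          obtain ⟨l, hl⟩ := h1 m D hD
          rw [hF1 n A k hk, hF1 m D l hl]
          refine hF1 _ _ _ ?_
          rw [ex_blocks, map_zero']
          obtain ⟨c, hc'⟩ := lvM_mono hL hbd ⟨B, cg_refl _⟩
          exact vl_tri hM hk hl c hc' }
    intro n _ _ r hr
    obtain ⟨k, hk⟩ := h1 n r hr
    have h4 : κ₁.f r = 1 := hF b K κ₁ n r hr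
    have h5 : κ₁.f r = k := hF1 n r k hk
    rw [← h4, h5]
    exact hk
  -- independence of the level
  have hind : ∀ (b d : β), b ≤ d → ∀ (n : Type) [Fintype n] [DecidableEq n] (z : Matrix n n R)
      (k k' : K), Vl κ (ε b) M z k → Vl κ (ε d) M z k' → k = k' := by
    intro b d hbd n _ _ z k k' h h'
    obtain ⟨m, _, _, w, hw, hD⟩ := h
    have hlw : ∃ z' : Matrix m m (T b), Cg J' w (Ex (ε b) z') := by
      obtain ⟨r, hr⟩ := dc_lv hD
      refine ⟨r.toBlocks₂₂, fun i j => ?_⟩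
      have h1 := hr (Sum.inr i) (Sum.inr j)
      have h2 : Ex (ε b) r (Sum.inr i) (Sum.inr j) = Ex (ε b) r.toBlocks₂₂ i j := by
        simp only [Ex, Matrix.add_apply, Matrix.map_apply, Matrix.sub_apply, Matrix.one_apply,
          Matrix.toBlocks₂₂, Matrix.of_apply, Sum.inr.injEq]
      rw [h2] at h1
      exact h1
    obtain ⟨l, hl⟩ := hex d m w (hM.unit m w hw).1 (hM.unit m w hw).2 (lv_mono hL hbd hlw)
    have hl1 : l = 1 := vl_spec (ht d) hM hw hl
    have h3 : Vl κ (ε d) M (fromBlocks z 0 0 w) (k' * l) :=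
      vl_tri hM h' hl 0 (by rw [map_zero']; exact cg_refl _)
    rw [hl1, mul_one] at h3
    obtain ⟨r, x, hr, hx, hJ, he, hk⟩ := hD
    have h4 := vl_mul hc hM (hfl b d hbd _ r hr) (vl_of (ε := ε d) hM hx hJ)
    rw [one_mul, hk, ← he] at h4
    exact (huq d _ _ _ _ h3 h4).symm
  -- the value
  have hval : ∀ (n : Type) [Fintype n] [DecidableEq n] (z : Matrix n n R) (k k' : K) (b b' : β),
      IsUnit z → Cg J z 1 → Vl κ (ε b) M z k → Vl κ (ε b') M z k' → k = k' := by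
    intro n _ _ z k k' b b' hz hJ h h'
    obtain ⟨d, hd, hd'⟩ := hL.dir b b'
    obtain ⟨l, hl⟩ := hex d n z hz hJ (lv_mono hL hd (vl_lv h))
    rw [hind b d hd n z k l h hl, hind b' d hd' n z k' l h' hl]
  have hbig : ∀ (d : β) (n : Type) [Fintype n] [DecidableEq n] (z : Matrix n n R) (k : K) (b : β),
      IsUnit z → Cg J z 1 → Vl κ (ε b) M z k → b ≤ d → Vl κ (ε d) M z k := by
    intro d n _ _ z k b hz hJ h hbd
    obtain ⟨l, hl⟩ := hex d n z hz hJ (lv_mono hL hbd (vl_lv h))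
    rw [hind b d hbd n z k l h hl]
    exact hl
  let F : ∀ {n : Type} [Fintype n] [DecidableEq n], Matrix n n R → K := fun {n} _ _ z =>
    if h : ∃ k, ∃ b, Vl κ (ε b) M z k then h.choose else 1
  have hF1 : ∀ (n : Type) [Fintype n] [DecidableEq n] (z : Matrix n n R) (k : K) (b : β),
      IsUnit z → Cg J z 1 → Vl κ (ε b) M z k → F z = k := by
    intro n _ _ z k b hz hJ hk
    have h2 : ∃ k, ∃ b, Vl κ (ε b) M z k := ⟨k, b, hk⟩
    have h3 : F z = h2.choose := dif_pos h2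
    rw [h3]
    obtain ⟨b', hb'⟩ := h2.choose_spec
    exact hval n z _ _ b' b hz hJ hb' hk
  have hE : ∀ (n : Type) [Fintype n] [DecidableEq n] (z : Matrix n n R), IsUnit z → Cg J z 1 →
      ∃ b k, Vl κ (ε b) M z k := by
    intro n _ _ z hz hJ
    obtain ⟨b, hb⟩ := lv_ex hL hJ
    obtain ⟨k, hk⟩ := hex b n z hz hJ hb
    exact ⟨b, k, hk⟩
  refine ⟨{ f := F, mul := ?_, reindex := ?_, tri := ?_ }, ?_, ?_⟩
  · intro n _ _ A B hA hB hAJ hBJ
    obtain ⟨b, k, hk⟩ := hE n A hA hAJ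
    obtain ⟨b', l, hl⟩ := hE n B hB hBJ
    obtain ⟨d, hd, hd'⟩ := hL.dir b b'
    rw [hF1 n A k b hA hAJ hk, hF1 n B l b' hB hBJ hl]
    exact hF1 n _ _ d (hA.mul hB) (cg_one_mul hAJ hBJ)
      (vl_mul hc hM (hbig d n A k b hA hAJ hk hd) (hbig d n B l b' hB hBJ hl hd'))
  · intro n m _ _ _ _ e A hA hAJ
    obtain ⟨b, k, hk⟩ := hE n A hA hAJ
    rw [hF1 n A k b hA hAJ hk]
    refine hF1 m _ _ b (isUnit_sub e.symm hA) ?_ (vl_sub e.symm hk)
    have h1 := cg_submatrix hAJ e.symm e.symm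
    rwa [sub_one] at h1
  · intro n m _ _ _ _ A B D hA hD hAJ hBJ hDJ
    obtain ⟨b, k, hk⟩ := hE n A hA hAJ
    obtain ⟨b', l, hl⟩ := hE m D hD hDJ
    obtain ⟨b₁, hb₁⟩ := lvM_ex hL hBJ
    obtain ⟨d, hd, hd'⟩ := hL.dir b b'
    obtain ⟨d', hdd, hd₁⟩ := hL.dir d b₁
    obtain ⟨c, hc'⟩ := lvM_mono hL hd₁ hb₁
    rw [hF1 n A k b hA hAJ hk, hF1 m D l b' hD hDJ hl]
    exact hF1 _ _ _ d' (K1Fun.isUnit_tri B hA hD) (cg_blocks_one hAJ hBJ (cg_refl _) hDJ)
      (vl_tri hM (hbig d' n A k b hA hAJ hk (hd.trans hdd))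
        (hbig d' m D l b' hD hDJ hl (hd'.trans hdd)) c hc')
  · intro n _ _ z hz hJ
    exact hF1 n z _ (Classical.arbitrary β) hz (cg_le hL hJ) (vl_of hM hz hJ)
  · intro n _ _ z hz
    obtain ⟨hu, hJ⟩ := hM.unit n z hz
    obtain ⟨b, k, hk⟩ := hE n z hu hJ
    have h1 : F z = k := hF1 n z k b hu hJ hk
    rw [vl_spec (ht b) hM hz hk] at h1
    exact h1

end Pool.Agent.FL
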