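import Pool.Agent.Lib.MP_8f66f0_al_FL.SpecR
import Pool.Agent.Lib.MP_8f66f0_al_CC.End.Ext2

/-!
# Extension of relative invariants, one-sided ladders

`cR` is the non-unital subring of the elements which come from the rings `T b` modulo `J'`. The invariant
is first extended to the matrices which are `1` modulo `cR` (as in `CC/End/Ext2.lean`), and then to those
which are `1` modulo `J`, by the corners `1 + x ↦ 1 + x e`.
-/

set_option autoImplicit false

namespace Pool.Agent.FL

open Pool.Agent.Wald Matrix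
open Pool.Agent.CC (KR Cg Ex Spc Gen Flq KZ KQ)
open Pool.Agent.CC.XE

section KN

/-- Matrices over a non-unital subring. -/
private def In {R : Type} [Ring R] (N : NonUnitalSubring R) {m n : Type} (a : Matrix m n R) : Prop :=
  ∀ i j, a i j ∈ N

/-- An invariant of the invertible matrices which are `1` modulo `N`. -/
private structure KN (R : Type) [Ring R] (N : NonUnitalSubring R) (K : Type) [CommGroup K] where
  f : ∀ {n : Type} [Fintype n] [DecidableEq n], Matrix n n R → K
  mul : ∀ {n : Type} [Fintype n] [DecidableEq n] (A B : Matrix n n R), IsUnit A → IsUnit B →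
    In N (A - 1) → In N (B - 1) → f (A * B) = f A * f B
  reindex : ∀ {n m : Type} [Fintype n] [DecidableEq n] [Fintype m] [DecidableEq m] (e : n ≃ m)
    (A : Matrix n n R), IsUnit A → In N (A - 1) → f (A.submatrix e.symm e.symm) = f A
  tri : ∀ {n m : Type} [Fintype n] [DecidableEq n] [Fintype m] [DecidableEq m]
    (A : Matrix n n R) (B : Matrix n m R) (D : Matrix m m R), IsUnit A → IsUnit D →
    In N (A - 1) → In N B → In N (D - 1) → f (fromBlocks A B 0 D) = f A * f D

variable {R : Type} [Ring R] {N : NonUnitalSubring R} {K : Type} [CommGroup K]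

private theorem in_zero {m n : Type} : In N (0 : Matrix m n R) := fun _ _ => N.zero_mem

private theorem in_one {n : Type} [DecidableEq n] : In N ((1 : Matrix n n R) - 1) := by
  rw [sub_self]
  exact in_zero

private theorem in_neg {m n : Type} {A : Matrix m n R} (h : In N A) : In N (-A) := fun i j =>
  N.neg_mem (h i j)

private theorem in_add {m n : Type} {A B : Matrix m n R} (h : In N A) (h' : In N B) :
    In N (A + B) := fun i j => N.add_mem (h i j) (h' i j)

private theorem in_mul {l m n : Type} [Fintype m] {A : Matrix l m R} {B : Matrix m n R}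
    (h : In N A) (h' : In N B) : In N (A * B) := fun i j => by
  rw [Matrix.mul_apply]
  exact sum_mem fun k _ => N.mul_mem (h i k) (h' k j)

private theorem in_add_one {n : Type} [DecidableEq n] {A : Matrix n n R} (h : In N A) :
    In N (1 + A - 1) := by
  rw [add_sub_cancel_left]
  exact h

private theorem in_blocks {n m : Type} [DecidableEq n] [DecidableEq m] {A : Matrix n n R}
    {B : Matrix n m R} {C : Matrix m n R} {D : Matrix m m R} (hA : In N (A - 1)) (hB : In N B)
    (hC : In N C) (hD : In N (D - 1)) : In N (fromBlocks A B C D - 1) := by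
  rw [← fromBlocks_one]
  rintro (i | i) (j | j)
  · exact hA i j
  · rw [Matrix.sub_apply, fromBlocks_apply₁₂, fromBlocks_apply₁₂, Matrix.zero_apply, sub_zero]
    exact hB i j
  · rw [Matrix.sub_apply, fromBlocks_apply₂₁, fromBlocks_apply₂₁, Matrix.zero_apply, sub_zero]
    exact hC i j
  · exact hD i j

private theorem kn_one (κ : KN R N K) {n : Type} [Fintype n] [DecidableEq n] :
    κ.f (1 : Matrix n n R) = 1 := by
  have h := κ.mul (1 : Matrix n n R) 1 isUnit_one isUnit_one in_one in_one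
  rw [one_mul] at h
  exact mul_left_cancel (a := κ.f (1 : Matrix n n R)) (by rw [mul_one]; exact h.symm)

private theorem kn_lower (κ : KN R N K) {n m : Type} [Fintype n] [DecidableEq n] [Fintype m]
    [DecidableEq m] (C : Matrix m n R) (hC : In N C) :
    κ.f (fromBlocks (1 : Matrix n n R) 0 C (1 : Matrix m m R)) = 1 := by
  have h1 : (fromBlocks (1 : Matrix m m R) C 0 (1 : Matrix n n R)).submatrix
      (Equiv.sumComm n m) (Equiv.sumComm n m) = fromBlocks 1 0 C 1 := by
    ext (i | i) (j | j) <;> rfl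
  have h2 := κ.reindex (Equiv.sumComm m n) (fromBlocks (1 : Matrix m m R) C 0 (1 : Matrix n n R))
    (K1Fun.isUnit_tri C isUnit_one isUnit_one) (in_blocks in_one hC in_zero in_one)
  rw [Equiv.sumComm_symm, h1] at h2
  rw [h2, κ.tri 1 C 1 isUnit_one isUnit_one in_one hC in_one, kn_one, kn_one, one_mul]

private theorem kn_swap (κ : KN R N K) {n m : Type} [Fintype n] [DecidableEq n] [Fintype m]
    [DecidableEq m] (A : Matrix n m R) (B : Matrix m n R) (hA : In N A) (hB : In N B)
    (h1 : IsUnit (1 + A * B)) (h2 : IsUnit (1 + B * A)) : κ.f (1 + A * B) = κ.f (1 + B * A) := by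
  have hB' : In N (-B) := in_neg hB
  have g1 : In N (1 + A * B - 1) := in_add_one (in_mul hA hB)
  have g2 : In N (1 + B * A - 1) := in_add_one (in_mul hB hA)
  have key : fromBlocks (1 : Matrix n n R) 0 (-B) (1 : Matrix m m R) *
      fromBlocks (1 : Matrix n n R) A 0 (1 + B * A) =
      fromBlocks (1 + A * B) A 0 (1 : Matrix m m R) *
        fromBlocks (1 : Matrix n n R) 0 (-B) (1 : Matrix m m R) := by
    rw [fromBlocks_multiply, fromBlocks_multiply]
    simp
  have u1 : IsUnit (fromBlocks (1 : Matrix n n R) 0 (-B) (1 : Matrix m m R)) :=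
    K1Fun.isUnit_lower (-B) isUnit_one isUnit_one
  have h3 := congrArg κ.f key
  rw [κ.mul _ _ u1 (K1Fun.isUnit_tri A isUnit_one h2) (in_blocks in_one in_zero hB' in_one)
      (in_blocks in_one hA in_zero g2),
    κ.mul _ _ (K1Fun.isUnit_tri A h1 isUnit_one) u1 (in_blocks g1 hA in_zero in_one)
      (in_blocks in_one in_zero hB' in_one), kn_lower κ _ hB',
    κ.tri _ _ _ isUnit_one h2 in_one hA g2, κ.tri _ _ _ h1 isUnit_one g1 hA in_one,
    kn_one, kn_one, one_mul, one_mul, mul_one, mul_one] at h3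
  exact h3.symm

/-- `1 + B A` is invertible if `1 + A B` is. -/
private theorem kn_unit {n : Type} [Fintype n] [DecidableEq n] (A B : Matrix n n R)
    (h : IsUnit (1 + A * B)) : IsUnit (1 + B * A) := by
  have h1 : IsUnit (1 - -A * B) := by
    rw [Matrix.neg_mul, sub_neg_eq_add]
    exact h
  have h2 := (sameK_swap (-A) B h1).1
  rwa [Matrix.mul_neg, sub_neg_eq_add] at h2

end KN

section Corner

variable {R : Type} [Ring R] {N : NonUnitalSubring R} {J : Ideal R} {K : Type} [CommGroup K]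

/-- Good idempotents. -/
private def Gd (N : NonUnitalSubring R) (J : Ideal R) (e : R) : Prop :=
  e ∈ N ∧ e * e = e ∧ ∀ x ∈ J, e * x = x → x * e ∈ N

/-- The scalar matrix. -/
private def sc (n : Type) [DecidableEq n] (e : R) : Matrix n n R := Matrix.diagonal fun _ => e

private theorem sc_mul {n m : Type} [Fintype n] [DecidableEq n] (e : R) (x : Matrix n m R) :
    sc n e * x = x ↔ ∀ i j, e * x i j = x i j := by
  constructor
  · intro h i j
    have h1 := congrFun (congrFun h i) j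
    rwa [sc, Matrix.diagonal_mul] at h1
  · intro h
    ext i j
    rw [sc, Matrix.diagonal_mul]
    exact h i j

private theorem sc_in {n : Type} [DecidableEq n] {e : R} (h : e ∈ N) : In N (sc n e) := by
  intro i j
  rw [sc, Matrix.diagonal_apply]
  split_ifs
  · exact h
  · exact N.zero_mem

private theorem sc_sc {n : Type} [Fintype n] [DecidableEq n] {e e' : R} (h : e * e' = e') :
    sc n e * sc n e' = sc n e' := by
  rw [sc, sc, Matrix.diagonal_mul_diagonal]
  congr 1
  funext _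
  exact h

private theorem mul_sc_in {n m : Type} [Fintype m] [DecidableEq m] [J.IsTwoSided] {e : R}
    (he : Gd N J e) {x : Matrix n m R} (hx : Cg J x 0) (h : ∀ i j, e * x i j = x i j) :
    In N (x * sc m e) := by
  intro i j
  rw [sc, Matrix.mul_diagonal]
  refine he.2.2 _ ?_ (h i j)
  have := hx i j
  rwa [Matrix.zero_apply, sub_zero] at this

/-- The value of `1 + x` is `k`. -/
private def Vc (κ : KN R N K) (J : Ideal R) {n : Type} [Fintype n] [DecidableEq n]
    (z : Matrix n n R) (k : K) : Prop :=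
  ∃ e, Gd N J e ∧ (∀ i j, e * (z - 1) i j = (z - 1) i j) ∧ k = κ.f (1 + (z - 1) * sc n e)

private theorem vc_unit {n : Type} [Fintype n] [DecidableEq n] {z : Matrix n n R} (hz : IsUnit z)
    {e : R} (h : ∀ i j, e * (z - 1) i j = (z - 1) i j) : IsUnit (1 + (z - 1) * sc n e) := by
  refine kn_unit _ _ ?_
  rw [(sc_mul e (z - 1)).2 h, add_sub_cancel]
  exact hz

/-- Good idempotents exist. -/
private def Ge (N : NonUnitalSubring R) (J : Ideal R) : Prop :=
  ∀ s : Finset R, (∀ x ∈ s, x ∈ J) → ∃ e, Gd N J e ∧ ∀ x ∈ s, e * x = x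

private theorem cg_sub {n : Type} [DecidableEq n] {z : Matrix n n R} (h : Cg J z 1) :
    Cg J (z - 1) 0 := fun i j => by
  rw [Matrix.zero_apply, sub_zero]
  exact h i j

/-- Good idempotents for finitely many matrices: one matrix and a finite set. -/
private theorem ge_mat (hE : Ge N J) {n m : Type} [Fintype n] [Fintype m] {x : Matrix n m R}
    (hx : Cg J x 0) (s : Finset R) (hs : ∀ y ∈ s, y ∈ J) :
    ∃ e, Gd N J e ∧ (∀ i j, e * x i j = x i j) ∧ ∀ y ∈ s, e * y = y := by
  classical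
  obtain ⟨e, he, h⟩ := hE (s ∪ Finset.univ.image fun p : n × m => x p.1 p.2) (by
    intro y hy
    rcases Finset.mem_union.1 hy with hy | hy
    · exact hs y hy
    · obtain ⟨p, -, rfl⟩ := Finset.mem_image.1 hy
      have := hx p.1 p.2
      rwa [Matrix.zero_apply, sub_zero] at this)
  exact ⟨e, he, fun i j => h _ (Finset.mem_union_right _
    (Finset.mem_image.2 ⟨(i, j), Finset.mem_univ _, rfl⟩)), fun y hy =>
    h y (Finset.mem_union_left _ hy)⟩

/-- Change of the idempotent. -/
private theorem vc_step [J.IsTwoSided] (κ : KN R N K) {n : Type} [Fintype n] [DecidableEq n]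
    {z : Matrix n n R} (hz : IsUnit z) (hJ : Cg J z 1) {e e' : R} (he : Gd N J e)
    (he' : Gd N J e') (h : ∀ i j, e * (z - 1) i j = (z - 1) i j)
    (h' : ∀ i j, e' * (z - 1) i j = (z - 1) i j) (hee : e' * e = e) :
    κ.f (1 + (z - 1) * sc n e) = κ.f (1 + (z - 1) * sc n e') := by
  set x := z - 1 with hx
  have h1 : sc n e * (x * sc n e') = x * sc n e' := by
    rw [← Matrix.mul_assoc, (sc_mul e x).2 h]
  have h2 : x * sc n e' * sc n e = x * sc n e := by
    rw [Matrix.mul_assoc, sc_sc hee]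
  have u1 : IsUnit (1 + sc n e * (x * sc n e')) := by
    rw [h1]
    exact vc_unit hz h'
  have u2 : IsUnit (1 + x * sc n e' * sc n e) := by
    rw [h2]
    exact vc_unit hz h
  have h3 := kn_swap κ (sc n e) (x * sc n e') (sc_in he.1) (mul_sc_in he' (cg_sub hJ) h') u1 u2
  rw [h1, h2] at h3
  exact h3.symm

private theorem vc_uniq [J.IsTwoSided] (hN : ∀ x ∈ N, x ∈ J) (hE : Ge N J) (κ : KN R N K)
    {n : Type} [Fintype n] [DecidableEq n] {z : Matrix n n R} (hz : IsUnit z) (hJ : Cg J z 1)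
    {k k' : K} (h : Vc κ J z k) (h' : Vc κ J z k') : k = k' := by
  classical
  obtain ⟨e₁, g₁, h₁, rfl⟩ := h
  obtain ⟨e₂, g₂, h₂, rfl⟩ := h'
  obtain ⟨e, g, he, hs⟩ := ge_mat hE (cg_sub hJ) {e₁, e₂} (by
    intro y hy
    rcases Finset.mem_insert.1 hy with rfl | hy
    · exact hN _ g₁.1
    · rw [Finset.mem_singleton.1 hy]
      exact hN _ g₂.1)
  rw [vc_step κ hz hJ g₁ g h₁ he (hs e₁ (Finset.mem_insert_self _ _)),
    vc_step κ hz hJ g₂ g h₂ he (hs e₂ (Finset.mem_insert_of_mem (Finset.mem_singleton_self _)))]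

/-- The corner extension. -/
private theorem corner [J.IsTwoSided] (hN : ∀ x ∈ N, x ∈ J) (hE : Ge N J) (κ : KN R N K) :
    ∃ κ' : KR R J K, ∀ (n : Type) [Fintype n] [DecidableEq n] (z : Matrix n n R) (e : R),
      IsUnit z → Cg J z 1 → Gd N J e → (∀ i j, e * (z - 1) i j = (z - 1) i j) →
      κ'.f z = κ.f (1 + (z - 1) * sc n e) := by
  classical
  let F : ∀ {n : Type} [Fintype n] [DecidableEq n], Matrix n n R → K := fun {n} _ _ z =>
    if h : ∃ k, Vc κ J z k then h.choose else 1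
  have hF : ∀ (n : Type) [Fintype n] [DecidableEq n] (z : Matrix n n R) (e : R),
      IsUnit z → Cg J z 1 → Gd N J e → (∀ i j, e * (z - 1) i j = (z - 1) i j) →
      F z = κ.f (1 + (z - 1) * sc n e) := by
    intro n _ _ z e hz hJ he h
    have h1 : Vc κ J z (κ.f (1 + (z - 1) * sc n e)) := ⟨e, he, h, rfl⟩
    have h2 : ∃ k, Vc κ J z k := ⟨_, h1⟩
    have h3 : F z = h2.choose := dif_pos h2
    rw [h3]
    exact vc_uniq hN hE κ hz hJ h2.choose_spec h1
  refine ⟨{ f := F, mul := ?_, reindex := ?_, tri := ?_ }, hF⟩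
  · intro n _ _ A B hA hB hAJ hBJ
    -- a common idempotent
    have hAB : Cg J (fromRows (A - 1) (B - 1)) 0 := by
      rintro (i | i) j
      · exact cg_sub hAJ i j
      · exact cg_sub hBJ i j
    obtain ⟨e, he, h, -⟩ := ge_mat hE hAB ∅ (fun y hy => absurd hy (Finset.notMem_empty y))
    have hA' : ∀ i j, e * (A - 1) i j = (A - 1) i j := fun i j => h (Sum.inl i) j
    have hB' : ∀ i j, e * (B - 1) i j = (B - 1) i j := fun i j => h (Sum.inr i) j
    have e1 : A * B - 1 = (A - 1) + (B - 1) + (A - 1) * (B - 1) := by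
      rw [Matrix.sub_mul, Matrix.mul_sub, Matrix.mul_one, Matrix.one_mul]
      abel
    have hAB' : ∀ i j, e * (A * B - 1) i j = (A * B - 1) i j := by
      rw [← sc_mul, e1, Matrix.mul_add, Matrix.mul_add, ← Matrix.mul_assoc,
        (sc_mul e _).2 hA', (sc_mul e _).2 hB']
    rw [hF n (A * B) e (hA.mul hB) (cg_one_mul hAJ hBJ) he hAB', hF n A e hA hAJ he hA',
      hF n B e hB hBJ he hB', ← κ.mul _ _ (vc_unit hA hA') (vc_unit hB hB')
        (in_add_one (mul_sc_in he (cg_sub hAJ) hA')) (in_add_one (mul_sc_in he (cg_sub hBJ) hB'))]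
    congr 1
    have e2 : (A - 1) * sc n e * ((B - 1) * sc n e) = (A - 1) * (B - 1) * sc n e := by
      rw [Matrix.mul_assoc (A - 1), ← Matrix.mul_assoc (sc n e), (sc_mul e _).2 hB',
        ← Matrix.mul_assoc]
    rw [e1, Matrix.add_mul, Matrix.add_mul, ← e2]
    simp only [Matrix.add_mul, Matrix.mul_add, Matrix.one_mul, Matrix.mul_one]
    abel
  · intro n m _ _ _ _ σ A hA hAJ
    obtain ⟨e, he, h, -⟩ := ge_mat hE (cg_sub hAJ) ∅ (fun y hy => absurd hy (Finset.notMem_empty y))
    have e1 : A.submatrix σ.symm σ.symm - 1 = (A - 1).submatrix σ.symm σ.symm := by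
      have h1 : (1 : Matrix m m R) = (1 : Matrix n n R).submatrix σ.symm σ.symm :=
        (submatrix_one_equiv σ.symm).symm
      rw [h1]
      rfl
    have hJ' : Cg J (A.submatrix σ.symm σ.symm) 1 := by
      have h1 := cg_submatrix hAJ σ.symm σ.symm
      rwa [sub_one] at h1
    have h' : ∀ i j, e * (A.submatrix σ.symm σ.symm - 1) i j =
        (A.submatrix σ.symm σ.symm - 1) i j := by
      intro i j
      rw [e1]
      exact h _ _
    rw [hF m _ e (isUnit_sub σ.symm hA) hJ' he h', hF n A e hA hAJ he h,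
      ← κ.reindex σ _ (vc_unit hA h) (in_add_one (mul_sc_in he (cg_sub hAJ) h))]
    congr 1
    rw [e1]
    ext i j
    rw [Matrix.add_apply, sc, Matrix.mul_diagonal, Matrix.submatrix_apply, Matrix.submatrix_apply,
      Matrix.add_apply, sc, Matrix.mul_diagonal]
    congr 1
    have h1 : (1 : Matrix m m R) = (1 : Matrix n n R).submatrix σ.symm σ.symm :=
      (submatrix_one_equiv σ.symm).symm
    rw [h1]
    rfl
  · intro n m _ _ _ _ A B D hA hD hAJ hBJ hDJ
    have hJ' : Cg J (fromBlocks A B 0 D) 1 := cg_blocks_one hAJ hBJ (cg_refl _) hDJ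
    obtain ⟨e, he, h, -⟩ := ge_mat hE (cg_sub hJ') ∅ (fun y hy => absurd hy (Finset.notMem_empty y))
    have hA' : ∀ i j, e * (A - 1) i j = (A - 1) i j := by
      intro i j
      have h1 := h (Sum.inl i) (Sum.inl j)
      rwa [← fromBlocks_one] at h1
    have hB' : ∀ i j, e * B i j = B i j := by
      intro i j
      have h1 := h (Sum.inl i) (Sum.inr j)
      rw [← fromBlocks_one, Matrix.sub_apply, fromBlocks_apply₁₂, fromBlocks_apply₁₂,
        Matrix.zero_apply, sub_zero] at h1
      exact h1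
    have hD' : ∀ i j, e * (D - 1) i j = (D - 1) i j := by
      intro i j
      have h1 := h (Sum.inr i) (Sum.inr j)
      rwa [← fromBlocks_one] at h1
    rw [hF _ _ e (K1Fun.isUnit_tri B hA hD) hJ' he h, hF n A e hA hAJ he hA',
      hF m D e hD hDJ he hD', ← κ.tri _ (B * sc m e) _ (vc_unit hA hA') (vc_unit hD hD')
        (in_add_one (mul_sc_in he (cg_sub hAJ) hA')) (mul_sc_in he hBJ hB')
        (in_add_one (mul_sc_in he (cg_sub hDJ) hD'))]
    congr 1
    have e1 : fromBlocks A B 0 D - 1 = fromBlocks (A - 1) B 0 (D - 1) := by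
      rw [← fromBlocks_one]
      ext (i | i) (j | j)
      · rfl
      · rw [Matrix.sub_apply, fromBlocks_apply₁₂, fromBlocks_apply₁₂, fromBlocks_apply₁₂,
          Matrix.zero_apply, sub_zero]
      · rw [Matrix.sub_apply, fromBlocks_apply₂₁, fromBlocks_apply₂₁, fromBlocks_apply₂₁,
          Matrix.zero_apply, sub_zero]
      · rfl
    have e2 : sc (n ⊕ m) e = fromBlocks (sc n e) 0 0 (sc m e) := by
      rw [sc, sc, sc, fromBlocks_diagonal]
      congr 1
      funext i
      rcases i with i | i <;> rfl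
    rw [e1, e2, fromBlocks_multiply, ← fromBlocks_one, fromBlocks_add]
    simp only [Matrix.mul_zero, Matrix.zero_mul, add_zero, zero_add]

end Corner

section Lev

variable {R : Type} [Ring R] {J' J : Ideal R} {β : Type} [Preorder β] {T : β → Type}
  [∀ b, Ring (T b)] {I : ∀ b, Ideal (T b)} {ε : ∀ b, T b →ₙ+* R}

/-- The elements which come from the rings `T b` modulo `J'`. -/
private def cR [Nonempty β] [J'.IsTwoSided] (hL : LadL R J' J β T I ε) : NonUnitalSubring R where
  carrier := {y | ∃ b, ∃ c : T b, y - ε b c ∈ J'}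
  zero_mem' := ⟨Classical.arbitrary β, 0, by rw [map_zero, sub_zero]; exact J'.zero_mem⟩
  add_mem' := by
    rintro x y ⟨b, c, h⟩ ⟨b', c', h'⟩
    obtain ⟨d, hd, hd'⟩ := hL.dir b b'
    obtain ⟨c₁, h₁⟩ := hL.mono b d hd c
    obtain ⟨c₂, h₂⟩ := hL.mono b' d hd' c'
    refine ⟨d, c₁ + c₂, ?_⟩
    have e : x + y - ε d (c₁ + c₂) = (x - ε b c) + (ε b c - ε d c₁) + ((y - ε b' c') +
        (ε b' c' - ε d c₂)) := by
      rw [map_add]
      abel
    rw [e]
    exact J'.add_mem (J'.add_mem h h₁) (J'.add_mem h' h₂)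
  neg_mem' := by
    rintro x ⟨b, c, h⟩
    refine ⟨b, -c, ?_⟩
    have e : -x - ε b (-c) = -(x - ε b c) := by
      rw [map_neg]
      abel
    rw [e]
    exact J'.neg_mem h
  mul_mem' := by
    rintro x y ⟨b, c, h⟩ ⟨b', c', h'⟩
    obtain ⟨d, hd, hd'⟩ := hL.dir b b'
    obtain ⟨c₁, h₁⟩ := hL.mono b d hd c
    obtain ⟨c₂, h₂⟩ := hL.mono b' d hd' c'
    refine ⟨d, c₁ * c₂, ?_⟩
    have g₁ := J'.add_mem h h₁
    have g₂ := J'.add_mem h' h₂
    rw [sub_add_sub_cancel] at g₁ g₂
    have e : x * y - ε d (c₁ * c₂) = (x - ε d c₁) * y + ε d c₁ * (y - ε d c₂) := by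
      rw [map_mul]
      noncomm_ring
    rw [e]
    exact J'.add_mem (J'.mul_mem_right _ g₁) (J'.mul_mem_left _ g₂)

private theorem lM_mono (hL : LadL R J' J β T I ε) {b d : β} (hbd : b ≤ d) {n m : Type}
    {B : Matrix n m R} (h : ∃ c : Matrix n m (T b), Cg J' B (c.map (ε b))) :
    ∃ c : Matrix n m (T d), Cg J' B (c.map (ε d)) := by
  obtain ⟨c, hc⟩ := h
  choose g hg using hL.mono b d hbd
  exact ⟨c.map g, cg_trans hc fun i j => hg (c i j)⟩

private theorem lM_ex [Nonempty β] [J'.IsTwoSided] (hL : LadL R J' J β T I ε) {n m : Type}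
    [Fintype n] [Fintype m] {B : Matrix n m R} (h : In (cR hL) B) :
    ∃ d, ∃ c : Matrix n m (T d), Cg J' B (c.map (ε d)) := by
  have h0 : ∀ i j, ∃ b, ∃ c : T b, B i j - ε b c ∈ J' := fun i j => h i j
  choose b c hbc using h0
  haveI : IsDirectedOrder β := ⟨hL.dir⟩
  obtain ⟨d, hd⟩ := Finite.exists_le (fun p : n × m => b p.1 p.2)
  choose c' hc' using fun i j => hL.mono (b i j) d (hd (i, j)) (c i j)
  refine ⟨d, c', fun i j => ?_⟩
  have h1 := J'.add_mem (hbc i j) (hc' i j)
  rwa [sub_add_sub_cancel] at h1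

private theorem l_mono (hL : LadL R J' J β T I ε) {b d : β} (hbd : b ≤ d) {n : Type} [Fintype n]
    [DecidableEq n] {z : Matrix n n R} (h : ∃ z' : Matrix n n (T b), Cg J' z (Ex (ε b) z')) :
    ∃ z' : Matrix n n (T d), Cg J' z (Ex (ε d) z') :=
  lv_iff.2 (lM_mono hL hbd (lv_iff.1 h))

private theorem l_ex [Nonempty β] [J'.IsTwoSided] (hL : LadL R J' J β T I ε) {n : Type} [Fintype n]
    [DecidableEq n] {z : Matrix n n R} (h : In (cR hL) (z - 1)) :
    ∃ b, ∃ z' : Matrix n n (T b), Cg J' z (Ex (ε b) z') := by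
  obtain ⟨d, hd⟩ := lM_ex hL h
  exact ⟨d, lv_iff.2 hd⟩

private theorem l_in [Nonempty β] [J'.IsTwoSided] (hL : LadL R J' J β T I ε) {n : Type} [Fintype n]
    [DecidableEq n] {z : Matrix n n R}
    (h : ∃ b, ∃ z' : Matrix n n (T b), Cg J' z (Ex (ε b) z')) : In (cR hL) (z - 1) := by
  obtain ⟨b, hb⟩ := h
  obtain ⟨c, hc⟩ := lv_iff.1 hb
  exact fun i j => ⟨b, c i j, hc i j⟩

private theorem l_le (hL : LadL R J' J β T I ε) {n m : Type} {a b : Matrix n m R}
    (h : Cg J' a b) : Cg J a b := fun i j => hL.le (h i j)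

private theorem l_cg_ex (hL : LadL R J' J β T I ε) {b : β} {n : Type} [Fintype n] [DecidableEq n]
    (r : Matrix n n (T b)) : Cg J (Ex (ε b) r) 1 := fun i j => by
  rw [Ex, Matrix.add_apply, add_sub_cancel_left]
  exact hL.mem b _

private theorem cR_le [Nonempty β] [J'.IsTwoSided] (hL : LadL R J' J β T I ε) :
    ∀ x ∈ cR hL, x ∈ J := by
  rintro x ⟨b, c, h⟩
  have h1 := J.add_mem (hL.le h) (hL.mem b c)
  rwa [sub_add_cancel] at h1

private theorem cR_ge [Nonempty β] [J'.IsTwoSided] (hL : LadL R J' J β T I ε) :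
    Ge (cR hL) J := by
  intro s hs
  obtain ⟨b, e, heJ, hee, he, heb⟩ := hL.dec s hs
  refine ⟨e, ⟨⟨b, 1, heb⟩, hee, ?_⟩, he⟩
  intro x hx hex
  obtain ⟨c, hc⟩ := hL.cor b x hx
  refine ⟨b, c, ?_⟩
  have h1 : x * e - ε b c = (e - ε b 1) * x * e + ε b 1 * x * (e - ε b 1) +
      (ε b 1 * x * ε b 1 - ε b c) := by
    have h3 : x * e = e * x * e := by rw [hex]
    rw [h3]
    noncomm_ring
  rw [h1]
  exact J'.add_mem (J'.add_mem (J'.mul_mem_right _ (J'.mul_mem_right _ heb))
    (J'.mul_mem_left _ heb)) hc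

end Lev

/-- The extension to the matrices which are `1` modulo `cR`. -/
private theorem ext_cR {R : Type} [Ring R] {J' J : Ideal R} [J'.IsTwoSided] [J.IsTwoSided]
    {β : Type} [Preorder β] [Nonempty β] {T : β → Type} [∀ b, Ring (T b)] {I : ∀ b, Ideal (T b)}
    {ε : ∀ b, T b →ₙ+* R} {M : ∀ (n : Type) [Fintype n] [DecidableEq n], Matrix n n R → Prop}
    (hL : LadL R J' J β T I ε) (hM : Spc R J M) (hG : Gen J' J T ε M) (hF : ∀ b, Flq (T b))
    (hw : ∀ (n : Type) [Fintype n] [DecidableEq n] (w : Matrix n n R), M n w →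
      ∃ (b : β) (w' : Matrix n n (T b)), Cg J' w (Ex (ε b) w'))
    {K : Type} [CommGroup K] (κ : KR R J' K) (hc : Cj κ) (ht : ∀ b, Tv κ (ε b) M) :
    ∃ κ' : KN R (cR hL) K,
      (∀ (n : Type) [Fintype n] [DecidableEq n] (z : Matrix n n R), IsUnit z → Cg J' z 1 →
        κ'.f z = κ.f z) ∧
      ∀ (n : Type) [Fintype n] [DecidableEq n] (z : Matrix n n R), M n z → κ'.f z = 1 := by
  classical
  -- existence at the level `b`
  have hex : ∀ (b : β) (n : Type) [Fintype n] [DecidableEq n] (z : Matrix n n R), IsUnit z →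
      (∃ z' : Matrix n n (T b), Cg J' z (Ex (ε b) z')) → ∃ k, Vl κ (ε b) M z k := by
    intro b n _ _ z hz hl
    obtain ⟨z', hz'⟩ := hl
    have hJ : Cg J z 1 := cg_trans (l_le hL hz') (l_cg_ex hL z')
    obtain ⟨m, _, _, w, r, hw, hr, h⟩ := hG b n z z' hz hJ hz'
    exact vl_ex hM hz hw hr h
  have huq : ∀ (b : β) (n : Type) [Fintype n] [DecidableEq n] (z : Matrix n n R) (k k' : K),
      Vl κ (ε b) M z k → Vl κ (ε b) M z k' → k = k' := fun b n _ _ z k k' h h' =>
    vl_uniq hc (ht b) hM h h'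
  -- the flasque rings
  have hfl : ∀ (b d : β), b ≤ d → ∀ (n : Type) [Fintype n] [DecidableEq n]
      (r : Matrix n n (T b)), IsUnit r → Vl κ (ε d) M (Ex (ε b) r) 1 := by
    intro b d hbd
    have h1 : ∀ (n : Type) [Fintype n] [DecidableEq n] (r : Matrix n n (T b)), IsUnit r →
        ∃ k, Vl κ (ε d) M (Ex (ε b) r) k := by
      intro n _ _ r hr
      exact hex d n _ (ex_unit _ hr) (l_mono hL hbd ⟨r, cg_refl _⟩)
    let F : ∀ {n : Type} [Fintype n] [DecidableEq n], Matrix n n (T b) → K := fun {n} _ _ r =>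
      if h : ∃ k, Vl κ (ε d) M (Ex (ε b) r) k then h.choose else 1
    have hF1 : ∀ (n : Type) [Fintype n] [DecidableEq n] (r : Matrix n n (T b)) (k : K),
        Vl κ (ε d) M (Ex (ε b) r) k → F r = k := by
      intro n _ _ r k hk
      have h2 : ∃ k, Vl κ (ε d) M (Ex (ε b) r) k := ⟨k, hk⟩
      have h3 : F r = h2.choose := dif_pos h2
      rw [h3]
      exact huq d n _ _ _ h2.choose_spec hk
    let κ₁ : K1Fun (T b) K :=
      { f := F
        mul := by
          intro n _ _ A B hA hB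
          obtain ⟨k, hk⟩ := h1 n A hA
          obtain ⟨l, hl⟩ := h1 n B hB
          rw [hF1 n A k hk, hF1 n B l hl]
          refine hF1 n _ _ ?_
          rw [ex_mul]
          exact vl_mul hc hM hk hl
        reindex := by
          intro n m _ _ _ _ e A hA
          obtain ⟨k, hk⟩ := h1 n A hA
          rw [hF1 n A k hk]
          refine hF1 m _ _ ?_
          rw [ex_sub]
          exact vl_sub e.symm hk
        tri := by
          intro n m _ _ _ _ A B D hA hD
          obtain ⟨k, hk⟩ := h1 n A hA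
          obtain ⟨l, hl⟩ := h1 m D hD
          rw [hF1 n A k hk, hF1 m D l hl]
          refine hF1 _ _ _ ?_
          rw [ex_blocks, map_zero']
          obtain ⟨c, hc'⟩ := lM_mono hL hbd ⟨B, cg_refl _⟩
          exact vl_tri hM hk hl c hc' }
    intro n _ _ r hr
    obtain ⟨k, hk⟩ := h1 n r hr
    have h4 : κ₁.f r = 1 := hF b K κ₁ n r hr
    have h5 : κ₁.f r = k := hF1 n r k hk
    rw [← h4, h5]
    exact hk
  -- independence of the level
  have hind : ∀ (b d : β), b ≤ d → ∀ (n : Type) [Fintype n] [DecidableEq n] (z : Matrix n n R)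
      (k k' : K), Vl κ (ε b) M z k → Vl κ (ε d) M z k' → k = k' := by
    intro b d hbd n _ _ z k k' h h'
    obtain ⟨m, _, _, w, hw, hD⟩ := h
    have hlw : ∃ z' : Matrix m m (T b), Cg J' w (Ex (ε b) z') := by
      obtain ⟨r, hr⟩ := dc_lv hD
      refine ⟨r.toBlocks₂₂, fun i j => ?_⟩
      have h1 := hr (Sum.inr i) (Sum.inr j)
      have h2 : Ex (ε b) r (Sum.inr i) (Sum.inr j) = Ex (ε b) r.toBlocks₂₂ i j := by
        simp only [Ex, Matrix.add_apply, Matrix.map_apply, Matrix.sub_apply, Matrix.one_apply,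
          Matrix.toBlocks₂₂, Matrix.of_apply, Sum.inr.injEq]
      rw [h2] at h1
      exact h1
    obtain ⟨l, hl⟩ := hex d m w (hM.unit m w hw).1 (l_mono hL hbd hlw)
    have hl1 : l = 1 := vl_spec (ht d) hM hw hl
    have h3 : Vl κ (ε d) M (fromBlocks z 0 0 w) (k' * l) :=
      vl_tri hM h' hl 0 (by rw [map_zero']; exact cg_refl _)
    rw [hl1, mul_one] at h3
    obtain ⟨r, x, hr, hx, hJ, he, hk⟩ := hD
    have h4 := vl_mul hc hM (hfl b d hbd _ r hr) (vl_of (ε := ε d) hM hx hJ)
    rw [one_mul, hk, ← he] at h4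
    exact (huq d _ _ _ _ h3 h4).symm
  -- the value
  have hval : ∀ (n : Type) [Fintype n] [DecidableEq n] (z : Matrix n n R) (k k' : K) (b b' : β),
      IsUnit z → Vl κ (ε b) M z k → Vl κ (ε b') M z k' → k = k' := by
    intro n _ _ z k k' b b' hz h h'
    obtain ⟨d, hd, hd'⟩ := hL.dir b b'
    obtain ⟨l, hl⟩ := hex d n z hz (l_mono hL hd (vl_lv h))
    rw [hind b d hd n z k l h hl, hind b' d hd' n z k' l h' hl]
  have hbig : ∀ (d : β) (n : Type) [Fintype n] [DecidableEq n] (z : Matrix n n R) (k : K) (b : β),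
      IsUnit z → Vl κ (ε b) M z k → b ≤ d → Vl κ (ε d) M z k := by
    intro d n _ _ z k b hz h hbd
    obtain ⟨l, hl⟩ := hex d n z hz (l_mono hL hbd (vl_lv h))
    rw [hind b d hbd n z k l h hl]
    exact hl
  let F : ∀ {n : Type} [Fintype n] [DecidableEq n], Matrix n n R → K := fun {n} _ _ z =>
    if h : ∃ k, ∃ b, Vl κ (ε b) M z k then h.choose else 1
  have hF1 : ∀ (n : Type) [Fintype n] [DecidableEq n] (z : Matrix n n R) (k : K) (b : β),
      IsUnit z → Vl κ (ε b) M z k → F z = k := by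
    intro n _ _ z k b hz hk
    have h2 : ∃ k, ∃ b, Vl κ (ε b) M z k := ⟨k, b, hk⟩
    have h3 : F z = h2.choose := dif_pos h2
    rw [h3]
    obtain ⟨b', hb'⟩ := h2.choose_spec
    exact hval n z _ _ b' b hz hb' hk
  have hE : ∀ (n : Type) [Fintype n] [DecidableEq n] (z : Matrix n n R), IsUnit z →
      In (cR hL) (z - 1) → ∃ b k, Vl κ (ε b) M z k := by
    intro n _ _ z hz hJ
    obtain ⟨b, hb⟩ := l_ex hL hJ
    obtain ⟨k, hk⟩ := hex b n z hz hb
    exact ⟨b, k, hk⟩
  refine ⟨{ f := F, mul := ?_, reindex := ?_, tri := ?_ }, ?_, ?_⟩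
  · intro n _ _ A B hA hB hAJ hBJ
    obtain ⟨b, k, hk⟩ := hE n A hA hAJ
    obtain ⟨b', l, hl⟩ := hE n B hB hBJ
    obtain ⟨d, hd, hd'⟩ := hL.dir b b'
    rw [hF1 n A k b hA hk, hF1 n B l b' hB hl]
    exact hF1 n _ _ d (hA.mul hB)
      (vl_mul hc hM (hbig d n A k b hA hk hd) (hbig d n B l b' hB hl hd'))
  · intro n m _ _ _ _ e A hA hAJ
    obtain ⟨b, k, hk⟩ := hE n A hA hAJ
    rw [hF1 n A k b hA hk]
    exact hF1 m _ _ b (isUnit_sub e.symm hA) (vl_sub e.symm hk)
  · intro n m _ _ _ _ A B D hA hD hAJ hBJ hDJ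
    obtain ⟨b, k, hk⟩ := hE n A hA hAJ
    obtain ⟨b', l, hl⟩ := hE m D hD hDJ
    obtain ⟨b₁, hb₁⟩ := lM_ex hL hBJ
    obtain ⟨d, hd, hd'⟩ := hL.dir b b'
    obtain ⟨d', hdd, hd₁⟩ := hL.dir d b₁
    obtain ⟨c, hc'⟩ := lM_mono hL hd₁ hb₁
    rw [hF1 n A k b hA hk, hF1 m D l b' hD hl]
    exact hF1 _ _ _ d' (K1Fun.isUnit_tri B hA hD)
      (vl_tri hM (hbig d' n A k b hA hk (hd.trans hdd))
        (hbig d' m D l b' hD hl (hd'.trans hdd)) c hc')
  · intro n _ _ z hz hJ
    exact hF1 n z _ (Classical.arbitrary β) hz (vl_of hM hz hJ)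
  · intro n _ _ z hz
    obtain ⟨hu, -⟩ := hM.unit n z hz
    obtain ⟨b, k, hk⟩ := hE n z hu (l_in hL (hw n z hz))
    have h1 : F z = k := hF1 n z k b hu hk
    rw [vl_spec (ht b) hM hz hk] at h1
    exact h1

section Swap

variable {R : Type} [Ring R] {J : Ideal R} {K : Type} [CommGroup K]

private theorem kr_lower (κ : KR R J K) {n m : Type} [Fintype n] [DecidableEq n] [Fintype m]
    [DecidableEq m] (C : Matrix m n R) (hC : Cg J C 0) :
    κ.f (fromBlocks (1 : Matrix n n R) 0 C (1 : Matrix m m R)) = 1 := by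
  have h1 : (fromBlocks (1 : Matrix m m R) C 0 (1 : Matrix n n R)).submatrix
      (Equiv.sumComm n m) (Equiv.sumComm n m) = fromBlocks 1 0 C 1 := by
    ext (i | i) (j | j) <;> rfl
  have h2 := κ.reindex (Equiv.sumComm m n) (fromBlocks (1 : Matrix m m R) C 0 (1 : Matrix n n R))
    (K1Fun.isUnit_tri C isUnit_one isUnit_one) (cg_blocks_one (cg_refl _) hC (cg_refl _) (cg_refl _))
  rw [Equiv.sumComm_symm, h1] at h2
  rw [h2, κ.tri 1 C 1 isUnit_one isUnit_one (cg_refl _) hC (cg_refl _), f_one, f_one, one_mul]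

private theorem kr_swap [J.IsTwoSided] (κ : KR R J K) {n : Type} [Fintype n] [DecidableEq n]
    (A B : Matrix n n R) (hA : Cg J A 0) (hB : Cg J B 0) (h1 : IsUnit (1 + A * B)) :
    κ.f (1 + A * B) = κ.f (1 + B * A) := by
  have h2 : IsUnit (1 + B * A) := kn_unit A B h1
  have gg : ∀ A B : Matrix n n R, Cg J A 0 → Cg J (1 + A * B) 1 := by
    intro A B hA i j
    rw [Matrix.add_apply, add_sub_cancel_left, Matrix.mul_apply]
    refine J.sum_mem fun k _ => J.mul_mem_right _ ?_
    have := hA i k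
    rwa [Matrix.zero_apply, sub_zero] at this
  have g1 : Cg J (1 + A * B) 1 := gg A B hA
  have g2 : Cg J (1 + B * A) 1 := gg B A hB
  have hB' : Cg J (-B) 0 := fun i j => by
    have := J.neg_mem (hB i j)
    simpa using this
  have key : fromBlocks (1 : Matrix n n R) 0 (-B) (1 : Matrix n n R) *
      fromBlocks (1 : Matrix n n R) A 0 (1 + B * A) =
      fromBlocks (1 + A * B) A 0 (1 : Matrix n n R) *
        fromBlocks (1 : Matrix n n R) 0 (-B) (1 : Matrix n n R) := by
    rw [fromBlocks_multiply, fromBlocks_multiply]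
    simp
  have u1 : IsUnit (fromBlocks (1 : Matrix n n R) 0 (-B) (1 : Matrix n n R)) :=
    K1Fun.isUnit_lower (-B) isUnit_one isUnit_one
  have c1 : Cg J (fromBlocks (1 : Matrix n n R) 0 (-B) (1 : Matrix n n R)) 1 :=
    cg_blocks_one (cg_refl _) (cg_refl _) hB' (cg_refl _)
  have h3 := congrArg κ.f key
  rw [κ.mul _ _ u1 (K1Fun.isUnit_tri A isUnit_one h2) c1
      (cg_blocks_one (cg_refl _) hA (cg_refl _) g2),
    κ.mul _ _ (K1Fun.isUnit_tri A h1 isUnit_one) u1
      (cg_blocks_one g1 hA (cg_refl _) (cg_refl _)) c1, kr_lower κ _ hB',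
    κ.tri _ _ _ isUnit_one h2 (cg_refl _) hA g2, κ.tri _ _ _ h1 isUnit_one g1 hA (cg_refl _),
    f_one, one_mul, one_mul, mul_one, mul_one] at h3
  exact h3.symm

end Swap

theorem extL (hC : S_conjL) (hE : S_extC) : S_extL := by
  classical
  have _ := hE
  intro R _ J' J _ _ β _ _ T _ I ε M hL hM hG hF hLU hw K _ κ hT
  have hc : Cj κ := fun n _ _ g g' z h1 h2 h3 h4 => hC R J' K κ hLU n g g' z h1 h2 h3 h4
  have ht : ∀ b, Tv κ (ε b) M := fun b => hT b
  obtain ⟨κc, hk1, hk2⟩ := ext_cR hL hM hG hF hw κ hc ht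
  obtain ⟨κ', hk⟩ := corner (cR_le hL) (cR_ge hL) κc
  refine ⟨κ', ?_, ?_⟩
  · intro n _ _ z hz hJ'
    have hJ : Cg J z 1 := l_le hL hJ'
    -- a left unit in `J'`
    obtain ⟨e', he'J, hee', he'⟩ := hLU
      (Finset.univ.image fun p : n × n => (z - 1) p.1 p.2) (by
        intro x hx
        obtain ⟨p, -, rfl⟩ := Finset.mem_image.1 hx
        exact hJ' p.1 p.2)
    have hx' : ∀ i j, e' * (z - 1) i j = (z - 1) i j := fun i j =>
      he' _ (Finset.mem_image.2 ⟨(i, j), Finset.mem_univ _, rfl⟩)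
    obtain ⟨e, he, hx, hs⟩ := ge_mat (cR_ge hL) (cg_sub hJ) {e'} (by
      intro y hy
      rw [Finset.mem_singleton.1 hy]
      exact hL.le he'J)
    have hse : e * e' = e' := hs e' (Finset.mem_singleton_self _)
    have hcE' : Cg J' (sc n e') 0 := by
      intro i j
      rw [Matrix.zero_apply, sub_zero, sc, Matrix.diagonal_apply]
      split_ifs
      · exact he'J
      · exact J'.zero_mem
    have hcx : Cg J' (z - 1) 0 := cg_sub hJ'
    have hcxe : Cg J' ((z - 1) * sc n e) 0 := by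
      have h1 := cg_mul_right hcx (sc n e)
      rwa [Matrix.zero_mul] at h1
    have a1 : sc n e' * (z - 1) = z - 1 := (sc_mul e' _).2 hx'
    have a2 : sc n e' * ((z - 1) * sc n e) = (z - 1) * sc n e := by
      rw [← Matrix.mul_assoc, a1]
    have a3 : (z - 1) * sc n e * sc n e' = (z - 1) * sc n e' := by
      rw [Matrix.mul_assoc, sc_sc hse]
    have u1 : IsUnit (1 + sc n e' * (z - 1)) := by
      rw [a1, add_sub_cancel]
      exact hz
    have u3 : IsUnit (1 + (z - 1) * sc n e) := vc_unit hz hx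
    have u2 : IsUnit (1 + sc n e' * ((z - 1) * sc n e)) := by
      rw [a2]
      exact u3
    have s1 := kr_swap κ _ _ hcE' hcx u1
    have s2 := kr_swap κ _ _ hcE' hcxe u2
    rw [a1, add_sub_cancel] at s1
    rw [a2, a3] at s2
    have c3 : Cg J' (1 + (z - 1) * sc n e) 1 := by
      intro i j
      rw [Matrix.add_apply, add_sub_cancel_left]
      have := hcxe i j
      rwa [Matrix.zero_apply, sub_zero] at this
    rw [hk n z e hz hJ he hx, hk1 n _ u3 c3, s2, ← s1]
  · intro n _ _ z hz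
    obtain ⟨hu, hJ⟩ := hM.unit n z hz
    obtain ⟨e, he, hx, -⟩ := ge_mat (cR_ge hL) (cg_sub hJ) ∅
      (fun y hy => absurd hy (Finset.notMem_empty y))
    have hin : In (cR hL) (z - 1) := l_in hL (hw n z hz)
    have a1 : sc n e * (z - 1) = z - 1 := (sc_mul e _).2 hx
    have u1 : IsUnit (1 + sc n e * (z - 1)) := by
      rw [a1, add_sub_cancel]
      exact hu
    have s1 := kn_swap κc _ _ (sc_in he.1) hin u1 (vc_unit hu hx)
    rw [a1, add_sub_cancel] at s1
    rw [hk n z e hu hJ he hx, ← s1, hk2 n z hz]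

end Pool.Agent.FL
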