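import Pool.Agent.Lib.MP_8f66f0_al_FL.Spec

/-!
# Project GLn: the invariant of the matrices over `CF Y A` which are `1` up to finitely many rows
-/

set_option autoImplicit false

namespace Pool.Agent.FL

open Pool.Agent.Wald Pool.Agent.FH Matrix
open Pool.Agent.CC (KR Cg)

namespace Fin0

variable {Y A : Type} [Ring A]

theorem ent_sum {ι : Type} (s : Finset ι) (f : ι → CF Y A) (y' y : Y) :
    ent (∑ i ∈ s, f i) y' y = ∑ i ∈ s, ent (f i) y' y := by
  classical
  induction s using Finset.induction_on with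
  | empty => simp [ent_zero]
  | insert a s ha ih => rw [Finset.sum_insert ha, Finset.sum_insert ha, ent_add, ih]

section B

variable [DecidableEq Y] {n : Type} [DecidableEq n]

theorem ent_mone (i j : n) (y' y : Y) :
    ent ((1 : Matrix n n (CF Y A)) i j) y' y = if i = j ∧ y' = y then 1 else 0 := by
  rw [one_apply]
  by_cases h : i = j
  · rw [if_pos h, ent_one]
    simp [h]
  · rw [if_neg h, ent_zero]
    simp [h]

theorem off {s : Finset Y} {z : Matrix n n (CF Y A)} (hz : Spp s z) (i j : n) (y' y : Y)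
    (h : y' ∉ s) : ent (z i j) y' y = if i = j ∧ y' = y then 1 else 0 := by
  have h1 : ent (z i j - (1 : Matrix n n (CF Y A)) i j) y' y = 0 := by
    by_contra h2
    exact h (hz i j y' y h2)
  rw [ent_sub, sub_eq_zero, ent_mone] at h1
  exact h1

theorem blk_one (s : Finset Y) : blk s (1 : Matrix n n (CF Y A)) = 1 := by
  refine Matrix.ext fun p q => ?_
  rw [one_apply]
  change ent ((1 : Matrix n n (CF Y A)) p.1 q.1) p.2 q.2 = _
  rw [ent_mone]
  refine if_congr ?_ rfl rfl
  rw [Prod.ext_iff, Subtype.ext_iff]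

theorem blk_mul [Fintype n] {s : Finset Y} (z : Matrix n n (CF Y A))
    {w : Matrix n n (CF Y A)} (hw : Spp s w) : blk s (z * w) = blk s z * blk s w := by
  refine Matrix.ext fun p q => ?_
  rw [mul_apply, Fintype.sum_prod_type]
  change ent ((z * w) p.1 q.1) p.2 q.2 = _
  rw [mul_apply, ent_sum]
  refine Finset.sum_congr rfl fun k _ => ?_
  rw [ent_mul_col (z p.1 k) (w k q.1) p.2 q.2 s fun v hv => ?_]
  · exact (Finset.sum_coe_sort s fun v => ent (z p.1 k) p.2 v * ent (w k q.1) v q.2).symm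
  · by_contra h
    refine hv ?_
    rw [off hw k q.1 v q.2 h, if_neg]
    rintro ⟨_, h2⟩
    exact h (h2 ▸ q.2.2)

theorem spp_mono {s t : Finset Y} (hst : s ⊆ t) {z : Matrix n n (CF Y A)} (hz : Spp s z) :
    Spp t z := fun i j y' y h => hst (hz i j y' y h)

theorem exists_sup {m : Type} [Finite n] [Finite m] (a : Matrix n m (CF Y A))
    (h : ∀ i j, a i j ∈ JR Y A) : ∃ s : Finset Y, ∀ i j y' y, ent (a i j) y' y ≠ 0 →
      y' ∈ s := by
  have h1 : (⋃ p : n × m, {y' : Y | ∃ y, ent (a p.1 p.2) y' y ≠ 0}).Finite :=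
    Set.finite_iUnion fun p => h p.1 p.2
  refine ⟨h1.toFinset, fun i j y' y hy => ?_⟩
  rw [Set.Finite.mem_toFinset]
  exact Set.mem_iUnion.mpr ⟨(i, j), ⟨y, hy⟩⟩

theorem exists_spp [Finite n] {z : Matrix n n (CF Y A)} (hz : Cg (JR Y A) z 1) :
    ∃ s : Finset Y, Spp s z := by
  obtain ⟨s, hs⟩ := exists_sup (z - 1) fun i j => hz i j
  exact ⟨s, fun i j y' y h => hs i j y' y h⟩

theorem spp_one (s : Finset Y) : Spp s (1 : Matrix n n (CF Y A)) := by
  intro i j y' y h
  rw [sub_self, ent_zero] at h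
  exact absurd rfl h

theorem spp_inv [Fintype n] {s : Finset Y} {z w : Matrix n n (CF Y A)} (hz : Spp s z)
    (h1 : z * w = 1) : Spp s w := by
  intro i j y' y h
  have h3 : w - 1 = (1 - z) * w := by rw [sub_mul, one_mul, h1]
  have h4 : w i j - (1 : Matrix n n (CF Y A)) i j = ∑ k, (1 - z) i k * w k j := by
    rw [← mul_apply, ← h3]
    rfl
  rw [h4, ent_sum] at h
  obtain ⟨k, _, hk⟩ := Finset.exists_ne_zero_of_sum_ne_zero h
  obtain ⟨v, hv⟩ := exists_of_ent_mul hk
  refine hz i k y' v fun h5 => left_ne_zero_of_mul hv ?_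
  rw [Matrix.sub_apply, ← neg_sub, ent_neg, h5, neg_zero]

theorem unit_blk [Fintype n] {s : Finset Y} {z : Matrix n n (CF Y A)} (hz : Spp s z)
    (hu : IsUnit z) : IsUnit (blk s z) := by
  obtain ⟨u, rfl⟩ := hu
  have h1 : (u : Matrix n n (CF Y A)) * (↑u⁻¹ : Matrix n n (CF Y A)) = 1 := u.mul_inv
  have h2 : (↑u⁻¹ : Matrix n n (CF Y A)) * (u : Matrix n n (CF Y A)) = 1 := u.inv_mul
  exact ⟨⟨blk s u.1, blk s (↑u⁻¹ : Matrix n n (CF Y A)),
    by rw [← blk_mul _ (spp_inv hz h1), h1, blk_one],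
    by rw [← blk_mul _ hz, h2, blk_one]⟩, rfl⟩

end B

section C

variable [DecidableEq Y] {K : Type} [CommGroup K] (κ : K1Fun A K)

/-- The block on a larger set. -/
theorem f_mono {n : Type} [Fintype n] [DecidableEq n] {s t : Finset Y} (hst : s ⊆ t)
    {z : Matrix n n (CF Y A)} (hz : Spp s z) (hu : IsUnit z) :
    κ.f (blk t z) = κ.f (blk s z) := by
  have hmem : ∀ x : Y, x ∈ t → x ∉ s → x ∈ t \ s := fun x h1 h2 => Finset.mem_sdiff.mpr ⟨h1, h2⟩
  let e : n × t ≃ (n × s) ⊕ (n × (t \ s : Finset Y)) :=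
    { toFun := fun p => if h : p.2.1 ∈ s then Sum.inl (p.1, ⟨p.2.1, h⟩) else
        Sum.inr (p.1, ⟨p.2.1, hmem _ p.2.2 h⟩)
      invFun := Sum.elim (fun p => (p.1, ⟨p.2.1, hst p.2.2⟩))
        (fun p => (p.1, ⟨p.2.1, (Finset.mem_sdiff.mp p.2.2).1⟩))
      left_inv := by
        rintro ⟨i, x, hx⟩
        by_cases h : x ∈ s
        · simp [h]
        · simp [h]
      right_inv := by
        rintro (⟨i, x, hx⟩ | ⟨i, x, hx⟩)
        · simp [hx]
        · have := (Finset.mem_sdiff.mp hx).2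
          simp [this] }
  rw [← κ.reindex e (blk t z) (unit_blk (spp_mono hst hz) hu)]
  have h1 : (blk t z).submatrix e.symm e.symm =
      fromBlocks (blk s z) (fun p q => ent (z p.1 q.1) p.2.1 q.2.1) 0 1 := by
    refine Matrix.ext fun p q => ?_
    rcases p with ⟨i, x, hx⟩ | ⟨i, x, hx⟩ <;> rcases q with ⟨j, y, hy⟩ | ⟨j, y, hy⟩
    · rfl
    · rfl
    · change ent (z i j) x y = 0
      rw [off hz i j x y (Finset.mem_sdiff.mp hx).2, if_neg]
      rintro ⟨_, h⟩
      exact (Finset.mem_sdiff.mp hx).2 (h ▸ hy)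
    · change ent (z i j) x y = (1 : Matrix (n × (t \ s : Finset Y)) (n × (t \ s : Finset Y)) A)
        (i, ⟨x, hx⟩) (j, ⟨y, hy⟩)
      rw [off hz i j x y (Finset.mem_sdiff.mp hx).2, one_apply]
      refine if_congr ?_ rfl rfl
      rw [Prod.ext_iff, Subtype.ext_iff]
  rw [h1, κ.tri _ _ _ (unit_blk hz hu) isUnit_one, κ.f_one, mul_one]

theorem f_indep {n : Type} [Fintype n] [DecidableEq n] {s t : Finset Y}
    {z : Matrix n n (CF Y A)} (hs : Spp s z) (ht : Spp t z) (hu : IsUnit z) :
    κ.f (blk t z) = κ.f (blk s z) := by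
  rw [← f_mono κ (Finset.subset_union_left (s₁ := s) (s₂ := t)) hs hu,
    ← f_mono κ (Finset.subset_union_right (s₁ := s) (s₂ := t)) ht hu]

open Classical in
/-- The invariant. -/
noncomputable def fv {n : Type} [Fintype n] [DecidableEq n] (z : Matrix n n (CF Y A)) : K :=
  if h : ∃ s : Finset Y, Spp s z then κ.f (blk h.choose z) else 1

theorem fv_eq {n : Type} [Fintype n] [DecidableEq n] {s : Finset Y}
    {z : Matrix n n (CF Y A)} (hs : Spp s z) (hu : IsUnit z) : fv κ z = κ.f (blk s z) := by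
  rw [fv, dif_pos ⟨s, hs⟩]
  exact f_indep κ hs (Exists.choose_spec (p := fun s : Finset Y => Spp s z) ⟨s, hs⟩) hu

/-- The invariant as a relative invariant. -/
noncomputable def kr : KR (CF Y A) (JR Y A) K where
  f := fun {_} _ _ z => fv κ z
  mul := by
    intro n _ _ a b ha hb h1 h2
    obtain ⟨s, hs⟩ := exists_spp h1
    obtain ⟨t, ht⟩ := exists_spp h2
    have hs' := spp_mono (Finset.subset_union_left (s₁ := s) (s₂ := t)) hs
    have ht' := spp_mono (Finset.subset_union_right (s₁ := s) (s₂ := t)) ht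
    have h3 : Cg (JR Y A) (a * b) 1 := by
      intro i j
      have h4 : (a * b) i j - (1 : Matrix n n (CF Y A)) i j =
          ((a - 1) * b) i j + (b i j - (1 : Matrix n n (CF Y A)) i j) := by
        rw [sub_mul, one_mul, Matrix.sub_apply]
        abel
      rw [h4, mul_apply]
      exact Ideal.add_mem _ (Ideal.sum_mem _ fun k _ => Ideal.mul_mem_right _ _ (h1 i k)) (h2 i j)
    obtain ⟨r, hr⟩ := exists_spp h3
    have hr' := spp_mono (Finset.subset_union_right (s₁ := s ∪ t) (s₂ := r)) hr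
    have hs2 := spp_mono (Finset.subset_union_left (s₁ := s ∪ t) (s₂ := r)) hs'
    have ht2 := spp_mono (Finset.subset_union_left (s₁ := s ∪ t) (s₂ := r)) ht'
    rw [fv_eq κ hr' (ha.mul hb), fv_eq κ hs2 ha, fv_eq κ ht2 hb, blk_mul _ ht2,
      κ.mul _ _ (unit_blk hs2 ha) (unit_blk ht2 hb)]
  reindex := by
    intro n m _ _ _ _ e a ha h1
    obtain ⟨s, hs⟩ := exists_spp h1
    have hu : IsUnit (a.submatrix e.symm e.symm) := by
      obtain ⟨u, rfl⟩ := ha
      refine ⟨⟨u.1.submatrix e.symm e.symm, (↑u⁻¹ : Matrix n n (CF Y A)).submatrix e.symm e.symm,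
        ?_, ?_⟩, rfl⟩
      · rw [submatrix_mul_equiv, u.mul_inv, submatrix_one_equiv]
      · rw [submatrix_mul_equiv, u.inv_mul, submatrix_one_equiv]
    have hs' : Spp s (a.submatrix e.symm e.symm) := by
      intro i j y' y h
      refine hs (e.symm i) (e.symm j) y' y ?_
      rw [submatrix_apply] at h
      have h5 : (1 : Matrix m m (CF Y A)) i j = (1 : Matrix n n (CF Y A)) (e.symm i) (e.symm j) := by
        rw [one_apply, one_apply]
        exact if_congr e.symm.injective.eq_iff.symm rfl rfl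
      rw [← h5]
      exact h
    rw [fv_eq κ hs' hu, fv_eq κ hs ha,
      ← κ.reindex (e.prodCongr (Equiv.refl s)) (blk s a) (unit_blk hs ha)]
    rfl
  tri := by
    intro n m _ _ _ _ a b d ha hd h1 h2 h3
    obtain ⟨s, hs⟩ := exists_spp h1
    obtain ⟨t, ht⟩ := exists_spp h3
    obtain ⟨r, hr⟩ := exists_sup b fun i j => by
      have := h2 i j
      rwa [Matrix.zero_apply, sub_zero] at this
    let q := s ∪ t ∪ r
    have hsq : s ⊆ q := Finset.subset_union_left.trans Finset.subset_union_left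
    have htq : t ⊆ q := Finset.subset_union_right.trans Finset.subset_union_left
    have hrq : r ⊆ q := Finset.subset_union_right
    have hs' := spp_mono hsq hs
    have ht' := spp_mono htq ht
    have hu : IsUnit (fromBlocks a b 0 d) := K1Fun.isUnit_tri b ha hd
    have hq : Spp q (fromBlocks a b 0 d) := by
      rintro (i | i) (j | j) y' y h
      · refine hs' i j y' y ?_
        rwa [fromBlocks_apply₁₁, ← fromBlocks_one, fromBlocks_apply₁₁] at h
      · rw [fromBlocks_apply₁₂, ← fromBlocks_one, fromBlocks_apply₁₂, Matrix.zero_apply, sub_zero] at h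
        exact hrq (hr i j y' y h)
      · rw [fromBlocks_apply₂₁, ← fromBlocks_one, fromBlocks_apply₂₁, Matrix.zero_apply, sub_zero,
          ent_zero] at h
        exact absurd rfl h
      · refine ht' i j y' y ?_
        rwa [fromBlocks_apply₂₂, ← fromBlocks_one, fromBlocks_apply₂₂] at h
    rw [fv_eq κ hq hu, fv_eq κ hs' ha, fv_eq κ ht' hd,
      ← κ.reindex (Equiv.sumProdDistrib n m q) _ (unit_blk hq hu)]
    have h5 : (blk q (fromBlocks a b 0 d)).submatrix (Equiv.sumProdDistrib n m q).symm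
        (Equiv.sumProdDistrib n m q).symm =
        fromBlocks (blk q a) (fun p p' => ent (b p.1 p'.1) p.2 p'.2) 0 (blk q d) := by
      refine Matrix.ext fun p p' => ?_
      rcases p with p | p <;> rcases p' with p' | p'
      · rfl
      · rfl
      · exact ent_zero (Ω := Y) (A := A) p.2.1 p'.2.1
      · rfl
    rw [h5, κ.tri _ _ _ (unit_blk hs' ha) (unit_blk ht' hd)]

end C

end Fin0

open Classical in
theorem fin0 : S_fin0 := by
  intro Y A K _ _ κ
  refine ⟨Fin0.kr κ, ?_⟩
  intro n _ _ hY z s hu hs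
  have h := Fin0.fv_eq κ hs hu
  have h0 : hY = (fun a b => Classical.propDecidable (a = b)) := Subsingleton.elim _ _
  subst h0
  exact h

end Pool.Agent.FL
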