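import Pool.Agent.Lib.MP_8f66f0_al_FL.Spec
import Pool.Agent.Lib.MP_8f66f0_al_CC.Sys.FinU

/-!
# Project GLn: the finite step for flag systems

`fs`: an idempotent matrix over `U Γ k S` which is a diagonal idempotent modulo `J 0` is stably
conjugate, by a matrix which is `1` modulo `J 0`, to a diagonal matrix of projections onto sets of
objects. First (`fs_uni`) a unipotent conjugation removes the entries in the rows of a finite set `s` of
objects and the columns outside `s`; then the hypothesis `HT` is applied to the block on `s`.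
-/

set_option autoImplicit false
set_option linter.unusedSectionVars false

namespace Pool.Agent.FL

open Matrix Pool.Agent.FH Pool.Agent.BB Pool.Agent.GLC
open Pool.Agent.CC (ic ir ex1 ir_ic ic_mul_ir ic_mul_ir_ne ex1_ic ir_ex1 glE glE_in glE_ne glE_out
  gl ent_gl gl_mul gl_one)

section Uni

variable {M : Type} [Ring M]

private theorem fs_uni (e p q : M) (he : e * e = e) (hp : p * p = p) (hq : q * q = q)
    (hpq : p * q = q * p) (h : (1 - q) * e = (1 - q) * p) :
    ∃ N, q * N = N ∧ N * N = 0 ∧ (1 - N) * e * (1 + N) = q * e * q + (1 - q) * p := by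
  have hq0 : (1 - q) * q = 0 := by rw [sub_mul, one_mul, hq, sub_self]
  have hr : (1 - q) * (1 - q) = 1 - q := by rw [mul_sub, mul_one, hq0, sub_zero]
  have hpr : p * (1 - q) = (1 - q) * p := by rw [mul_sub, sub_mul, mul_one, one_mul, hpq]
  have hb1 : q * (q * e * (1 - q)) = q * e * (1 - q) := by
    rw [← mul_assoc, ← mul_assoc, hq]
  have hb2 : q * e * (1 - q) * q = 0 := by rw [mul_assoc, hq0, mul_zero]
  have hb3 : q * e * (1 - q) * p * q = 0 := by
    rw [mul_assoc _ p q, hpq, ← mul_assoc, hb2, zero_mul]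
  have hb4 : q * e * (1 - q) * e = q * e * (1 - q) * p := by
    rw [mul_assoc (q * e), h, ← mul_assoc]
  have hb5 : q * e * (1 - q) * p * e = q * e * (1 - q) * p := by
    rw [mul_assoc (q * e), ← hpr, mul_assoc (q * e), mul_assoc p, h, hpr.symm, ← mul_assoc p p, hp]
  have hb6 : e * (q * e * (1 - q)) = e * (1 - q) - e * (1 - q) * p := by
    have h1 : e * q * e = e - e * (1 - q) * p := by
      have h2 : e * q * e = e * e - e * ((1 - q) * e) := by noncomm_ring
      rw [h2, he, h, mul_assoc]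
    rw [← mul_assoc, ← mul_assoc, h1, sub_mul, mul_assoc _ p, hpr, ← mul_assoc, mul_assoc e, hr]
  have hb7 : e * (q * e * (1 - q)) * p = 0 := by
    rw [hb6, sub_mul, mul_assoc _ p p, hp, sub_self]
  generalize hb : q * e * (1 - q) = b at hb1 hb2 hb3 hb4 hb5 hb6 hb7
  have hN : q * (b * p + b * p - b) = b * p + b * p - b := by
    rw [mul_sub, mul_add, ← mul_assoc, hb1]
  have hNq : (b * p + b * p - b) * q = 0 := by
    rw [sub_mul, add_mul, hb3, hb2, add_zero, sub_zero]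
  have hNe : (b * p + b * p - b) * e = b * p := by
    rw [sub_mul, add_mul, hb5, hb4, add_sub_cancel_right]
  have heN : e * (b * p + b * p - b) = - (e * (1 - q) - e * (1 - q) * p) := by
    rw [mul_sub, mul_add, ← mul_assoc, hb7, add_zero, zero_sub, hb6]
  refine ⟨b * p + b * p - b, hN, ?_, ?_⟩
  · have h1 : (b * p + b * p - b) * (b * p + b * p - b) =
        (b * p + b * p - b) * (q * (b * p + b * p - b)) := by rw [hN]
    rw [h1, ← mul_assoc, hNq, zero_mul]
  · have h1 : b * p * (b * p + b * p - b) = 0 := by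
      rw [← hN, ← mul_assoc, hb3, zero_mul]
    have h2 : (1 - (b * p + b * p - b)) * e * (1 + (b * p + b * p - b)) =
        e - (b * p + b * p - b) * e + e * (b * p + b * p - b) -
          (b * p + b * p - b) * e * (b * p + b * p - b) := by noncomm_ring
    rw [h2, hNe, heN, h1, sub_zero, ← hb]
    have h3 : e - q * e * (1 - q) * p + -(e * (1 - q) - e * (1 - q) * p) =
        e * q + (1 - q) * e * (1 - q) * p := by noncomm_ring
    rw [h3, h, mul_assoc (1 - q) p, hpr, ← mul_assoc, hr, mul_assoc, hp]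
    have h4 : e * q = q * e * q + (1 - q) * e * q := by noncomm_ring
    rw [h4, h, mul_assoc (1 - q) p q, hpq, ← mul_assoc, hq0, zero_mul, add_zero]

end Uni

section Inc

variable {A T Z : Type} [Ring A] [Fintype T] [DecidableEq T] [Fintype Z] [DecidableEq Z]
variable {ι : T → Z} (hι : Function.Injective ι) (w w' : Matrix T T A)

private theorem fs_ic_out {q : Matrix T T A} {z z' : Z}
    (h : ¬ (z ∈ Set.range ι ∧ z' ∈ Set.range ι)) : (ic A ι * q * ir A ι) z z' = 0 := by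
  by_contra hne
  obtain ⟨t, t', h1, h2⟩ := ic_mul_ir_ne hne
  exact h ⟨⟨t, h1.symm⟩, ⟨t', h2.symm⟩⟩

include hι

private theorem fs_ex1_in (t t' : T) : ex1 ι w (ι t) (ι t') = w t t' := by
  have h1 : (ic A ι * ir A ι) (ι t) (ι t') = (1 : Matrix T T A) t t' := by
    have h2 := ic_mul_ir ι (1 : Matrix T T A) t t' hι
    rwa [Matrix.mul_one] at h2
  rw [ex1, Matrix.add_apply, Matrix.sub_apply, h1, ic_mul_ir _ _ _ _ hι]
  by_cases h : t = t'
  · subst h
    rw [Matrix.one_apply_eq, Matrix.one_apply_eq, sub_self, zero_add]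
  · rw [Matrix.one_apply_ne h, Matrix.one_apply_ne fun h' => h (hι h'), sub_self, zero_add]

omit hι in
private theorem fs_ex1_out {z z' : Z} (h : ¬ (z ∈ Set.range ι ∧ z' ∈ Set.range ι)) :
    ex1 ι w z z' = (1 : Matrix Z Z A) z z' := by
  have h1 : (ic A ι * ir A ι) z z' = 0 := by
    have h2 := fs_ic_out (A := A) (q := (1 : Matrix T T A)) h
    rwa [Matrix.mul_one] at h2
  rw [ex1, Matrix.add_apply, Matrix.sub_apply, h1, fs_ic_out h, sub_zero, add_zero]

private theorem fs_ex1_mul (hw : w * w' = 1) : ex1 ι w * ex1 ι w' = 1 := by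
  conv_lhs => arg 2; rw [ex1]
  rw [Matrix.mul_add, Matrix.mul_sub, Matrix.mul_one, ← Matrix.mul_assoc, ex1_ic hι,
    ← Matrix.mul_assoc, ← Matrix.mul_assoc, ex1_ic hι, Matrix.mul_assoc (ic A ι) w w', hw,
    Matrix.mul_one, ex1]
  abel

private theorem fs_ex1_conj (q : Matrix T T A) (B : Matrix Z Z A) (h1 : ir A ι * B = 0)
    (h2 : B * ic A ι = 0) : ex1 ι w * (ic A ι * q * ir A ι + B) * ex1 ι w' =
      ic A ι * (w * q * w') * ir A ι + B := by
  have e1 : ex1 ι w * B = B := by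
    rw [ex1, Matrix.add_mul, Matrix.sub_mul, Matrix.one_mul, Matrix.mul_assoc, h1,
      Matrix.mul_assoc _ (ir A ι) B, h1, Matrix.mul_zero, Matrix.mul_zero, sub_zero, add_zero]
  have e2 : B * ex1 ι w' = B := by
    rw [ex1, Matrix.mul_add, Matrix.mul_sub, Matrix.mul_one, ← Matrix.mul_assoc, h2,
      ← Matrix.mul_assoc, ← Matrix.mul_assoc, h2, Matrix.zero_mul, Matrix.zero_mul,
      Matrix.zero_mul, sub_zero, add_zero]
  rw [Matrix.mul_add, Matrix.add_mul, e1, e2, ← Matrix.mul_assoc, ← Matrix.mul_assoc, ex1_ic hι,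
    Matrix.mul_assoc _ (ir A ι) (ex1 ι w'), ir_ex1 hι]
  simp only [Matrix.mul_assoc]

end Inc

section Gl

variable {Y A N : Type} [Ring A]

/-- Row and column finite matrices are column finite. -/
private noncomputable def fsI (Y A : Type) [Ring A] : TQ.RCF Y A →+* CF Y A := (TQ.RCF Y A).subtype

private theorem ent_fsI (T : TQ.RCF Y A) (y' y : Y) : ent (fsI Y A T) y' y = TQ.ent T y' y := rfl

/-- `CC.gl` over `CF`. -/
private noncomputable def fsG (s : Finset Y) (a : Matrix (N × s) (N × s) A) (P : N → Prop) :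
    Matrix N N (CF Y A) := (gl s a P).map (fsI Y A)

private theorem ent_fsG (s : Finset Y) (a : Matrix (N × s) (N × s) A) (P : N → Prop) (p q : N)
    (y' y : Y) : ent (fsG s a P p q) y' y = glE s a P p q y' y := by
  rw [fsG, Matrix.map_apply, ent_fsI, ent_gl]

private theorem fsG_mul [Fintype N] (s : Finset Y) (a b : Matrix (N × s) (N × s) A)
    (P Q : N → Prop) : fsG s a P * fsG s b Q = fsG s (a * b) fun i => P i ∧ Q i := by
  rw [fsG, fsG, fsG, ← Matrix.map_mul, gl_mul]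

private theorem fsG_one [DecidableEq N] [DecidableEq Y] (s : Finset Y) :
    fsG s (1 : Matrix (N × s) (N × s) A) (fun _ => True) = 1 := by
  rw [fsG, gl_one, Matrix.map_one _ (map_zero _) (map_one _)]

private theorem fsG_inj {s : Finset Y} {a b : Matrix (N × s) (N × s) A} {P Q : N → Prop}
    (h : fsG s a P = fsG s b Q) : a = b := by
  refine Matrix.ext fun i j => ?_
  have h1 : ent (fsG s a P i.1 j.1) i.2 j.2 = ent (fsG s b Q i.1 j.1) i.2 j.2 := by rw [h]
  rw [ent_fsG, ent_fsG, glE_in i.2.2 j.2.2, glE_in i.2.2 j.2.2] at h1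
  exact h1

/-- A matrix is of the form `fsG` if it is diagonal and constant outside `s`. -/
private theorem eq_fsG (s : Finset Y) (z : Matrix N N (CF Y A)) (P : N → Prop)
    (h1 : ∀ p q y' y, (y' ∉ s ∨ y ∉ s) → ¬ (y' = y ∧ p = q ∧ P p) → ent (z p q) y' y = 0)
    (h2 : ∀ p y, y ∉ s → P p → ent (z p p) y y = 1) :
    z = fsG s (Matrix.of fun i j => ent (z i.1 j.1) i.2 j.2) P := by
  refine Matrix.ext fun p q => ent_ext fun y' y => ?_
  rw [ent_fsG]
  by_cases hy : y' ∈ s ∧ y ∈ s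
  · rw [glE_in hy.1 hy.2, Matrix.of_apply]
  · by_cases h : y' = y ∧ p = q ∧ P p
    · obtain ⟨rfl, rfl, hP⟩ := h
      have hy1 : y' ∉ s := fun h => hy ⟨h, h⟩
      rw [glE_out hy1 hP, h2 p y' hy1 hP]
    · rw [glE_ne (not_and_or.1 hy) h, h1 p q y' y (not_and_or.1 hy) h]

end Gl

section Mem

variable {Y B C Γ k N : Type} [Group Γ] [PartialOrder B] [MulAction Γ B] [OrdAct Γ B]
  [PartialOrder C] [MulAction Γ C] [OrdAct Γ C] [CommRing k] (S : FSys Y B C)

private theorem fs_J0_of {s : Finset Y} {z : U Γ k S} (h : ∀ y' y, ent z.1 y' y ≠ 0 → y' ∈ s) :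
    z ∈ J Γ k S 0 := by
  rw [mem_J_zero, mem_JR]
  refine s.finite_toSet.subset ?_
  rintro y' ⟨y, hy⟩
  exact h y' y hy

private theorem fs_J0 {z : U Γ k S} (hz : z ∈ J Γ k S 0) :
    ∃ s : Finset Y, ∀ y' y, ent z.1 y' y ≠ 0 → y' ∈ s := by
  rw [mem_J_zero, mem_JR] at hz
  exact ⟨hz.toFinset, fun y' y h => hz.mem_toFinset.2 ⟨y, h⟩⟩

private theorem fs_cf_ne {s : Finset Y} {a : Matrix (N × s) (N × s) (MonoidAlgebra k Γ)}
    {P : N → Prop} {p q : N} {y' y : Y} {g : Γ} (h : cf (fsG s a P p q) g y' y ≠ 0) :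
    (∃ (h' : y' ∈ s) (h : y ∈ s), (a (p, ⟨y', h'⟩) (q, ⟨y, h⟩)).coeff g ≠ 0) ∨
      (y' = y ∧ g = 1) := by
  classical
  by_cases hy : y' ∈ s ∧ y ∈ s
  · left
    refine ⟨hy.1, hy.2, ?_⟩
    rwa [cf, ent_fsG, glE_in hy.1 hy.2] at h
  · right
    rw [cf, ent_fsG] at h
    by_cases h1 : y' = y ∧ p = q ∧ P p
    · obtain ⟨rfl, rfl, hP⟩ := h1
      rw [glE_out (fun h => hy ⟨h, h⟩) hP] at h
      exact ⟨rfl, coeff_one_ne h⟩
    · rw [glE_ne (not_and_or.1 hy) h1, MonoidAlgebra.coeff_zero] at h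
      exact absurd rfl h

private theorem fsG_mem [Finite N] (s : Finset Y)
    (a : Matrix (N × s) (N × s) (MonoidAlgebra k Γ)) (P : N → Prop)
    (ha : Resp (fun i : N × s => S.base i.2) (fun i : N × s => S.base i.2) a)
    (p q : N) : fsG s a P p q ∈ U Γ k S := by
  classical
  refine ⟨fun g y' y h => ?_, fun h' => ?_, ?_⟩
  · rcases fs_cf_ne h with ⟨h', h1, h2⟩ | ⟨rfl, rfl⟩
    · exact ha _ _ _ h2
    · rw [one_smul]
  · obtain ⟨h0, H⟩ := S.exists_height s
    refine ⟨h' ⊔ h0, fun g y' y h => ?_⟩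
    rcases fs_cf_ne h with ⟨h1, h2, _⟩ | ⟨rfl, rfl⟩
    · have h3 : S.R (h' ⊔ h0) y' = 0 :=
        Nat.le_zero.1 (le_trans (S.R_anti le_sup_right y') (le_of_eq (H y' h1)))
      refine ⟨?_, fun _ hp => ?_⟩
      · rw [h3]
        exact Nat.zero_le _
      · rw [h3] at hp
        exact absurd hp (by decide)
    · exact (Cmp.refl S h' y').mono le_sup_left
  · have hfin : (insert (1 : k) (⋃ i : (N × s) × (N × s),
        Set.range fun g : (a i.1 i.2).coeff.support => (a i.1 i.2).coeff g)).Finite :=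
      (Set.finite_iUnion fun i => Set.finite_range _).insert _
    refine ⟨Submodule.span ℤ (insert (1 : k) (⋃ i : (N × s) × (N × s),
        Set.range fun g : (a i.1 i.2).coeff.support => (a i.1 i.2).coeff g)),
      Submodule.fg_span hfin, fun g y' y => ?_⟩
    by_cases h : cf (fsG s a P p q) g y' y = 0
    · rw [h]
      exact Submodule.zero_mem _
    · by_cases hy : y' ∈ s ∧ y ∈ s
      · rw [cf, ent_fsG, glE_in hy.1 hy.2] at h ⊢
        refine Submodule.subset_span (Or.inr (Set.mem_iUnion.2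
          ⟨((p, ⟨y', hy.1⟩), (q, ⟨y, hy.2⟩)), ⟨g, Finsupp.mem_support_iff.2 h⟩, rfl⟩))
      · rw [cf, ent_fsG] at h ⊢
        by_cases h1 : y' = y ∧ p = q ∧ P p
        · obtain ⟨rfl, rfl, hP⟩ := h1
          rw [glE_out (fun h => hy ⟨h, h⟩) hP] at h ⊢
          refine Submodule.span_mono ?_ (coeff_one_mem g)
          exact Set.singleton_subset_iff.2 (Or.inl rfl)
        · rw [glE_ne (not_and_or.1 hy) h1, MonoidAlgebra.coeff_zero]
          exact Submodule.zero_mem _

/-- `fsG` over the ring of a system. -/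
private noncomputable def fsU [Finite N] (s : Finset Y)
    (a : Matrix (N × s) (N × s) (MonoidAlgebra k Γ)) (P : N → Prop)
    (ha : Resp (fun i : N × s => S.base i.2) (fun i : N × s => S.base i.2) a) :
    Matrix N N (U Γ k S) := Matrix.of fun p q => ⟨fsG s a P p q, fsG_mem S s a P ha p q⟩

private theorem fs_injU {N M : Type} {A B : Matrix N M (U Γ k S)} (h : mcf A = mcf B) : A = B :=
  Matrix.ext fun i j => Subtype.ext (congrFun (congrFun h i) j)

private theorem fs_mulU {N : Type} [Fintype N] (A B : Matrix N N (U Γ k S)) :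
    mcf (A * B) = mcf A * mcf B := Matrix.map_mul (f := (U Γ k S).subtype)

private theorem fs_oneU {N : Type} [DecidableEq N] :
    mcf (1 : Matrix N N (U Γ k S)) = 1 :=
  Matrix.map_one (U Γ k S).subtype (map_zero _) (map_one _)

variable {S}

open Classical in
private theorem fs_ent_pj {N : Type} (P : N → Prop) (i j : N) (y' y : Y) :
    ent ((CC.pj P : Matrix N N (U Γ k S)) i j).1 y' y =
      if y' = y ∧ i = j ∧ P i then 1 else 0 := by
  by_cases h : i = j ∧ P i
  · have h1 : ((CC.pj P : Matrix N N (U Γ k S)) i j) = 1 := if_pos h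
    rw [h1]
    change ent (1 : CF Y (MonoidAlgebra k Γ)) y' y = _
    rw [ent_one]
    by_cases hy : y' = y
    · rw [if_pos hy, if_pos ⟨hy, h⟩]
    · rw [if_neg hy, if_neg fun h' => hy h'.1]
  · rw [CC.pj_apply_neg h, if_neg fun h' => h h'.2]
    rfl

/-- Removal of the infinite part. -/
private theorem fs_rem {n : Type} [Fintype n] [DecidableEq n] (P : n → Prop)
    (e : Matrix n n (U Γ k S)) (he : e * e = e) (s : Finset Y)
    (hs : ∀ i j y' y, ent (e i j - (CC.pj P : Matrix n n (U Γ k S)) i j).1 y' y ≠ 0 → y' ∈ s) :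
    ∃ v v' e1 : Matrix n n (U Γ k S), v * v' = 1 ∧ v' * v = 1 ∧ CC.MC (J Γ k S 0) v 1 ∧
      v * e * v' = e1 ∧ e1 * e1 = e1 ∧
      (∀ i j y' y, y' ∈ s → y ∉ s → ent (e1 i j).1 y' y = 0) ∧
      ∀ i j y' y, y' ∉ s → ent (e1 i j).1 y' y =
        ent ((CC.pj P : Matrix n n (U Γ k S)) i j).1 y' y := by
  classical
  obtain ⟨q, hqd⟩ : ∃ q : Matrix n n (U Γ k S), q = Matrix.diagonal fun _ =>
    prU Γ k S (s : Set Y) := ⟨_, rfl⟩
  have hq : q * q = q := by
    rw [hqd, Matrix.diagonal_mul_diagonal]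
    simp only [prU_mul_self]
  have hpq : (CC.pj P : Matrix n n (U Γ k S)) * q = q * CC.pj P := by
    refine Matrix.ext fun i j => ?_
    rw [hqd, Matrix.mul_diagonal, Matrix.diagonal_mul]
    by_cases h : i = j ∧ P i
    · have h1 : ((CC.pj P : Matrix n n (U Γ k S)) i j) = 1 := if_pos h
      rw [h1, one_mul, mul_one]
    · rw [CC.pj_apply_neg h, zero_mul, mul_zero]
  have hqx : q * (e - CC.pj P) = e - CC.pj P := by
    refine Matrix.ext fun i j => Subtype.ext (ent_ext fun y' y => ?_)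
    rw [hqd, Matrix.diagonal_mul]
    change ent (prK (MonoidAlgebra k Γ) (s : Set Y) * _) y' y = _
    rw [ent_prK_mul]
    by_cases hy : y' ∈ (s : Set Y)
    · rw [if_pos hy]
    · rw [if_neg hy]
      by_contra hne
      exact hy (hs i j y' y (Ne.symm hne))
  have h1 : (1 - q) * e = (1 - q) * CC.pj P := by
    rw [← sub_eq_zero, ← mul_sub, sub_mul, hqx, one_mul, sub_self]
  obtain ⟨N, hN1, hN2, hN3⟩ := fs_uni e (CC.pj P) q he (CC.pj_idem P) hq hpq h1
  have hv1 : (1 - N) * (1 + N) = 1 := by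
    have : (1 - N) * (1 + N) = 1 - N * N := by noncomm_ring
    rw [this, hN2, sub_zero]
  have hv2 : (1 + N) * (1 - N) = 1 := by
    have : (1 + N) * (1 - N) = 1 - N * N := by noncomm_ring
    rw [this, hN2, sub_zero]
  have hent : ∀ i j y' y, ent ((q * e * q + (1 - q) * CC.pj P : Matrix n n (U Γ k S)) i j).1 y' y =
      if y' ∈ s then (if y ∈ s then ent (e i j).1 y' y else 0) else
        ent ((CC.pj P : Matrix n n (U Γ k S)) i j).1 y' y := by
    intro i j y' y
    have h2 : (q * e * q + (1 - q) * CC.pj P : Matrix n n (U Γ k S)) i j =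
        prU Γ k S (s : Set Y) * e i j * prU Γ k S (s : Set Y) +
          (CC.pj P i j - prU Γ k S (s : Set Y) * CC.pj P i j) := by
      rw [sub_mul, one_mul, Matrix.add_apply, Matrix.sub_apply, hqd, Matrix.mul_diagonal,
        Matrix.diagonal_mul, Matrix.diagonal_mul]
    rw [h2]
    change ent (prK (MonoidAlgebra k Γ) (s : Set Y) * (e i j).1 *
      prK (MonoidAlgebra k Γ) (s : Set Y) + ((CC.pj P i j : U Γ k S).1 -
        prK (MonoidAlgebra k Γ) (s : Set Y) * (CC.pj P i j : U Γ k S).1)) y' y = _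
    rw [ent_add, ent_sub, ent_mul_prK, ent_prK_mul, ent_prK_mul]
    simp only [Finset.mem_coe]
    by_cases hy' : y' ∈ s
    · rw [if_pos hy', if_pos hy', if_pos hy', sub_self, add_zero]
    · rw [if_neg hy', if_neg hy', if_neg hy', sub_zero, ite_self, zero_add]
  refine ⟨1 - N, 1 + N, q * e * q + (1 - q) * CC.pj P, hv1, hv2, fun i j => ?_, hN3, ?_, ?_, ?_⟩
  · have h2 : (1 - N : Matrix n n (U Γ k S)) i j - (1 : Matrix n n (U Γ k S)) i j =
        - (prU Γ k S (s : Set Y) * N i j) := by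
      have h3 : N i j = prU Γ k S (s : Set Y) * N i j := by
        conv_lhs => rw [← hN1, hqd, Matrix.diagonal_mul]
      rw [Matrix.sub_apply, ← h3]
      abel
    rw [h2]
    refine (J Γ k S 0).neg_mem ((J Γ k S 0).mul_mem_right _ ?_)
    obtain ⟨h, hh⟩ := S.exists_height s
    exact prU_mem_J h fun y hy => le_of_eq (hh y hy)
  · rw [← hN3]
    calc (1 - N) * e * (1 + N) * ((1 - N) * e * (1 + N))
        = (1 - N) * e * ((1 + N) * (1 - N)) * e * (1 + N) := by simp only [mul_assoc]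
      _ = (1 - N) * e * (1 + N) := by rw [hv2, mul_one, mul_assoc _ e e, he]
  · intro i j y' y hy' hy
    rw [hent, if_pos hy', if_neg hy]
  · intro i j y' y hy'
    rw [hent, if_neg hy']

end Mem

/-! ### The finite step -/

section FS

variable {Y B C Γ k : Type} [Group Γ] [PartialOrder B] [MulAction Γ B] [OrdAct Γ B]
  [PartialOrder C] [MulAction Γ C] [OrdAct Γ C] [CommRing k] {S : FSys Y B C}

/-- The extension of a matrix by `1` respects the base labels. -/
private theorem fs_resp {T : Type} [Fintype T] [DecidableEq T] {Z : Type} [Fintype Z]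
    [DecidableEq Z] {ι : T → Z} (hι : Function.Injective ι) {c : T → B} {d : Z → B}
    (hcd : ∀ t, d (ι t) = c t) {w : Matrix T T (MonoidAlgebra k Γ)} (hw : Resp c c w) :
    Resp d d (ex1 ι w) := by
  intro z z' g hg
  by_cases h : z ∈ Set.range ι ∧ z' ∈ Set.range ι
  · obtain ⟨⟨t, rfl⟩, ⟨t', rfl⟩⟩ := h
    rw [fs_ex1_in hι] at hg
    rw [hcd, hcd]
    exact hw t t' g hg
  · rw [fs_ex1_out _ h] at hg
    by_cases hz : z = z'
    · subst hz
      rw [Matrix.one_apply_eq] at hg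
      rw [coeff_one_ne hg, one_smul]
    · rw [Matrix.one_apply_ne hz, MonoidAlgebra.coeff_zero] at hg
      exact absurd rfl hg

end FS

/-- **Finite step.** -/
theorem fs : S_fs := by
  classical
  intro Y B C Γ k _ _ _ _ _ _ _ _ S hHT n _ _ P e he heP
  obtain ⟨s, hs⟩ : ∃ s : Finset Y, ∀ i j y' y, ent (e i j - (CC.pj P : Matrix n n (U Γ k S)) i j).1
      y' y ≠ 0 → y' ∈ s := by
    choose t ht using fun i j => fs_J0 S (heP i j)
    refine ⟨Finset.univ.biUnion fun i => Finset.univ.biUnion fun j => t i j,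
      fun i j y' y h => ?_⟩
    have h1 := ht i j y' y h
    simp only [Finset.mem_biUnion, Finset.mem_univ, true_and]
    exact ⟨i, j, h1⟩
  obtain ⟨v1, v1', e1, hv1, hv1', hvJ, he1, hee, hin, hout⟩ := fs_rem P e he s hs
  have hs' : ∀ i j y' y, (y' ∉ s ∨ y ∉ s) → ent (e1 i j).1 y' y =
      ent ((CC.pj P : Matrix n n (U Γ k S)) i j).1 y' y := by
    intro i j y' y h
    by_cases hy' : y' ∈ s
    · have hy : y ∉ s := h.resolve_left fun h1 => h1 hy'
      rw [hin i j y' y hy' hy, fs_ent_pj, if_neg]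
      rintro ⟨rfl, _⟩
      exact hy hy'
    · exact hout i j y' y hy'
  -- the block of `e1`
  let q : Matrix (n × s) (n × s) (MonoidAlgebra k Γ) :=
    Matrix.of fun i j => ent (e1 i.1 j.1).1 i.2 j.2
  have heq : mcf e1 = fsG s q P := by
    refine eq_fsG s (mcf e1) P (fun p p' y' y h1 h2 => ?_) fun p y hy hP => ?_
    · change ent (e1 p p').1 y' y = 0
      rw [hs' p p' y' y h1, fs_ent_pj, if_neg h2]
    · change ent (e1 p p).1 y y = 1
      rw [hs' p p y y (Or.inl hy), fs_ent_pj, if_pos ⟨rfl, rfl, hP⟩]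
  have hqq : q * q = q := by
    have h1 : fsG s (q * q) (fun i => P i ∧ P i) = fsG s q P := by
      rw [← fsG_mul, ← heq, ← fs_mulU, hee]
    exact fsG_inj h1
  have hLq : Resp (fun i : n × s => S.base i.2) (fun i : n × s => S.base i.2) q :=
    fun i j g hg => (e1 i.1 j.1).2.1 g i.2 j.2 hg
  obtain ⟨m, _, _, c', s', _, t, _, u, v, hu, hv, huv, hvu, hconj⟩ :=
    hHT (n × s) (fun i => (i.2 : Y)) q hLq hqq
  let s2 : Finset Y := s ∪ Finset.univ.image c'
  have hsub : ∀ y, y ∈ s → y ∈ s2 := fun y hy => Finset.mem_union_left _ hy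
  have hc2 : ∀ j, c' j ∈ s2 := fun j =>
    Finset.mem_union_right _ (Finset.mem_image_of_mem _ (Finset.mem_univ j))
  have hs2 : ∀ i j y' y, (y' ∉ s2 ∨ y ∉ s2) → ent (e1 i j).1 y' y =
      ent ((CC.pj P : Matrix n n (U Γ k S)) i j).1 y' y := fun i j y' y h =>
    hs' i j y' y (h.imp (fun h1 h2 => h1 (hsub _ h2)) fun h1 h2 => h1 (hsub _ h2))
  let ι : n × s ⊕ m → (n ⊕ m) × s2 :=
    Sum.elim (fun z => (Sum.inl z.1, ⟨z.2.1, hsub _ z.2.2⟩)) fun a => (Sum.inr a, ⟨c' a, hc2 a⟩)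
  have hι : Function.Injective ι := by
    rintro (⟨i, y⟩ | a) (⟨i', y'⟩ | a') h
    · have h1 := (Prod.ext_iff.1 h).1
      have h2 := congrArg Subtype.val (Prod.ext_iff.1 h).2
      change Sum.inl i = Sum.inl i' at h1
      change y.1 = y'.1 at h2
      rw [Sum.inl.inj h1, Subtype.ext h2]
    · exact absurd (Prod.ext_iff.1 h).1 Sum.inl_ne_inr
    · exact absurd (Prod.ext_iff.1 h).1 Sum.inr_ne_inl
    · have h1 := (Prod.ext_iff.1 h).1
      change Sum.inr a = Sum.inr a' at h1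
      rw [Sum.inr.inj h1]
  have hl : ∀ x, (fun i : (n ⊕ m) × s2 => S.base i.2) (ι x) =
      (fun i => S.base (Sum.elim (fun i : n × s => (i.2 : Y)) c' i)) x := by
    rintro (⟨i, y⟩ | a) <;> rfl
  have hLu : Resp (fun i : (n ⊕ m) × s2 => S.base i.2) (fun i => S.base i.2) (ex1 ι u) :=
    fs_resp hι hl hu
  have hLv : Resp (fun i : (n ⊕ m) × s2 => S.base i.2) (fun i => S.base i.2) (ex1 ι v) :=
    fs_resp hι hl hv
  -- the block of `e1 ⊕ pj s'`
  let E' : Matrix (n ⊕ m) (n ⊕ m) (U Γ k S) := fromBlocks e1 0 0 (CC.pj s')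
  let b : Matrix ((n ⊕ m) × s2) ((n ⊕ m) × s2) (MonoidAlgebra k Γ) :=
    Matrix.of fun i j => ent (E' i.1 j.1).1 i.2 j.2
  let q' : Matrix (n × s ⊕ m) (n × s ⊕ m) (MonoidAlgebra k Γ) :=
    fromBlocks q 0 0 (diagonal fun j => if s' j then 1 else 0)
  let B0 : Matrix ((n ⊕ m) × s2) ((n ⊕ m) × s2) (MonoidAlgebra k Γ) :=
    diagonal fun z => if z ∉ Set.range ι ∧ Sum.elim P s' z.1 then 1 else 0
  have hd1 : ∀ z, B0 z z = if z ∉ Set.range ι ∧ Sum.elim P s' z.1 then 1 else 0 :=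
    fun z => diagonal_apply_eq _ _
  have hd2 : ∀ z z', z ≠ z' → B0 z z' = 0 := fun z z' h => diagonal_apply_ne _ h
  have hB1 : ∀ x x', b (ι x) (ι x') = q' x x' := by
    rintro (⟨i, y⟩ | a) (⟨i', y'⟩ | a')
    · rfl
    · rfl
    · rfl
    · change ent ((CC.pj s' : Matrix m m (U Γ k S)) a a').1 (c' a) (c' a') =
        (diagonal fun j => if s' j then (1 : MonoidAlgebra k Γ) else 0) a a'
      rw [fs_ent_pj]
      by_cases h : a = a'
      · subst h
        rw [diagonal_apply_eq]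
        by_cases hR : s' a
        · rw [if_pos ⟨rfl, rfl, hR⟩, if_pos hR]
        · rw [if_neg fun h' => hR h'.2.2, if_neg hR]
      · rw [diagonal_apply_ne _ h, if_neg fun h' => h h'.2.1]
  have hB2 : ∀ z z', ¬ (z ∈ Set.range ι ∧ z' ∈ Set.range ι) → b z z' = B0 z z' := by
    rintro ⟨i | c, y⟩ ⟨i' | c2, y'⟩ h
    · change ent (e1 i i').1 y y' = _
      have h1 : (y.1 ∉ s ∨ y'.1 ∉ s) := by
        by_contra hn
        push Not at hn
        exact h ⟨⟨Sum.inl (i, ⟨y.1, hn.1⟩), rfl⟩, ⟨Sum.inl (i', ⟨y'.1, hn.2⟩), rfl⟩⟩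
      rw [hs' i i' y y' h1, fs_ent_pj]
      by_cases hz : i = i' ∧ y = y'
      · obtain ⟨rfl, rfl⟩ := hz
        have hz1 : ((Sum.inl i, y) : (n ⊕ m) × s2) ∉ Set.range ι := fun h' => h ⟨h', h'⟩
        rw [hd1]
        by_cases hR : P i
        · rw [if_pos ⟨rfl, rfl, hR⟩, if_pos ⟨hz1, hR⟩]
        · rw [if_neg fun h' => hR h'.2.2, if_neg fun h' => hR h'.2]
      · rw [if_neg fun h' => hz ⟨h'.2.1, Subtype.ext h'.1⟩]
        refine (hd2 _ _ fun h' => hz ?_).symm
        exact ⟨Sum.inl.inj (Prod.ext_iff.1 h').1, (Prod.ext_iff.1 h').2⟩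
    · change ent (0 : CF Y (MonoidAlgebra k Γ)) y y' = _
      rw [ent_zero]
      exact (hd2 _ _ fun h' => absurd (Prod.ext_iff.1 h').1 Sum.inl_ne_inr).symm
    · change ent (0 : CF Y (MonoidAlgebra k Γ)) y y' = _
      rw [ent_zero]
      exact (hd2 _ _ fun h' => absurd (Prod.ext_iff.1 h').1 Sum.inr_ne_inl).symm
    · change ent ((CC.pj s' : Matrix m m (U Γ k S)) c c2).1 y y' = _
      rw [fs_ent_pj]
      by_cases hz : c = c2 ∧ y = y'
      · obtain ⟨rfl, rfl⟩ := hz
        have hz1 : ((Sum.inr c, y) : (n ⊕ m) × s2) ∉ Set.range ι := fun h' => h ⟨h', h'⟩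
        rw [hd1]
        by_cases hR : s' c
        · rw [if_pos ⟨rfl, rfl, hR⟩, if_pos ⟨hz1, hR⟩]
        · rw [if_neg fun h' => hR h'.2.2, if_neg fun h' => hR h'.2]
      · rw [if_neg fun h' => hz ⟨h'.2.1, Subtype.ext h'.1⟩]
        refine (hd2 _ _ fun h' => hz ?_).symm
        exact ⟨Sum.inr.inj (Prod.ext_iff.1 h').1, (Prod.ext_iff.1 h').2⟩
  have hB0 : ∀ z z', z ∈ Set.range ι ∨ z' ∈ Set.range ι → B0 z z' = 0 := by
    intro z z' h
    by_cases hz : z = z'
    · subst hz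
      rw [hd1, if_neg fun h' => h'.1 (h.elim id id)]
    · exact hd2 _ _ hz
  have hB : b = ic (MonoidAlgebra k Γ) ι * q' * ir (MonoidAlgebra k Γ) ι + B0 := by
    refine Matrix.ext fun z z' => ?_
    rw [Matrix.add_apply]
    by_cases h : z ∈ Set.range ι ∧ z' ∈ Set.range ι
    · obtain ⟨⟨x, rfl⟩, ⟨x', rfl⟩⟩ := h
      rw [ic_mul_ir _ _ _ _ hι, hB1, hB0 _ _ (Or.inl ⟨x, rfl⟩), add_zero]
    · rw [hB2 z z' h, fs_ic_out h, zero_add]
  have hir0 : ir (MonoidAlgebra k Γ) ι * B0 = 0 := by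
    refine Matrix.ext fun x z => ?_
    rw [Matrix.mul_apply]
    refine Finset.sum_eq_zero fun z' _ => ?_
    rw [ir, Matrix.of_apply]
    by_cases h : z' = ι x
    · rw [hB0 z' z (Or.inl ⟨x, h.symm⟩), mul_zero]
    · rw [if_neg h, zero_mul]
  have hic0 : B0 * ic (MonoidAlgebra k Γ) ι = 0 := by
    refine Matrix.ext fun z x => ?_
    rw [Matrix.mul_apply]
    refine Finset.sum_eq_zero fun z' _ => ?_
    rw [ic, Matrix.of_apply]
    by_cases h : z' = ι x
    · rw [hB0 z z' (Or.inr ⟨x, h.symm⟩), zero_mul]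
    · rw [if_neg h, mul_zero]
  let q1 : Matrix (n × s ⊕ m) (n × s ⊕ m) (MonoidAlgebra k Γ) :=
    diagonal fun i => if t i then 1 else 0
  have hcj : ex1 ι u * b * ex1 ι v = ic (MonoidAlgebra k Γ) ι * q1 *
      ir (MonoidAlgebra k Γ) ι + B0 := by
    rw [hB, fs_ex1_conj hι u v q' B0 hir0 hic0, hconj]
  set D := ic (MonoidAlgebra k Γ) ι * q1 * ir (MonoidAlgebra k Γ) ι + B0 with hDdef
  let Xs : (n ⊕ m) × s2 → Prop := fun z => (∃ x, z = ι x ∧ t x) ∨
    (z ∉ Set.range ι ∧ Sum.elim P s' z.1)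
  have hD1 : ∀ z, Xs z → D z z = 1 := by
    rintro z (⟨x, rfl, hx⟩ | ⟨h1, h2⟩)
    · rw [hDdef, Matrix.add_apply, ic_mul_ir _ _ _ _ hι, hB0 _ _ (Or.inl ⟨_, rfl⟩), add_zero]
      change diagonal _ x x = 1
      rw [diagonal_apply_eq, if_pos hx]
    · rw [hDdef, Matrix.add_apply, fs_ic_out fun h => h1 h.1, zero_add, hd1, if_pos ⟨h1, h2⟩]
  have hD0 : ∀ z z', ¬ (z = z' ∧ Xs z) → D z z' = 0 := by
    intro z z' h
    rw [hDdef, Matrix.add_apply]
    have h1 : (ic (MonoidAlgebra k Γ) ι * q1 * ir (MonoidAlgebra k Γ) ι) z z' = 0 := by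
      by_contra hne
      obtain ⟨x, x', rfl, rfl⟩ := ic_mul_ir_ne hne
      rw [ic_mul_ir _ _ _ _ hι] at hne
      change diagonal _ x x' ≠ 0 at hne
      by_cases hx : x = x'
      · subst hx
        rw [diagonal_apply_eq] at hne
        by_cases ht : t x
        · exact h ⟨rfl, Or.inl ⟨x, rfl, ht⟩⟩
        · exact hne (if_neg ht)
      · exact hne (diagonal_apply_ne _ hx)
    rw [h1, zero_add]
    by_cases hz : z = z'
    · subst hz
      rw [hd1, if_neg fun h' => h ⟨rfl, Or.inr h'⟩]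
    · exact hd2 _ _ hz
  have hEgl : mcf E' = fsG s2 b (Sum.elim P s') := by
    refine eq_fsG s2 (mcf E') (Sum.elim P s') ?_ ?_
    · rintro (i | c) (i' | c2) y' y h1 h2
      · change ent (e1 i i').1 y' y = 0
        rw [hs2 i i' y' y h1, fs_ent_pj, if_neg fun h' => h2 ⟨h'.1, by rw [h'.2.1], h'.2.2⟩]
      · rfl
      · rfl
      · change ent ((CC.pj s' : Matrix m m (U Γ k S)) c c2).1 y' y = 0
        rw [fs_ent_pj, if_neg fun h' => h2 ⟨h'.1, by rw [h'.2.1], h'.2.2⟩]
    · rintro (i | c) y hy hP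
      · change ent (e1 i i).1 y y = 1
        rw [hs2 i i y y (Or.inl hy), fs_ent_pj, if_pos ⟨rfl, rfl, hP⟩]
      · change ent ((CC.pj s' : Matrix m m (U Γ k S)) c c).1 y y = 1
        rw [fs_ent_pj, if_pos ⟨rfl, rfl, hP⟩]
  obtain ⟨w, hw⟩ : ∃ w : Matrix (n ⊕ m) (n ⊕ m) (U Γ k S), mcf w = fsG s2 (ex1 ι u) fun _ => True :=
    ⟨fsU S s2 (ex1 ι u) (fun _ => True) hLu, rfl⟩
  obtain ⟨w', hw'⟩ : ∃ w' : Matrix (n ⊕ m) (n ⊕ m) (U Γ k S),
      mcf w' = fsG s2 (ex1 ι v) fun _ => True :=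
    ⟨fsU S s2 (ex1 ι v) (fun _ => True) hLv, rfl⟩
  have hT : (fun _ : n ⊕ m => True ∧ True) = fun _ => True := by
    funext _
    exact and_self _
  have hww : w * w' = 1 := by
    apply fs_injU
    rw [fs_mulU, fs_oneU, hw, hw', fsG_mul, fs_ex1_mul hι u v huv, hT, fsG_one]
  have hww' : w' * w = 1 := by
    apply fs_injU
    rw [fs_mulU, fs_oneU, hw, hw', fsG_mul, fs_ex1_mul hι v u hvu, hT, fsG_one]
  have hfin : mcf (w * E' * w') = fsG s2 D (Sum.elim P s') := by
    rw [fs_mulU, fs_mulU, hw, hw', hEgl, fsG_mul, fsG_mul, hcj]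
    congr 1
    funext i
    simp
  have hwJ : CC.MC (J Γ k S 0) w 1 := by
    intro i j
    refine fs_J0_of S (s := s2) fun y' y h => ?_
    by_contra hn
    apply h
    change ent ((w i j).1 - ((1 : Matrix (n ⊕ m) (n ⊕ m) (U Γ k S)) i j).1) y' y = 0
    have h1 : ((1 : Matrix (n ⊕ m) (n ⊕ m) (U Γ k S)) i j).1 =
        fsG s2 (1 : Matrix ((n ⊕ m) × s2) ((n ⊕ m) × s2) (MonoidAlgebra k Γ))
          (fun _ => True) i j := by
      rw [fsG_one, ← fs_oneU (S := S)]
      rfl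
    have h2 : (w i j).1 = fsG s2 (ex1 ι u) (fun _ => True) i j := by
      rw [← hw]
      rfl
    rw [ent_sub, h1, h2, ent_fsG, ent_fsG]
    by_cases h3 : y' = y ∧ i = j ∧ True
    · obtain ⟨rfl, rfl, _⟩ := h3
      rw [glE_out hn trivial, glE_out hn trivial, sub_self]
    · rw [glE_ne (Or.inl hn) h3, glE_ne (Or.inl hn) h3, sub_self]
  have hblk : fromBlocks v1 0 0 1 * fromBlocks e 0 0 (CC.pj s') * fromBlocks v1' 0 0 1 = E' := by
    rw [fromBlocks_multiply, fromBlocks_multiply]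
    simp only [Matrix.mul_zero, Matrix.zero_mul, add_zero, zero_add, Matrix.one_mul,
      Matrix.mul_one]
    rw [he1]
  have hbl1 : (fromBlocks v1 0 0 1 : Matrix (n ⊕ m) (n ⊕ m) (U Γ k S)) * fromBlocks v1' 0 0 1 =
      1 := by
    rw [fromBlocks_multiply]
    simp only [Matrix.mul_zero, Matrix.zero_mul, add_zero, zero_add, Matrix.mul_one]
    rw [hv1, fromBlocks_one]
  have hbl2 : (fromBlocks v1' 0 0 1 : Matrix (n ⊕ m) (n ⊕ m) (U Γ k S)) * fromBlocks v1 0 0 1 =
      1 := by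
    rw [fromBlocks_multiply]
    simp only [Matrix.mul_zero, Matrix.zero_mul, add_zero, zero_add, Matrix.mul_one]
    rw [hv1', fromBlocks_one]
  have hblJ : CC.MC (J Γ k S 0) (fromBlocks v1 0 0 1 : Matrix (n ⊕ m) (n ⊕ m) (U Γ k S)) 1 := by
    rw [← fromBlocks_one]
    exact CC.MC.fromBlocks hvJ (CC.MC.refl _) (CC.MC.refl _) (CC.MC.refl _)
  generalize (fromBlocks v1 0 0 1 : Matrix (n ⊕ m) (n ⊕ m) (U Γ k S)) = z at hblk hbl1 hbl2 hblJ
  generalize (fromBlocks v1' 0 0 1 : Matrix (n ⊕ m) (n ⊕ m) (U Γ k S)) = z' at hblk hbl1 hbl2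
  have htot : w * z * fromBlocks e 0 0 (CC.pj s') * (z' * w') = w * E' * w' := by
    rw [← hblk]
    simp only [Matrix.mul_assoc]
  refine ⟨m, inferInstance, inferInstance, s', w * z, z' * w', s2,
    fun p => {y | (∃ h : y ∈ s2, Xs (p, ⟨y, h⟩)) ∨ (y ∉ s2 ∧ Sum.elim P s' p)}, ?_, ?_, ?_, ?_, ?_⟩
  · calc w * z * (z' * w') = w * (z * z') * w' := by simp only [Matrix.mul_assoc]
      _ = 1 := by rw [hbl1, Matrix.mul_one, hww]
  · calc z' * w' * (w * z) = z' * (w' * w) * z := by simp only [Matrix.mul_assoc]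
      _ = 1 := by rw [hww', Matrix.mul_one, hbl2]
  · have h1 := CC.MC.mul hwJ hblJ
    rwa [Matrix.mul_one] at h1
  · intro p y hy
    constructor
    · rintro (⟨h, _⟩ | ⟨_, h⟩)
      · exact absurd h hy
      · exact h
    · intro h
      exact Or.inr ⟨hy, h⟩
  · intro p p' y' y
    rw [htot]
    have h1 : ent ((w * E' * w') p p').1 y' y = glE s2 D (Sum.elim P s') p p' y' y := by
      rw [← ent_fsG, ← hfin]
      rfl
    constructor
    · rintro ⟨rfl, rfl, h | ⟨h2, h3⟩⟩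
      · obtain ⟨h2, h3⟩ := h
        rw [h1, glE_in h2 h2]
        exact hD1 _ h3
      · rw [h1, glE_out h2 h3]
    · intro h
      rw [h1]
      by_cases hy : y' ∈ s2 ∧ y ∈ s2
      · rw [glE_in hy.1 hy.2]
        refine hD0 _ _ fun h2 => h ?_
        obtain ⟨h3, h4⟩ := h2
        have h5 := (Prod.ext_iff.1 h3).1
        have h6 : y' = y := congrArg Subtype.val (Prod.ext_iff.1 h3).2
        change p = p' at h5
        subst h5
        subst h6
        exact ⟨rfl, rfl, Or.inl ⟨hy.2, h4⟩⟩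
      · refine glE_ne (not_and_or.1 hy) fun h2 => h ⟨h2.2.1, h2.1, Or.inr ⟨?_, ?_⟩⟩
        · obtain ⟨rfl, _, _⟩ := h2
          exact fun h => hy ⟨h, h⟩
        · exact h2.2.2

end Pool.Agent.FL
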