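import Pool.Agent.Lib.MP_8f66f0_al_FL.Spec

/-!
# Project GLn: forgetting the finer base labels of a full subsystem (`S_fl`)
-/

set_option autoImplicit false
set_option linter.unusedSectionVars false

namespace Pool.Agent.FL

open Matrix
open Pool.Agent.CC (KR Cg Ex Spc Gen Flq Kil KilM)

namespace FlAux

section Gen

variable {R S : Type} [Ring R] [Ring S] (ε : S →ₙ+* R) {n : Type} [DecidableEq n]

private theorem Ex_one : Ex ε (1 : Matrix n n S) = 1 := by
  rw [Ex, sub_self]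
  ext i j
  simp

private theorem Ex_mul [Fintype n] (a b : Matrix n n S) : Ex ε (a * b) = Ex ε a * Ex ε b := by
  have h1 : ∀ x y : Matrix n n S, (x * y).map ε = x.map ε * y.map ε := fun x y => by
    ext i j
    simp only [Matrix.map_apply, Matrix.mul_apply, map_sum, map_mul]
  have h2 : ∀ x y : Matrix n n S, (x + y).map ε = x.map ε + y.map ε := fun x y => by
    ext i j
    simp only [Matrix.map_apply, Matrix.add_apply, map_add]
  have h3 : a * b - 1 = (a - 1) + (b - 1) + (a - 1) * (b - 1) := by noncomm_ring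
  rw [Ex, Ex, Ex, h3, h2, h2, h1]
  noncomm_ring

private theorem Ex_unit [Fintype n] {a : Matrix n n S} (ha : IsUnit a) : IsUnit (Ex ε a) := by
  obtain ⟨u, rfl⟩ := ha
  refine ⟨⟨Ex ε u.val, Ex ε u.inv, ?_, ?_⟩, rfl⟩
  · rw [← Ex_mul, u.val_inv, Ex_one]
  · rw [← Ex_mul, u.inv_val, Ex_one]

end Gen

section Push

variable {Y Y0 A : Type} [Ring A] {i : Y0 → Y} (hi : Function.Injective i)

private theorem push_JR {z : CF Y0 A} (hz : z ∈ JR Y0 A) : push hi z ∈ JR Y A := by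
  rw [mem_JR] at hz ⊢
  refine (hz.image i).subset ?_
  rintro y' ⟨y, hy⟩
  obtain ⟨a, b, h1, _, h3⟩ := ent_push_ne hi hy
  exact ⟨a, ⟨b, h3⟩, h1⟩

/-- The ray in the bigger set of objects. -/
private def emb (ρ : ℕ ↪ Y0) : ℕ ↪ Y := ρ.trans ⟨i, hi⟩

private theorem emb_apply (ρ : ℕ ↪ Y0) (n : ℕ) : emb hi ρ n = i (ρ n) := rfl

private theorem shM_in (ρ : ℕ ↪ Y0) (x : Y0) : shM (emb hi ρ) (i x) = i (shM ρ x) := by
  by_cases hx : ∃ n, x = ρ n
  · obtain ⟨n, rfl⟩ := hx
    rw [shM_ray, ← emb_apply hi ρ n, shM_ray, emb_apply]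
  · rw [shM_out ρ hx, shM_out]
    rintro ⟨n, hn⟩
    exact hx ⟨n, hi hn⟩

private theorem shM_notin (ρ : ℕ ↪ Y0) {x y : Y}
    (h : ¬ ((∃ y0, i y0 = y) ∧ ∃ x0, i x0 = x)) : shM (emb hi ρ) x = y ↔ x = y := by
  by_cases hx : ∃ x0, i x0 = x
  · obtain ⟨x0, rfl⟩ := hx
    rw [shM_in]
    constructor
    · intro h1
      exact absurd ⟨⟨_, h1⟩, x0, rfl⟩ h
    · intro h1
      exact absurd ⟨⟨x0, h1⟩, x0, rfl⟩ h
  · rw [shM_out]
    rintro ⟨n, rfl⟩
    exact hx ⟨ρ n, rfl⟩

private theorem shR_emb (ρ : ℕ ↪ Y0) :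
    shR A (emb hi ρ) = 1 + push hi (shR A ρ - 1) := by
  classical
  refine ent_ext fun y x => ?_
  rw [ent_add, ent_shR, ent_one]
  by_cases h : (∃ y0, i y0 = y) ∧ ∃ x0, i x0 = x
  · obtain ⟨⟨y, rfl⟩, x, rfl⟩ := h
    rw [ent_push, ent_sub, ent_shR, ent_one, if_congr (hi.eq_iff (a := y) (b := x)) rfl rfl,
      shM_in, if_congr (hi.eq_iff (a := shM ρ x) (b := y)) rfl rfl]
    abel
  · have h1 : ent (push hi (shR A ρ - 1)) y x = 0 := by
      by_contra hne
      obtain ⟨a, b, h1, h2, _⟩ := ent_push_ne hi hne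
      exact h ⟨⟨a, h1⟩, b, h2⟩
    rw [h1, add_zero]
    exact if_congr ((shM_notin hi ρ h).trans eq_comm) rfl rfl

private theorem shL_emb (ρ : ℕ ↪ Y0) :
    shL A (emb hi ρ) = 1 + push hi (shL A ρ - 1) := by
  classical
  refine ent_ext fun x y => ?_
  rw [ent_add, ent_shL, ent_one]
  by_cases h : (∃ y0, i y0 = y) ∧ ∃ x0, i x0 = x
  · obtain ⟨⟨y, rfl⟩, x, rfl⟩ := h
    rw [ent_push, ent_sub, ent_shL, ent_one, if_congr (hi.eq_iff (a := x) (b := y)) rfl rfl,
      shM_in, if_congr (hi.eq_iff (a := shM ρ x) (b := y)) rfl rfl]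
    abel
  · have h1 : ent (push hi (shL A ρ - 1)) x y = 0 := by
      by_contra hne
      obtain ⟨a, b, h1, h2, _⟩ := ent_push_ne hi hne
      exact h ⟨⟨b, h2⟩, a, h1⟩
    rw [h1, add_zero]
    exact if_congr (shM_notin hi ρ h) rfl rfl

/-- The shift in the bigger set of objects. -/
private def embO (r : Option (Bool × (ℕ ↪ Y0))) : Option (Bool × (ℕ ↪ Y)) :=
  r.map fun q => (q.1, emb hi q.2)

private theorem shO_emb (r : Option (Bool × (ℕ ↪ Y0))) :
    shO A (embO hi r) = 1 + push hi (shO A r - 1) := by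
  rcases r with _ | ⟨_ | _, ρ⟩
  · change (1 : CF Y A) = 1 + push hi (1 - 1)
    rw [sub_self, map_zero, add_zero]
  · exact shL_emb hi ρ
  · exact shR_emb hi ρ

private theorem dgO_emb {m : Type} [DecidableEq m] (r : m → Option (Bool × (ℕ ↪ Y0))) (a b : m) :
    dgO A (fun l => embO hi (r l)) a b = (1 : Matrix m m (CF Y A)) a b +
      push hi (dgO A r a b - (1 : Matrix m m (CF Y0 A)) a b) := by
  by_cases hab : a = b
  · subst hab
    rw [dgO, dgO, diagonal_apply_eq, diagonal_apply_eq, one_apply_eq, one_apply_eq, shO_emb]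
  · rw [dgO, dgO, diagonal_apply_ne _ hab, diagonal_apply_ne _ hab, one_apply_ne hab,
      one_apply_ne hab, sub_zero, map_zero, add_zero]

end Push

section Cf

variable {Y Y0 k Γ m : Type} [CommRing k] [Group Γ] [DecidableEq m] {i : Y0 → Y}
  (hi : Function.Injective i)

open Classical in
private theorem cfI (a b : m) (x : Γ) (y' y : Y) :
    cf ((1 : Matrix m m (CF Y (MonoidAlgebra k Γ))) a b) x y' y =
      if a = b ∧ y' = y ∧ x = 1 then 1 else 0 := by
  by_cases hij : a = b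
  · subst hij
    rw [Matrix.one_apply_eq, cf, ent_one]
    by_cases hy : y' = y
    · rw [if_pos hy, MonoidAlgebra.one_def, MonoidAlgebra.coeff_single, Finsupp.single_apply]
      by_cases hx : x = 1
      · rw [if_pos hx.symm, if_pos ⟨rfl, hy, hx⟩]
      · rw [if_neg fun h => hx h.symm, if_neg fun h => hx h.2.2]
    · rw [if_neg hy, if_neg fun h => hy h.2.1, MonoidAlgebra.coeff_zero]
      rfl
  · rw [Matrix.one_apply_ne hij, cf_zero, if_neg fun h => hij h.1]

/-- The extension by zero, plus `1`. -/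
private noncomputable def Z (w : Matrix m m (CF Y0 (MonoidAlgebra k Γ))) :
    Matrix m m (CF Y (MonoidAlgebra k Γ)) := fun a b =>
  (1 : Matrix m m (CF Y (MonoidAlgebra k Γ))) a b +
    push hi (w a b - (1 : Matrix m m (CF Y0 (MonoidAlgebra k Γ))) a b)

private theorem cf_Z_in (w : Matrix m m (CF Y0 (MonoidAlgebra k Γ))) (a b : m) (x : Γ)
    (y' y : Y0) : cf (Z hi w a b) x (i y') (i y) = cf (w a b) x y' y := by
  classical
  rw [Z, cf_add, cf_push, sub_eq_add_neg, cf_add, cf_neg, cfI, cfI]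
  rw [if_congr (show (a = b ∧ i y' = i y ∧ x = 1) ↔ (a = b ∧ y' = y ∧ x = 1) by rw [hi.eq_iff])
    rfl rfl]
  abel

private theorem cf_Z_out (w : Matrix m m (CF Y0 (MonoidAlgebra k Γ))) (a b : m) (x : Γ)
    (y' y : Y) (hy : ¬ ((∃ y0, i y0 = y') ∧ ∃ x0, i x0 = y)) :
    cf (Z hi w a b) x y' y = cf ((1 : Matrix m m (CF Y (MonoidAlgebra k Γ))) a b) x y' y := by
  rw [Z, cf_add]
  have h1 : cf (push hi (w a b - (1 : Matrix m m (CF Y0 (MonoidAlgebra k Γ))) a b)) x y' y = 0 := by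
    by_contra hne
    obtain ⟨c, d, h1, h2, _⟩ := cf_push_ne hi hne
    exact hy ⟨⟨c, h1⟩, d, h2⟩
  rw [h1, add_zero]

private theorem mon_Z (w : Matrix m m (CF Y0 (MonoidAlgebra k Γ))) (hM : Mon w) :
    Mon (Z hi w) := by
  classical
  obtain ⟨σ, g, hσ⟩ := hM
  have hex : ∀ q : {q : m × Y // ∃ y0, i y0 = q.2}, ∃ y0, i y0 = q.1.2 := fun q => q.2
  let e : m × Y0 ≃ {q : m × Y // ∃ y0, i y0 = q.2} :=
    { toFun := fun q => ⟨(q.1, i q.2), q.2, rfl⟩
      invFun := fun q => (q.1.1, (hex q).choose)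
      left_inv := fun q => Prod.ext rfl
        (hi (hex ⟨(q.1, i q.2), q.2, rfl⟩).choose_spec)
      right_inv := fun q => Subtype.ext (Prod.ext rfl (hex q).choose_spec) }
  have key : ∃ g' : m × Y → Γ, (∀ (j : m) (y : Y0), g' (j, i y) = g (j, y)) ∧
      ∀ (j : m) (y : Y), ¬ (∃ y0, i y0 = y) → g' (j, y) = 1 := by
    refine ⟨fun q => if hq : ∃ y0, i y0 = q.2 then g (q.1, hq.choose) else 1,
      fun j y => ?_, fun j y hy => dif_neg hy⟩
    have hq : ∃ y0, i y0 = i y := ⟨y, rfl⟩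
    change (if hq : ∃ y0, i y0 = i y then g (j, hq.choose) else 1) = _
    rw [dif_pos hq, hi hq.choose_spec]
  obtain ⟨g', hg1, hg2⟩ := key
  refine ⟨σ.extendDomain e, g', fun a b y' y x => ?_⟩
  by_cases hy : ∃ y0, i y0 = y
  · obtain ⟨y, rfl⟩ := hy
    have hs : σ.extendDomain e (b, i y) = ((σ (b, y)).1, i (σ (b, y)).2) :=
      Equiv.Perm.extendDomain_apply_image σ e (b, y)
    rw [hs, hg1 b y]
    by_cases hy' : ∃ y0, i y0 = y'
    · obtain ⟨y', rfl⟩ := hy'
      have h1 := hσ a b y' y x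
      have h3 : ((σ (b, y)).1, i (σ (b, y)).2) = (a, i y') ↔ σ (b, y) = (a, y') := by
        rw [Prod.ext_iff, Prod.ext_iff]
        exact and_congr_right fun _ => hi.eq_iff
      rw [cf_Z_in hi w, h3]
      exact h1
    · have h3 : ¬ ((σ (b, y)).1, i (σ (b, y)).2) = (a, y') := by
        intro h5
        rw [Prod.mk.injEq] at h5
        exact hy' ⟨_, h5.2⟩
      refine ⟨fun h => absurd h.1 h3, fun _ => ?_⟩
      rw [cf_Z_out hi w a b x y' (i y) fun h => hy' h.1, cfI, if_neg]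
      rintro ⟨_, rfl, _⟩
      exact hy' ⟨y, rfl⟩
  · have hs : σ.extendDomain e (b, y) = (b, y) :=
      Equiv.Perm.extendDomain_apply_not_subtype σ e (b := (b, y)) hy
    rw [hs, hg2 b y hy, cf_Z_out hi w a b x y' y fun h => hy h.2, cfI]
    constructor
    · rintro ⟨h1, rfl⟩
      rw [Prod.mk.injEq] at h1
      exact if_pos ⟨h1.1.symm, h1.2.symm, rfl⟩
    · intro h1
      refine if_neg fun h2 => h1 ⟨?_, h2.2.2⟩
      rw [h2.1, h2.2.1]

end Cf

section Over

variable {Y0 Y B B0 C Γ k : Type} [Group Γ] [PartialOrder B] [MulAction Γ B] [OrdAct Γ B]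
    [PartialOrder B0] [MulAction Γ B0] [OrdAct Γ B0] [PartialOrder C] [MulAction Γ C]
    [OrdAct Γ C] [CommRing k] {i : Y0 → Y} {S0 : FSys Y0 B0 C} {S : FSys Y B C}
    (h : Over Γ i S0 S)

include h in
private theorem F_over (t : ℕ) (y : Y0) : S.F t (i y) = S0.F t y := by
  rw [FSys.F, FSys.F, h.A]

include h in
private theorem R_over (t : ℕ) (y : Y0) : S.R t (i y) = S0.R t y := by
  rw [FSys.R, FSys.R, F_over h]

include h in
private theorem push_mem {z : CF Y0 (MonoidAlgebra k Γ)} (hz : z ∈ U Γ k S0) :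
    push h.inj z ∈ U Γ k S := by
  obtain ⟨h1, h2, P, hP, h3⟩ := hz
  refine ⟨fun g y' y hc => ?_, fun h' => ?_, P, hP, fun g y' y => ?_⟩
  · obtain ⟨y', y, rfl, rfl, hd⟩ := cf_push_ne _ hc
    exact h.base g y y' (h1 g y' y hd)
  · obtain ⟨h4, H⟩ := h2 h'
    refine ⟨h4, fun g y' y hc => ?_⟩
    obtain ⟨y', y, rfl, rfl, hd⟩ := cf_push_ne _ hc
    obtain ⟨H1, H2⟩ := H g y' y hd
    refine ⟨?_, fun he hp => ?_⟩
    · rw [R_over h, R_over h]
      exact H1
    · rw [R_over h, R_over h] at he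
      rw [R_over h] at hp ⊢
      rw [h.lab, h.lab]
      exact H2 he hp
  · by_cases hc : cf (push h.inj z) g y' y = 0
    · rw [hc]
      exact P.zero_mem
    · obtain ⟨y', y, rfl, rfl, _⟩ := cf_push_ne _ hc
      rw [cf_push]
      exact h3 g y' y

private theorem ray_over {ρ : ℕ ↪ Y0} (hρ : IsRay S0 ρ) : IsRay S (emb h.inj ρ) where
  mem := by
    rw [emb_apply, F_over h]
    exact hρ.mem
  eq n := by
    rw [emb_apply, emb_apply, h.re (mv n) (gd_mv n), ← hρ.eq n]

end Over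

end FlAux

open FlAux

theorem fl : S_fl := by
  intro Y0 Y B B0 C Γ k _ _ _ _ _ _ _ _ _ _ _ i S0 S h
  let I : U Γ k S0 →ₙ+* U Γ k S :=
    { toFun := fun z => ⟨push h.inj z.1, push_mem h z.2⟩
      map_mul' := fun a c => Subtype.ext (map_mul (push h.inj) a.1 c.1)
      map_zero' := Subtype.ext (map_zero (push h.inj))
      map_add' := fun a c => Subtype.ext (map_add (push h.inj) a.1 c.1) }
  refine ⟨I, fun z => rfl, fun z hz => ?_, ?_⟩
  · exact mem_J_zero.2 (push_JR h.inj (mem_J_zero.1 hz))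
  · intro n _ _ w hw
    obtain ⟨r, hu, hM, hr, hc⟩ := hw
    have hZ : mcf (Ex I w) = Z h.inj (mcf w) := by
      refine Matrix.ext fun a b => ?_
      by_cases hab : a = b
      · subst hab
        simp only [Z, Ex, Matrix.map_apply, Matrix.add_apply, Matrix.sub_apply,
          Matrix.one_apply_eq]
        rfl
      · simp only [Z, Ex, Matrix.map_apply, Matrix.add_apply, Matrix.sub_apply,
          Matrix.one_apply_ne hab]
        rfl
    refine ⟨fun l => embO h.inj (r l), Ex_unit _ hu, ?_, ?_, ?_⟩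
    · rw [hZ]
      exact mon_Z h.inj (mcf w) hM
    · intro l b ρ hl
      obtain ⟨q, hq, hqe⟩ := Option.map_eq_some_iff.1 hl
      rw [Prod.mk.injEq] at hqe
      obtain ⟨-, rfl⟩ := hqe
      exact ray_over h (hr l q.1 q.2 hq)
    · intro a b
      have h1 := push_JR h.inj (hc a b)
      rw [hZ, dgO_emb, Z]
      have h2 : ∀ p q c : CF Y (MonoidAlgebra k Γ), p + q - (p + c) = q - c := fun p q c => by
        abel
      rw [h2, ← map_sub]
      have h3 : ∀ p q c : CF Y0 (MonoidAlgebra k Γ), p - q - (c - q) = p - c := fun p q c => by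
        abel
      rw [h3]
      exact h1

end Pool.Agent.FL
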