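import Pool.Agent.Lib.MP_8f66f0_al_FL.Spec
import Pool.Agent.Lib.MP_8f66f0_al_CC.End.Ext

/-!
# Project GLn: generation (`S_gen1`, `S_genf`)
-/

set_option autoImplicit false
set_option linter.unusedSectionVars false

namespace Pool.Agent.FL

open Pool.Agent.Wald Pool.Agent.Ind Pool.Agent.WaldL Pool.Agent.FH Matrix
open Pool.Agent.CC (Cg Ex Gen cg_ex_map ex_mul ex_one ex_blocks ex_unit)
open scoped Pointwise

section Lad

variable {R : Type} [Ring R] {J' J : Ideal R} {β : Type} [Preorder β] {T : β → Type}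
  [∀ b, Ring (T b)] {I : ∀ b, Ideal (T b)} {ε : ∀ b, T b →ₙ+* R}

private theorem gen_mul {S : Type} [Ring S] (ε : S →ₙ+* R) {n m p : Type} [Fintype m]
    (a : Matrix n m S) (b : Matrix m p S) : (a * b).map ε = a.map ε * b.map ε := by
  ext i j
  simp only [map_apply, mul_apply, map_sum, map_mul]

private theorem gen_ex {S : Type} [Ring S] (ε : S →ₙ+* R) {n : Type} [DecidableEq n]
    (a b : Matrix n n S) (i j : n) : Ex ε a i j - Ex ε b i j = ε (a i j - b i j) := by
  simp only [Ex, Matrix.add_apply, map_apply, Matrix.sub_apply, map_sub]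
  abel

/-- Congruence modulo `I b` can be tested after `ε b`. -/
private theorem gen_ex_cg (hL : LadL R J' J β T I ε) {b : β} {n : Type} [DecidableEq n]
    {a a' : Matrix n n (T b)} : Cg J' (Ex (ε b) a) (Ex (ε b) a') ↔ Cg (I b) a a' := by
  refine forall_congr' fun i => forall_congr' fun j => ?_
  rw [gen_ex, hL.pre]

/-- An invertible matrix which comes from `T b` modulo `J'` comes from a matrix over `T b` which is
invertible modulo `I b`. -/
private theorem gen_inv [J'.IsTwoSided] (hL : LadL R J' J β T I ε) {b : β} {n : Type} [Fintype n]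
    [DecidableEq n] {z y : Matrix n n R} {z' : Matrix n n (T b)} (h1 : z * y = 1)
    (h2 : y * z = 1) (hz : Cg J z 1) (hc : Cg J' z (Ex (ε b) z')) :
    ∃ y' : Matrix n n (T b), Cg J' y (Ex (ε b) y') ∧ Cg (I b) (z' * y') 1 ∧
      Cg (I b) (y' * z') 1 := by
  have hy : Cg J y 1 := hz.inv h2
  choose c hcc using fun p : n × n => hL.cor b (y p.1 p.2 - (1 : Matrix n n R) p.1 p.2) (hy p.1 p.2)
  set D : Matrix n n R := (1 : Matrix n n (T b)).map (ε b) with hD
  set A : Matrix n n R := (z' - 1).map (ε b) with hA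
  have hzA : Cg J' (z - 1) A := fun i j => by
    have := hc i j
    rw [Ex, Matrix.add_apply] at this
    rwa [Matrix.sub_apply, sub_sub]
  have hDA : D * A = A := by rw [hD, hA, ← gen_mul, Matrix.one_mul]
  have hAD : A * D = A := by rw [hD, hA, ← gen_mul, Matrix.mul_one]
  have e1 : Cg J' (D * (z - 1)) (z - 1) := by
    have := hzA.mul_left D
    rw [hDA] at this
    exact this.trans hzA.symm
  have e2 : Cg J' ((z - 1) * D) (z - 1) := by
    have := hzA.mul_right D
    rw [hAD] at this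
    exact this.trans hzA.symm
  have y1 : (z - 1) * (-y) = y - 1 := by
    rw [Matrix.mul_neg, Matrix.sub_mul, h1, Matrix.one_mul, neg_sub]
  have y2 : (-y) * (z - 1) = y - 1 := by
    rw [Matrix.neg_mul, Matrix.mul_sub, h2, Matrix.mul_one, neg_sub]
  have e3 : Cg J' (D * (y - 1)) (y - 1) := by
    have := e1.mul_right (-y)
    rwa [Matrix.mul_assoc, y1] at this
  have e4 : Cg J' ((y - 1) * D) (y - 1) := by
    have := e2.mul_left (-y)
    rwa [← Matrix.mul_assoc, y2] at this
  have e5 : Cg J' (D * (y - 1) * D) (y - 1) := (e3.mul_right D).trans e4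
  have hDd : D = diagonal fun _ => ε b 1 := by
    rw [hD, ← diagonal_one]
    ext i j
    by_cases h : i = j
    · subst h
      simp
    · simp [h]
  have e6 : Cg J' (D * (y - 1) * D) (Matrix.map (fun i j => c (i, j)) (ε b)) := fun i j => by
    rw [hDd, mul_diagonal, diagonal_mul]
    exact hcc (i, j)
  have e7 : Cg J' (y - 1) (Matrix.map (fun i j => c (i, j)) (ε b)) := e5.symm.trans e6
  have e8 := cg_ex_map (ε := ε) e7
  refine ⟨_, e8, ?_, ?_⟩
  · rw [← gen_ex_cg hL, ex_mul, ex_one, ← h1]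
    exact hc.symm.mul e8.symm
  · rw [← gen_ex_cg hL, ex_mul, ex_one, ← h2]
    exact e8.symm.mul hc.symm

end Lad

section Push

variable {Y Y' A : Type} [Ring A] {ι : Y' → Y} (hι : Function.Injective ι)

private theorem gen_push_fin {x : CF Y' A} (hx : x ∈ JR Y' A) : push hι x ∈ JR Y A := by
  refine Set.Finite.subset (Set.Finite.image ι hx) ?_
  rintro v ⟨w, hw⟩
  obtain ⟨a, b, h1, h2, h3⟩ := ent_push_ne hι hw
  exact ⟨a, ⟨b, h3⟩, h1⟩

private theorem gen_push_ext {a : CF Y' A} {b : CF Y A}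
    (h1 : ∀ y x, ent b (ι y) (ι x) = ent a y x)
    (h2 : ∀ y x, (¬ ∃ y', ι y' = y) ∨ (¬ ∃ x', ι x' = x) → ent b y x = ent (1 : CF Y A) y x) :
    1 + push hι (a - 1) = b := by
  classical
  refine ent_ext fun y x => ?_
  rw [ent_add]
  by_cases hc : (∃ y', ι y' = y) ∧ ∃ x', ι x' = x
  · obtain ⟨⟨y', rfl⟩, x', rfl⟩ := hc
    rw [ent_push, ent_sub, h1, ent_one, ent_one]
    simp only [hι.eq_iff]
    abel
  · have h3 : ent (push hι (a - 1)) y x = 0 := by
      by_contra hne
      obtain ⟨y', x', e1, e2, _⟩ := ent_push_ne hι hne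
      exact hc ⟨⟨y', e1⟩, ⟨x', e2⟩⟩
    rw [h3, add_zero, h2 y x (not_and_or.1 hc)]

/-- The shift of the image ray. -/
private def gen_mvR (r : Option (Bool × (ℕ ↪ Y'))) : Option (Bool × (ℕ ↪ Y)) :=
  r.map fun p => (p.1, p.2.trans ⟨ι, hι⟩)

private theorem gen_push_shO (r : Option (Bool × (ℕ ↪ Y'))) :
    1 + push hι (shO A r - 1) = shO A (gen_mvR hι r) := by
  classical
  have hm : ∀ (ρ : ℕ ↪ Y') (a : Y'), shM (ρ.trans ⟨ι, hι⟩) (ι a) = ι (shM ρ a) := by
    intro ρ a
    by_cases h : ∃ n, a = ρ n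
    · obtain ⟨n, rfl⟩ := h
      rw [shM_ray]
      exact shM_ray (ρ.trans ⟨ι, hι⟩) n
    · rw [shM_out ρ h, shM_out]
      rintro ⟨n, hn⟩
      exact h ⟨n, hι hn⟩
  have ho : ∀ (ρ : ℕ ↪ Y') (y : Y), (¬ ∃ y', ι y' = y) → shM (ρ.trans ⟨ι, hι⟩) y = y := by
    intro ρ y hy
    refine shM_out _ ?_
    rintro ⟨n, rfl⟩
    exact hy ⟨ρ n, rfl⟩
  have hb : ∀ (ρ : ℕ ↪ Y') (y x : Y), (¬ ∃ y', ι y' = y) ∨ (¬ ∃ x', ι x' = x) →
      (shM (ρ.trans ⟨ι, hι⟩) x = y ↔ y = x) := by
    intro ρ y x hyx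
    by_cases hx : ∃ x', ι x' = x
    · obtain ⟨x, rfl⟩ := hx
      rw [hm]
      have hy : ¬ ∃ y', ι y' = y := by tauto
      constructor
      · intro h
        exact absurd ⟨_, h⟩ hy
      · intro h
        exact absurd ⟨_, h.symm⟩ hy
    · rw [ho ρ x hx]
      exact eq_comm
  rcases r with _ | ⟨b, ρ⟩
  · change 1 + push hι (1 - 1) = 1
    rw [sub_self, map_zero, add_zero]
  · cases b with
    | true =>
      refine gen_push_ext hι (fun y x => ?_) fun y x hyx => ?_
      · change ent (shR A (ρ.trans ⟨ι, hι⟩)) (ι y) (ι x) = ent (shR A ρ) y x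
        rw [ent_shR, ent_shR, hm]
        simp only [hι.eq_iff]
      · change ent (shR A (ρ.trans ⟨ι, hι⟩)) y x = _
        rw [ent_shR, ent_one]
        exact if_congr (hb ρ y x hyx) rfl rfl
    | false =>
      refine gen_push_ext hι (fun y x => ?_) fun y x hyx => ?_
      · change ent (shL A (ρ.trans ⟨ι, hι⟩)) (ι y) (ι x) = ent (shL A ρ) y x
        rw [ent_shL, ent_shL, hm]
        simp only [hι.eq_iff]
      · change ent (shL A (ρ.trans ⟨ι, hι⟩)) y x = _
        rw [ent_shL, ent_one]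
        exact if_congr ((hb ρ x y hyx.symm).trans eq_comm) rfl rfl

end Push

section Gen

variable {R R' T T' : Type} [Ring R] [Ring R'] [Ring T] [Ring T']

private theorem gen_unit {n m : Type} [Fintype n] [DecidableEq n] [Fintype m]
    [DecidableEq m] {z y : Matrix n n R} (h1 : z * y = 1) (h2 : y * z = 1) :
    IsUnit (fromBlocks z 0 0 (1 : Matrix m m R)) := by
  refine ⟨⟨fromBlocks z 0 0 1, fromBlocks y 0 0 1, ?_, ?_⟩, rfl⟩
  · rw [fromBlocks_multiply, h1]
    simp
  · rw [fromBlocks_multiply, h2]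
    simp

private theorem gen_map_ex (φ : R →+* R') (ψ : T →+* T') (ε : T →ₙ+* R) (ε' : T' →ₙ+* R')
    (h : ∀ x, φ (ε x) = ε' (ψ x)) {n : Type} [DecidableEq n] (a : Matrix n n T) :
    (Ex ε a).map φ = Ex ε' (a.map ψ) := by
  ext i j
  simp only [Ex, map_apply, Matrix.add_apply, Matrix.sub_apply, map_add, h, map_sub]
  congr 1
  · rw [one_apply, one_apply]
    split_ifs <;> simp
  · congr 2
    rw [one_apply, one_apply]
    split_ifs <;> simp

private theorem gen_map_zero (ε : T →ₙ+* R) {n m : Type} :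
    (0 : Matrix n m T).map ε = 0 := by
  ext i j
  simp

private theorem gen_map_mul (φ : R →+* R') {n : Type} [Fintype n] (a b : Matrix n n R) :
    (a * b).map φ = a.map φ * b.map φ := Matrix.map_mul

private theorem gen_map_one (φ : R →+* R') {n : Type} [DecidableEq n] :
    (1 : Matrix n n R).map φ = 1 := Matrix.map_one φ (map_zero φ) (map_one φ)

private theorem gen_map_blocks (φ : R →+* R') {n m : Type} [DecidableEq n] [DecidableEq m]
    (a : Matrix n n R) (b : Matrix m m R) :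
    (fromBlocks a 0 0 b).map φ = fromBlocks (a.map φ) 0 0 (b.map φ) := by
  rw [fromBlocks_map, Matrix.map_zero φ (map_zero φ), Matrix.map_zero φ (map_zero φ)]

private theorem gen_blocks_mul {n m : Type} [Fintype n] [DecidableEq n] [Fintype m]
    [DecidableEq m] {z y : Matrix n n R} (h : y * z = 1) (d : Matrix m m R) :
    fromBlocks y 0 0 (1 : Matrix m m R) * fromBlocks z 0 0 d = fromBlocks 1 0 0 d := by
  rw [fromBlocks_multiply, h]
  simp

end Gen

section CF

variable {Y Y' A : Type} [Ring A] {ι : Y' → Y} (hι : Function.Injective ι)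

private theorem gen_cg_push {n : Type} [DecidableEq n] {a b : Matrix n n (CF Y' A)}
    (h : Cg (JR Y' A) a b) : Cg (JR Y A) (Ex (push hι) a) (Ex (push hι) b) := fun i j => by
  rw [gen_ex]
  exact gen_push_fin hι (h i j)

private theorem gen_push_dgO {m : Type} [DecidableEq m] (r : m → Option (Bool × (ℕ ↪ Y'))) :
    Ex (push hι) (dgO A r) = dgO A fun l => gen_mvR hι (r l) := by
  ext1 i j
  rw [dgO, dgO, Ex, Matrix.add_apply, map_apply, Matrix.sub_apply]
  by_cases hij : i = j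
  · subst hij
    rw [one_apply_eq, one_apply_eq, diagonal_apply_eq, diagonal_apply_eq]
    exact gen_push_shO hι (r i)
  · rw [one_apply_ne hij, one_apply_ne hij, diagonal_apply_ne _ hij, diagonal_apply_ne _ hij,
      sub_zero, map_zero, add_zero]

end CF

section U

variable {Y B C Γ k : Type} [Group Γ] [PartialOrder B] [MulAction Γ B] [OrdAct Γ B]
  [PartialOrder C] [MulAction Γ C] [OrdAct Γ C] [CommRing k]
variable {S : FSys Y B C}

private theorem gen_mcf_ex {f h : ℕ} {n : Type} [DecidableEq n]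
    (a : Matrix n n (U Γ k (S.der f h))) : mcf (Ex (eps Γ k S f h) a) =
      Ex (push (Subtype.val_injective : Function.Injective
        (Subtype.val : {y : Y // S.R h y = f} → Y))) (mcf a) :=
  gen_map_ex (U Γ k S).subtype (U Γ k (S.der f h)).subtype (eps Γ k S f h) _ (fun _ => rfl) a

private theorem gen_cg_mcf {n m : Type} {a b : Matrix n m (U Γ k S)} :
    Cg (J Γ k S 0) a b ↔ Cg (JR Y (MonoidAlgebra k Γ)) (mcf a) (mcf b) :=
  forall_congr' fun i => forall_congr' fun j => by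
    rw [mem_J_zero]
    rfl

private theorem gen_wgt {n m : Type} [Fintype n] [Fintype m]
    (r : m → Option (Bool × (ℕ ↪ Y))) (c : B) :
    wgt Γ S (Sum.elim (fun _ : n => none) r) c = wgt Γ S r c := by
  classical
  rw [wgt, wgt, Fintype.sum_sum_type]
  have e6 : ∀ l : n, (if ∃ b ρ, (Sum.elim (fun _ : n => none) r) (Sum.inl l) = some (b, ρ) ∧
      S.base (ρ 0) ∈ MulAction.orbit Γ c then
      sgn ((Sum.elim (fun _ : n => none) r) (Sum.inl l)) else 0) = 0 := by
    intro l
    rw [if_neg]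
    rintro ⟨b, ρ, h3, _⟩
    exact absurd h3 (by simp)
  rw [Finset.sum_congr rfl fun l _ => e6 l, Finset.sum_const_zero, zero_add]
  rfl

private theorem gen_dgO {A : Type} [Ring A] {n m : Type} [DecidableEq n] [DecidableEq m]
    (r : m → Option (Bool × (ℕ ↪ Y))) :
    dgO A (Sum.elim (fun _ : n => none) r) = fromBlocks 1 0 0 (dgO A r) := by
  rw [dgO, dgO, ← diagonal_one, fromBlocks_diagonal]
  congr 1
  funext l
  rcases l with l | l
  · rfl
  · rfl

private theorem gen_rys {h f : ℕ} {m : Type}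
    {r : m → Option (Bool × (ℕ ↪ {y : Y // S.R h y = f}))} (hr : Rys (S.der f h) r) :
    Rys S fun l => gen_mvR Subtype.val_injective (r l) := by
  intro l b ρ hl
  change (r l).map _ = some (b, ρ) at hl
  rw [Option.map_eq_some_iff] at hl
  obtain ⟨⟨b', ρ'⟩, h3, h4⟩ := hl
  obtain ⟨rfl, rfl⟩ := Prod.ext_iff.1 h4
  exact (hr l b' ρ' h3).der

end U

theorem genf (hlad : S_lad) : S_genf := by
  intro Y B C Γ k _ _ _ _ _ _ _ _ S f hf hLft h n _ _ z z' hz hzJ hzz
  have L : LadS Γ k S f := (hlad Y B C Γ k S f (by omega)).1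
  obtain ⟨⟨z, y, h1, h2⟩, rfl⟩ := hz
  obtain ⟨y', _, ha, hb⟩ := gen_inv L h1 h2 hzJ hzz
  obtain ⟨m, i1, i2, u, hu, hcu⟩ := hLft h n z' y' ha hb
  refine ⟨m, i1, i2, 1, u, rfl, hu, ?_⟩
  have h3 := (gen_ex_cg L (b := h) (a := u) (a' := fromBlocks z' 0 0 1)).2 hcu
  rw [ex_blocks, ex_one, gen_map_zero, gen_map_zero] at h3
  exact Cg.trans (Cg.blocks hzz (Cg.refl _) (Cg.refl _) (Cg.refl _)) h3.symm

theorem gen1 (hlad : S_lad) (hidx : S_idx) (hbal : S_bal) : S_gen1 := by
  intro Y B C Γ k _ _ _ _ _ _ _ _ _ S hLft h n _ _ z z' hz hzJ hzz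
  have L : LadS Γ k S 1 := (hlad Y B C Γ k S 1 le_rfl).1
  obtain ⟨⟨z, y, h1, h2⟩, rfl⟩ := hz
  obtain ⟨y', _, ha, hb⟩ := gen_inv L h1 h2 hzJ hzz
  obtain ⟨m, i1, i2, r, u, hu, hr, hcu⟩ := hLft h n z' y' ha hb
  have hzz' : Cg (JR Y (MonoidAlgebra k Γ)) (mcf z) (mcf (Ex (eps Γ k S 1 h) z')) :=
    gen_cg_mcf.1 hzz
  -- the image of `u`
  have key : Cg (JR Y (MonoidAlgebra k Γ)) (mcf (Ex (eps Γ k S 1 h) u))
      (fromBlocks (mcf z) 0 0 (dgO (MonoidAlgebra k Γ)
        fun l => gen_mvR Subtype.val_injective (r l))) := by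
    have e1 := gen_cg_push (Subtype.val_injective : Function.Injective
        (Subtype.val : {y : Y // S.R h y = 1} → Y)) hcu
    rw [← gen_mcf_ex, ex_blocks, gen_map_zero, gen_map_zero, gen_push_dgO, ← gen_mcf_ex] at e1
    exact e1.trans (Cg.blocks hzz'.symm (Cg.refl _) (Cg.refl _) (Cg.refl _))
  -- the index
  have hw : ∀ c, wgt Γ S (fun l => gen_mvR Subtype.val_injective (r l)) c = 0 := by
    intro c
    have hR2 : Rys S (Sum.elim (fun _ : n => none)
        (fun l => gen_mvR Subtype.val_injective (r l))) := by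
      rintro (l | l) b ρ hl
      · exact absurd hl (by simp)
      · exact gen_rys hr l b ρ hl
    have e2 : mcf y * mcf z = 1 := by
      have e3 : mcf (y * z) = mcf y * mcf z := gen_map_mul (U Γ k S).subtype y z
      rw [← e3, h2]
      exact gen_map_one (U Γ k S).subtype
    have e4 : Cg (JR Y (MonoidAlgebra k Γ))
        (mcf (fromBlocks y 0 0 (1 : Matrix m m (U Γ k S)) * Ex (eps Γ k S 1 h) u))
        (dgO (MonoidAlgebra k Γ) (Sum.elim (fun _ : n => none)
          (fun l => gen_mvR Subtype.val_injective (r l)))) := by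
      have e5 := key.mul_left (fromBlocks (mcf y) 0 0 (1 : Matrix m m (CF Y (MonoidAlgebra k Γ))))
      rw [gen_blocks_mul e2, ← gen_dgO] at e5
      have e6 : mcf (fromBlocks y 0 0 (1 : Matrix m m (U Γ k S)) * Ex (eps Γ k S 1 h) u) =
          fromBlocks (mcf y) 0 0 (1 : Matrix m m (CF Y (MonoidAlgebra k Γ))) *
            mcf (Ex (eps Γ k S 1 h) u) := by
        have e7 := gen_map_mul (U Γ k S).subtype (fromBlocks y 0 0 (1 : Matrix m m (U Γ k S)))
          (Ex (eps Γ k S 1 h) u)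
        rw [gen_map_blocks, gen_map_one] at e7
        exact e7
      rw [e6]
      exact e5
    have e5 := hidx Y B C Γ k S (n ⊕ m) _ _ hR2
      ((gen_unit h2 h1).mul (ex_unit (eps Γ k S 1 h) hu)) e4 c
    rwa [gen_wgt] at e5
  obtain ⟨w, hw⟩ := hbal Y B C Γ k S m _ (gen_rys hr) hw
  refine ⟨m, i1, i2, w, u, ⟨_, hw⟩, hu, ?_⟩
  refine gen_cg_mcf.2 ?_
  have h5 : Cg (JR Y (MonoidAlgebra k Γ)) (fromBlocks (mcf z) 0 0 (mcf w))
      (mcf (Ex (eps Γ k S 1 h) u)) :=
    (Cg.blocks (Cg.refl _) (Cg.refl _) (Cg.refl _) hw.2.2.2).trans key.symm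
  have h6 : mcf (fromBlocks z 0 0 w) = fromBlocks (mcf z) 0 0 (mcf w) :=
    gen_map_blocks (U Γ k S).subtype z w
  rw [h6]
  exact h5

end Pool.Agent.FL
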