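import Pool.Agent.Lib.MP_8f66f0_al_FL.Spec
import Pool.Agent.Lib.MP_8f66f0_al_CC.End.Nk

/-!
# Project GLn, part D: the homotopy on `U`

Port of `MP_8f66f0_al_CC/End/HomU.lean` to flag systems. `S_M1K` over `L[t]` for the quotient of the two
invariants; the finite blocks by `CC.nk`.
-/

set_option autoImplicit false

namespace Pool.Agent.FL

open Pool.Agent.Wald Pool.Agent.Ind Pool.Agent.WaldL Pool.Agent.FH Matrix
open Pool.Agent.BB Pool.Agent.GLC
open Pool.Agent.CC (KR Cg Ex Spc Gen Flq Kil KilM)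
open scoped Pointwise Polynomial

section Fin

variable {Y A : Type} [Ring A]

/-- A finite set of rows of a matrix which is `1` up to finitely many rows. -/
private theorem hu_spp {n : Type} [Finite n] [DecidableEq n] (z : Matrix n n (CF Y A))
    (hz : Cg (JR Y A) z 1) : ∃ s : Finset Y, Spp s z := by
  classical
  have h1 : (⋃ p : n × n, ({y' : Y | ∃ y, ent (z p.1 p.2 - (1 : Matrix n n (CF Y A)) p.1 p.2)
      y' y ≠ 0} : Set Y)).Finite :=
    Set.finite_iUnion fun p => (mem_JR Y A _).1 (hz p.1 p.2)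
  refine ⟨h1.toFinset, fun i j y' y h => ?_⟩
  rw [Set.Finite.mem_toFinset, Set.mem_iUnion]
  exact ⟨(i, j), y, h⟩

variable {m : Type}

private theorem hu_sum {ι : Type} (t : Finset ι) (S : ι → CF Y A) (y x : Y) :
    ent (∑ i ∈ t, S i) y x = ∑ i ∈ t, ent (S i) y x := by
  classical
  induction t using Finset.induction_on with
  | empty => rw [Finset.sum_empty, Finset.sum_empty, ent_zero]
  | insert a t ha ih => rw [Finset.sum_insert ha, Finset.sum_insert ha, ent_add, ih]

private theorem hu_one [DecidableEq m] {i j : m} {y' y : Y}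
    (h : ent ((1 : Matrix m m (CF Y A)) i j) y' y ≠ 0) : i = j ∧ y' = y := by
  classical
  by_cases hij : i = j
  · subst hij
    rw [one_apply_eq, ent_one] at h
    refine ⟨rfl, ?_⟩
    by_contra hy
    exact h (if_neg hy)
  · rw [one_apply_ne hij, ent_zero] at h
    exact absurd rfl h

private theorem hu_sup [DecidableEq m] {s : Finset Y} {z : Matrix m m (CF Y A)}
    (hz : Spp s z) {i j : m} {y' y : Y} (hy : y ∈ s) (h : ent (z i j) y' y ≠ 0) : y' ∈ s := by
  by_contra hy'
  have h0 : ent (z i j - (1 : Matrix m m (CF Y A)) i j) y' y = 0 := by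
    by_contra h'
    exact hy' (hz i j y' y h')
  rw [ent_sub, sub_eq_zero] at h0
  rw [h0] at h
  exact hy' (by rw [(hu_one h).2]; exact hy)

variable [Fintype m]

private theorem hu_ex {z w : Matrix m m (CF Y A)} {i j : m} {y' y : Y}
    (h : ent ((z * w) i j) y' y ≠ 0) :
    ∃ k v, ent (z i k) y' v ≠ 0 ∧ ent (w k j) v y ≠ 0 := by
  rw [mul_apply, hu_sum] at h
  obtain ⟨k, -, hk⟩ := Finset.exists_ne_zero_of_sum_ne_zero h
  obtain ⟨v, hv⟩ := exists_of_ent_mul hk
  exact ⟨k, v, left_ne_zero_of_mul hv, right_ne_zero_of_mul hv⟩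

private theorem hu_inv [DecidableEq m] {s : Finset Y} {z z' : Matrix m m (CF Y A)}
    (hz : Spp s z) (h1 : z * z' = 1) : Spp s z' := by
  intro i j y' y h
  have e2 : z' - 1 = -((z - 1) * z') := by rw [sub_mul, h1, one_mul, neg_sub]
  have h3 : ent ((z' - 1) i j) y' y ≠ 0 := h
  rw [e2, Matrix.neg_apply, ent_neg, neg_ne_zero] at h3
  obtain ⟨k, v, hv, -⟩ := hu_ex h3
  exact hz i k y' v hv

private theorem hu_mul [DecidableEq m] {s : Finset Y} (z : Matrix m m (CF Y A))
    {w : Matrix m m (CF Y A)} (hw : Spp s w) : blk s z * blk s w = blk s (z * w) := by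
  ext p q
  rw [mul_apply, Fintype.sum_prod_type]
  change _ = ent ((z * w) p.1 q.1) p.2 q.2
  rw [mul_apply, hu_sum]
  refine Finset.sum_congr rfl fun k _ => ?_
  rw [ent_mul_col _ _ _ _ s fun v hv => hu_sup hw q.2.2 hv]
  exact Finset.sum_coe_sort s fun v => ent (z p.1 k) (p.2 : Y) v * ent (w k q.1) v (q.2 : Y)

omit [Fintype m] in
private theorem hu_blk [DecidableEq m] [DecidableEq Y] (s : Finset Y) :
    blk s (1 : Matrix m m (CF Y A)) = 1 := by
  ext p q
  change ent ((1 : Matrix m m (CF Y A)) p.1 q.1) p.2 q.2 = _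
  by_cases h : p = q
  · subst h
    rw [one_apply_eq, one_apply_eq, ent_one, if_pos rfl]
  · rw [one_apply_ne h]
    by_contra h'
    obtain ⟨h1, h2⟩ := hu_one h'
    exact h (Prod.ext h1 (Subtype.ext h2))

/-- The block of an invertible matrix is invertible. -/
private theorem hu_unit [DecidableEq m] [DecidableEq Y] {s : Finset Y}
    {z : Matrix m m (CF Y A)} (hz : IsUnit z) (hs : Spp s z) : IsUnit (blk s z) := by
  obtain ⟨u, rfl⟩ := hz
  have hs' : Spp s ((u⁻¹ : (Matrix m m (CF Y A))ˣ) : Matrix m m (CF Y A)) :=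
    hu_inv hs u.mul_inv
  exact ⟨⟨blk s u.1, blk s (u⁻¹).1, by rw [hu_mul _ hs', u.mul_inv, hu_blk],
    by rw [hu_mul _ hs, u.inv_mul, hu_blk]⟩, rfl⟩

end Fin

section Rg

variable {Y A A' : Type} [Ring A] [Ring A'] (ψ : A →+* A')

private theorem hu_dg {m : Type} [DecidableEq m] (r : m → Option (Bool × (ℕ ↪ Y))) (i j : m)
    (y' y : Y) : ent (dgO A' r i j) y' y = ψ (ent (dgO A r i j) y' y) := by
  classical
  rw [dgO, dgO]
  by_cases hij : i = j
  · subst hij
    rw [diagonal_apply_eq, diagonal_apply_eq]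
    rcases r i with _ | ⟨b, ρ⟩
    · change ent (1 : CF Y _) y' y = ψ (ent (1 : CF Y _) y' y)
      rw [ent_one, ent_one, apply_ite ψ, map_one, map_zero]
    · cases b
      · change ent (shL _ ρ) y' y = ψ (ent (shL _ ρ) y' y)
        rw [ent_shL, ent_shL, apply_ite ψ, map_one, map_zero]
      · change ent (shR _ ρ) y' y = ψ (ent (shR _ ρ) y' y)
        rw [ent_shR, ent_shR, apply_ite ψ, map_one, map_zero]
  · rw [diagonal_apply_ne _ hij, diagonal_apply_ne _ hij, ent_zero, ent_zero, map_zero]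

private theorem hu_sub0 {m : Type} [DecidableEq m] (r : m → Option (Bool × (ℕ ↪ Y))) {i j : m}
    {a : CF Y A} {a' : CF Y A'} {y' y : Y} (h1 : ent a' y' y = ψ (ent a y' y))
    (h : ent (a' - dgO A' r i j) y' y ≠ 0) : ent (a - dgO A r i j) y' y ≠ 0 := by
  intro h0
  rw [ent_sub] at h h0
  refine h ?_
  rw [h1, hu_dg ψ, ← map_sub, h0, map_zero]

private theorem hu_none {m : Type} [DecidableEq m] : (1 : Matrix m m (CF Y A)) =
    dgO A fun _ => none := diagonal_one.symm

end Rg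

section Bc

variable {Y B C Γ k k' : Type} [Group Γ] [PartialOrder B] [MulAction Γ B] [OrdAct Γ B]
  [PartialOrder C] [MulAction Γ C] [OrdAct Γ C] [CommRing k] [CommRing k'] {S : FSys Y B C}
  {φ : k →+* k'} {F : U Γ k S →+* U Γ k' S}

private theorem hu_ent (hF : IsBc S φ F) (z : U Γ k S) (y' y : Y) :
    ent (F z).1 y' y = MonoidAlgebra.mapRingHom Γ φ (ent z.1 y' y) := by
  refine MonoidAlgebra.ext (Finsupp.ext fun g => ?_)
  rw [MonoidAlgebra.coeff_mapRingHom]
  exact hF z g y' y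

private theorem hu_sub (hF : IsBc S φ F) {m : Type} [DecidableEq m]
    (r : m → Option (Bool × (ℕ ↪ Y))) (w : Matrix m m (U Γ k S)) {i j : m} {y' y : Y}
    (h : ent (mcf (w.map F) i j - dgO (MonoidAlgebra k' Γ) r i j) y' y ≠ 0) :
    ent (mcf w i j - dgO (MonoidAlgebra k Γ) r i j) y' y ≠ 0 :=
  hu_sub0 (MonoidAlgebra.mapRingHom Γ φ) r (hu_ent hF (w i j) y' y) h

private theorem hu_Spp (hF : IsBc S φ F) {m : Type} [DecidableEq m] {s : Finset Y}
    {w : Matrix m m (U Γ k S)} (h : Spp s (mcf w)) : Spp s (mcf (w.map F)) := by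
  intro i j y' y h1
  refine h i j y' y ?_
  rw [hu_none] at h1 ⊢
  exact hu_sub hF _ w h1

private theorem hu_blkm (hF : IsBc S φ F) {m : Type} (s : Finset Y)
    (w : Matrix m m (U Γ k S)) : blk s (mcf (w.map F)) =
      (blk s (mcf w)).map (MonoidAlgebra.mapRingHom Γ φ) :=
  Matrix.ext fun p q => hu_ent hF (w p.1 q.1) p.2 q.2

/-- Base changes of special matrices are special. -/
private theorem hu_Sp (hF : IsBc S φ F) {m : Type} [Fintype m] [DecidableEq m]
    {w : Matrix m m (U Γ k S)} (h : Sp S m w) : Sp S m (w.map F) := by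
  obtain ⟨r, hu, ⟨σ, g, hm⟩, hr, hc⟩ := h
  refine ⟨r, hu.map F.mapMatrix, ⟨σ, g, fun i j y' y x => ?_⟩, hr, fun i j => ?_⟩
  · have h1 : cf (mcf (w.map F) i j) x y' y = φ (cf (mcf w i j) x y' y) := hF (w i j) x y' y
    rw [h1]
    refine ⟨fun h => ?_, fun h => ?_⟩
    · rw [(hm i j y' y x).1 h, map_one]
    · rw [(hm i j y' y x).2 h, map_zero]
  · exact (mem_JR _ _ _).2 (((mem_JR _ _ _).1 (hc i j)).subset
      fun y' ⟨y, hy⟩ => ⟨y, hu_sub hF r w hy⟩)

end Bc

/-- The pull back of an invariant. -/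
private def hu_pull {R T K : Type} [Ring R] [Ring T] [CommGroup K] (κ : K1Fun T K) (F : R →+* T) :
    K1Fun R K where
  f z := κ.f (z.map F)
  mul A B hA hB := by
    rw [Matrix.map_mul]
    exact κ.mul _ _ (hA.map F.mapMatrix) (hB.map F.mapMatrix)
  reindex e A hA := κ.reindex e (A.map F) (hA.map F.mapMatrix)
  tri A B D hA hD := by
    rw [fromBlocks_map, Matrix.map_zero _ (map_zero F)]
    exact κ.tri _ _ _ (hA.map F.mapMatrix) (hD.map F.mapMatrix)

/-- The quotient of two invariants. -/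
private def hu_div {R K : Type} [Ring R] [CommGroup K] (κ κ' : K1Fun R K) : K1Fun R K where
  f z := κ.f z / κ'.f z
  mul A B hA hB := by rw [κ.mul A B hA hB, κ'.mul A B hA hB, mul_div_mul_comm]
  reindex e A hA := by rw [κ.reindex e A hA, κ'.reindex e A hA]
  tri A B D hA hD := by rw [κ.tri A B D hA hD, κ'.tri A B D hA hD, mul_div_mul_comm]

/-- The homotopy on `U`. -/
theorem homU (hM : S_M1K) : S_hom := by
  classical
  intro Y B C Γ L K _ _ _ _ _ _ _ _ _ _ S N κ κU F0 F1 hSS hL hA hLft hEx hSp hF0 hF1 n _ _ z hz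
  have key := hM Y B C Γ L[X] S N hA hLft K (hu_div (hu_pull κU F0) (hu_pull κU F1)) ?_ ?_ n z hz
  · exact div_eq_one.1 key
  · intro n _ _ z hz hc
    have hc' : Cg (JR Y (MonoidAlgebra L[X] Γ)) (mcf z) 1 := by
      have h1 : mcf (1 : Matrix n n (U Γ L[X] S)) = 1 := Matrix.map_one _ rfl rfl
      rw [← h1]
      exact fun i j => mem_J_zero.1 (hc i j)
    obtain ⟨s, hs⟩ := hu_spp (mcf z) hc'
    have hu : IsUnit (mcf z) := hz.map (U Γ L[X] S).subtype.mapMatrix
    have h2 := Pool.Agent.CC.nk Γ L K hSS hL κ (n × s) (blk s (mcf z)) (hu_unit hu hs)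
    refine div_eq_one.2 ?_
    change κU.f (z.map F0) = κU.f (z.map F1)
    rw [hEx n (z.map F0) s (hz.map F0.mapMatrix) (hu_Spp hF0 hs),
      hEx n (z.map F1) s (hz.map F1.mapMatrix) (hu_Spp hF1 hs), hu_blkm hF0, hu_blkm hF1]
    exact h2
  · intro n _ _ w hw
    refine div_eq_one.2 ?_
    change κU.f (w.map F0) = κU.f (w.map F1)
    rw [hSp n _ (hu_Sp hF0 hw), hSp n _ (hu_Sp hF1 hw)]

end Pool.Agent.FL
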