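import Pool.Agent.Lib.MP_8f66f0_al_FL.Rays
import Pool.Agent.Lib.MP_8f66f0_al_CC.End.Idx0

/-!
# The index of an invertible matrix of column finite matrices over a field which is a diagonal matrix of
shifts up to finitely many rows

`idx0`: the sum of the signs of the shifts is `0`.
-/

set_option autoImplicit false
set_option linter.unusedSectionVars false

namespace Pool.Agent.FL

open Matrix
open Pool.Agent.CC (Cg)
open Pool.Agent.TQ (entE_apply)

namespace Idx0Aux

section Rep

variable {Y F m : Type} [Field F] [Fintype m] [DecidableEq m]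

/-- The operator of a matrix over `CF Y F`. -/
noncomputable def Ph : Matrix m m (CF Y F) →+* Module.End Fᵐᵒᵖ (m → (Y →₀ F)) :=
  (endVecRingEquivMatrixEnd m Fᵐᵒᵖ (Y →₀ F)).symm.toRingHom

theorem Ph_apply (z : Matrix m m (CF Y F)) (v : m → (Y →₀ F)) (i : m) :
    Ph z v i = ∑ j, (show Module.End Fᵐᵒᵖ (Y →₀ F) from z i j) (v j) := rfl

/-- The basis vectors. -/
noncomputable def bv (i : m × Y) : m → (Y →₀ F) := Pi.single i.1 (Finsupp.single i.2 1)

omit [Fintype m] in
theorem bv_apply (i : m × Y) (l : m) [DecidableEq Y] (y : Y) :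
    bv (F := F) i l y = if i = (l, y) then 1 else 0 := by
  rw [bv, Pi.single_apply]
  by_cases h1 : l = i.1
  · rw [if_pos h1, Finsupp.single_apply]
    by_cases h2 : i.2 = y
    · rw [if_pos h2, if_pos (Prod.ext h1.symm h2)]
    · rw [if_neg h2, if_neg fun h => h2 (by rw [h])]
  · rw [if_neg h1, if_neg fun h => h1 (by rw [h])]
    rfl

omit [Fintype m] in
theorem bv_indep {ι : Type} (b : ι → m × Y) (hb : Function.Injective b) :
    LinearIndependent Fᵐᵒᵖ (fun i => bv (F := F) (b i)) := by
  classical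
  rw [linearIndependent_iff']
  intro s g hg i hi
  have h1 := congrFun hg (b i).1
  have h2 := DFunLike.congr_fun h1 (b i).2
  rw [Finset.sum_apply, Finsupp.finsetSum_apply] at h2
  have h3 : ∀ j ∈ s, ((g j • bv (F := F) (b j)) (b i).1) (b i).2 =
      if j = i then (g j).unop else 0 := by
    intro j _
    rw [Pi.smul_apply, Finsupp.smul_apply, bv_apply]
    by_cases h : j = i
    · rw [if_pos h, h, if_pos rfl, MulOpposite.smul_eq_mul_unop, one_mul]
    · rw [if_neg h, if_neg fun h' => h (hb h'), smul_zero]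
  rw [Finset.sum_congr rfl h3, Finset.sum_ite_eq' s i, if_pos hi] at h2
  exact MulOpposite.unop_injective h2

/-- A vector with finite support in `m × s`. -/
theorem mem_span (s : Set (m × Y)) (v : m → (Y →₀ F)) (h : ∀ l y, v l y ≠ 0 → (l, y) ∈ s) :
    v ∈ Submodule.span Fᵐᵒᵖ (bv '' s) := by
  classical
  have h1 : v = ∑ l, ∑ y ∈ (v l).support, MulOpposite.op (v l y) • bv (l, y) := by
    funext i
    ext y
    rw [Finset.sum_apply, Finsupp.finsetSum_apply]
    have h2 : ∀ l ∈ Finset.univ, ((∑ x ∈ (v l).support, MulOpposite.op (v l x) •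
        bv (F := F) (l, x)) i) y = if l = i then v l y else 0 := by
      intro l _
      rw [Finset.sum_apply, Finsupp.finsetSum_apply]
      have h3 : ∀ x ∈ (v l).support, ((MulOpposite.op (v l x) • bv (F := F) (l, x)) i) y =
          if x = y then (if l = i then v l y else 0) else 0 := by
        intro x _
        rw [Pi.smul_apply, Finsupp.smul_apply, bv_apply]
        by_cases hx : x = y
        · subst hx
          by_cases hl : l = i
          · subst hl
            rw [if_pos rfl, if_pos rfl, if_pos rfl, MulOpposite.smul_eq_mul_unop, one_mul]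
            rfl
          · rw [if_neg fun h' => hl (congrArg Prod.fst h'), if_pos rfl, if_neg hl, smul_zero]
        · rw [if_neg fun h' => hx (congrArg Prod.snd h'), if_neg hx, smul_zero]
      rw [Finset.sum_congr rfl h3, Finset.sum_ite_eq' _ y]
      by_cases hy : y ∈ (v l).support
      · rw [if_pos hy]
      · rw [if_neg hy, Finsupp.notMem_support_iff.1 hy, ite_self]
    rw [Finset.sum_congr rfl h2, Finset.sum_ite_eq' Finset.univ i, if_pos (Finset.mem_univ i)]
  rw [h1]
  refine Submodule.sum_mem _ fun l _ => Submodule.sum_mem _ fun y hy => Submodule.smul_mem _ _ ?_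
  exact Submodule.subset_span ⟨(l, y), h l y (Finsupp.mem_support_iff.1 hy), rfl⟩

/-- A matrix with finitely many rows has finite rank. -/
theorem fin_rank (z : Matrix m m (CF Y F)) (hz : ∀ i j, z i j ∈ JR Y F) :
    FiniteDimensional Fᵐᵒᵖ (LinearMap.range (Ph z)) := by
  classical
  let s : Set (m × Y) := ⋃ i, ⋃ j, (fun y : Y => (i, y)) '' {y | ∃ x, ent (z i j) y x ≠ 0}
  have hs : s.Finite := Set.finite_iUnion fun i => Set.finite_iUnion fun j =>
    Set.Finite.image _ (hz i j)
  have h1 : LinearMap.range (Ph z) ≤ Submodule.span Fᵐᵒᵖ (bv '' s) := by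
    rintro _ ⟨v, rfl⟩
    refine mem_span s _ fun l y h => ?_
    rw [Ph_apply, Finsupp.finsetSum_apply] at h
    obtain ⟨j, _, hj⟩ := Finset.exists_ne_zero_of_sum_ne_zero h
    rw [entE_apply, Finsupp.sum] at hj
    obtain ⟨x, _, hx⟩ := Finset.exists_ne_zero_of_sum_ne_zero hj
    refine Set.mem_iUnion.2 ⟨l, Set.mem_iUnion.2 ⟨j, y, ⟨x, left_ne_zero_of_mul hx⟩, rfl⟩⟩
  have := FiniteDimensional.span_of_finite Fᵐᵒᵖ (hs.image (bv (F := F)))
  exact Submodule.finiteDimensional_of_le h1

/-- The diagonal matrix with the entries `E(y0 i, y0 i)` at the places `i ∈ S`. -/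
theorem rank_E (S : Finset m) (y0 : S → Y) (P : Matrix m m (CF Y F))
    (hP : ∀ i j y x, ent (P i j) y x ≠ 0 → i = j ∧ ∃ hi : i ∈ S, y = y0 ⟨i, hi⟩ ∧ x = y0 ⟨i, hi⟩)
    (hP' : ∀ i : S, ent (P i.1 i.1) (y0 i) (y0 i) = 1) :
    Module.finrank Fᵐᵒᵖ (LinearMap.range (Ph P)) = S.card := by
  classical
  let b : S → m × Y := fun l => (l.1, y0 l)
  have hb : Function.Injective b := fun l l' h => Subtype.ext (congrArg Prod.fst h)
  have h1 : LinearMap.range (Ph P) = Submodule.span Fᵐᵒᵖ (Set.range fun i => bv (F := F) (b i)) := by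
    apply le_antisymm
    · rintro _ ⟨v, rfl⟩
      have h2 : Ph P v ∈ Submodule.span Fᵐᵒᵖ (bv (F := F) '' (Set.range b)) := by
        refine mem_span _ _ fun l y h => ?_
        rw [Ph_apply, Finsupp.finsetSum_apply] at h
        obtain ⟨j, _, hj⟩ := Finset.exists_ne_zero_of_sum_ne_zero h
        rw [entE_apply, Finsupp.sum] at hj
        obtain ⟨x, _, hx⟩ := Finset.exists_ne_zero_of_sum_ne_zero hj
        obtain ⟨_, h4, h5, _⟩ := hP l j y x (left_ne_zero_of_mul hx)
        exact ⟨⟨l, h4⟩, Prod.ext rfl h5.symm⟩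
      rw [← Set.range_comp] at h2
      exact h2
    · rw [Submodule.span_le]
      rintro _ ⟨i, rfl⟩
      refine ⟨bv (b i), ?_⟩
      funext l
      ext y
      rw [Ph_apply, Finsupp.finsetSum_apply, bv_apply]
      have h3 : ∀ j ∈ Finset.univ, ((show Module.End Fᵐᵒᵖ (Y →₀ F) from P l j)
          (bv (F := F) (b i) j)) y = if j = i.1 then ent (P l i.1) y (y0 i) else 0 := by
        intro j _
        by_cases hj : j = i.1
        · rw [if_pos hj, hj]
          have h5 : bv (F := F) (b i) i.1 = Finsupp.single (y0 i) 1 := by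
            rw [bv]
            exact Pi.single_eq_same _ _
          rw [h5]
          rfl
        · have h5 : bv (F := F) (b i) j = 0 := by
            rw [bv]
            exact Pi.single_eq_of_ne hj _
          rw [if_neg hj, h5, map_zero]
          rfl
      rw [Finset.sum_congr rfl h3, Finset.sum_ite_eq' Finset.univ i.1,
        if_pos (Finset.mem_univ _)]
      by_cases h : b i = (l, y)
      · have h6 : i.1 = l := congrArg Prod.fst h
        have h7 : y0 i = y := congrArg Prod.snd h
        rw [if_pos h, ← h6, ← h7]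
        exact hP' i
      · rw [if_neg h]
        by_contra h'
        obtain ⟨h6, h8, h7, _⟩ := hP _ _ _ _ h'
        subst h6
        exact h (Prod.ext rfl h7.symm)
  rw [h1, finrank_span_eq_card (bv_indep b hb), Fintype.card_coe]

end Rep

section Sgn

variable {Y F : Type} [Field F]

/-- The opposite shift. -/
def ng (r : Option (Bool × (ℕ ↪ Y))) : Option (Bool × (ℕ ↪ Y)) :=
  match r with
  | none => none
  | some (b, ρ) => some (!b, ρ)

theorem ng_ng (r : Option (Bool × (ℕ ↪ Y))) : ng (ng r) = r := by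
  match r with
  | none => rfl
  | some (true, ρ) => rfl
  | some (false, ρ) => rfl

theorem sgn_mid (r : Option (Bool × (ℕ ↪ Y))) : shO F r * shO F (ng r) * shO F r = shO F r := by
  match r with
  | none =>
    change (1 : CF Y F) * 1 * 1 = 1
    rw [mul_one, mul_one]
  | some (true, ρ) =>
    change shR F ρ * shL F ρ * shR F ρ = shR F ρ
    rw [mul_assoc, shL_mul_shR, mul_one]
  | some (false, ρ) =>
    change shL F ρ * shR F ρ * shL F ρ = shL F ρ
    rw [shL_mul_shR, one_mul]

/-- The set of the inward shifts. -/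
def Inw {m : Type} (r : m → Option (Bool × (ℕ ↪ Y))) (l : m) : Prop :=
  ∃ ρ, r l = some (false, ρ)

theorem pr_eq (r : Option (Bool × (ℕ ↪ Y))) :
    (∃ ρ, r = some (false, ρ) ∧ 1 - shO F (ng r) * shO F r = prK F {ρ 0}) ∨
      ((¬ ∃ ρ, r = some (false, ρ)) ∧ 1 - shO F (ng r) * shO F r = 0) := by
  match r with
  | none =>
    refine Or.inr ⟨by simp, ?_⟩
    change 1 - (1 : CF Y F) * 1 = 0
    rw [mul_one, sub_self]
  | some (true, ρ) =>
    refine Or.inr ⟨by simp, ?_⟩
    change 1 - shL F ρ * shR F ρ = 0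
    rw [shL_mul_shR, sub_self]
  | some (false, ρ) => exact Or.inl ⟨ρ, rfl, one_sub_shR_shL ρ⟩

variable {m : Type} [Fintype m] [DecidableEq m]

open Classical in
theorem sgn_rank (r : m → Option (Bool × (ℕ ↪ Y))) :
    Module.finrank Fᵐᵒᵖ (LinearMap.range (Ph (1 - dgO F (fun l => ng (r l)) * dgO F r))) =
      (Finset.univ.filter fun l => Inw r l).card := by
  have h1 : (1 : Matrix m m (CF Y F)) - dgO F (fun l => ng (r l)) * dgO F r =
      diagonal fun l => 1 - shO F (ng (r l)) * shO F (r l) := by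
    rw [dgO, dgO, diagonal_mul_diagonal, ← diagonal_one, diagonal_sub]
  rw [h1]
  let y0 : (Finset.univ.filter fun l => Inw r l) → Y := fun l =>
    (Finset.mem_filter.1 l.2).2.choose 0
  have hy0 : ∀ (l : m) (ρ : ℕ ↪ Y) (hl : l ∈ Finset.univ.filter fun l => Inw r l),
      r l = some (false, ρ) → y0 ⟨l, hl⟩ = ρ 0 := by
    intro l ρ hl h
    have h2 := h.symm.trans (Finset.mem_filter.1 hl).2.choose_spec
    rw [Option.some.injEq, Prod.mk.injEq] at h2
    change (Finset.mem_filter.1 hl).2.choose 0 = ρ 0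
    rw [← h2.2]
  refine rank_E _ y0 _ (fun i j y x h => ?_) fun i => ?_
  · by_cases hij : i = j
    · subst hij
      rw [diagonal_apply_eq] at h
      rcases pr_eq (F := F) (r i) with ⟨ρ, h2, h3⟩ | ⟨_, h3⟩
      · rw [h3, ent_prK, ne_eq, ite_eq_right_iff, Classical.not_imp] at h
        obtain ⟨⟨h4, h5⟩, _⟩ := h
        have hi : i ∈ Finset.univ.filter fun l => Inw r l :=
          Finset.mem_filter.2 ⟨Finset.mem_univ _, ρ, h2⟩
        have h6 : x = ρ 0 := h5
        exact ⟨rfl, hi, by rw [hy0 i ρ hi h2, h4, h6], by rw [hy0 i ρ hi h2, h6]⟩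
      · rw [h3, ent_zero] at h
        exact absurd rfl h
    · rw [diagonal_apply_ne _ hij, ent_zero] at h
      exact absurd rfl h
  · rw [diagonal_apply_eq]
    rcases pr_eq (F := F) (r i.1) with ⟨ρ, h2, h3⟩ | ⟨h2, _⟩
    · rw [h3, hy0 i.1 ρ i.2 h2, ent_prK, if_pos ⟨rfl, rfl⟩]
    · exact absurd (Finset.mem_filter.1 i.2).2 h2

end Sgn

end Idx0Aux

open Idx0Aux in
/-- The sum of the signs is `0`. -/
theorem idx0 {Y F : Type} [Field F] {m : Type} [Fintype m] [DecidableEq m]
    (r : m → Option (Bool × (ℕ ↪ Y))) (u : Matrix m m (CF Y F)) (hu : IsUnit u)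
    (hcg : Cg (JR Y F) u (dgO F r)) : ∑ l, sgn (r l) = 0 := by
  classical
  obtain ⟨u', h1, h2⟩ : ∃ u', u * u' = 1 ∧ u' * u = 1 := by
    obtain ⟨v, rfl⟩ := hu
    exact ⟨_, v.mul_inv, v.inv_mul⟩
  have hD : dgO F r = u * (1 + u' * (dgO F r - u)) := by
    rw [mul_add, ← mul_assoc, h1, one_mul, mul_one]
    abel
  have hc : ∀ i j, (u' * (dgO F r - u)) i j ∈ JR Y F := by
    intro i j
    rw [Matrix.mul_apply]
    refine Ideal.sum_mem _ fun l _ => Ideal.mul_mem_left _ _ ?_
    have h := hcg l j
    rw [Matrix.sub_apply, ← neg_sub]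
    exact (Ideal.neg_mem_iff _).2 h
  have hmid : dgO F r * dgO F (fun l => ng (r l)) * dgO F r = dgO F r := by
    rw [dgO, dgO, diagonal_mul_diagonal, diagonal_mul_diagonal]
    exact congrArg diagonal (funext fun l => sgn_mid (r l))
  have k1 := sgn_rank (F := F) r
  have k2 := sgn_rank (F := F) (fun l => ng (r l))
  have he : (fun l => ng (ng (r l))) = r := funext fun l => ng_ng (r l)
  rw [he] at k2
  have q : ∀ a b : Matrix m m (CF Y F), Ph a * Ph b = 1 - Ph (1 - a * b) := fun a b => by
    have h3 : Ph (1 - a * b) + Ph (a * b) = 1 := by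
      rw [← map_add, sub_add_cancel, map_one]
    rw [← map_mul]
    refine LinearMap.ext fun v => ?_
    have h4 := LinearMap.congr_fun h3 v
    rw [LinearMap.add_apply] at h4
    rw [LinearMap.sub_apply]
    exact eq_sub_of_add_eq' h4
  have key := Pool.Agent.CC.Idx0Aux.ix_abs (Ph (dgO F r)) (Ph (dgO F fun l => ng (r l))) (Ph u)
    (Ph u') (Ph (u' * (dgO F r - u))) (Ph (1 - dgO F (fun l => ng (r l)) * dgO F r))
    (Ph (1 - dgO F r * dgO F (fun l => ng (r l))))
    (by rw [← map_mul, h1, map_one]) (by rw [← map_mul, h2, map_one])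
    (by rw [← map_one Ph, ← map_add, ← map_mul, ← hD])
    (q _ _) (q _ _)
    (by rw [← map_mul, mul_sub, mul_one, ← mul_assoc, hmid, sub_self, map_zero])
    (by rw [← map_mul, sub_mul, one_mul, hmid, sub_self, map_zero])
    (fin_rank _ hc)
  rw [k1, k2] at key
  have hs : ∀ l, sgn (r l) = (if Inw (fun l => ng (r l)) l then 1 else 0) -
      (if Inw r l then 1 else 0) := by
    intro l
    rcases hl : r l with _ | ⟨b, ρ⟩
    · rw [if_neg, if_neg]
      · rfl
      · rintro ⟨ρ, h⟩
        rw [hl] at h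
        exact absurd h (by simp)
      · rintro ⟨ρ, h⟩
        change ng (r l) = _ at h
        rw [hl] at h
        exact absurd h (by simp [ng])
    · cases b with
      | true =>
        rw [if_pos, if_neg]
        · rfl
        · rintro ⟨ρ', h⟩
          rw [hl] at h
          exact absurd h (by simp)
        · exact ⟨ρ, by change ng (r l) = _; rw [hl]; rfl⟩
      | false =>
        rw [if_neg, if_pos]
        · rfl
        · exact ⟨ρ, hl⟩
        · rintro ⟨ρ', h⟩
          change ng (r l) = _ at h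
          rw [hl] at h
          exact absurd h (by simp [ng])
  rw [Finset.sum_congr rfl fun l _ => hs l, Finset.sum_sub_distrib, Finset.sum_boole,
    Finset.sum_boole, ← key, sub_self]

end Pool.Agent.FL
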