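import Pool.Agent.Lib.MP_8f66f0_al_FL.Spec
import Pool.Agent.Lib.MP_8f66f0_al_FL.Idx0

/-!
# Project GLn: the index of shifts on every orbit of base labels

For an orbit `Γ c` of base labels the matrices `z⁰`, `z⁰ (y', y) = ∑ cf z g y' y` over the `g` with
`g • base y = base y'`, give a ring homomorphism from `U Γ k S` to the matrices over a field on the
objects with base label in the orbit.
-/

set_option autoImplicit false
set_option linter.unusedSectionVars false

namespace Pool.Agent.FL

open Matrix
open Pool.Agent.CC (Cg)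

section Th

variable {Y B C Γ k F : Type} [Group Γ] [PartialOrder B] [MulAction Γ B] [OrdAct Γ B]
  [PartialOrder C] [MulAction Γ C] [OrdAct Γ C] [CommRing k] [Field F]

open Classical in
/-- The sum of the coefficients which map `b` to `b'`. -/
noncomputable def wsum (φ : k →+* F) (b' b : B) (a : MonoidAlgebra k Γ) : F :=
  a.coeff.sum fun g x => if g • b = b' then φ x else 0

theorem wsum_add (φ : k →+* F) (b' b : B) (a a' : MonoidAlgebra k Γ) :
    wsum φ b' b (a + a') = wsum φ b' b a + wsum φ b' b a' := by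
  classical
  rw [wsum, wsum, wsum, MonoidAlgebra.coeff_add]
  refine Finsupp.sum_add_index' (fun g => ?_) fun g x y => ?_
  · split_ifs
    · exact map_zero _
    · rfl
  · split_ifs
    · exact map_add _ _ _
    · rw [add_zero]

theorem wsum_zero (φ : k →+* F) (b' b : B) : wsum φ b' b (0 : MonoidAlgebra k Γ) = 0 := by
  rw [wsum, MonoidAlgebra.coeff_zero]
  exact Finsupp.sum_zero_index

open Classical in
theorem wsum_single (φ : k →+* F) (b' b : B) (g : Γ) (x : k) :
    wsum φ b' b (MonoidAlgebra.single g x) = if g • b = b' then φ x else 0 := by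
  rw [wsum, MonoidAlgebra.coeff_single]
  refine Finsupp.sum_single_index ?_
  split_ifs
  · exact map_zero _
  · rfl

theorem wsum_sum {ι : Type} (φ : k →+* F) (b' b : B) (s : Finset ι) (f : ι → MonoidAlgebra k Γ) :
    wsum φ b' b (∑ i ∈ s, f i) = ∑ i ∈ s, wsum φ b' b (f i) := by
  classical
  induction s using Finset.induction_on with
  | empty => rw [Finset.sum_empty, Finset.sum_empty, wsum_zero]
  | insert a s ha ih => rw [Finset.sum_insert ha, Finset.sum_insert ha, wsum_add, ih]

theorem wsum_one (φ : k →+* F) (b : B) : wsum φ b b (1 : MonoidAlgebra k Γ) = 1 := by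
  classical
  rw [MonoidAlgebra.one_def, wsum_single, if_pos (one_smul _ _), map_one]

/-- The coefficients of `a` map `b` below `b'`. -/
def Lo (b' b : B) (a : MonoidAlgebra k Γ) : Prop := ∀ g, a.coeff g ≠ 0 → g • b ≤ b'

theorem wsum_mul (φ : k →+* F) (b'' b' b : B) (a c : MonoidAlgebra k Γ) (ha : Lo b'' b' a)
    (hc : Lo b' b c) : wsum φ b'' b (a * c) = wsum φ b'' b' a * wsum φ b' b c := by
  classical
  have e1 : a * c = ∑ g ∈ a.coeff.support, ∑ h ∈ c.coeff.support,
      MonoidAlgebra.single (g * h) (a.coeff g * c.coeff h) := by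
    refine MonoidAlgebra.ext (Finsupp.ext fun x => ?_)
    rw [MonoidAlgebra.coeff_mul, Finsupp.sum, MonoidAlgebra.coeff_sum, Finsupp.finsetSum_apply]
    refine Finset.sum_congr rfl fun g _ => ?_
    rw [Finsupp.sum, MonoidAlgebra.coeff_sum, Finsupp.finsetSum_apply]
    refine Finset.sum_congr rfl fun h _ => ?_
    rw [MonoidAlgebra.coeff_single, Finsupp.single_apply]
  rw [e1, wsum_sum]
  have e2 : ∀ (b' b : B) (a : MonoidAlgebra k Γ), wsum φ b' b a =
      ∑ g ∈ a.coeff.support, if g • b = b' then φ (a.coeff g) else 0 := fun _ _ _ => rfl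
  rw [e2 b'' b' a, e2 b' b c, Finset.sum_mul_sum]
  refine Finset.sum_congr rfl fun g hg => ?_
  rw [wsum_sum]
  refine Finset.sum_congr rfl fun h hh => ?_
  rw [wsum_single]
  have hg' := ha g (Finsupp.mem_support_iff.1 hg)
  have hh' := hc h (Finsupp.mem_support_iff.1 hh)
  by_cases h1 : g • b' = b''
  · by_cases h2 : h • b = b'
    · rw [if_pos h1, if_pos h2, if_pos (by rw [mul_smul, h2, h1]), map_mul]
    · rw [if_neg h2, mul_zero, if_neg]
      intro h3
      apply h2
      rw [mul_smul, ← h1] at h3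
      exact MulAction.injective g h3
  · rw [if_neg h1, zero_mul, if_neg]
    intro h3
    apply h1
    rw [mul_smul] at h3
    exact le_antisymm hg' (h3 ▸ OrdAct.smul_le g hh')

/-- If a product of the coefficients maps `b` to `b''`, then the factors are in the orbit. -/
theorem wsum_ne {φ : k →+* F} {b' b : B} {a : MonoidAlgebra k Γ} (h : wsum φ b' b a ≠ 0) :
    ∃ g : Γ, g • b = b' := by
  classical
  rw [wsum, Finsupp.sum] at h
  obtain ⟨g, _, hg⟩ := Finset.exists_ne_zero_of_sum_ne_zero h
  exact ⟨g, by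
    by_contra hc
    exact hg (if_neg hc)⟩

variable (S : FSys Y B C) (c : B) (φ : k →+* F)

theorem lo_ent {z : CF Y (MonoidAlgebra k Γ)} (hz : Lab S z) (y' y : Y) :
    Lo (S.base y') (S.base y) (ent z y' y) := fun g hg => hz g y' y hg

/-- The block. -/
noncomputable def thK (z : CF Y (MonoidAlgebra k Γ)) :
    CF {y : Y // S.base y ∈ MulAction.orbit Γ c} F :=
  mkK (fun y x => wsum φ (S.base y.1) (S.base x.1) (ent z y.1 x.1))
    (fun x => ((ent_col z x.1).preimage Subtype.val_injective.injOn).subset fun y hy => by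
      intro h
      exact hy (by rw [h, wsum_zero]))

theorem ent_thK (z : CF Y (MonoidAlgebra k Γ)) (y x : {y : Y // S.base y ∈ MulAction.orbit Γ c}) :
    ent (thK S c φ z) y x = wsum φ (S.base y.1) (S.base x.1) (ent z y.1 x.1) := ent_mkK _ _ _ _

/-- The ring homomorphism to the block. -/
noncomputable def thR : U Γ k S →+* CF {y : Y // S.base y ∈ MulAction.orbit Γ c} F where
  toFun z := thK S c φ z.1
  map_one' := by
    classical
    refine ent_ext fun y x => ?_
    rw [ent_thK, ent_one]
    change wsum φ _ _ (ent (1 : CF Y (MonoidAlgebra k Γ)) y.1 x.1) = _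
    rw [ent_one]
    by_cases h : y = x
    · rw [if_pos h, if_pos (congrArg Subtype.val h), h, wsum_one]
    · rw [if_neg h, if_neg (fun h' => h (Subtype.ext h')), wsum_zero]
  map_mul' a b := by
    classical
    refine ent_ext fun y x => ?_
    have h1 : ∀ v, ent b.1 v x.1 ≠ 0 → v ∈ (ent_col b.1 x.1).toFinset := fun v hv => by
      rw [Set.Finite.mem_toFinset]
      exact hv
    have h2 : ent (thK S c φ a.1 * thK S c φ b.1) y x =
        ∑ v ∈ ((ent_col b.1 x.1).toFinset.subtype fun v => S.base v ∈ MulAction.orbit Γ c),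
          ent (thK S c φ a.1) y v * ent (thK S c φ b.1) v x := by
      refine ent_mul_col _ _ _ _ _ fun v hv => ?_
      rw [Finset.mem_subtype]
      refine h1 v.1 fun h => hv ?_
      rw [ent_thK, h, wsum_zero]
    rw [h2, ent_thK]
    simp only [ent_thK]
    change wsum φ _ _ (ent (a.1 * b.1) y.1 x.1) = _
    rw [ent_mul_col a.1 b.1 y.1 x.1 _ h1, wsum_sum, Finset.sum_subtype_eq_sum_filter
      (s := (ent_col b.1 x.1).toFinset) (p := fun v => S.base v ∈ MulAction.orbit Γ c)
      (f := fun v => wsum φ (S.base y.1) (S.base v) (ent a.1 y.1 v) *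
        wsum φ (S.base v) (S.base x.1) (ent b.1 v x.1))]
    have e1 : ∀ v, wsum φ (S.base y.1) (S.base x.1) (ent a.1 y.1 v * ent b.1 v x.1) =
        wsum φ (S.base y.1) (S.base v) (ent a.1 y.1 v) *
          wsum φ (S.base v) (S.base x.1) (ent b.1 v x.1) := fun v =>
      wsum_mul φ _ _ _ _ _ (lo_ent S a.2.1 y.1 v) (lo_ent S b.2.1 v x.1)
    rw [Finset.sum_filter]
    refine Finset.sum_congr rfl fun v _ => ?_
    rw [e1]
    by_cases hv : S.base v ∈ MulAction.orbit Γ c
    · rw [if_pos hv]
    · rw [if_neg hv]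
      by_contra hne
      obtain ⟨g, hg⟩ := wsum_ne (right_ne_zero_of_mul hne)
      obtain ⟨g', hg'⟩ := x.2
      refine hv ⟨g * g', ?_⟩
      change (g * g') • c = S.base v
      rw [mul_smul]
      change g' • c = S.base x.1 at hg'
      rw [hg', hg]
  map_zero' := by
    refine ent_ext fun y x => ?_
    rw [ent_thK, ent_zero]
    change wsum φ _ _ (ent (0 : CF Y (MonoidAlgebra k Γ)) y.1 x.1) = _
    rw [ent_zero, wsum_zero]
  map_add' a b := by
    refine ent_ext fun y x => ?_
    rw [ent_add, ent_thK, ent_thK, ent_thK, ← wsum_add]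
    rfl

theorem ent_thR (z : U Γ k S) (y x : {y : Y // S.base y ∈ MulAction.orbit Γ c}) :
    ent (thR S c φ z) y x = wsum φ (S.base y.1) (S.base x.1) (ent z.1 y.1 x.1) := ent_thK S c φ _ y x

end Th

section Main

variable {Y : Type} {p : Y → Prop}

/-- The restriction of a ray. -/
def res (ρ : ℕ ↪ Y) (h : ∀ n, p (ρ n)) : ℕ ↪ {y : Y // p y} :=
  ⟨fun n => ⟨ρ n, h n⟩, fun _ _ hab => ρ.injective (congrArg Subtype.val hab)⟩

theorem shM_res (ρ : ℕ ↪ Y) (h : ∀ n, p (ρ n)) (x : {y : Y // p y}) :
    (shM (res ρ h) x).1 = shM ρ x.1 := by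
  by_cases hx : ∃ n, x.1 = ρ n
  · obtain ⟨n, hn⟩ := hx
    have h1 : x = res ρ h n := Subtype.ext hn
    rw [h1, shM_ray]
    change ρ (n + 1) = shM ρ (ρ n)
    rw [shM_ray]
  · rw [shM_out ρ hx, shM_out]
    rintro ⟨n, hn⟩
    exact hx ⟨n, congrArg Subtype.val hn⟩

theorem shM_off (ρ : ℕ ↪ Y) (h : ∀ n, ¬ p (ρ n)) (x : {y : Y // p y}) : shM ρ x.1 = x.1 :=
  shM_out ρ fun ⟨n, hn⟩ => h n (hn ▸ x.2)

end Main

theorem idx : S_idx := by
  classical
  intro Y B C Γ k _ _ _ _ _ _ _ _ _ S m _ _ r u hr hu hc c
  obtain ⟨M, hM⟩ := Ideal.exists_maximal k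
  let _ : Field (k ⧸ M) := Ideal.Quotient.field M
  let φ : k →+* (k ⧸ M) := Ideal.Quotient.mk M
  let p : Y → Prop := fun y => S.base y ∈ MulAction.orbit Γ c
  have hp : ∀ {l b ρ}, r l = some (b, ρ) → S.base (ρ 0) ∈ MulAction.orbit Γ c → ∀ n, p (ρ n) := by
    intro l b ρ h1 h2 n
    change S.base (ρ n) ∈ _
    rw [(hr l b ρ h1).base_eq]
    exact h2
  have hp' : ∀ {l b ρ}, r l = some (b, ρ) → S.base (ρ 0) ∉ MulAction.orbit Γ c →
      ∀ n, ¬ p (ρ n) := by
    intro l b ρ h1 h2 n
    change S.base (ρ n) ∉ _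
    rw [(hr l b ρ h1).base_eq]
    exact h2
  have key : ∀ l, ∃ r' : Option (Bool × (ℕ ↪ {y : Y // p y})),
      ((if ∃ b ρ, r l = some (b, ρ) ∧ S.base (ρ 0) ∈ MulAction.orbit Γ c then sgn (r l) else 0) =
        sgn r') ∧
      ∀ y x : {y : Y // p y}, wsum φ (S.base y.1) (S.base x.1)
        (ent (shO (MonoidAlgebra k Γ) (r l)) y.1 x.1) = ent (shO (k ⧸ M) r') y x := by
    intro l
    have one : ∀ y x : {y : Y // p y}, ∀ a : MonoidAlgebra k Γ, (a = if y.1 = x.1 then 1 else 0) →
        wsum φ (S.base y.1) (S.base x.1) a = ent (1 : CF {y : Y // p y} (k ⧸ M)) y x := by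
      intro y x a ha
      rw [ha, ent_one]
      by_cases h : y = x
      · rw [if_pos h, if_pos (congrArg Subtype.val h), h, wsum_one]
      · rw [if_neg h, if_neg (fun h' => h (Subtype.ext h')), wsum_zero]
    rcases hl : r l with _ | ⟨b, ρ⟩
    · refine ⟨none, ?_, ?_⟩
      · rw [if_neg]
        · rfl
        · rintro ⟨b, ρ, h, _⟩
          exact absurd h (by simp)
      · intro y x
        exact one y x _ (ent_one _ _)
    · have hray := hr l b ρ hl
      by_cases ho : S.base (ρ 0) ∈ MulAction.orbit Γ c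
      · -- the values at places with `shM ρ x = y`
        have val : ∀ y x : {y : Y // p y}, ∀ a : MonoidAlgebra k Γ,
            (a = if shM ρ x.1 = y.1 then 1 else 0) → ∀ s : Prop, [Decidable s] →
            (s ↔ shM (res ρ (hp hl ho)) x = y) →
            wsum φ (S.base y.1) (S.base x.1) a = if s then (1 : k ⧸ M) else 0 := by
          intro y x a ha s _ hs
          have h1 : shM (res ρ (hp hl ho)) x = y ↔ shM ρ x.1 = y.1 := by
            rw [← shM_res ρ (hp hl ho) x]
            exact Subtype.ext_iff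
          rw [ha]
          by_cases h : shM ρ x.1 = y.1
          · rw [if_pos h, if_pos (hs.2 (h1.2 h))]
            have h2 : S.base y.1 = S.base x.1 := by
              by_cases hx : ∃ n, x.1 = ρ n
              · obtain ⟨n, hn⟩ := hx
                rw [← h, hn, shM_ray, hray.base_eq, hray.base_eq n]
              · rw [← h, shM_out ρ hx]
            rw [h2, wsum_one]
          · rw [if_neg h, if_neg fun h' => h (h1.1 (hs.1 h')), wsum_zero]
        have val' : ∀ y x : {y : Y // p y}, ∀ a : MonoidAlgebra k Γ,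
            (a = if shM ρ y.1 = x.1 then 1 else 0) → ∀ s : Prop, [Decidable s] →
            (s ↔ shM (res ρ (hp hl ho)) y = x) →
            wsum φ (S.base y.1) (S.base x.1) a = if s then (1 : k ⧸ M) else 0 := by
          intro y x a ha s _ hs
          have h1 : shM (res ρ (hp hl ho)) y = x ↔ shM ρ y.1 = x.1 := by
            rw [← shM_res ρ (hp hl ho) y]
            exact Subtype.ext_iff
          rw [ha]
          by_cases h : shM ρ y.1 = x.1
          · rw [if_pos h, if_pos (hs.2 (h1.2 h))]
            have h2 : S.base y.1 = S.base x.1 := by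
              by_cases hx : ∃ n, y.1 = ρ n
              · obtain ⟨n, hn⟩ := hx
                rw [← h, hn, shM_ray, hray.base_eq, hray.base_eq (n + 1)]
              · rw [← h, shM_out ρ hx]
            rw [h2, wsum_one]
          · rw [if_neg h, if_neg fun h' => h (h1.1 (hs.1 h')), wsum_zero]
        refine ⟨some (b, res ρ (hp hl ho)), ?_, ?_⟩
        · rw [if_pos ⟨b, ρ, rfl, ho⟩]
          cases b <;> rfl
        · intro y x
          cases b with
          | true =>
            change wsum φ _ _ (ent (shR (MonoidAlgebra k Γ) ρ) y.1 x.1) =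
              ent (shR (k ⧸ M) (res ρ (hp hl ho))) y x
            rw [ent_shR (res ρ (hp hl ho))]
            have h5 := val y x _ (ent_shR ρ y.1 x.1) (shM (res ρ (hp hl ho)) x = y) Iff.rfl
            rw [h5]
            by_cases h6 : shM (res ρ (hp hl ho)) x = y
            · rw [if_pos h6, if_pos h6]
            · rw [if_neg h6, if_neg h6]
          | false =>
            change wsum φ _ _ (ent (shL (MonoidAlgebra k Γ) ρ) y.1 x.1) =
              ent (shL (k ⧸ M) (res ρ (hp hl ho))) y x
            rw [ent_shL (res ρ (hp hl ho))]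
            have h5 := val' y x _ (ent_shL ρ y.1 x.1) (shM (res ρ (hp hl ho)) y = x) Iff.rfl
            rw [h5]
            by_cases h6 : shM (res ρ (hp hl ho)) y = x
            · rw [if_pos h6, if_pos h6]
            · rw [if_neg h6, if_neg h6]
      · refine ⟨none, ?_, ?_⟩
        · rw [if_neg]
          · rfl
          · rintro ⟨b', ρ', h, h'⟩
            rw [Option.some.injEq, Prod.mk.injEq] at h
            rw [← h.2] at h'
            exact ho h'
        · intro y x
          refine one y x _ ?_
          cases b with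
          | true =>
            change ent (shR (MonoidAlgebra k Γ) ρ) y.1 x.1 = _
            rw [ent_shR, shM_off ρ (hp' hl ho)]
            exact if_congr eq_comm rfl rfl
          | false =>
            change ent (shL (MonoidAlgebra k Γ) ρ) y.1 x.1 = _
            rw [ent_shL, shM_off ρ (hp' hl ho)]
  choose r' he hE using key
  have h1 := idx0 r' (u.map (thR S c φ)) (hu.map (thR S c φ).mapMatrix) ?_
  · rw [wgt]
    exact Eq.trans (Finset.sum_congr rfl fun l _ => he l) h1
  · intro i j
    rw [mem_JR]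
    have h2 := (mem_JR Y (MonoidAlgebra k Γ) _).1 (hc i j)
    refine (h2.preimage (f := fun q : {y : Y // p y} => q.1)
      Subtype.val_injective.injOn).subset ?_
    rintro y ⟨x, hx⟩
    refine ⟨x.1, fun hz => hx ?_⟩
    have h3 : ent (dgO (k ⧸ M) r' i j) y x =
        wsum φ (S.base y.1) (S.base x.1) (ent (dgO (MonoidAlgebra k Γ) r i j) y.1 x.1) := by
      by_cases hij : i = j
      · rw [hij, dgO, dgO, diagonal_apply_eq, diagonal_apply_eq, hE]
      · rw [dgO, dgO, diagonal_apply_ne _ hij, diagonal_apply_ne _ hij, ent_zero, ent_zero,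
          wsum_zero]
    rw [ent_sub, h3, map_apply, ent_thR]
    have h4 : ent (mcf u i j) y.1 x.1 = ent (dgO (MonoidAlgebra k Γ) r i j) y.1 x.1 := by
      rw [ent_sub, sub_eq_zero] at hz
      exact hz
    change wsum φ _ _ (ent (mcf u i j) y.1 x.1) - _ = 0
    rw [h4, sub_self]

end Pool.Agent.FL
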