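import Pool.Agent.Lib.MP_8f66f0_al_FL.Spec
import Pool.Agent.Lib.MP_8f66f0_al_CC.End.Ext1

/-!
# Project GLn: the invariant of the matrices with finitely many rows

The invariant of `J 0` is the restriction of the invariant `S_fin0` of the column finite matrices which
are `1` up to finitely many rows. It kills these matrices over the derived systems (`KTk` for the finite
blocks) and the monomial ones (`S_mon0`).
-/

set_option autoImplicit false

namespace Pool.Agent.FL

open Pool.Agent.Wald Pool.Agent.Ind Pool.Agent.WaldL Pool.Agent.FH Matrix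
open Pool.Agent.BB Pool.Agent.GLC
open Pool.Agent.CC (KR Cg Ex Spc Gen Flq Kil KilM)
open Pool.Agent.CC.XE (ex_inv ex_unit ex_inv_mul)
open scoped Pointwise

section Blk

variable {Y A : Type} [Ring A] {n : Type} [DecidableEq n]

private theorem ini_ent_sum {ι : Type} (t : Finset ι) (f : ι → CF Y A) (y' y : Y) :
    ent (∑ i ∈ t, f i) y' y = ∑ i ∈ t, ent (f i) y' y := by
  classical
  induction t using Finset.induction_on with
  | empty => rw [Finset.sum_empty, Finset.sum_empty, ent_zero]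
  | insert a t ha ih => rw [Finset.sum_insert ha, Finset.sum_insert ha, ent_add, ih]

private theorem ini_ent_one [DecidableEq Y] (i j : n) (y' y : Y) :
    ent ((1 : Matrix n n (CF Y A)) i j) y' y = if i = j ∧ y' = y then 1 else 0 := by
  rw [one_apply]
  by_cases h : i = j
  · rw [if_pos h, ent_one]
    by_cases h' : y' = y
    · rw [if_pos h', if_pos ⟨h, h'⟩]
    · rw [if_neg h', if_neg fun h1 => h' h1.2]
  · rw [if_neg h, ent_zero, if_neg fun h1 => h h1.1]

/-- Finitely many rows. -/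
private theorem ini_spp [Finite n] (z : Matrix n n (CF Y A))
    (hz : Cg (JR Y A) z 1) : ∃ s : Finset Y, Spp s z := by
  classical
  have h1 : (⋃ p : n × n, {y' : Y | ∃ y, ent (z p.1 p.2 - (1 : Matrix n n (CF Y A)) p.1 p.2)
      y' y ≠ 0}).Finite := Set.finite_iUnion fun p => (mem_JR Y A _).1 (hz p.1 p.2)
  refine ⟨h1.toFinset, fun i j y' y h => ?_⟩
  rw [Set.Finite.mem_toFinset, Set.mem_iUnion]
  exact ⟨(i, j), y, h⟩

private theorem ini_off [DecidableEq Y] {s : Finset Y} {z : Matrix n n (CF Y A)} (hz : Spp s z)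
    (i j : n) (y' y : Y) (h : y' ∉ s) : ent (z i j) y' y = if i = j ∧ y' = y then 1 else 0 := by
  have h1 : ent (z i j - (1 : Matrix n n (CF Y A)) i j) y' y = 0 := by
    by_contra h2
    exact h (hz i j y' y h2)
  rw [ent_sub, sub_eq_zero, ini_ent_one] at h1
  exact h1

private theorem ini_blk_one [DecidableEq Y] (s : Finset Y) :
    blk s (1 : Matrix n n (CF Y A)) = 1 := by
  refine Matrix.ext fun p q => ?_
  rw [one_apply]
  change ent ((1 : Matrix n n (CF Y A)) p.1 q.1) p.2 q.2 = _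
  rw [ini_ent_one]
  refine if_congr ?_ rfl rfl
  rw [Prod.ext_iff, Subtype.ext_iff]

private theorem ini_blk_mul [DecidableEq Y] [Fintype n] {s : Finset Y} {w : Matrix n n (CF Y A)}
    (hw : Spp s w) (z : Matrix n n (CF Y A)) : blk s (z * w) = blk s z * blk s w := by
  refine Matrix.ext fun p q => ?_
  rw [mul_apply, Fintype.sum_prod_type]
  change ent ((z * w) p.1 q.1) p.2 q.2 = _
  rw [mul_apply, ini_ent_sum]
  refine Finset.sum_congr rfl fun k _ => ?_
  rw [ent_mul_col (z p.1 k) (w k q.1) p.2 q.2 s fun v hv => ?_]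
  · exact (Finset.sum_coe_sort s fun v => ent (z p.1 k) p.2 v * ent (w k q.1) v q.2).symm
  · by_contra h
    refine hv ?_
    rw [ini_off hw k q.1 v q.2 h, if_neg]
    rintro ⟨_, h2⟩
    exact h (h2 ▸ q.2.2)

private theorem ini_spp_inv [Fintype n] {s : Finset Y} {z w : Matrix n n (CF Y A)}
    (hz : Spp s z) (h1 : z * w = 1) : Spp s w := by
  intro i j y' y h
  have h3 : w - 1 = (1 - z) * w := by rw [sub_mul, one_mul, h1]
  have h4 : w i j - (1 : Matrix n n (CF Y A)) i j = ∑ k, (1 - z) i k * w k j := by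
    rw [← mul_apply, ← h3]
    rfl
  rw [h4, ini_ent_sum] at h
  obtain ⟨k, _, hk⟩ := Finset.exists_ne_zero_of_sum_ne_zero h
  obtain ⟨v, hv⟩ := exists_of_ent_mul hk
  refine hz i k y' v fun h5 => left_ne_zero_of_mul hv ?_
  rw [Matrix.sub_apply, ← neg_sub, ent_neg, h5, neg_zero]

end Blk

section Res

variable {Y B C Γ k : Type} [Group Γ] [PartialOrder B] [MulAction Γ B] [OrdAct Γ B]
  [PartialOrder C] [MulAction Γ C] [OrdAct Γ C] [CommRing k]
variable {S : FSys Y B C}

private theorem ini_mcf_one {n : Type} [DecidableEq n] :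
    mcf (1 : Matrix n n (U Γ k S)) = 1 :=
  Matrix.map_one _ rfl rfl

private theorem ini_mcf_mul {n : Type} [Fintype n] (a b : Matrix n n (U Γ k S)) :
    mcf (a * b) = mcf a * mcf b :=
  Matrix.map_mul (L := a) (M := b) (f := (U Γ k S).subtype)

private theorem ini_unit {n : Type} [Fintype n] [DecidableEq n] {a : Matrix n n (U Γ k S)}
    (ha : IsUnit a) : IsUnit (mcf a) :=
  ha.map (U Γ k S).subtype.mapMatrix

private theorem ini_cg {m n : Type} {a b : Matrix m n (U Γ k S)}
    (h : Cg (J Γ k S 0) a b) : Cg (JR Y (MonoidAlgebra k Γ)) (mcf a) (mcf b) :=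
  fun i j => mem_J_zero.1 (h i j)

/-- The restriction of an invariant. -/
private theorem ini_res {K : Type} [CommGroup K]
    (κ : KR (CF Y (MonoidAlgebra k Γ)) (JR Y (MonoidAlgebra k Γ)) K) :
    ∃ κ0 : KR (U Γ k S) (J Γ k S 0) K, ∀ (n : Type) [Fintype n] [DecidableEq n]
      (z : Matrix n n (U Γ k S)), κ0.f z = κ.f (mcf z) := by
  refine ⟨⟨fun {n} _ _ z => κ.f (mcf z), ?_, ?_, ?_⟩, fun n _ _ z => rfl⟩
  · intro n _ _ a b ha hb ha' hb'
    have h1 := ini_cg ha'
    have h2 := ini_cg hb'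
    rw [ini_mcf_one] at h1 h2
    rw [ini_mcf_mul]
    exact κ.mul _ _ (ini_unit ha) (ini_unit hb) h1 h2
  · intro n m _ _ _ _ e a ha ha'
    have h1 := ini_cg ha'
    rw [ini_mcf_one] at h1
    exact κ.reindex e (mcf a) (ini_unit ha) h1
  · intro n m _ _ _ _ a b d ha hd ha' hb' hd'
    have h1 := ini_cg ha'
    have h2 := ini_cg hb'
    have h3 := ini_cg hd'
    rw [ini_mcf_one] at h1 h3
    have h4 : mcf (fromBlocks a b 0 d) = fromBlocks (mcf a) (mcf b) 0 (mcf d) := by
      ext i j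
      rcases i with i | i <;> rcases j with j | j <;> rfl
    have h5 : (0 : Matrix n m (U Γ k S)).map Subtype.val =
        (0 : Matrix n m (CF Y (MonoidAlgebra k Γ))) := by
      ext i j
      rfl
    change κ.f (mcf (fromBlocks a b 0 d)) = κ.f (mcf a) * κ.f (mcf d)
    rw [h4]
    exact κ.tri _ _ _ (ini_unit ha) (ini_unit hd) h1 (h5 ▸ h2) h3

private theorem ini_ex {d b : ℕ} {n : Type} [DecidableEq n]
    (z : Matrix n n (U Γ k (S.der d b))) (i j : n) :
    mcf (Ex (eps Γ k S d b) z) i j = (1 : Matrix n n (CF Y (MonoidAlgebra k Γ))) i j +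
      push Subtype.val_injective (mcf z i j -
        (1 : Matrix n n (CF {y : Y // S.R b y = d} (MonoidAlgebra k Γ))) i j) := by
  have e1 : mcf (Ex (eps Γ k S d b) z) i j = ((1 : Matrix n n (U Γ k S)) i j).1 +
      push Subtype.val_injective (z i j - (1 : Matrix n n (U Γ k (S.der d b))) i j).1 := rfl
  have e2 : ((1 : Matrix n n (U Γ k S)) i j).1 =
      (1 : Matrix n n (CF Y (MonoidAlgebra k Γ))) i j := by
    rw [← ini_mcf_one (S := S)]
    rfl
  have e3 : (z i j - (1 : Matrix n n (U Γ k (S.der d b))) i j).1 = mcf z i j -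
      (1 : Matrix n n (CF {y : Y // S.R b y = d} (MonoidAlgebra k Γ))) i j := by
    rw [← ini_mcf_one (S := S.der d b)]
    rfl
  rw [e1, e2, e3]

/-- The rows of `1 + ε (z - 1)`. -/
private theorem ini_supp [DecidableEq Y] {d b : ℕ} {n : Type} [DecidableEq n]
    (z : Matrix n n (U Γ k (S.der d b))) (s : Finset {y : Y // S.R b y = d})
    (hs : Spp s (mcf z)) : Spp (s.image Subtype.val) (mcf (Ex (eps Γ k S d b) z)) := by
  intro i j y' y hc
  rw [ini_ex, add_sub_cancel_left] at hc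
  obtain ⟨v', v, rfl, rfl, hd⟩ := ent_push_ne _ hc
  exact Finset.mem_image_of_mem _ (hs i j v' v hd)

/-- The block of `1 + ε (z - 1)`. -/
private theorem ini_entv [DecidableEq Y] {d b : ℕ} {n : Type} [DecidableEq n]
    (z : Matrix n n (U Γ k (S.der d b))) (i j : n) (v' v : {y : Y // S.R b y = d}) :
    ent (mcf (Ex (eps Γ k S d b) z) i j) v'.1 v.1 = ent (mcf z i j) v' v := by
  rw [ini_ex, ent_add, ent_push, ent_sub, ini_ent_one, ini_ent_one]
  have h1 : (i = j ∧ v'.1 = v.1) ↔ (i = j ∧ v' = v) := by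
    rw [Subtype.ext_iff]
  rw [if_congr h1 rfl rfl, add_sub_cancel]

end Res

/-- The invariant of the matrices with finitely many rows. -/
theorem ini (h1 : S_fin0) (h4 : S_mon0) : S_ini := by
  classical
  intro Y B C Γ L K _ _ _ _ _ _ _ _ _ _ S κ hκ hst
  obtain ⟨κ1, hκ1⟩ := h1 Y (MonoidAlgebra L Γ) K κ
  obtain ⟨κ0, hκ0⟩ := ini_res (S := S) κ1
  refine ⟨κ0, ⟨?_, ?_⟩, ?_⟩
  · intro d b hd n _ _ z hz hz'
    have hc := ini_cg hz'
    rw [ini_mcf_one] at hc
    obtain ⟨s, hs⟩ := ini_spp (mcf z) hc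
    have hs' := ini_supp (S := S) z s hs
    rw [hκ0, hκ1 n _ _ (ini_unit (ex_unit _ hz)) hs']
    obtain ⟨z', e1, e2⟩ := ex_inv hz
    have f1 : mcf z * mcf z' = 1 := by rw [← ini_mcf_mul, e1, ini_mcf_one]
    have f2 : mcf z' * mcf z = 1 := by rw [← ini_mcf_mul, e2, ini_mcf_one]
    have hs2 : Spp s (mcf z') := ini_spp_inv hs f1
    have g1 : blk s (mcf z) * blk s (mcf z') = 1 := by
      rw [← ini_blk_mul hs2, f1, ini_blk_one]
    have g2 : blk s (mcf z') * blk s (mcf z) = 1 := by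
      rw [← ini_blk_mul hs, f2, ini_blk_one]
    let e0 : s ≃ (s.image Subtype.val : Finset Y) :=
      Equiv.ofBijective (fun v => ⟨v.1.1, Finset.mem_image_of_mem _ v.2⟩)
        ⟨fun v w h => by
          have h' : v.1.1 = w.1.1 :=
            congrArg (fun x : (s.image Subtype.val : Finset Y) => x.1) h
          exact Subtype.ext (Subtype.ext h'), fun w => by
          obtain ⟨v, hv, hw⟩ := Finset.mem_image.1 w.2
          exact ⟨⟨v, hv⟩, Subtype.ext hw⟩⟩
    let e : n × s ≃ n × (s.image Subtype.val : Finset Y) := Equiv.prodCongr (Equiv.refl n) e0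
    have he : blk (s.image Subtype.val) (mcf (Ex (eps Γ L S d b) z)) =
        (blk s (mcf z)).submatrix e.symm e.symm := by
      refine Matrix.ext fun p q => ?_
      obtain ⟨p, rfl⟩ := e.surjective p
      obtain ⟨q, rfl⟩ := e.surjective q
      rw [Matrix.submatrix_apply, Equiv.symm_apply_apply, Equiv.symm_apply_apply]
      exact ini_entv z p.1 q.1 p.2.1 q.2.1
    rw [he, κ.reindex e _ ⟨⟨_, _, g1, g2⟩, rfl⟩]
    refine hst d b hd (n × s) (fun p => p.2.1) _ (blk s (mcf z')) ?_ ?_ g1 g2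
    · intro p q g hg
      exact (z p.1 q.1).2.1 g p.2.1 q.2.1 hg
    · intro p q g hg
      exact (z' p.1 q.1).2.1 g p.2.1 q.2.1 hg
  · intro n _ _ z hz hz' hm
    have hc := ini_cg hz'
    rw [ini_mcf_one] at hc
    obtain ⟨s, hs⟩ := ini_spp (mcf z) hc
    rw [hκ0, hκ1 n _ s (ini_unit hz) hs]
    exact h4 Y L Γ K κ hκ n s (mcf z) hm hs
  · intro n _ _ _ z s hz hs
    rw [hκ0, hκ1 n _ s (ini_unit hz) hs]

end Pool.Agent.FL
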