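import Pool.Agent.Lib.MP_8f66f0_al_FL.SpecR

/-!
# Corners of one-sided ladders, idempotents

`kzL`: let `e = p + x` be an idempotent matrix, `p = pj P` and `x` over `J`. With the scalar idempotent `q`
of `LadL.dec` (`q x = x`, `q = ε b 1` modulo `J'`) and `s = x (1 - q) (2 p - 1)` one has `s * s = 0` and
`(1 - s) e (1 + s) = p + x q`; the entries `x q = q x q` come from `T b` modulo `J'` (`LadL.cor`). Then the
proof of `CC.kz_of_lad` applies.
-/

set_option autoImplicit false

namespace Pool.Agent.FL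

open Matrix
open Pool.Agent.CC (KZ KQ MC pj Em conj_of_kq em_mul em_pj em_blocks mc_em pj_true pj_sum pj_idem pj_eq)

private theorem kzl_alg {A : Type} [Ring A] (p x q s : A) (hp : p * p = p) (hpq : q * p = p * q)
    (hx : q * x = x) (he : (p + x) * (p + x) = p + x) (hs : s = x * (1 - q) * (p + p - 1)) :
    (1 - s) * (1 + s) = 1 ∧ (1 + s) * (1 - s) = 1 ∧ (1 - s) * (p + x) * (1 + s) = p + x * q := by
  have hk : (1 - q) * p = p * (1 - q) := by
    rw [sub_mul, mul_sub, hpq, one_mul, mul_one]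
  have hkx : (1 - q) * x = 0 := by rw [sub_mul, hx, one_mul, sub_self]
  have h1 : p * x + x * x = x - x * p := by
    have e1 : (p + x) * (p + x) = p * p + x * p + (p * x + x * x) := by noncomm_ring
    rw [e1, hp] at he
    have e2 : p * x + x * x = (p + x * p + (p * x + x * x)) - p - x * p := by abel
    rw [e2, he]
    abel
  have hwk : (1 - q) * (p + p - 1) = (p + p - 1) * (1 - q) := by
    have e1 : (1 - q) * (p + p - 1) = (1 - q) * p + (1 - q) * p - (1 - q) := by noncomm_ring
    have e2 : (p + p - 1) * (1 - q) = p * (1 - q) + p * (1 - q) - (1 - q) := by noncomm_ring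
    rw [e1, e2, hk]
  have hpw : p * (p + p - 1) = p := by
    rw [mul_sub, mul_add, hp, mul_one]
    abel
  have hwp : (p + p - 1) * p = p := by
    rw [sub_mul, add_mul, hp, one_mul]
    abel
  have hsx : s * x = 0 := by
    rw [hs, mul_assoc x (1 - q) (p + p - 1), hwk, mul_assoc, mul_assoc, hkx, mul_zero, mul_zero]
  have hss : s * s = 0 := by
    nth_rewrite 2 [hs]
    rw [← mul_assoc, ← mul_assoc, hsx, zero_mul, zero_mul]
  have hsp : s * p = x * (1 - q) * p := by
    rw [hs, mul_assoc, hwp]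
  have hs2 : s = x * (1 - q) * p + x * (1 - q) * p - x * (1 - q) := by
    rw [hs, mul_sub, mul_add, mul_one]
  have hes : (p + x) * s = x * (1 - q) * p - x * (1 - q) := by
    have e1 : (p + x) * s = (p * x + x * x) * (1 - q) * (p + p - 1) := by
      rw [hs]
      noncomm_ring
    have e2 : (x - x * p) * (1 - q) * (p + p - 1) = s - x * (p * (1 - q)) * (p + p - 1) := by
      rw [hs]
      noncomm_ring
    rw [e1, h1, e2, ← hk, ← mul_assoc, mul_assoc, hpw, hs2]
    abel
  have h2 : (1 - s) * (1 + s) = 1 := by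
    have e1 : (1 - s) * (1 + s) = 1 - s * s := by noncomm_ring
    rw [e1, hss, sub_zero]
  have h3 : (1 + s) * (1 - s) = 1 := by
    have e1 : (1 + s) * (1 - s) = 1 - s * s := by noncomm_ring
    rw [e1, hss, sub_zero]
  refine ⟨h2, h3, ?_⟩
  have h4 : (p + x) * (1 + s) = (1 + s) * (p + x * q) := by
    have e1 : (1 + s) * (p + x * q) = p + x * q + s * p + s * x * q := by noncomm_ring
    rw [mul_add, mul_one, hes, e1, hsx, zero_mul, hsp]
    noncomm_ring
  rw [mul_assoc, h4, ← mul_assoc, h2, one_mul]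

section Lad

variable {R : Type} [Ring R] {J' J : Ideal R} {β : Type} [Preorder β] {T : β → Type}
  [∀ b, Ring (T b)] {I : ∀ b, Ideal (T b)} {ε : ∀ b, T b →ₙ+* R}

private theorem kzl_ts [J'.IsTwoSided] (h : LadL R J' J β T I ε) (b : β) : (I b).IsTwoSided :=
  ⟨fun y hx => by
    rw [← h.pre, map_mul]
    exact J'.mul_mem_right _ ((h.pre b _).2 hx)⟩

private theorem kzl_core [J'.IsTwoSided] (h : LadL R J' J β T I ε) (hK : ∀ b, KQ (I b)) {n : Type}
    [Fintype n] [DecidableEq n] (P : n → Prop) (e : Matrix n n R) (he : e * e = e) (b : β)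
    (eb : Matrix n n (T b)) (h1 : MC J' e (Em (ε b) P eb)) :
    ∃ (m : Type) (_ : Fintype m) (_ : DecidableEq m) (S : m → Prop)
      (v v' : Matrix (n ⊕ m) (n ⊕ m) R), v * v' = 1 ∧ v' * v = 1 ∧ MC J v 1 ∧
        MC J' (v * fromBlocks e 0 0 (pj S) * v') (pj (Sum.elim P S)) := by
  have := kzl_ts h b
  have h2 : MC (I b) (eb * eb) eb := by
    have h3 : MC J' (Em (ε b) P (eb * eb)) (Em (ε b) P eb) := by
      have h4 := em_mul (ε b) P P eb eb
      simp only [and_self] at h4
      rw [← h4]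
      refine (h1.symm.mul h1.symm).trans ?_
      rw [he]
      exact h1
    intro i j
    rw [← h.pre, map_sub]
    have h5 := h3 i j
    have e1 : Em (ε b) P (eb * eb) i j - Em (ε b) P eb i j =
        ε b ((eb * eb) i j) - ε b (eb i j) := by
      unfold Em
      rw [Matrix.add_apply, Matrix.add_apply, Matrix.map_apply, Matrix.map_apply, Matrix.sub_apply,
        Matrix.sub_apply, map_sub, map_sub]
      abel
    rwa [e1] at h5
  obtain ⟨m, _, _, S, W, W', w1, w2, w3⟩ := conj_of_kq (hK b) eb (pj P) h2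
    (MC.of_eq (pj_idem P))
  have T1 : ∀ A B : Matrix (n ⊕ m) (n ⊕ m) (T b), Em (ε b) (fun _ => True) A *
      Em (ε b) (fun _ => True) B = Em (ε b) (fun _ => True) (A * B) := fun A B => by
    rw [em_mul]
    simp only [and_self]
  have T2 : Em (ε b) (fun _ => True) (1 : Matrix (n ⊕ m) (n ⊕ m) (T b)) = 1 := by
    have h3 := em_pj (n := n ⊕ m) (ε b) (fun _ => True)
    rwa [pj_true, pj_true] at h3
  refine ⟨m, inferInstance, inferInstance, S, Em (ε b) (fun _ => True) W,
    Em (ε b) (fun _ => True) W', ?_, ?_, ?_, ?_⟩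
  · rw [T1, w1, T2]
  · rw [T1, w2, T2]
  · intro i j
    unfold Em
    rw [pj_true, Matrix.add_apply, add_sub_cancel_left]
    exact h.mem b _
  · have h3 : MC J' (fromBlocks e 0 0 (pj S)) (Em (ε b) (Sum.elim P S) (fromBlocks eb 0 0 (pj S))) := by
      rw [em_blocks]
      exact MC.fromBlocks h1 (MC.refl _) (MC.refl _) (MC.refl _)
    refine ((h3.mul_left _).mul_right _).trans ?_
    rw [em_mul, em_mul]
    simp only [true_and, and_true]
    have h4 := mc_em (J := J') (P := Sum.elim P S) (ε b) (fun x hx => (h.pre b x).2 hx) w3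
    refine h4.trans (MC.of_eq ?_)
    rw [← pj_sum, em_pj]

end Lad

/-- Corners of one-sided ladders, idempotents. -/
theorem kzL : S_kzL := by
  intro R _ J' J _ _ β _ T _ I ε h hK n _ _ P e he heP
  classical
  let x : Matrix n n R := e - pj P
  have hxJ : ∀ i j, x i j ∈ J := heP
  obtain ⟨b, q, hqJ, hqq, hqx, hqb⟩ := h.dec (Finset.univ.image fun t : n × n => x t.1 t.2) (by
    intro y hy
    obtain ⟨t, -, rfl⟩ := Finset.mem_image.1 hy
    exact hxJ _ _)
  have hqx' : ∀ i j, q * x i j = x i j := fun i j =>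
    hqx _ (Finset.mem_image.2 ⟨(i, j), Finset.mem_univ _, rfl⟩)
  have hex : e = pj P + x := (add_sub_cancel _ _).symm
  let Q : Matrix n n R := Matrix.diagonal fun _ => q
  have hQx : Q * x = x := by
    ext i j
    rw [Matrix.diagonal_mul]
    exact hqx' i j
  have hQp : Q * pj P = pj P * Q := by
    rw [pj_eq, Matrix.diagonal_mul_diagonal, Matrix.diagonal_mul_diagonal]
    congr 1
    funext i
    split_ifs
    · rw [mul_one, one_mul]
    · rw [mul_zero, zero_mul]
  obtain ⟨s, hs⟩ : ∃ s : Matrix n n R, s = x * (1 - Q) * (pj P + pj P - 1) := ⟨_, rfl⟩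
  have he' : (pj P + x) * (pj P + x) = pj P + x := by rw [← hex]; exact he
  obtain ⟨a1, a2, a3⟩ := kzl_alg (pj P) x Q s (pj_idem P) hQp hQx he' hs
  have hxM : MC J x 0 := fun i j => by
    rw [Matrix.zero_apply, sub_zero]
    exact hxJ i j
  have hsM : MC J s 0 := by
    have h1 := (hxM.mul_right (1 - Q)).mul_right (pj P + pj P - 1)
    rwa [Matrix.zero_mul, Matrix.zero_mul, ← hs] at h1
  choose c hc using fun i j => h.cor b (x i j) (hxJ i j)
  let eb : Matrix n n (T b) := pj P + Matrix.of c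
  have h1 : MC J' (pj P + x * Q) (Em (ε b) P eb) := by
    intro i j
    have e1 : (pj P + x * Q : Matrix n n R) i j - Em (ε b) P eb i j =
        (q - ε b 1) * x i j * q + ε b 1 * x i j * (q - ε b 1) +
          (ε b 1 * x i j * ε b 1 - ε b (c i j)) := by
      have e2 : Em (ε b) P eb i j = (pj P : Matrix n n R) i j + ε b (c i j) := by
        unfold Em
        rw [Matrix.add_apply, Matrix.map_apply, Matrix.sub_apply]
        show (pj P : Matrix n n R) i j + ε b (pj P i j + c i j - pj P i j) = _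
        rw [add_sub_cancel_left]
      have e3 : (pj P + x * Q : Matrix n n R) i j = (pj P : Matrix n n R) i j + q * x i j * q := by
        rw [Matrix.add_apply, hqx']
        exact congrArg _ (Matrix.mul_diagonal _ _ _ _)
      rw [e2, e3]
      noncomm_ring
    rw [e1]
    exact J'.add_mem (J'.add_mem (J'.mul_mem_right _ (J'.mul_mem_right _ hqb))
      (J'.mul_mem_left _ hqb)) (hc i j)
  have h2 : (pj P + x * Q) * (pj P + x * Q) = pj P + x * Q := by
    rw [← a3]
    have e1 : (1 - s) * (pj P + x) * (1 + s) * ((1 - s) * (pj P + x) * (1 + s)) =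
        (1 - s) * ((pj P + x) * ((1 + s) * (1 - s)) * (pj P + x)) * (1 + s) := by
      simp only [mul_assoc]
    rw [e1, a2, mul_one, he']
  obtain ⟨m, i1, i2, S, v, v', b1, b2, b3, b4⟩ := kzl_core h hK P _ h2 b eb h1
  have u1 : (fromBlocks (1 - s) 0 0 1 : Matrix (n ⊕ m) (n ⊕ m) R) * fromBlocks (1 + s) 0 0 1 = 1 := by
    rw [fromBlocks_multiply, ← fromBlocks_one]
    simp only [Matrix.mul_zero, Matrix.zero_mul, add_zero, zero_add, mul_one, a1]
  have u2 : (fromBlocks (1 + s) 0 0 1 : Matrix (n ⊕ m) (n ⊕ m) R) * fromBlocks (1 - s) 0 0 1 = 1 := by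
    rw [fromBlocks_multiply, ← fromBlocks_one]
    simp only [Matrix.mul_zero, Matrix.zero_mul, add_zero, zero_add, mul_one, a2]
  have u3 : (fromBlocks (1 - s) 0 0 1 : Matrix (n ⊕ m) (n ⊕ m) R) * fromBlocks e 0 0 (pj S) *
      fromBlocks (1 + s) 0 0 1 = fromBlocks (pj P + x * Q) 0 0 (pj S) := by
    rw [fromBlocks_multiply, fromBlocks_multiply]
    simp only [Matrix.mul_zero, Matrix.zero_mul, add_zero, zero_add, mul_one, one_mul]
    rw [← a3, ← hex]
  have u4 : MC J (fromBlocks (1 - s) 0 0 1 : Matrix (n ⊕ m) (n ⊕ m) R) 1 := by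
    rw [← fromBlocks_one (l := n) (m := m)]
    refine MC.fromBlocks ?_ (MC.refl _) (MC.refl _) (MC.refl _)
    have h3 := (MC.refl (J := J) (1 : Matrix n n R)).sub hsM
    rwa [sub_zero] at h3
  refine ⟨m, i1, i2, S, v * fromBlocks (1 - s) 0 0 1, fromBlocks (1 + s) 0 0 1 * v', ?_, ?_, ?_, ?_⟩
  · rw [mul_assoc, ← mul_assoc _ _ v', u1, one_mul, b1]
  · rw [mul_assoc, ← mul_assoc v' _ _, b2, one_mul, u2]
  · have h3 := b3.mul u4
    rwa [mul_one] at h3
  · have e1 : v * fromBlocks (1 - s) 0 0 1 * fromBlocks e 0 0 (pj S) *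
        (fromBlocks (1 + s) 0 0 1 * v') = v * (fromBlocks (1 - s) 0 0 1 * fromBlocks e 0 0 (pj S) *
          fromBlocks (1 + s) 0 0 1) * v' := by
      simp only [mul_assoc]
    rw [e1, u3]
    exact b4

end Pool.Agent.FL
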