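import Pool.Agent.Lib.MP_8f66f0_al_FL.Spec

/-!
# Project GLn: the ladder of a flag system and the left local units
-/

set_option autoImplicit false
set_option linter.unusedSectionVars false

namespace Pool.Agent.FL

section

variable {Y B C Γ k : Type} [Group Γ] [PartialOrder B] [MulAction Γ B] [OrdAct Γ B]
  [PartialOrder C] [MulAction Γ C] [OrdAct Γ C] [CommRing k]
variable {S : FSys Y B C}

/-- The image of `1` is the projection onto the objects of rank `d` at the time `b`. -/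
theorem eps_one (d b : ℕ) : eps Γ k S d b 1 = prU Γ k S {y | S.R b y = d} := by
  classical
  refine Subtype.ext (ent_ext fun y' y => ?_)
  rw [eps_val]
  change ent (push Subtype.val_injective (1 : CF {y : Y // S.R b y = d} (MonoidAlgebra k Γ))) y' y =
    ent (prK (MonoidAlgebra k Γ) {y | S.R b y = d}) y' y
  rw [ent_prK]
  by_cases h : y' = y ∧ y ∈ {y | S.R b y = d}
  · obtain ⟨rfl, h⟩ := h
    rw [if_pos ⟨rfl, h⟩]
    have h1 := ent_push Subtype.val_injective (1 : CF {y : Y // S.R b y = d} (MonoidAlgebra k Γ))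
      ⟨y', h⟩ ⟨y', h⟩
    rw [ent_one, if_pos rfl] at h1
    exact h1
  · rw [if_neg h]
    by_contra hne
    obtain ⟨v, w, rfl, rfl, h1⟩ := ent_push_ne _ hne
    rw [ent_one, ne_eq, ite_eq_right_iff, Classical.not_imp] at h1
    exact h ⟨by rw [h1.1], w.2⟩

theorem eps_mem_iff (d b : ℕ) (j : ℕ) (x : U Γ k (S.der d b)) :
    eps Γ k S d b x ∈ J Γ k S j ↔ x ∈ J Γ k (S.der d b) j := by
  constructor
  · rintro ⟨h, H⟩
    refine ⟨h, fun g y' y hc => ?_⟩
    rw [R_der]
    refine (S.R_anti (Nat.le_add_left h b) _).trans (H g y'.1 y.1 ?_)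
    rw [eps_val, cf_push]
    exact hc
  · rintro ⟨h, H⟩
    refine ⟨b + h, fun g y' y hc => ?_⟩
    rw [eps_val] at hc
    obtain ⟨v, w, rfl, rfl, hc'⟩ := cf_push_ne Subtype.val_injective hc
    have := H g v w hc'
    rwa [R_der] at this

/-- The corner of `x` on the objects of rank `d` at the time `b`, without the rows which have a smaller
rank at the time `h`. -/
noncomputable def crK (x : CF Y (MonoidAlgebra k Γ)) (S : FSys Y B C) (d b h : ℕ) :
    CF {y : Y // S.R b y = d} (MonoidAlgebra k Γ) :=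
  prK (MonoidAlgebra k Γ) {y | d ≤ S.R h y.1} * pull Subtype.val_injective x

theorem cf_crK {x : CF Y (MonoidAlgebra k Γ)} {d b h : ℕ} {g : Γ}
    {y' y : {y : Y // S.R b y = d}} (hc : cf (crK x S d b h) g y' y ≠ 0) :
    d ≤ S.R h y'.1 ∧ cf (crK x S d b h) g y' y = cf x g y'.1 y.1 := by
  classical
  rw [cf, crK, ent_prK_mul] at hc ⊢
  by_cases h1 : y' ∈ {y : {y : Y // S.R b y = d} | d ≤ S.R h y.1}
  · rw [if_pos h1, ent_pull]
    exact ⟨h1, rfl⟩
  · rw [if_neg h1, MonoidAlgebra.coeff_zero] at hc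
    exact absurd rfl hc

theorem cf_crK_pos {x : CF Y (MonoidAlgebra k Γ)} {d b h : ℕ} (g : Γ)
    (y' y : {y : Y // S.R b y = d}) (h1 : d ≤ S.R h y'.1) :
    cf (crK x S d b h) g y' y = cf x g y'.1 y.1 := by
  classical
  rw [cf, crK, ent_prK_mul, if_pos (show y' ∈ {y : {y : Y // S.R b y = d} | d ≤ S.R h y.1} from h1),
    ent_pull]
  rfl

theorem crK_mem {x : CF Y (MonoidAlgebra k Γ)} (hx : x ∈ U Γ k S) {d b h : ℕ} (hd : 1 ≤ d)
    (hh : ∀ g y' y, cf x g y' y ≠ 0 → Cmp S h b g y' y) :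
    crK x S d b h ∈ U Γ k (S.der d b) := by
  obtain ⟨x1, x2, P, hP, x3⟩ := hx
  refine ⟨fun g y' y hc => ?_, fun h' => ?_, P, hP, fun g y' y => ?_⟩
  · obtain ⟨h1, h2⟩ := cf_crK hc
    rw [h2] at hc
    obtain ⟨h3, h4⟩ := hh g y'.1 y.1 hc
    rw [y.2] at h3 h4
    have h5 : S.R h y'.1 = d := le_antisymm h3 h1
    rw [h5] at h4
    exact ⟨x1 g y'.1 y.1 hc, h4 rfl hd⟩
  · obtain ⟨h1, H⟩ := x2 (b + h')
    refine ⟨h1, fun g y' y hc => ?_⟩
    obtain ⟨_, h3⟩ := cf_crK hc
    rw [h3] at hc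
    obtain ⟨h4, h5⟩ := (H g y'.1 y.1 hc).mono (Nat.le_add_left h1 b)
    refine ⟨?_, ?_⟩
    · rw [R_der, R_der]
      exact h4
    · rw [R_der, R_der]
      exact h5
  · by_cases hc : cf (crK x S d b h) g y' y = 0
    · rw [hc]
      exact P.zero_mem
    · rw [(cf_crK hc).2]
      exact x3 g y'.1 y.1

theorem lad_cor {d : ℕ} (hd : 1 ≤ d) (b : ℕ) (x : U Γ k S) :
    ∃ c : U Γ k (S.der d b), eps Γ k S d b 1 * x * eps Γ k S d b 1 - eps Γ k S d b c ∈
      J Γ k S (d - 1) := by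
  classical
  obtain ⟨h, hh⟩ := x.2.2.1 b
  refine ⟨⟨crK x.1 S d b h, crK_mem x.2 hd hh⟩, h, fun g y' y hc => ?_⟩
  rw [eps_one] at hc
  change cf (prK (MonoidAlgebra k Γ) {y | S.R b y = d} * x.1 *
    prK (MonoidAlgebra k Γ) {y | S.R b y = d} - push Subtype.val_injective (crK x.1 S d b h))
    g y' y ≠ 0 at hc
  by_contra hlt
  have hdl : d ≤ S.R h y' := by omega
  refine hc ?_
  have e1 : cf (prK (MonoidAlgebra k Γ) {y | S.R b y = d} * x.1 *
      prK (MonoidAlgebra k Γ) {y | S.R b y = d}) g y' y =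
      if S.R b y' = d ∧ S.R b y = d then cf x.1 g y' y else 0 := by
    rw [cf, ent_mul_prK, ent_prK_mul]
    by_cases h1 : S.R b y = d
    · by_cases h2 : S.R b y' = d
      · rw [if_pos (show y ∈ {y | S.R b y = d} from h1),
          if_pos (show y' ∈ {y | S.R b y = d} from h2), if_pos ⟨h2, h1⟩]
        rfl
      · rw [if_pos (show y ∈ {y | S.R b y = d} from h1),
          if_neg (show ¬ y' ∈ {y | S.R b y = d} from h2), if_neg fun h => h2 h.1,
          MonoidAlgebra.coeff_zero]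
        rfl
    · rw [if_neg (show ¬ y ∈ {y | S.R b y = d} from h1), if_neg fun h => h1 h.2,
        MonoidAlgebra.coeff_zero]
      rfl
  rw [cf_sub, e1]
  by_cases h1 : S.R b y' = d ∧ S.R b y = d
  · rw [if_pos h1]
    have h2 := cf_push (Γ := Γ) (L := k) (ι := (Subtype.val : {y : Y // S.R b y = d} → Y))
      Subtype.val_injective (crK x.1 S d b h) g ⟨y', h1.1⟩ ⟨y, h1.2⟩
    have h3 := cf_crK_pos (x := x.1) (h := h) g (⟨y', h1.1⟩ : {y : Y // S.R b y = d}) ⟨y, h1.2⟩ hdl
    rw [h3] at h2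
    rw [show cf (push Subtype.val_injective (crK x.1 S d b h)) g y' y = cf x.1 g y' y from h2,
      sub_self]
  · rw [if_neg h1, zero_sub, neg_eq_zero]
    by_contra hne
    obtain ⟨v, w, rfl, rfl, _⟩ := cf_push_ne _ hne
    exact h1 ⟨v.2, w.2⟩

theorem lUl_J (j : ℕ) : LUl (J Γ k S j) ∧ ∀ s : Finset (U Γ k S), (∀ x ∈ s, x ∈ J Γ k S j) →
    ∃ h, ∀ x ∈ s, prU Γ k S {y | S.R h y ≤ j} * x = x := by
  classical
  have key : ∀ s : Finset (U Γ k S), (∀ x ∈ s, x ∈ J Γ k S j) →
      ∃ h, ∀ x ∈ s, prU Γ k S {y | S.R h y ≤ j} * x = x := by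
    intro s hs
    choose! H hH using fun x (hx : x ∈ s) => exists_prU_mul (hs x hx)
    refine ⟨s.sup H, fun x hx => hH x hx _ (Finset.le_sup hx)⟩
  refine ⟨fun s hs => ?_, key⟩
  obtain ⟨h, hh⟩ := key s hs
  exact ⟨_, prU_J h j, prU_mul_self _, hh⟩

end

theorem lad : S_lad := by
  classical
  intro Y B C Γ k _ _ _ _ _ _ _ _ S d hd
  refine ⟨⟨J_mono S (Nat.sub_le d 1), fun b c => ⟨b ⊔ c, le_sup_left, le_sup_right⟩,
    fun b x => eps_mem_J S d b x, fun b x => eps_mem_iff d b (d - 1) x,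
    fun b x _ => lad_cor hd b x, fun b b' hb c => ?_, fun s hs => ?_⟩, (lUl_J (d - 1)).1,
    (lUl_J d).1⟩
  · -- mono
    obtain ⟨c', hc'⟩ := lad_cor hd b' (eps Γ k S d b c)
    refine ⟨c', ?_⟩
    set x := eps Γ k S d b c with hx
    have h1 : x - eps Γ k S d b' 1 * x * eps Γ k S d b' 1 ∈ J Γ k S (d - 1) := by
      obtain ⟨h, hh⟩ := x.2.2.1 b'
      refine ⟨b' ⊔ h, fun g y' y hc => ?_⟩
      rw [eps_one] at hc
      change cf (x.1 - prK (MonoidAlgebra k Γ) {y | S.R b' y = d} * x.1 *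
        prK (MonoidAlgebra k Γ) {y | S.R b' y = d}) g y' y ≠ 0 at hc
      have e1 : cf (prK (MonoidAlgebra k Γ) {y | S.R b' y = d} * x.1 *
          prK (MonoidAlgebra k Γ) {y | S.R b' y = d}) g y' y =
          if S.R b' y' = d ∧ S.R b' y = d then cf x.1 g y' y else 0 := by
        rw [cf, ent_mul_prK, ent_prK_mul]
        by_cases h1 : S.R b' y = d
        · by_cases h2 : S.R b' y' = d
          · rw [if_pos (show y ∈ {y | S.R b' y = d} from h1),
              if_pos (show y' ∈ {y | S.R b' y = d} from h2), if_pos ⟨h2, h1⟩]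
            rfl
          · rw [if_pos (show y ∈ {y | S.R b' y = d} from h1),
              if_neg (show ¬ y' ∈ {y | S.R b' y = d} from h2), if_neg fun h => h2 h.1,
              MonoidAlgebra.coeff_zero]
            rfl
        · rw [if_neg (show ¬ y ∈ {y | S.R b' y = d} from h1), if_neg fun h => h1 h.2,
            MonoidAlgebra.coeff_zero]
          rfl
      rw [cf_sub, e1] at hc
      by_cases h2 : S.R b' y' = d ∧ S.R b' y = d
      · rw [if_pos h2, sub_self] at hc
        exact absurd rfl hc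
      · rw [if_neg h2, sub_zero] at hc
        obtain ⟨v, w, h3, h4, _⟩ := cf_push_ne _ hc
        by_cases h5 : S.R b' y' = d
        · have h6 : S.R b' y ≠ d := fun h => h2 ⟨h5, h⟩
          have h7 : S.R b' y ≤ d := by
            rw [← h4]
            exact (S.R_anti hb _).trans (le_of_eq w.2)
          have h8 := (hh g y' y hc).1
          have h9 := S.R_anti (le_sup_right : h ≤ b' ⊔ h) y'
          omega
        · have h7 : S.R b' y' ≤ d := by
            rw [← h3]
            exact (S.R_anti hb _).trans (le_of_eq v.2)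
          have h9 := S.R_anti (le_sup_left : b' ≤ b' ⊔ h) y'
          omega
    have h2 := (J Γ k S (d - 1)).add_mem h1 hc'
    rwa [sub_add_sub_cancel] at h2
  · -- dec
    obtain ⟨h, hh⟩ := (lUl_J d).2 s hs
    refine ⟨h, prU Γ k S {y | S.R h y ≤ d}, prU_J h d, prU_mul_self _, hh, h,
      fun g y' y hc => ?_⟩
    rw [eps_one] at hc
    have h1 := cf_ne_of_ne hc
    change ent (prK (MonoidAlgebra k Γ) {y | S.R h y ≤ d} -
      prK (MonoidAlgebra k Γ) {y | S.R h y = d}) y' y ≠ 0 at h1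
    rw [ent_sub, ent_prK, ent_prK] at h1
    by_cases hy : y' = y
    · subst hy
      by_cases h2 : S.R h y' ≤ d
      · by_cases h3 : S.R h y' = d
        · rw [if_pos ⟨rfl, h2⟩, if_pos ⟨rfl, h3⟩, sub_self] at h1
          exact absurd rfl h1
        · omega
      · have h3 : ¬ S.R h y' = d := fun h => h2 (le_of_eq h)
        rw [if_neg fun h => h2 h.2, if_neg fun h => h3 h.2, sub_self] at h1
        exact absurd rfl h1
    · rw [if_neg fun h => hy h.1, if_neg fun h => hy h.1, sub_self] at h1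
      exact absurd rfl h1

end Pool.Agent.FL
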