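import Pool.Agent.Lib.MP_8f66f0_al_FL.Tools
import Pool.Agent.Lib.MP_8f66f0_al_CC.Sys.Flas

/-!
# Project GLn: the rings of exact flag systems are flasque

`flas`: the ring of an exact flag system of rank `d ≥ 1` is flasque (`CC.Flas`); hence (`flq`) all
`K₁`-like invariants are trivial. The block `m` of `Λ z` is `z` on the objects `io (m, y)`, which is `y`
with all slots `(i, n)` replaced by `(i, 2 ^ m (2 n + 1) - 1)`.
-/

set_option autoImplicit false
set_option linter.unusedSectionVars false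

namespace Pool.Agent.FL

open Pool.Agent.CC (Flas Flq flq_of_flas th th_inj le_th)

section Bd

variable {Y A : Type} [Ring A]

/-- The block diagonal matrix. -/
private theorem bd_ex (z : CF Y A) : ∃ w : CF (ℕ × Y) A, ∀ p q,
    ent w p q = if p.1 = q.1 then ent z p.2 q.2 else 0 := by
  refine exists_ent _ fun q => ?_
  · refine ((ent_col z q.2).image fun x => (q.1, x)).subset fun p hp => ?_
    by_cases h : p.1 = q.1
    · rw [Set.mem_ofPred_eq, if_pos h] at hp
      exact ⟨p.2, hp, Prod.ext h.symm rfl⟩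
    · exact absurd (if_neg h) hp

/-- The block diagonal matrix with infinitely many equal blocks. -/
noncomputable def bd (z : CF Y A) : CF (ℕ × Y) A := (bd_ex z).choose

theorem ent_bd (z : CF Y A) (p q : ℕ × Y) :
    ent (bd z) p q = if p.1 = q.1 then ent z p.2 q.2 else 0 := (bd_ex z).choose_spec p q

theorem bd_zero : bd (0 : CF Y A) = 0 := ent_ext fun p q => by
  rw [ent_bd, ent_zero, ent_zero, ite_self]

theorem bd_add (z w : CF Y A) : bd (z + w) = bd z + bd w := ent_ext fun p q => by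
  rw [ent_add, ent_bd, ent_bd, ent_bd, ent_add]
  split
  · rfl
  · rw [add_zero]

theorem bd_mul (z w : CF Y A) : bd (z * w) = bd z * bd w := by
  classical
  refine ent_ext fun p q => ?_
  rw [ent_mul_col (bd z) (bd w) p q ((ent_col w q.2).toFinset.image fun x => (q.1, x))
    fun v hv => ?_, Finset.sum_image fun a _ b _ h => (Prod.ext_iff.1 h).2, ent_bd,
    ent_mul_col z w p.2 q.2 (ent_col w q.2).toFinset fun v hv => by
      rw [Set.Finite.mem_toFinset]; exact hv]
  · by_cases h : p.1 = q.1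
    · rw [if_pos h]
      refine Finset.sum_congr rfl fun v _ => ?_
      rw [ent_bd, ent_bd, if_pos h, if_pos rfl]
    · rw [if_neg h]
      refine (Finset.sum_eq_zero fun v _ => ?_).symm
      rw [ent_bd, if_neg h, zero_mul]
  · rw [ent_bd] at hv
    by_cases h : v.1 = q.1
    · rw [if_pos h] at hv
      rw [Finset.mem_image]
      exact ⟨v.2, by rw [Set.Finite.mem_toFinset]; exact hv, Prod.ext h.symm rfl⟩
    · exact absurd (if_neg h) hv

theorem adjK_isoK_zero (a b : Y → Y) (ha : Function.Injective a) (hb : Function.Injective b)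
    (h : ∀ y x, a y ≠ b x) : adjK A a ha * isoK A b hb = 0 := by
  classical
  refine ent_ext fun y x => ?_
  rw [ent_adjK_mul, ent_isoK, ent_zero, if_neg fun h' => h y x h'.symm]

theorem isoK_add (a b : Y → Y) (ha : Function.Injective a) (hb : Function.Injective b)
    (h : ∀ y x, a y ≠ b x) (h' : ∀ y, y ∈ Set.range a ∨ y ∈ Set.range b) :
    isoK A a ha * adjK A a ha + isoK A b hb * adjK A b hb = 1 := by
  classical
  refine ent_ext fun y x => ?_
  rw [isoK_mul_adjK, isoK_mul_adjK, ent_add, ent_prK, ent_prK, ent_one]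
  by_cases hyx : y = x
  · subst hyx
    rw [if_pos rfl]
    rcases h' y with ⟨y', rfl⟩ | ⟨y', rfl⟩
    · rw [if_pos ⟨rfl, y', rfl⟩, if_neg, add_zero]
      rintro ⟨_, x, hx⟩
      exact h y' x hx.symm
    · rw [if_neg, if_pos ⟨rfl, y', rfl⟩, zero_add]
      rintro ⟨_, x, hx⟩
      exact h x y' hx
  · rw [if_neg fun h => hyx h.1, if_neg fun h => hyx h.1, if_neg hyx, add_zero]

end Bd

theorem th_mono (m : ℕ) : StrictMono (th m) := by
  induction m with
  | zero =>
    intro a b h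
    change 2 * a < 2 * b
    omega
  | succ m ih =>
    intro a b h
    have := ih h
    change 2 * th m a + 1 < 2 * th m b + 1
    omega

/-- The least `n` with `h ≤ th m n`. -/
def cm (m h : ℕ) : ℕ := Nat.find (⟨h, (le_th m h).2⟩ : ∃ n, h ≤ th m n)

theorem cm_le_iff {m h n : ℕ} : cm m h ≤ n ↔ h ≤ th m n := by
  constructor
  · intro h1
    exact (Nat.find_spec (⟨h, (le_th m h).2⟩ : ∃ n, h ≤ th m n)).trans ((th_mono m).monotone h1)
  · intro h1
    exact Nat.find_min' _ h1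

theorem cm_zero {m h : ℕ} (h1 : h ≤ m) : cm m h = 0 :=
  Nat.le_zero.1 (cm_le_iff.2 (h1.trans (le_th m 0).1))

theorem le_cm {m h H : ℕ} (h1 : th m H ≤ h) : H ≤ cm m h := by
  by_contra hc
  have h2 : h ≤ th m (cm m h) := cm_le_iff.1 (le_refl _)
  have h3 := th_mono m (not_le.1 hc)
  omega

namespace FSys

variable {Y B C : Type} (S : FSys Y B C)

theorem R_re_le {h h' : ℕ} {φ : ℕ → ℕ → ℕ} (hφ : Gd φ) {y : Y}
    (H : ∀ o n, h ≤ φ o n → h' ≤ n) : S.R h (S.re φ y) ≤ S.R h' y := by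
  refine S.R_le.2 fun d hd => ?_
  obtain ⟨n, h1, h2⟩ := (S.mem_F_re hφ).1 hd
  exact S.le_R (S.mem_F.2 ⟨n, h1, H d n h2⟩)

theorem le_R_re {h h' : ℕ} {φ : ℕ → ℕ → ℕ} (hφ : Gd φ) {y : Y}
    (H : ∀ o n, h ≤ n → h' ≤ φ o n) : S.R h y ≤ S.R h' (S.re φ y) := by
  refine S.R_le.2 fun d hd => ?_
  obtain ⟨n, h1, h2⟩ := S.mem_F.1 hd
  exact S.le_R ((S.mem_F_re hφ).2 ⟨n, h1, H d n h2⟩)

theorem gd_th (m : ℕ) : Gd fun _ n => th m n := fun _ => th_mono m

/-- The object `y` in the block `m`. -/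
def io (p : ℕ × Y) : Y := S.re (fun _ n => th p.1 n) p.2

theorem io_inj (hA : ∀ y, (S.A y).Nonempty) : Function.Injective S.io := by
  rintro ⟨m, y⟩ ⟨m', y'⟩ h
  change S.re (fun _ n => th m n) y = S.re (fun _ n => th m' n) y' at h
  obtain ⟨s, hs⟩ := hA y
  have h1 : (s.1, th m s.2) ∈ S.A (S.re (fun _ n => th m n) y) := by
    rw [S.A_re _ (gd_th m)]
    exact Finset.mem_image.2 ⟨s, hs, rfl⟩
  rw [h, S.A_re _ (gd_th m'), Finset.mem_image] at h1
  obtain ⟨t, _, h2⟩ := h1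
  obtain ⟨rfl, _⟩ := th_inj (Prod.ext_iff.1 h2).2
  rw [S.re_inj _ (gd_th m') h]

theorem F_io (m h : ℕ) (y : Y) : S.F h (S.io (m, y)) = S.F (cm m h) y := by
  ext d
  rw [io, S.mem_F_re (gd_th m), S.mem_F]
  exact exists_congr fun n => and_congr_right fun _ => cm_le_iff.symm

theorem R_io (m h : ℕ) (y : Y) : S.R h (S.io (m, y)) = S.R (cm m h) y := by
  rw [R, F_io]
  rfl

theorem gd_two : Gd fun _ n => 2 * n + 1 := fun _ a b h => by
  change 2 * a + 1 < 2 * b + 1
  omega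

open Classical in
/-- The shift of the blocks. -/
noncomputable def dl (y : Y) : Y := if y ∈ Set.range S.io then S.re (fun _ n => 2 * n + 1) y else y

theorem dl_io (m : ℕ) (y : Y) : S.dl (S.io (m, y)) = S.io (m + 1, y) := by
  rw [dl, if_pos ⟨(m, y), rfl⟩, io, io, S.re_re _ _ gd_two (gd_th m)]
  rfl

theorem dl_ne {y : Y} (h : y ∉ Set.range S.io) : S.dl y = y := by
  rw [dl, if_neg h]

theorem dl_inj : Function.Injective S.dl := by
  intro y y' h
  by_cases h1 : y ∈ Set.range S.io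
  · by_cases h2 : y' ∈ Set.range S.io
    · rw [dl, dl, if_pos h1, if_pos h2] at h
      exact S.re_inj _ gd_two h
    · obtain ⟨⟨m, x⟩, rfl⟩ := h1
      rw [S.dl_io, S.dl_ne h2] at h
      exact absurd ⟨_, h⟩ h2
  · by_cases h2 : y' ∈ Set.range S.io
    · obtain ⟨⟨m, x⟩, rfl⟩ := h2
      rw [S.dl_io, S.dl_ne h1] at h
      exact absurd ⟨_, h.symm⟩ h1
    · rwa [S.dl_ne h1, S.dl_ne h2] at h

/-- The first block. -/
def al (y : Y) : Y := S.io (0, y)

theorem al_inj : Function.Injective S.al := fun _ _ h => S.re_inj _ (gd_th 0) h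

theorem al_ne_dl (hA : ∀ y, (S.A y).Nonempty) (y x : Y) : S.al y ≠ S.dl x := by
  intro h
  by_cases hx : x ∈ Set.range S.io
  · obtain ⟨⟨m, x⟩, rfl⟩ := hx
    rw [S.dl_io] at h
    have h1 := (Prod.ext_iff.1 (S.io_inj hA h)).1
    exact absurd h1 (Nat.succ_ne_zero m).symm
  · rw [S.dl_ne hx] at h
    exact hx ⟨_, h⟩

theorem al_or_dl (y : Y) : y ∈ Set.range S.al ∨ y ∈ Set.range S.dl := by
  by_cases hy : y ∈ Set.range S.io
  · obtain ⟨⟨m, x⟩, rfl⟩ := hy
    cases m with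
    | zero => exact Or.inl ⟨x, rfl⟩
    | succ m => exact Or.inr ⟨S.io (m, x), S.dl_io m x⟩
  · exact Or.inr ⟨y, S.dl_ne hy⟩

theorem rl_of {a : Y → Y} (H : ∀ y, ∃ φ : ℕ → ℕ → ℕ, Gd φ ∧ a y = S.re φ y ∧
    ∀ o n, φ o n ≤ 2 * n + 1) : RL S a where
  base y := by
    obtain ⟨φ, _, h, _⟩ := H y
    rw [h, S.base_re]
  lab y := by
    obtain ⟨φ, _, h, _⟩ := H y
    rw [h, S.lab_re]
  up h' := by
    refine ⟨h', fun y => ?_⟩
    obtain ⟨φ, hφ, h, _⟩ := H y
    rw [h]
    exact S.le_R_re hφ fun o n hn => hn.trans (hφ.le o n)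
  down h' := by
    refine ⟨2 * h', fun y => ?_⟩
    obtain ⟨φ, hφ, h, h2⟩ := H y
    rw [h]
    refine S.R_re_le hφ fun o n hn => ?_
    have := h2 o n
    omega

theorem al_rl : RL S S.al := S.rl_of fun _ => ⟨fun _ n => th 0 n, gd_th 0, rfl, fun _ n => by
  change 2 * n ≤ 2 * n + 1
  omega⟩

theorem dl_rl : RL S S.dl := S.rl_of fun y => by
  by_cases hy : y ∈ Set.range S.io
  · exact ⟨fun _ n => 2 * n + 1, gd_two, by rw [dl, if_pos hy], fun _ n => le_refl _⟩
  · exact ⟨fun _ n => n, Gd.id, by rw [S.dl_ne hy, S.re_id], fun _ n => by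
      change n ≤ 2 * n + 1
      omega⟩

end FSys

section Mem

variable {Y B C Γ k : Type} [Group Γ] [PartialOrder B] [MulAction Γ B] [OrdAct Γ B]
  [PartialOrder C] [MulAction Γ C] [OrdAct Γ C] [CommRing k] (S : FSys Y B C)

omit [PartialOrder B] [MulAction Γ B] [OrdAct Γ B] [PartialOrder C] [MulAction Γ C] [OrdAct Γ C] in
private theorem cf_lam (hA : ∀ y, (S.A y).Nonempty) {z : CF Y (MonoidAlgebra k Γ)} {g : Γ}
    {y' y : Y} (h : cf (push (S.io_inj hA) (bd z)) g y' y ≠ 0) :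
    ∃ m x' x, y' = S.io (m, x') ∧ y = S.io (m, x) ∧ cf z g x' x ≠ 0 ∧
      cf (push (S.io_inj hA) (bd z)) g y' y = cf z g x' x := by
  obtain ⟨⟨m', x'⟩, ⟨m, x⟩, rfl, rfl, h1⟩ := cf_push_ne _ h
  by_cases hm : m' = m
  · subst hm
    have h2 : cf (bd z) g (m', x') (m', x) = cf z g x' x := by
      rw [cf, ent_bd, if_pos rfl]
      rfl
    refine ⟨m', x', x, rfl, rfl, by rwa [h2] at h1, ?_⟩
    rw [cf_push, h2]
  · refine absurd ?_ h1
    rw [cf, ent_bd, if_neg hm]
    rfl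

theorem lam_mem {d : ℕ} (hE : S.Exact Γ d) (hA : ∀ y, (S.A y).Nonempty)
    {z : CF Y (MonoidAlgebra k Γ)} (hz : z ∈ U Γ k S) :
    push (S.io_inj hA) (bd z) ∈ U Γ k S := by
  classical
  obtain ⟨z1, z2, P, hP, z3⟩ := hz
  refine ⟨fun g y' y hc => ?_, fun h' => ?_, P, hP, fun g y' y => ?_⟩
  · obtain ⟨m, x', x, rfl, rfl, hc', _⟩ := cf_lam S hA hc
    rw [FSys.io, FSys.io, S.base_re, S.base_re]
    exact z1 g x' x hc'
  · choose H hH using z2
    refine ⟨(Finset.range h').sup fun m => th m (H (cm m h')), fun g y' y hc => ?_⟩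
    obtain ⟨m, x', x, rfl, rfl, hc', _⟩ := cf_lam S hA hc
    -- labels do not change
    have e1 : ∀ x, S.lab (S.io (m, x)) = S.lab x := fun x => S.lab_re _ _
    set h := (Finset.range h').sup fun m => th m (H (cm m h')) with hh
    have key : Cmp S (cm m h) (cm m h') g x' x := by
      by_cases hm : m < h'
      · have h1 : th m (H (cm m h')) ≤ h :=
          Finset.le_sup (f := fun m => th m (H (cm m h'))) (Finset.mem_range.2 hm)
        exact (hH (cm m h') g x' x hc').mono (le_cm h1)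
      · rw [cm_zero (not_lt.1 hm)]
        have h1 : S.R (cm m h) x' ≤ d := (S.R_anti (Nat.zero_le _) x').trans (le_of_eq (hE.1 x'))
        refine ⟨h1.trans (le_of_eq (hE.1 x).symm), fun he _ => ?_⟩
        rw [he, hE.1 x]
        exact hE.2 g x x' (z1 g x' x hc')
    refine ⟨?_, fun he hp => ?_⟩
    · rw [S.R_io, S.R_io]
      exact key.1
    · rw [S.R_io, S.R_io] at he
      rw [S.R_io] at hp ⊢
      rw [e1, e1]
      exact key.2 he hp
  · by_cases hc : cf (push (S.io_inj hA) (bd z)) g y' y = 0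
    · rw [hc]
      exact P.zero_mem
    · obtain ⟨m, x', x, _, _, _, h⟩ := cf_lam S hA hc
      rw [h]
      exact z3 g x' x

/-- The rings of exact systems are flasque. -/
theorem flas {d : ℕ} (hE : S.Exact Γ d) (hd : 1 ≤ d) : Flas (U Γ k S) := by
  classical
  have hA : ∀ y, (S.A y).Nonempty := fun y => by
    obtain ⟨n, h1, _⟩ := S.mem_F.1 (S.R_mem (h := 0) (y := y) (by rw [hE.1 y]; exact hd))
    exact ⟨_, h1⟩
  have ne := S.al_ne_dl hA
  let Λ : U Γ k S →ₙ+* U Γ k S :=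
    { toFun := fun z => ⟨push (S.io_inj hA) (bd z.1), lam_mem S hE hA z.2⟩
      map_mul' := fun a b => Subtype.ext (by
        change push (S.io_inj hA) (bd (a.1 * b.1)) = _ * _
        rw [bd_mul, map_mul])
      map_zero' := Subtype.ext (by
        change push (S.io_inj hA) (bd (0 : CF Y (MonoidAlgebra k Γ))) = 0
        rw [bd_zero, map_zero])
      map_add' := fun a b => Subtype.ext (by
        change push (S.io_inj hA) (bd (a.1 + b.1)) = _ + _
        rw [bd_add, map_add]) }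
  refine ⟨isoU Γ k S S.al S.al_inj S.al_rl, adjU Γ k S S.al S.al_inj S.al_rl,
    isoU Γ k S S.dl S.dl_inj S.dl_rl, adjU Γ k S S.dl S.dl_inj S.dl_rl, Λ,
    adjU_mul_isoU _ _ _ _ _ _, adjU_mul_isoU _ _ _ _ _ _,
    Subtype.ext (adjK_isoK_zero S.al S.dl S.al_inj S.dl_inj ne),
    Subtype.ext (adjK_isoK_zero S.dl S.al S.dl_inj S.al_inj fun y x h => ne x y h.symm),
    Subtype.ext (isoK_add S.al S.dl S.al_inj S.dl_inj ne S.al_or_dl),
    fun z => Subtype.ext (ent_ext fun y' y => ?_)⟩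
  change ent (isoK (MonoidAlgebra k Γ) S.al S.al_inj * z.1 * adjK (MonoidAlgebra k Γ) S.al S.al_inj +
    isoK (MonoidAlgebra k Γ) S.dl S.dl_inj * push (S.io_inj hA) (bd z.1) *
      adjK (MonoidAlgebra k Γ) S.dl S.dl_inj) y' y =
    ent (push (S.io_inj hA) (bd z.1)) y' y
  rw [ent_add]
  rcases S.al_or_dl y with ⟨x, rfl⟩ | ⟨x, rfl⟩
  · rw [ent_mul_adjK, ent_mul_adjK_zero _ _ _ _ _ (fun ⟨u, hu⟩ => ne x u hu.symm), add_zero]
    rcases S.al_or_dl y' with ⟨x', rfl⟩ | ⟨x', rfl⟩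
    · rw [ent_isoK_mul]
      change _ = ent (push (S.io_inj hA) (bd z.1)) (S.io (0, x')) (S.io (0, x))
      rw [ent_push, ent_bd, if_pos rfl]
    · rw [ent_isoK_mul_zero _ _ _ _ _ (fun ⟨u, hu⟩ => ne u x' hu)]
      by_contra hne
      obtain ⟨⟨m', u'⟩, ⟨m, u⟩, h1, h2, h3⟩ := ent_push_ne _ (Ne.symm hne)
      rw [ent_bd] at h3
      by_cases hm : m' = m
      · have h4 := (Prod.ext_iff.1 (S.io_inj hA (h2 : S.io (m, u) = S.io (0, x)))).1
        change m = 0 at h4
        subst h4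
        subst hm
        exact ne u' x' h1
      · exact h3 (if_neg hm)
  · rw [ent_mul_adjK_zero _ _ _ _ _ (fun ⟨u, hu⟩ => ne u x hu), ent_mul_adjK, zero_add]
    rcases S.al_or_dl y' with ⟨x', rfl⟩ | ⟨x', rfl⟩
    · rw [ent_isoK_mul_zero _ _ _ _ _ (fun ⟨u, hu⟩ => ne x' u hu.symm)]
      by_contra hne
      obtain ⟨⟨m', u'⟩, ⟨m, u⟩, h1, h2, h3⟩ := ent_push_ne _ (Ne.symm hne)
      rw [ent_bd] at h3
      by_cases hm : m' = m
      · have h4 := (Prod.ext_iff.1 (S.io_inj hA (h1 : S.io (m', u') = S.io (0, x')))).1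
        change m' = 0 at h4
        subst h4
        subst hm
        exact ne u x h2
      · exact h3 (if_neg hm)
    · rw [ent_isoK_mul]
      by_cases hx : x ∈ Set.range S.io
      · by_cases hx' : x' ∈ Set.range S.io
        · obtain ⟨⟨m, u⟩, rfl⟩ := hx
          obtain ⟨⟨m', u'⟩, rfl⟩ := hx'
          rw [S.dl_io, S.dl_io, ent_push, ent_push, ent_bd, ent_bd]
          exact if_congr (by simp) rfl rfl
        · rw [S.dl_ne hx']
          by_contra hne
          by_cases h0 : ent (push (S.io_inj hA) (bd z.1)) x' x = 0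
          · rw [h0] at hne
            obtain ⟨p, q, h1, h2, h3⟩ := ent_push_ne _ (Ne.symm hne)
            exact hx' ⟨p, h1⟩
          · obtain ⟨p, q, h1, h2, h3⟩ := ent_push_ne _ h0
            exact hx' ⟨p, h1⟩
      · rw [S.dl_ne hx]
        by_contra hne
        by_cases h0 : ent (push (S.io_inj hA) (bd z.1)) x' x = 0
        · rw [h0] at hne
          obtain ⟨p, q, h1, h2, h3⟩ := ent_push_ne _ (Ne.symm hne)
          exact hx ⟨q, h2⟩
        · obtain ⟨p, q, h1, h2, h3⟩ := ent_push_ne _ h0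
          exact hx ⟨q, h2⟩

/-- All `K₁`-like invariants of the ring of an exact system of rank at least one are trivial. -/
theorem flq {d : ℕ} (hE : S.Exact Γ d) (hd : 1 ≤ d) : Flq (U Γ k S) := flq_of_flas (flas S hE hd)

end Mem

end Pool.Agent.FL
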