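import Pool.Agent.Lib.MP_8f66f0_al_FL.Spec
import Pool.Agent.Lib.MP_8f66f0_al_FL.Flas

/-!
# Project GLn: generation (M1) for flag systems
-/

set_option autoImplicit false

namespace Pool.Agent.FL

open Pool.Agent.Wald Pool.Agent.Ind Pool.Agent.WaldL Pool.Agent.FH Matrix
open Pool.Agent.CC (KR Cg Ex Spc Gen Flq Kil KilM)

/-- Restriction of a relative invariant to a smaller ideal. -/
private def m1Res {R K : Type} [Ring R] [CommGroup K] {J J' : Ideal R} (κ : KR R J K)
    (h : J' ≤ J) : KR R J' K where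
  f := κ.f
  mul A B hA hB h1 h2 := κ.mul A B hA hB (fun i j => h (h1 i j)) fun i j => h (h2 i j)
  reindex e A hA h1 := κ.reindex e A hA fun i j => h (h1 i j)
  tri A B D hA hD h1 h2 h3 := κ.tri A B D hA hD (fun i j => h (h1 i j)) (fun i j => h (h2 i j))
    fun i j => h (h3 i j)

/-- The class which consists of the identity matrices. -/
private theorem m1_spc_one {R : Type} [Ring R] (J : Ideal R) : Spc R J (fun n _ _ w => w = 1) where
  unit n _ _ z hz := by
    subst hz
    refine ⟨isUnit_one, fun i j => ?_⟩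
    rw [sub_self]
    exact J.zero_mem
  one n _ _ := rfl
  inv n _ _ z z' hz h1 _ := by
    subst hz
    rwa [one_mul] at h1
  sum n m _ _ _ _ z w hz hw := by
    subst hz
    subst hw
    exact fromBlocks_one
  reindex n m _ _ _ _ e z hz := by
    subst hz
    exact submatrix_one_equiv e.symm

/-- M1: an invariant on `J d` which kills `J 0` and the special matrices is trivial. -/
theorem M1 (hU : S_uniL) (hL : S_lad) (h1 : S_gen1) (hf : S_genf) (hS : S_spc) : S_M1 := by
  intro Y B C Γ k _ _ _ _ _ _ _ _ _ S hD d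
  induction d with
  | zero =>
    intro K _ κ h0 _
    exact h0
  | succ f ih =>
    intro K _ κ h0 hM
    have hκ' : Kil (m1Res κ (J_mono S (Nat.le_succ f))) (J Γ k S f) :=
      ih K (m1Res κ (J_mono S (Nat.le_succ f))) h0 fun _ => hM (Nat.succ_le_succ (Nat.zero_le f))
    obtain ⟨hlad, _, _⟩ := hL Y B C Γ k S (f + 1) (Nat.succ_le_succ (Nat.zero_le f))
    rcases Nat.eq_zero_or_pos f with rfl | hf0
    · exact hU (U Γ k S) (J Γ k S 0) (J Γ k S 1) ℕ (fun b => U Γ k (S.der 1 b))
        (fun b => J Γ k (S.der 1 b) 0) (fun b => eps Γ k S 1 b) (fun n _ _ w => Sp S n w) hlad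
        (hS Y B C Γ k S).1 (h1 Y B C Γ k S hD.1)
        (fun b => flq (S.der 1 b) (der_exact S 1 b Γ) le_rfl) K κ hκ' (hM le_rfl)
    · refine hU (U Γ k S) (J Γ k S f) (J Γ k S (f + 1)) ℕ (fun b => U Γ k (S.der (f + 1) b))
        (fun b => J Γ k (S.der (f + 1) b) f) (fun b => eps Γ k S (f + 1) b) (fun n _ _ w => w = 1)
        hlad (m1_spc_one _) (hf Y B C Γ k S (f + 1) (Nat.succ_le_succ hf0) fun b =>
          hD.2 (f + 1) b (Nat.succ_le_succ hf0))
        (fun b => flq (S.der (f + 1) b) (der_exact S (f + 1) b Γ)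
          (Nat.succ_le_succ (Nat.zero_le f))) K κ hκ' fun n _ _ w hw => ?_
      subst hw
      have h2 := κ.mul (1 : Matrix n n (U Γ k S)) 1 isUnit_one isUnit_one
        (((m1_spc_one (J Γ k S (f + 1))).unit n 1 rfl).2)
        (((m1_spc_one (J Γ k S (f + 1))).unit n 1 rfl).2)
      rw [Matrix.one_mul] at h2
      exact (mul_left_cancel (a := κ.f (1 : Matrix n n (U Γ k S))) (by rw [mul_one]; exact h2)).symm

end Pool.Agent.FL
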