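import Pool.Agent.Lib.MP_8f66f0_al_FL.Spec
import Pool.Agent.Lib.MP_8f66f0_al_FL.Flas
import Pool.Agent.Lib.MP_8f66f0_al_CC.End.M1
import Pool.Agent.Lib.MP_8f66f0_al_CC.End.Ext1
import Pool.Agent.Lib.MP_8f66f0_al_CC.End.J0

/-!
# Project GLn, part D: extension (M2)
-/

set_option autoImplicit false

namespace Pool.Agent.FL

open Pool.Agent.Wald Pool.Agent.TQ Pool.Agent.Ind Pool.Agent.WaldL Pool.Agent.FH Matrix
open Pool.Agent.CC (KR Cg Ex Spc Gen Flq Kil KilM)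
open scoped Pointwise Polynomial

private theorem eps_lowM {Y B C Γ k : Type} [Group Γ] [PartialOrder B] [MulAction Γ B]
    [OrdAct Γ B] [PartialOrder C] [MulAction Γ C] [OrdAct Γ C] [CommRing k] (S : FSys Y B C)
    (d b : ℕ) (j : ℕ) (x : U Γ k (S.der d b)) (hx : x ∈ J Γ k (S.der d b) j) :
    eps Γ k S d b x ∈ J Γ k S j := by
  obtain ⟨h1, H⟩ := hx
  refine ⟨b + h1, fun g y' y hc => ?_⟩
  obtain ⟨y', y, rfl, rfl, hd⟩ := cf_push_ne _ hc
  have h2 := H g y' y hd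
  rw [R_der] at h2
  exact h2

private theorem cg_eps_low {Y B C Γ k : Type} [Group Γ] [PartialOrder B] [MulAction Γ B]
    [OrdAct Γ B] [PartialOrder C] [MulAction Γ C] [OrdAct Γ C] [CommRing k] (S : FSys Y B C)
    (d b : ℕ) (j : ℕ) {n : Type} [DecidableEq n]
    (z : Matrix n n (U Γ k (S.der d b))) (hz : Cg (J Γ k (S.der d b) j) z 1) :
    Cg (J Γ k S j) (Ex (eps Γ k S d b) z) 1 := by
  intro a c
  rw [Ex, Matrix.add_apply, add_sub_cancel_left]
  exact eps_lowM S d b j _ (hz a c)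

private theorem ex_one {R T : Type} [Ring R] [Ring T] (ε : T →ₙ+* R) {n : Type} [DecidableEq n] :
    Ex ε (1 : Matrix n n T) = 1 := by
  ext i j
  rw [Ex, sub_self, Matrix.add_apply, map_apply, Matrix.zero_apply, map_zero, add_zero]

/-- `triv` of `S_extL` at `d ≥ 2`. -/
theorem trivf (hL : S_lad) (hm : S_M1) (hE : S_spe) : S_trivf := by
  intro Y B C Γ k K _ _ _ _ _ _ _ _ _ _ S d hd hD κ0 κ hI hκ hM b n _ _ r hr hJ
  obtain ⟨hlad, _, _⟩ := hL Y B C Γ k S d (le_trans one_le_two hd)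
  obtain ⟨κ', hκ'⟩ := CC.pullKR (U Γ k S) (U Γ k (S.der d b)) K (J Γ k S (d - 1))
    (J Γ k (S.der d b) (d - 1)) (eps Γ k S d b) (fun x hx => (hlad.pre b x).2 hx) κ
  rw [← hκ']
  refine hm _ _ _ Γ k (S.der d b) (hD b) (d - 1) K κ' (fun n _ _ z hz hc => ?_)
    (fun _ n _ _ w hw => ?_) n r hr hJ
  · rw [hκ', hκ n _ (CC.XE.ex_unit _ hz) (cg_eps_low S d b 0 z hc)]
    exact hI.1 d b (le_trans one_le_two hd) n z hz hc
  · rw [hκ']
    exact hM n _ (hE Y B C Γ k S d b n w hw)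

/-- M2: the extension theorem. -/
theorem M2 (hE : S_extL) (hL : S_lad) (h1 : S_gen1) (hf : S_genf) (hS : S_spc)
    (ht1 : S_triv1) (htf : S_trivf) : S_M2 := by
  intro Y B C Γ k K _ _ _ _ _ _ _ _ _ _ S hD hD' κ0 hI d
  induction d with
  | zero => exact ⟨κ0, fun n _ _ z _ _ => rfl, fun h => absurd h (Nat.not_succ_le_zero 0)⟩
  | succ d ih =>
    obtain ⟨κ, hκ, hM⟩ := ih
    obtain ⟨hlad, hLU, _⟩ := hL Y B C Γ k S (d + 1) (Nat.succ_le_succ (Nat.zero_le d))
    rcases Nat.eq_zero_or_pos d with rfl | hd0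
    · obtain ⟨κ', h2, h3⟩ := hE (U Γ k S) (J Γ k S 0) (J Γ k S 1) ℕ
        (fun b => U Γ k (S.der 1 b)) (fun b => J Γ k (S.der 1 b) 0) (fun b => eps Γ k S 1 b)
        (fun n _ _ w => Sp S n w) hlad (hS Y B C Γ k S).1 (h1 Y B C Γ k S hD.1)
        (fun b => flq (S := S.der 1 b) (der_exact S 1 b Γ) le_rfl) hLU (hS Y B C Γ k S).2 K κ0
        fun b n m _ _ _ _ w r x => ht1 Y B C Γ k K S κ0 hI b n m w r x
      exact ⟨κ', h2, fun _ => h3⟩
    · obtain ⟨κ', h2, h3⟩ := hE (U Γ k S) (J Γ k S d) (J Γ k S (d + 1)) ℕ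
        (fun b => U Γ k (S.der (d + 1) b)) (fun b => J Γ k (S.der (d + 1) b) d)
        (fun b => eps Γ k S (d + 1) b) (fun n _ _ w => w = 1) hlad (CC.spc_one _)
        (hf Y B C Γ k S (d + 1) (Nat.succ_le_succ hd0) fun b =>
          hD.2 (d + 1) b (Nat.succ_le_succ hd0))
        (fun b => flq (S := S.der (d + 1) b) (der_exact S (d + 1) b Γ)
          (Nat.succ_le_succ (Nat.zero_le d))) hLU
        (fun n _ _ w hw => ⟨0, 1, fun i j => by
          rw [hw, ex_one, sub_self]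
          exact Ideal.zero_mem _⟩) K κ fun b n m _ _ _ _ w r x hw hr hx hc he => by
        subst hw
        rw [fromBlocks_one] at he
        obtain ⟨r', hr1, hr2⟩ := CC.XE.ex_inv hr
        have hx' : x = Ex (eps Γ k S (d + 1) b) r' := by
          have h4 : Ex (eps Γ k S (d + 1) b) r' * (Ex (eps Γ k S (d + 1) b) r * x) = x := by
            rw [← Matrix.mul_assoc, CC.XE.ex_inv_mul _ hr2, Matrix.one_mul]
          rw [← he, Matrix.mul_one] at h4
          exact h4.symm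
        rw [hx'] at hc ⊢
        refine htf Y B C Γ k K S (d + 1) (Nat.succ_le_succ hd0)
          (fun b => hD' (d + 1) b (Nat.succ_le_succ hd0)) κ0 κ hI hκ (hM hd0) b (n ⊕ m) r'
          (CC.XE.isUnit_of hr2 hr1) fun i j => ?_
        have h5 := hc i j
        rw [Ex, Matrix.add_apply, add_sub_cancel_left] at h5
        exact (hlad.pre b _).1 h5
      refine ⟨κ', fun n _ _ z hz hc => ?_, fun _ n _ _ w hw => ?_⟩
      · rw [h2 n z hz fun i j => J_mono S (Nat.zero_le d) (hc i j), hκ n z hz hc]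
      · obtain ⟨hu, hc⟩ := (hS Y B C Γ k S).1.unit n w hw
        rw [h2 n w hu fun i j => J_mono S hd0 (hc i j)]
        exact hM hd0 n w hw

end Pool.Agent.FL
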