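import Pool.Agent.Lib.MP_8f66f0_al_FL.Spec

/-!
# Project GLn: the theorems M1 and M2 for `K1Fun`s, flag systems
-/

set_option autoImplicit false

namespace Pool.Agent.FL

open Pool.Agent.Wald Pool.Agent.Ind Pool.Agent.WaldL Pool.Agent.FH Matrix
open Pool.Agent.BB Pool.Agent.GLC
open Pool.Agent.CC (KR Cg Ex Spc Gen Flq Kil KilM)
open scoped Polynomial

section

variable {Y B C Γ k : Type} [Group Γ] [PartialOrder B] [MulAction Γ B] [OrdAct Γ B]
  [PartialOrder C] [MulAction Γ C] [OrdAct Γ C] [CommRing k]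

private theorem mk_top (S : FSys Y B C) {N d : ℕ} (hN : Bdd S N) (hd : N ≤ d)
    (z : U Γ k S) : z ∈ J Γ k S d := by
  refine ⟨0, fun g y' y _ => S.R_le.2 fun i hi => ?_⟩
  obtain ⟨n, h1⟩ := S.mem_F_zero.1 hi
  exact (hN y' _ h1).trans hd

/-- A `K1Fun` as a relative invariant. -/
private def krOf {R K : Type} [Ring R] [CommGroup K] (I : Ideal R) (κ : K1Fun R K) : KR R I K where
  f := fun z => κ.f z
  mul := fun A B hA hB _ _ => κ.mul A B hA hB
  reindex := fun e A hA _ => κ.reindex e A hA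
  tri := fun A B D hA hD _ _ _ => κ.tri A B D hA hD

/-- A relative invariant for the unit ideal as a `K1Fun`. -/
private def k1Of {R K : Type} [Ring R] [CommGroup K] (I : Ideal R) (hI : ∀ x, x ∈ I)
    (κ : KR R I K) : K1Fun R K where
  f := fun z => κ.f z
  mul := fun A B hA hB => κ.mul A B hA hB (fun _ _ => hI _) fun _ _ => hI _
  reindex := fun e A hA => κ.reindex e A hA fun _ _ => hI _
  tri := fun A B D hA hD => κ.tri A B D hA hD (fun _ _ => hI _) (fun _ _ => hI _) fun _ _ => hI _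

private theorem mk_cg (S : FSys Y B C) {n : Type} [DecidableEq n] (z : Matrix n n (U Γ k S))
    (s : Finset Y) (hz : Spp s (mcf z)) : Cg (J Γ k S 0) z 1 := by
  intro i j
  rw [mem_J_zero, mem_JR]
  refine (Finset.finite_toSet s).subset ?_
  rintro y' ⟨y, hy⟩
  refine hz i j y' y ?_
  have h2 : (z i j - (1 : Matrix n n (U Γ k S)) i j).1 =
      (mcf z) i j - (1 : Matrix n n (CF Y (MonoidAlgebra k Γ))) i j := by
    rw [Matrix.one_apply, Matrix.one_apply]
    split_ifs <;> rfl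
  rwa [h2] at hy

private theorem mk_HTd (S : FSys Y B C) (h : HTd Γ k S) {d b : ℕ} (hd : 1 ≤ d) :
    HTd Γ k (S.der d b) := fun r => (h (r + 1) d b hd).2

end

/-- M1 for `K1Fun`s. -/
theorem M1K (hM1 : S_M1) : S_M1K := by
  intro Y B C Γ k _ _ _ _ _ _ _ _ _ S N hN hL K _ κ h0 h1 n _ _ z hz
  exact hM1 Y B C Γ k S hL N K (krOf (J Γ k S N) κ) h0 (fun _ => h1) n z hz
    fun _ _ => mk_top S hN le_rfl _

/-- M2 for `K1Fun`s. -/
theorem M2K (hM2 : S_M2) (hini : S_ini) (hE : S_E) : S_M2K := by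
  classical
  intro Y B C Γ L K _ _ _ _ _ _ _ _ _ _ S N κ hκ hL hN hHT hKT
  obtain ⟨κ0, hκ0, hκ1⟩ := hini Y B C Γ L K S κ hκ hKT
  obtain ⟨κ', hκ', hsp⟩ := hM2 Y B C Γ L K S (hE Y B C Γ S hHT L hL).1
    (fun d b hd => (hE _ _ C Γ (S.der d b) (fun L _ _ hL =>
      ⟨mk_HTd S (hHT L hL).1 (le_trans (by decide) hd),
        mk_HTd S (hHT L hL).2 (le_trans (by decide) hd)⟩) L hL).1) κ0 hκ0 (N + 1)
  refine ⟨k1Of _ (mk_top S hN (Nat.le_succ N)) κ', ?_, hsp (Nat.succ_pos N)⟩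
  intro n _ _ _ z s hz hs
  exact (hκ' n z hz (mk_cg S z s hs)).trans (hκ1 n z s hz hs)

end Pool.Agent.FL
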