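import Pool.Agent.Lib.MP_8f66f0_al_FL.Spec
import Pool.Agent.Lib.MP_8f66f0_al_FL.Flas
import Pool.Agent.Lib.MP_8f66f0_al_CC.Sys.RingK0
import Pool.Agent.Lib.MP_8f66f0_al_CC.Sys.TwI

/-!
# Project GLn, part D: Lemma E, assembly

`lft_all`: for exact systems of rank `d`, and for all coefficient rings of a tower, invertible matrices
modulo `J (d - 1)` lift (for `d = 1`: after adding shifts along rays), and `K_0 (U / J (d - 1)) = 0`.
-/

set_option autoImplicit false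

namespace Pool.Agent.FL

open Pool.Agent.Wald Pool.Agent.TQ Pool.Agent.Ind Matrix
open Pool.Agent.CC (KR Cg Ex Spc Gen Flq Kil KilM KZ KQ MC P0 TwE)
open Pool.Agent.GLC
open scoped Pointwise Polynomial

/-- The data of `kq_of_psi` for the coefficient rings `k`, `k''`. -/
def PsiD {Y B C : Type} (Γ k k'' : Type) [Group Γ] [PartialOrder B] [MulAction Γ B] [OrdAct Γ B]
    [PartialOrder C] [MulAction Γ C] [OrdAct Γ C] [CommRing k] [CommRing k''] (S : FSys Y B C)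
    (d : ℕ) : Prop :=
  ∃ (j : U Γ k S →+* U Γ k'' S) (y yi : U Γ k'' S)
    (Ψ : U Γ k'' S →+* LaurentSeries (U Γ k S ⧸ J Γ k S d)),
    (∀ x ∈ J Γ k S d, j x ∈ J Γ k'' S d) ∧ (∀ x, y * j x = j x * y) ∧ y * yi = 1 ∧ yi * y = 1 ∧
    (∀ x ∈ J Γ k'' S d, Ψ x = 0) ∧
    (∀ x, Ψ (j x) = HahnSeries.C (Ideal.Quotient.mk (J Γ k S d) x)) ∧
    Ψ y = HahnSeries.single 1 1 ∧
    ∀ (r : Option (Bool × (ℕ ↪ Y))) (hr : ∀ b ρ, r = some (b, ρ) → IsRay S ρ),
      j (shU Γ k r hr) = shU Γ k'' r hr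

/-- The opposite shift. -/
private def opp {Y : Type} (r : Option (Bool × (ℕ ↪ Y))) : Option (Bool × (ℕ ↪ Y)) :=
  match r with
  | none => none
  | some (b, ρ) => some (!b, ρ)

private theorem opp_ray {Y B C : Type} {S : FSys Y B C} {r : Option (Bool × (ℕ ↪ Y))}
    (hr : ∀ b ρ, r = some (b, ρ) → IsRay S ρ) : ∀ b ρ, opp r = some (b, ρ) → IsRay S ρ := by
  intro b ρ h
  rcases r with _ | ⟨c, ρ'⟩
  · exact absurd h (by simp [opp])
  · unfold opp at h
    rw [Option.some.injEq, Prod.mk.injEq] at h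
    exact h.2 ▸ hr c ρ' rfl

private theorem shift_inv (A : Type) [Ring A] {Y : Type} (r : Option (Bool × (ℕ ↪ Y))) :
    shO A r * shO A (opp r) - 1 ∈ JR Y A ∧ shO A (opp r) * shO A r - 1 ∈ JR Y A := by
  have h4 : ∀ ρ : ℕ ↪ Y, shR A ρ * shL A ρ - 1 ∈ JR Y A := by
    intro ρ
    have h5 : shR A ρ * shL A ρ - 1 = -(prK A {ρ 0}) := by
      rw [← one_sub_shR_shL]
      abel
    rw [h5]
    refine (JR Y A).neg_mem ?_
    refine (Set.finite_singleton (ρ 0)).subset ?_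
    rintro v ⟨x, hx⟩
    classical
    rw [ent_prK] at hx
    by_contra hc
    have hn : ¬ (v = x ∧ x ∈ ({ρ 0} : Set Y)) := fun h => hc (by rw [h.1]; exact h.2)
    exact hx (if_neg hn)
  rcases r with _ | ⟨b, ρ⟩
  · change (1 : CF Y A) * 1 - 1 ∈ _ ∧ (1 : CF Y A) * 1 - 1 ∈ _
    rw [mul_one, sub_self]
    exact ⟨(JR Y A).zero_mem, (JR Y A).zero_mem⟩
  · have h6 : shL A ρ * shR A ρ - 1 ∈ JR Y A := by
      rw [shL_mul_shR, sub_self]
      exact (JR Y A).zero_mem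
    cases b with
    | true => exact ⟨h4 ρ, h6⟩
    | false => exact ⟨h6, h4 ρ⟩

private theorem map_one_mat {R T : Type} [Ring R] [Ring T] (j : R →+* T) {m : Type}
    [DecidableEq m] : (1 : Matrix m m R).map j = 1 := Matrix.map_one _ (map_zero j) (map_one j)

private theorem diag_cg {X : Type} [Ring X] (I : Ideal X) {m : Type} [Fintype m] [DecidableEq m]
    (c c' : m → X) (h : ∀ i, c i * c' i - 1 ∈ I) : Cg I (diagonal c * diagonal c') 1 := by
  rw [diagonal_mul_diagonal]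
  intro i l
  by_cases hil : i = l
  · subst hil
    rw [diagonal_apply_eq, one_apply_eq]
    exact h i
  · rw [diagonal_apply_ne _ hil, one_apply_ne hil, sub_zero]
    exact I.zero_mem

section Data

variable {Y B C Γ k k'' : Type} [Group Γ] [PartialOrder B] [MulAction Γ B] [OrdAct Γ B]
  [PartialOrder C] [MulAction Γ C] [OrdAct Γ C] [CommRing k] [CommRing k''] (S : FSys Y B C)

private theorem mcf_diag (j : U Γ k S →+* U Γ k'' S)
    (hj : ∀ (r : Option (Bool × (ℕ ↪ Y))) (hr : ∀ b ρ, r = some (b, ρ) → IsRay S ρ),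
      j (shU Γ k r hr) = shU Γ k'' r hr)
    {m : Type} [DecidableEq m] (r : m → Option (Bool × (ℕ ↪ Y))) (hr : Rys S r) :
    mcf ((diagonal fun l => shU Γ k (r l) (hr l)).map j) = dgO (MonoidAlgebra k'' Γ) r := by
  ext1 i l
  change (j (diagonal (fun l => shU Γ k (r l) (hr l)) i l)).1 =
    diagonal (fun l => shO (MonoidAlgebra k'' Γ) (r l)) i l
  by_cases hil : i = l
  · subst hil
    rw [diagonal_apply_eq, diagonal_apply_eq, hj]
    rfl
  · rw [diagonal_apply_ne _ hil, diagonal_apply_ne _ hil, map_zero]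
    rfl

private theorem lft1_data (j : U Γ k S →+* U Γ k'' S)
    (hj : ∀ (r : Option (Bool × (ℕ ↪ Y))) (hr : ∀ b ρ, r = some (b, ρ) → IsRay S ρ),
      j (shU Γ k r hr) = shU Γ k'' r hr)
    (hl : Lft1 Γ k'' S) (n : Type) [Fintype n] [DecidableEq n] (z w : Matrix n n (U Γ k'' S))
    (hz : Cg (J Γ k'' S 0) (z * w) 1) (hw : Cg (J Γ k'' S 0) (w * z) 1) :
    ∃ (m : Type) (_ : Fintype m) (_ : DecidableEq m)
      (c c' : Matrix m m (U Γ k S)) (r : Matrix (n ⊕ m) (n ⊕ m) (U Γ k'' S)),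
      Cg (J Γ k S 0) (c * c') 1 ∧ Cg (J Γ k S 0) (c' * c) 1 ∧ IsUnit r ∧
      Cg (J Γ k'' S 0) r (fromBlocks z 0 0 (c.map j)) := by
  obtain ⟨m, i1, i2, r, u, h1, h2, h3⟩ := hl n z w hz hw
  refine ⟨m, i1, i2, diagonal fun l => shU Γ k (r l) (h2 l),
    diagonal fun l => shU Γ k (opp (r l)) (opp_ray (h2 l)), u,
    diag_cg _ _ _ fun i => mem_J_zero.2 (shift_inv (MonoidAlgebra k Γ) (r i)).1,
    diag_cg _ _ _ fun i => mem_J_zero.2 (shift_inv (MonoidAlgebra k Γ) (r i)).2, h1, ?_⟩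
  have e1 := mcf_diag S j hj r h2
  intro a b
  rw [mem_J_zero]
  have h4 := h3 a b
  rw [← e1] at h4
  rcases a with a | a <;> rcases b with b | b <;> exact h4

private theorem lft_data (j : U Γ k S →+* U Γ k'' S) (d : ℕ)
    (hl : Lft Γ k'' S d) (n : Type) [Fintype n] [DecidableEq n] (z w : Matrix n n (U Γ k'' S))
    (hz : Cg (J Γ k'' S d) (z * w) 1) (hw : Cg (J Γ k'' S d) (w * z) 1) :
    ∃ (m : Type) (_ : Fintype m) (_ : DecidableEq m)
      (c c' : Matrix m m (U Γ k S)) (r : Matrix (n ⊕ m) (n ⊕ m) (U Γ k'' S)),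
      Cg (J Γ k S d) (c * c') 1 ∧ Cg (J Γ k S d) (c' * c) 1 ∧ IsUnit r ∧
      Cg (J Γ k'' S d) r (fromBlocks z 0 0 (c.map j)) := by
  obtain ⟨m, i1, i2, u, h1, h2⟩ := hl n z w hz hw
  have e2 : Cg (J Γ k S d) ((1 : Matrix m m (U Γ k S)) * 1) 1 := by
    rw [mul_one]
    exact MC.refl _
  refine ⟨m, i1, i2, 1, 1, u, e2, e2, h1, ?_⟩
  rw [map_one_mat]
  exact h2

private theorem kq_data {d : ℕ} (hE : S.Exact Γ d) (hd : 1 ≤ d) (hΨ : PsiD Γ k k'' S (d - 1))
    (hl : (d = 1 → Lft1 Γ k'' S) ∧ (2 ≤ d → Lft Γ k'' S (d - 1))) : KQ (J Γ k S (d - 1)) := by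
  obtain ⟨j, y, yi, Ψ, a1, a2, a3, a4, a5, a6, a7, a8⟩ := hΨ
  obtain ⟨c, c', e, e', Λ, b1, b2, b3, b4, b5, -⟩ : CC.Flas (U Γ k S) := flas S hE hd
  refine CC.kq_of_psi _ _ j Ψ a1 y yi a2 a3 a4 a5 a6 a7 (flq S hE hd) ?_
    ⟨c, e, c', e', b1, b2, b3, b4, b5⟩
  by_cases hd1 : d = 1
  · subst hd1
    exact fun n _ _ z w hz hw => lft1_data S j a8 (hl.1 rfl) n z w hz hw
  · exact fun n _ _ z w hz hw => lft_data S j (d - 1) (hl.2 (by omega)) n z w hz hw

end Data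

/-- **Lifting and `K_0 = 0`** for exact systems. -/
theorem lft_all (hlad : S_lad) (hkz : S_kzL) (hAB : S_AB) (hL1 : S_L1) {Γ : Type} [Group Γ]
    (Tw : ∀ (k : Type) [CommRing k], Prop)
    (hTw : ∀ (k : Type) [CommRing k], Tw k → ∃ (k'' : Type) (_ : CommRing k''), Tw k'' ∧
      ∀ (Y B C : Type) [PartialOrder B] [MulAction Γ B] [OrdAct Γ B] [PartialOrder C]
        [MulAction Γ C] [OrdAct Γ C] (S : FSys Y B C) (d : ℕ), PsiD Γ k k'' S d) :
    ∀ d, 1 ≤ d → ∀ (Y B C : Type) [PartialOrder B] [MulAction Γ B] [OrdAct Γ B] [PartialOrder C]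
      [MulAction Γ C] [OrdAct Γ C] (S : FSys Y B C), S.Exact Γ d →
      (∀ (k : Type) [CommRing k], Tw k → HT k Γ S ∧ HTd Γ k S) → ∀ (k : Type) [CommRing k], Tw k →
      (d = 1 → Lft1 Γ k S) ∧ (2 ≤ d → Lft Γ k S (d - 1)) ∧ KQ (J Γ k S (d - 1)) := by
  intro d
  induction d using Nat.strong_induction_on with
  | _ d ih =>
  intro hd Y B C _ _ _ _ _ _ S hE hSF
  -- lifting
  have hlift : ∀ (k : Type) [CommRing k], Tw k → (d = 1 → Lft1 Γ k S) ∧
      (2 ≤ d → Lft Γ k S (d - 1)) := by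
    intro k _ hk
    refine ⟨?_, fun hd2 => ?_⟩
    · rintro rfl
      exact hL1 Y B C Γ k S hE (hSF k hk).1
    · have hKZ : ∀ j, j ≤ d - 1 → KZ (J Γ k S j) ⊥ (J Γ k S (d - 1)) := by
        intro j
        induction j with
        | zero =>
          intro _
          exact (hAB Y B C Γ k S d hE hd2 (hSF k hk).1).mono (J_mono S (by omega))
        | succ j ihj =>
          intro hj
          have h1 : KZ (J Γ k S (j + 1)) (J Γ k S j) (J Γ k S (j + 1)) :=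
            hkz _ _ _ _ _ _ _ (hlad Y B C Γ k S (j + 1) (Nat.succ_le_succ (Nat.zero_le j))).1
              fun b => (ih (j + 1) (by omega) (by omega) _ _ _ (S.der (j + 1) b)
              (der_exact S (j + 1) b Γ) (fun k' _ hk' =>
                ⟨((hSF k' hk').2 1 (j + 1) b (Nat.succ_le_succ (Nat.zero_le j))).1,
                fun r => ((hSF k' hk').2 (r + 1) (j + 1) b
                  (Nat.succ_le_succ (Nat.zero_le j))).2⟩) k hk).2.2
          exact CC.kz_trans (h1.mono (J_mono S hj)) (ihj (by omega))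
      intro n _ _ z z' hz hz'
      obtain ⟨m, i1, i2, u, u', h1, h2, h3⟩ := CC.lift_of_kz (hKZ (d - 1) le_rfl) z z' hz hz'
      exact ⟨m, i1, i2, u, ⟨⟨u, u', h1, h2⟩, rfl⟩, h3⟩
  intro k _ hk
  obtain ⟨k'', _, hk'', hΨ⟩ := hTw k hk
  exact ⟨(hlift k hk).1, (hlift k hk).2, kq_data S hE hd (hΨ Y B C S (d - 1)) (hlift k'' hk'')⟩

/-- The lifting hypotheses for the derived systems. -/
theorem lftD_of (hlad : S_lad) (hkz : S_kzL) (hAB : S_AB) (hL1 : S_L1) {Γ : Type} [Group Γ]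
    (Tw : ∀ (k : Type) [CommRing k], Prop)
    (hTw : ∀ (k : Type) [CommRing k], Tw k → ∃ (k'' : Type) (_ : CommRing k''), Tw k'' ∧
      ∀ (Y B C : Type) [PartialOrder B] [MulAction Γ B] [OrdAct Γ B] [PartialOrder C]
        [MulAction Γ C] [OrdAct Γ C] (S : FSys Y B C) (d : ℕ), PsiD Γ k k'' S d)
    (Y B C : Type) [PartialOrder B] [MulAction Γ B] [OrdAct Γ B] [PartialOrder C]
    [MulAction Γ C] [OrdAct Γ C] (S : FSys Y B C)
    (hSF : ∀ (k : Type) [CommRing k], Tw k → HTd Γ k S) (k : Type) [CommRing k]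
    (hk : Tw k) : LftD Γ k S := by
  have key : ∀ d b : ℕ, 1 ≤ d → ∀ (k' : Type) [CommRing k'], Tw k' →
      HT k' Γ (S.der d b) ∧ HTd Γ k' (S.der d b) := fun d b hd k' _ hk' =>
    ⟨((hSF k' hk') 1 d b hd).1, fun r => ((hSF k' hk') (r + 1) d b hd).2⟩
  refine ⟨fun b => (lft_all hlad hkz hAB hL1 Tw hTw 1 le_rfl _ _ _ (S.der 1 b)
    (der_exact S 1 b Γ) (key 1 b le_rfl) k hk).1 rfl, fun d b hd => ?_⟩
  exact (lft_all hlad hkz hAB hL1 Tw hTw d (by omega) _ _ _ (S.der d b) (der_exact S d b Γ)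
    (key d b (by omega)) k hk).2.1 hd

open Classical in
private theorem shO_ent {Y : Type} (r : Option (Bool × (ℕ ↪ Y))) (y' y : Y) :
    ∃ Q : Prop, ∀ (A : Type) [Ring A], ent (shO A r) y' y = if Q then 1 else 0 := by
  rcases r with _ | ⟨b, ρ⟩
  · refine ⟨y' = y, fun A _ => ?_⟩
    change ent (1 : CF Y A) y' y = _
    rw [ent_one]
  · cases b with
    | true =>
      refine ⟨shM ρ y = y', fun A _ => ?_⟩
      change ent (shR A ρ) y' y = _
      rw [ent_shR]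
    | false =>
      refine ⟨shM ρ y' = y, fun A _ => ?_⟩
      change ent (shL A ρ) y' y = _
      rw [ent_shL]

/-- The data of `kq_of_psi`. -/
theorem psiD_of (h : S_psi) {Y B C Γ k k' : Type} [Group Γ] [PartialOrder B] [MulAction Γ B]
    [OrdAct Γ B] [PartialOrder C] [MulAction Γ C] [OrdAct Γ C] [CommRing k] [CommRing k']
    (D : TwE k k') (S : FSys Y B C) (d : ℕ) : PsiD Γ k k' S d := by
  classical
  obtain ⟨j, y, y', Ψ, h1, h2, h3, h4, h5, h6, h7⟩ := h Y B C Γ k k' D S d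
  refine ⟨j, y, y', Ψ, ?_, h5, h6, h7, h4, h2, h3, ?_⟩
  · rintro x ⟨b, hb⟩
    refine ⟨b, fun g v w hc => hb g v w fun h0 => hc ?_⟩
    rw [h1, h0, map_zero]
  · intro r hr
    refine Subtype.ext (cf_ext fun g v w => ?_)
    rw [h1]
    obtain ⟨Q, hQ⟩ := shO_ent r v w
    change D.i (cf (shO (MonoidAlgebra k Γ) r) g v w) = cf (shO (MonoidAlgebra k' Γ) r) g v w
    rw [cf, cf, hQ, hQ]
    split_ifs with hq
    · rw [MonoidAlgebra.one_def, MonoidAlgebra.one_def, MonoidAlgebra.coeff_single,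
        MonoidAlgebra.coeff_single, Finsupp.single_apply, Finsupp.single_apply]
      split_ifs
      · exact map_one D.i
      · exact map_zero D.i
    · rw [MonoidAlgebra.coeff_zero, MonoidAlgebra.coeff_zero]
      exact map_zero D.i

/-- **Lemma E** over the Euclidean domains `L` and over `L[t]`. -/
theorem sE (hlad : S_lad) (hkz : S_kzL) (hAB : S_AB) (hL1 : S_L1) (hpsi : S_psi) : S_E := by
  intro Y B C Γ _ _ _ _ _ _ _ S hSF L _ _ hL
  have hTw : ∀ (k : Type) [CommRing k], P0 k → ∃ (k'' : Type) (_ : CommRing k''), P0 k'' ∧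
      ∀ (Y B C : Type) [PartialOrder B] [MulAction Γ B] [OrdAct Γ B] [PartialOrder C]
        [MulAction Γ C] [OrdAct Γ C] (S : FSys Y B C) (d : ℕ), PsiD Γ k k'' S d := by
    intro k _ hk
    obtain ⟨k', i, hk', ⟨D⟩⟩ := hk.ext
    exact ⟨k', i, hk', fun Y B C _ _ _ _ _ _ S d => psiD_of hpsi D S d⟩
  have hS : ∀ (k : Type) [CommRing k], P0 k → HTd Γ k S := by
    intro k _ hk
    cases hk with
    | euc _ h1 => exact (hSF k h1).1
    | poly L' h1 => exact (hSF L' h1).2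
  exact ⟨lftD_of hlad hkz hAB hL1 (fun k [CommRing k] => P0 k) hTw Y B C S hS L (P0.euc L hL),
    lftD_of hlad hkz hAB hL1 (fun k [CommRing k] => P0 k) hTw Y B C S hS L[X] (P0.poly L hL)⟩

end Pool.Agent.FL
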