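import Pool.Agent.Lib.MP_8f66f0_al_FL.Spec
import Pool.Agent.Lib.MP_8f66f0_al_CC.End.Ext

/-!
# Project GLn: the special matrices form a class

`spc`: the class of the special matrices satisfies `Spc`, and the special matrices come, modulo `J 0`,
from the rings of the derived systems `S.der 1 b`: the tails of the rays are rays of the derived system.
-/

set_option autoImplicit false
set_option linter.unusedSectionVars false

namespace Pool.Agent.FL

open Pool.Agent.Wald Matrix
open Pool.Agent.CC (Cg Ex Spc)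

section Lw

variable {Y B C Γ k : Type} [Group Γ] [PartialOrder B] [MulAction Γ B] [OrdAct Γ B]
  [PartialOrder C] [MulAction Γ C] [OrdAct Γ C] [CommRing k]
variable {S : FSys Y B C} {m : Type} [Fintype m] [DecidableEq m]

private theorem spc_mul (a b : Matrix m m (U Γ k S)) : mcf (a * b) = mcf a * mcf b :=
  Matrix.map_mul (f := (U Γ k S).subtype)

omit [Fintype m] in
private theorem spc_one : mcf (1 : Matrix m m (U Γ k S)) = 1 :=
  Matrix.map_one _ rfl rfl

private theorem spc_cg {r : m → Option (Bool × (ℕ ↪ Y))} {w : Matrix m m (U Γ k S)}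
    (hr : Rys S r) (hc : Cg (JR Y (MonoidAlgebra k Γ)) (mcf w) (dgO (MonoidAlgebra k Γ) r)) :
    Cg (J Γ k S 1) w 1 := by
  intro i j
  have h0 := hc i j
  by_cases hij : i = j
  · subst hij
    rw [dgO, diagonal_apply_eq] at h0
    have h1 : w i i - shU Γ k (r i) (hr i) ∈ J Γ k S 0 := mem_J_zero.2 h0
    rw [one_apply_eq, ← sub_add_sub_cancel _ (shU Γ k (r i) (hr i)) _]
    exact Ideal.add_mem _ (J_mono S (Nat.zero_le 1) h1) (shU_sub_one (r i) (hr i))
  · rw [dgO, diagonal_apply_ne _ hij, sub_zero] at h0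
    rw [one_apply_ne hij, sub_zero]
    exact J_mono S (Nat.zero_le 1) (mem_J_zero.2 h0)

/-- The opposite shift. -/
private def spc_op (r : Option (Bool × (ℕ ↪ Y))) : Option (Bool × (ℕ ↪ Y)) :=
  r.map fun p => (!p.1, p.2)

private theorem spc_opp (r : Option (Bool × (ℕ ↪ Y))) :
    shO (MonoidAlgebra k Γ) (spc_op r) * shO (MonoidAlgebra k Γ) r - 1 ∈
      JR Y (MonoidAlgebra k Γ) := by
  classical
  rcases r with _ | ⟨_ | _, ρ⟩
  · change (1 : CF Y (MonoidAlgebra k Γ)) * 1 - 1 ∈ _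
    rw [one_mul, sub_self]
    exact Ideal.zero_mem _
  · change shR (MonoidAlgebra k Γ) ρ * shL (MonoidAlgebra k Γ) ρ - 1 ∈ _
    rw [← neg_sub, one_sub_shR_shL]
    refine neg_mem ?_
    refine (Set.finite_singleton (ρ 0)).subset ?_
    rintro y' ⟨y, hy⟩
    rw [ent_prK] at hy
    by_contra hc
    refine hy (if_neg ?_)
    rintro ⟨h1, h2⟩
    exact hc (h1.trans h2)
  · change shL (MonoidAlgebra k Γ) ρ * shR (MonoidAlgebra k Γ) ρ - 1 ∈ _
    rw [shL_mul_shR, sub_self]
    exact Ideal.zero_mem _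

private theorem spc_dgO (r : m → Option (Bool × (ℕ ↪ Y))) :
    Cg (JR Y (MonoidAlgebra k Γ))
      (dgO (MonoidAlgebra k Γ) (fun l => spc_op (r l)) * dgO (MonoidAlgebra k Γ) r) 1 := by
  intro i j
  rw [dgO, dgO, diagonal_mul_diagonal]
  by_cases hij : i = j
  · subst hij
    rw [diagonal_apply_eq, one_apply_eq]
    exact spc_opp (r i)
  · rw [diagonal_apply_ne _ hij, one_apply_ne hij, sub_self]
    exact Ideal.zero_mem _

/-! ### The tails of the rays -/

/-- The restriction of a shift to the derived system. -/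
private theorem spc_pull {b : ℕ} {o : Option (Bool × (ℕ ↪ Y))}
    (ho : ∀ c ρ, o = some (c, ρ) → IsRay S ρ) :
    pull (Subtype.val_injective (p := fun y : Y => S.R b y = 1)) (shO (MonoidAlgebra k Γ) o) ∈
      U Γ k (S.der 1 b) := by
  classical
  rcases o with _ | ⟨c, ρ⟩
  · refine memU_of (fun y' y => y' = y) (fun y' y => ?_) (fun _ _ h => by rw [h]; exact ⟨rfl, rfl⟩)
      (fun h' => ⟨h', fun _ _ h => by rw [h]⟩)
    rw [ent_pull]
    change ent (1 : CF Y (MonoidAlgebra k Γ)) y'.1 y.1 = 0 ∨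
      (ent (1 : CF Y (MonoidAlgebra k Γ)) y'.1 y.1 = 1 ∧ _)
    rw [ent_one]
    by_cases h : y'.1 = y.1
    · exact Or.inr ⟨if_pos h, Subtype.ext h⟩
    · exact Or.inl (if_neg h)
  · have hρ := ho c ρ rfl
    refine memU_of (fun y' y => (∃ n, y.1 = ρ n ∧ y'.1 = ρ (n + 1)) ∨
      (∃ n, y'.1 = ρ n ∧ y.1 = ρ (n + 1)) ∨ y'.1 = y.1)
      (fun y' y => by rw [ent_pull]; exact ent_shO _ c ρ y'.1 y.1) ?_ ?_
    · intro y' y hq
      have key : S.base y'.1 = S.base y.1 ∧ S.lab y'.1 = S.lab y.1 := by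
        rcases hq with ⟨n, h1, h2⟩ | ⟨n, h1, h2⟩ | h1
        · rw [h1, h2]
          exact ⟨by rw [hρ.base_eq, hρ.base_eq n], by rw [hρ.lab_eq, hρ.lab_eq n]⟩
        · rw [h1, h2]
          exact ⟨by rw [hρ.base_eq (n + 1), hρ.base_eq n],
            by rw [hρ.lab_eq (n + 1), hρ.lab_eq n]⟩
        · rw [h1]
          exact ⟨rfl, rfl⟩
      exact ⟨Prod.ext key.1 (congrFun key.2 1), key.2⟩
    · intro h'
      refine ⟨h' + 1, fun y' y hq => ?_⟩
      rw [R_der, R_der]
      rcases hq with ⟨n, h1, h2⟩ | ⟨n, h1, h2⟩ | h1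
      · rw [h1, h2]
        exact hρ.down (b + h') n
      · rw [h1, h2]
        exact (hρ.up _ n).trans (S.R_anti (Nat.le_succ (b + h')) _)
      · rw [h1]
        exact S.R_anti (Nat.le_succ (b + h')) _

/-- The restriction of a shift differs from the shift only in finitely many rows. -/
private theorem spc_dif {b : ℕ} {o : Option (Bool × (ℕ ↪ Y))}
    (ho : ∀ c ρ, o = some (c, ρ) → IsRay S ρ ∧ ∀ n, S.R b (ρ n) ≤ 1) :
    shO (MonoidAlgebra k Γ) o - 1 - push (Subtype.val_injective (p := fun y : Y => S.R b y = 1))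
      (pull (Subtype.val_injective (p := fun y : Y => S.R b y = 1)) (shO (MonoidAlgebra k Γ) o) - 1)
        ∈ JR Y (MonoidAlgebra k Γ) := by
  classical
  have key : ∀ y' y, ent (shO (MonoidAlgebra k Γ) o - 1 -
      push (Subtype.val_injective (p := fun y : Y => S.R b y = 1))
      (pull (Subtype.val_injective (p := fun y : Y => S.R b y = 1))
        (shO (MonoidAlgebra k Γ) o) - 1)) y' y ≠ 0 →
      ent (shO (MonoidAlgebra k Γ) o - 1) y' y ≠ 0 ∧ (S.R b y' ≠ 1 ∨ S.R b y ≠ 1) := by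
    intro y' y hne
    rw [ent_sub] at hne
    by_cases hy : S.R b y' = 1 ∧ S.R b y = 1
    · exfalso
      refine hne ?_
      have h1 := ent_push (Subtype.val_injective (p := fun y : Y => S.R b y = 1))
        (pull (Subtype.val_injective (p := fun y : Y => S.R b y = 1))
        (shO (MonoidAlgebra k Γ) o) - 1) ⟨y', hy.1⟩ ⟨y, hy.2⟩
      change ent (push _ _) y' y = _ at h1
      rw [h1, ent_sub, ent_sub, ent_pull, ent_one, ent_one]
      have h2 : ((⟨y', hy.1⟩ : {y : Y // S.R b y = 1}) = ⟨y, hy.2⟩) ↔ y' = y := Subtype.mk_eq_mk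
      by_cases h3 : y' = y
      · rw [if_pos h3, if_pos (h2.2 h3), sub_self]
      · rw [if_neg h3, if_neg fun h => h3 (h2.1 h), sub_self]
    · have h1 : ent (push (Subtype.val_injective (p := fun y : Y => S.R b y = 1))
        (pull (Subtype.val_injective (p := fun y : Y => S.R b y = 1))
        (shO (MonoidAlgebra k Γ) o) - 1)) y' y = 0 := by
        by_contra hc
        obtain ⟨u, v, rfl, rfl, -⟩ := ent_push_ne _ hc
        exact hy ⟨u.2, v.2⟩
      rw [h1, sub_zero] at hne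
      refine ⟨hne, ?_⟩
      by_contra hc
      rw [not_or, not_not, not_not] at hc
      exact hy hc
  rcases o with _ | ⟨c, ρ⟩
  · refine (Set.finite_empty).subset ?_
    rintro y' ⟨y, hy⟩
    refine (key y' y hy).1 ?_
    change ent ((1 : CF Y (MonoidAlgebra k Γ)) - 1) y' y = 0
    rw [sub_self, ent_zero]
  · obtain ⟨hρ, h1⟩ := ho c ρ rfl
    have h2 : ∀ n, S.R b (ρ n) ≠ 1 → n < b := by
      intro n hn
      by_contra hc
      exact hn (le_antisymm (h1 n) (S.le_R (hρ.dead (not_lt.1 hc))))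
    have hf : ((ρ '' {n | n < b}) ∪ ⋃ n ∈ {n | n < b},
        {y' | ent (shO (MonoidAlgebra k Γ) (some (c, ρ)) - 1) y' (ρ n) ≠ 0}).Finite :=
      ((Set.finite_lt_nat b).image ρ).union
        (Set.Finite.biUnion (Set.finite_lt_nat b) fun n _ => ent_col _ _)
    refine hf.subset ?_
    rintro y' ⟨y, hy⟩
    obtain ⟨h3, h4⟩ := key y' y hy
    have h5 : ¬ ((∀ n, y ≠ ρ n) ∨ ∀ n, y' ≠ ρ n) := by
      intro h5
      refine h3 ?_
      rw [ent_sub, ent_shO_out _ c ρ y' y h5, sub_self]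
    push Not at h5
    obtain ⟨⟨n, rfl⟩, m, rfl⟩ := h5
    rcases h4 with h4 | h4
    · exact Or.inl ⟨m, h2 m h4, rfl⟩
    · refine Or.inr ?_
      simp only [Set.mem_iUnion]
      exact ⟨n, h2 n h4, h3⟩

end Lw

/-- The special matrices form a class in the sense of `Spc`. -/
theorem spc (hmonc : S_monc) : S_spc := by
  classical
  intro Y B C Γ k _ _ _ _ _ _ _ _ S
  obtain ⟨m1, -, m3, m4, m5⟩ := hmonc Y k Γ
  refine ⟨⟨?_, ?_, ?_, ?_, ?_⟩, ?_⟩
  · rintro n _ _ z ⟨r, h1, -, h3, h4⟩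
    exact ⟨h1, spc_cg h3 h4⟩
  · intro n _ _
    refine ⟨fun _ => none, isUnit_one, ?_, fun l b ρ h => ?_, ?_⟩
    · rw [spc_one]
      exact m1 n
    · exact absurd h (by simp)
    · rw [spc_one]
      have h0 : dgO (MonoidAlgebra k Γ) (fun _ : n => (none : Option (Bool × (ℕ ↪ Y)))) = 1 :=
        diagonal_one
      rw [h0]
      exact Cg.refl _
  · rintro n _ _ z z' ⟨r, h1, h2, h3, h4⟩ e1 e2
    have f1 : mcf z * mcf z' = 1 := by rw [← spc_mul, e1, spc_one]
    have f2 : mcf z' * mcf z = 1 := by rw [← spc_mul, e2, spc_one]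
    refine ⟨fun l => spc_op (r l), ⟨⟨z', z, e2, e1⟩, rfl⟩, m3 n _ _ h2 f1 f2,
      fun l b ρ h => ?_, ?_⟩
    · have h6 : spc_op (r l) = some (b, ρ) := h
      rcases hl : r l with _ | ⟨b', ρ'⟩
      · rw [hl] at h6
        exact absurd h6 (by simp [spc_op])
      · rw [hl] at h6
        have h5 : ρ' = ρ := (Prod.ext_iff.1 (Option.some.inj h6)).2
        exact h3 l b' ρ (h5 ▸ hl)
    · have c1 := (spc_dgO (m := n) (Γ := Γ) (k := k) r).mul_right (mcf z')
      rw [Matrix.one_mul, Matrix.mul_assoc] at c1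
      have c2 := ((h4.symm).mul_right (mcf z')).mul_left
        (dgO (MonoidAlgebra k Γ) fun l => spc_op (r l))
      rw [f1, Matrix.mul_one] at c2
      exact c1.symm.trans c2
  · rintro n m _ _ _ _ z w ⟨r, h1, h2, h3, h4⟩ ⟨r', h1', h2', h3', h4'⟩
    have e1 : mcf (fromBlocks z 0 0 w) = fromBlocks (mcf z) 0 0 (mcf w) := by
      ext (i | i) (j | j) <;> rfl
    have e2 : dgO (MonoidAlgebra k Γ) (Sum.elim r r') =
        fromBlocks (dgO (MonoidAlgebra k Γ) r) 0 0 (dgO (MonoidAlgebra k Γ) r') := by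
      rw [dgO, dgO, dgO, fromBlocks_diagonal]
      congr 1
      funext l
      rcases l with l | l <;> rfl
    refine ⟨Sum.elim r r', K1Fun.isUnit_tri 0 h1 h1', ?_, fun l b ρ h => ?_, ?_⟩
    · rw [e1]
      exact m4 n m _ _ h2 h2'
    · rcases l with l | l
      · exact h3 l b ρ h
      · exact h3' l b ρ h
    · rw [e1, e2]
      exact h4.blocks (Cg.refl _) (Cg.refl _) h4'
  · rintro n m _ _ _ _ e z ⟨r, h1, h2, h3, h4⟩
    refine ⟨fun l => r (e.symm l), K1Fun.isUnit_submatrix e h1, m5 n m e _ h2,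
      fun l b ρ h => h3 _ b ρ h, ?_⟩
    have e2 : dgO (MonoidAlgebra k Γ) (fun l => r (e.symm l)) =
        (dgO (MonoidAlgebra k Γ) r).submatrix e.symm e.symm := by
      rw [dgO, dgO, submatrix_diagonal_equiv]
      rfl
    rw [e2]
    exact h4.sub _ _
  · rintro n _ _ w ⟨r, -, -, h3, h4⟩
    have h5 : ∀ l, ∃ h, ∀ c ρ, r l = some (c, ρ) → ∀ i, S.R h (ρ i) ≤ 1 := by
      intro l
      rcases hl : r l with _ | ⟨c, ρ⟩
      · exact ⟨0, fun c ρ h => absurd h (by simp)⟩
      · obtain ⟨h, hh⟩ := (h3 l c ρ hl).one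
        refine ⟨h, fun c' ρ' h' i => ?_⟩
        have h6 : ρ = ρ' := (Prod.ext_iff.1 (Option.some.inj h')).2
        rw [← h6]
        exact hh i
    choose h hh using h5
    have h7 : ∀ l c ρ, r l = some (c, ρ) →
        IsRay S ρ ∧ ∀ i, S.R (Finset.univ.sup h) (ρ i) ≤ 1 := fun l c ρ hl =>
      ⟨h3 l c ρ hl, fun i => (S.R_anti (Finset.le_sup (Finset.mem_univ l)) _).trans
        (hh l c ρ hl i)⟩
    refine ⟨Finset.univ.sup h, diagonal fun l => ⟨pull Subtype.val_injective
      (shO (MonoidAlgebra k Γ) (r l)), spc_pull (h3 l)⟩, fun i j => ?_⟩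
    rw [mem_J_zero]
    have h8 := h4 i j
    by_cases hij : i = j
    · subst hij
      rw [dgO, diagonal_apply_eq] at h8
      rw [Ex, Matrix.add_apply, one_apply_eq, map_apply, Matrix.sub_apply, one_apply_eq, diagonal_apply_eq]
      have h9 := Ideal.add_mem _ h8 (spc_dif (k := k) (Γ := Γ) (h7 i))
      rw [← add_sub_assoc, ← add_sub_assoc, sub_add_cancel] at h9
      change (w i i).1 - (1 + push Subtype.val_injective (pull Subtype.val_injective
        (shO (MonoidAlgebra k Γ) (r i)) - 1)) ∈ _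
      rw [← sub_sub]
      exact h9
    · rw [dgO, diagonal_apply_ne _ hij, sub_zero] at h8
      rw [Ex, Matrix.add_apply, one_apply_ne hij, map_apply, Matrix.sub_apply, one_apply_ne hij,
        diagonal_apply_ne _ hij, sub_zero, map_zero, add_zero, sub_zero]
      exact h8

end Pool.Agent.FL
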