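import Pool.Agent.Lib.MP_8f66f0_al_FL.Spec

/-!
# Flag systems: special matrices of a derived system are special
-/

set_option autoImplicit false

namespace Pool.Agent.FL

open Matrix
open Pool.Agent.CC (Cg Ex)

namespace SpeAux

section Gen

variable {R S : Type} [Ring R] [Ring S] (ε : S →ₙ+* R) {n : Type} [DecidableEq n]

private theorem Ex_one : Ex ε (1 : Matrix n n S) = 1 := by
  rw [Ex, sub_self]
  ext i j
  simp

private theorem Ex_mul [Fintype n] (a b : Matrix n n S) : Ex ε (a * b) = Ex ε a * Ex ε b := by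
  have h1 : ∀ x y : Matrix n n S, (x * y).map ε = x.map ε * y.map ε := fun x y => by
    ext i j
    simp only [Matrix.map_apply, Matrix.mul_apply, map_sum, map_mul]
  have h2 : ∀ x y : Matrix n n S, (x + y).map ε = x.map ε + y.map ε := fun x y => by
    ext i j
    simp only [Matrix.map_apply, Matrix.add_apply, map_add]
  have h3 : a * b - 1 = (a - 1) + (b - 1) + (a - 1) * (b - 1) := by noncomm_ring
  rw [Ex, Ex, Ex, h3, h2, h2, h1]
  noncomm_ring

private theorem Ex_unit [Fintype n] {a : Matrix n n S} (ha : IsUnit a) : IsUnit (Ex ε a) := by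
  obtain ⟨u, rfl⟩ := ha
  refine ⟨⟨Ex ε u.val, Ex ε u.inv, ?_, ?_⟩, rfl⟩
  · rw [← Ex_mul, u.val_inv, Ex_one]
  · rw [← Ex_mul, u.inv_val, Ex_one]

end Gen

section Push

variable {Y Y' A : Type} [Ring A] {ι : Y' → Y} (hι : Function.Injective ι)

private theorem push_JR {z : CF Y' A} (hz : z ∈ JR Y' A) : push hι z ∈ JR Y A := by
  rw [mem_JR] at hz ⊢
  refine (hz.image ι).subset ?_
  rintro y ⟨x, hx⟩
  obtain ⟨y', x', h1, _, h3⟩ := ent_push_ne hι hx
  exact ⟨y', ⟨x', h3⟩, h1⟩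

end Push

section Ray

variable {Y A : Type} [Ring A] {p : Y → Prop}

/-- The ray in the bigger set of objects. -/
private def emb (ρ : ℕ ↪ {y : Y // p y}) : ℕ ↪ Y := ρ.trans (Function.Embedding.subtype p)

private theorem emb_apply (ρ : ℕ ↪ {y : Y // p y}) (n : ℕ) : emb ρ n = (ρ n).1 := rfl

private theorem shM_emb (ρ : ℕ ↪ {y : Y // p y}) (x : {y : Y // p y}) :
    shM (emb ρ) x.1 = (shM ρ x).1 := by
  by_cases hx : ∃ n, x = ρ n
  · obtain ⟨n, rfl⟩ := hx
    rw [shM_ray, ← emb_apply, shM_ray, emb_apply]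
  · rw [shM_out ρ hx, shM_out]
    rintro ⟨n, hn⟩
    exact hx ⟨n, Subtype.ext hn⟩

private theorem shM_emb_out (ρ : ℕ ↪ {y : Y // p y}) {x : Y} (hx : ¬ p x) :
    shM (emb ρ) x = x := by
  refine shM_out _ ?_
  rintro ⟨n, rfl⟩
  exact hx (ρ n).2

private theorem ite_aux {A : Type} [Ring A] {P Q R S : Prop} {dP : Decidable P} {dQ : Decidable Q}
    {dR : Decidable R} {dS : Decidable S} (h1 : P ↔ Q) (h2 : R ↔ S) : (if P then (1 : A) else 0) =
      (if S then 1 else 0) + ((if Q then 1 else 0) - (if R then 1 else 0)) := by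
  by_cases hP : P
  · by_cases hR : R
    · rw [if_pos hP, if_pos (h1.1 hP), if_pos hR, if_pos (h2.1 hR)]
      abel
    · rw [if_pos hP, if_pos (h1.1 hP), if_neg hR, if_neg fun h => hR (h2.2 h)]
      abel
  · by_cases hR : R
    · rw [if_neg hP, if_neg fun h => hP (h1.2 h), if_pos hR, if_pos (h2.1 hR)]
      abel
    · rw [if_neg hP, if_neg fun h => hP (h1.2 h), if_neg hR, if_neg fun h => hR (h2.2 h)]
      abel

open Classical in
private theorem shR_emb (ρ : ℕ ↪ {y : Y // p y}) :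
    shR A (emb ρ) = 1 + push Subtype.val_injective (shR A ρ - 1) := by
  refine ent_ext fun y x => ?_
  rw [ent_add, ent_shR, ent_one]
  by_cases hyx : p y ∧ p x
  · obtain ⟨hy, hx⟩ := hyx
    have h1 : ent (push Subtype.val_injective (shR A ρ - 1)) y x =
        ent (shR A ρ - 1) ⟨y, hy⟩ ⟨x, hx⟩ :=
      ent_push Subtype.val_injective (shR A ρ - 1) ⟨y, hy⟩ ⟨x, hx⟩
    have h2 : shM (emb ρ) x = (shM ρ ⟨x, hx⟩).1 := shM_emb ρ ⟨x, hx⟩
    rw [h1, ent_sub, ent_shR, ent_one, h2]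
    have h3 : ((shM ρ ⟨x, hx⟩).1 = y) ↔ (shM ρ ⟨x, hx⟩ = ⟨y, hy⟩) := by
      rw [Subtype.ext_iff]
    have h4 : ((⟨y, hy⟩ : {y : Y // p y}) = ⟨x, hx⟩) ↔ y = x := by
      rw [Subtype.ext_iff]
    exact ite_aux h3 h4
  · have h1 : ent (push Subtype.val_injective (shR A ρ - 1)) y x = 0 := by
      by_contra hne
      obtain ⟨y', x', rfl, rfl, _⟩ := ent_push_ne Subtype.val_injective hne
      exact hyx ⟨y'.2, x'.2⟩
    rw [h1, add_zero]
    by_cases hx : p x
    · have h2 : shM (emb ρ) x = (shM ρ ⟨x, hx⟩).1 := shM_emb ρ ⟨x, hx⟩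
      have hy : ¬ p y := fun hy => hyx ⟨hy, hx⟩
      rw [if_neg, if_neg]
      · rintro rfl
        exact hy hx
      · rintro rfl
        rw [h2] at hy
        exact hy (shM ρ ⟨x, hx⟩).2
    · rw [shM_emb_out ρ hx]
      exact if_congr eq_comm rfl rfl

open Classical in
private theorem shL_emb (ρ : ℕ ↪ {y : Y // p y}) :
    shL A (emb ρ) = 1 + push Subtype.val_injective (shL A ρ - 1) := by
  refine ent_ext fun x y => ?_
  rw [ent_add, ent_shL, ent_one]
  by_cases hyx : p y ∧ p x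
  · obtain ⟨hy, hx⟩ := hyx
    have h1 : ent (push Subtype.val_injective (shL A ρ - 1)) x y =
        ent (shL A ρ - 1) ⟨x, hx⟩ ⟨y, hy⟩ :=
      ent_push Subtype.val_injective (shL A ρ - 1) ⟨x, hx⟩ ⟨y, hy⟩
    have h2 : shM (emb ρ) x = (shM ρ ⟨x, hx⟩).1 := shM_emb ρ ⟨x, hx⟩
    rw [h1, ent_sub, ent_shL, ent_one, h2]
    have h3 : ((shM ρ ⟨x, hx⟩).1 = y) ↔ (shM ρ ⟨x, hx⟩ = ⟨y, hy⟩) := by
      rw [Subtype.ext_iff]
    have h4 : ((⟨x, hx⟩ : {y : Y // p y}) = ⟨y, hy⟩) ↔ x = y := by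
      rw [Subtype.ext_iff]
    exact ite_aux h3 h4
  · have h1 : ent (push Subtype.val_injective (shL A ρ - 1)) x y = 0 := by
      by_contra hne
      obtain ⟨y', x', rfl, rfl, _⟩ := ent_push_ne Subtype.val_injective hne
      exact hyx ⟨x'.2, y'.2⟩
    rw [h1, add_zero]
    by_cases hx : p x
    · have h2 : shM (emb ρ) x = (shM ρ ⟨x, hx⟩).1 := shM_emb ρ ⟨x, hx⟩
      have hy : ¬ p y := fun hy => hyx ⟨hy, hx⟩
      rw [if_neg, if_neg]
      · rintro rfl
        exact hy hx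
      · rintro rfl
        rw [h2] at hy
        exact hy (shM ρ ⟨x, hx⟩).2
    · rw [shM_emb_out ρ hx]

/-- The shift in the bigger set of objects. -/
private def embO (r : Option (Bool × (ℕ ↪ {y : Y // p y}))) : Option (Bool × (ℕ ↪ Y)) :=
  r.map fun q => (q.1, emb q.2)

private theorem shO_emb (r : Option (Bool × (ℕ ↪ {y : Y // p y}))) :
    shO A (embO r) = 1 + push Subtype.val_injective (shO A r - 1) := by
  rcases r with _ | ⟨_ | _, ρ⟩
  · change (1 : CF Y A) = 1 + push Subtype.val_injective (1 - 1)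
    rw [sub_self, map_zero, add_zero]
  · exact shL_emb ρ
  · exact shR_emb ρ

end Ray

section Cf

variable {Y B C Γ k m : Type} [Group Γ] [PartialOrder B] [MulAction Γ B] [OrdAct Γ B]
  [PartialOrder C] [MulAction Γ C] [OrdAct Γ C] [CommRing k] [DecidableEq m]

open Classical in
private theorem cfI {Y k Γ m : Type} [CommRing k] [Group Γ] [DecidableEq m]
    (i j : m) (x : Γ) (y' y : Y) :
    cf ((1 : Matrix m m (CF Y (MonoidAlgebra k Γ))) i j) x y' y =
      if i = j ∧ y' = y ∧ x = 1 then 1 else 0 := by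
  by_cases hij : i = j
  · subst hij
    rw [Matrix.one_apply_eq, cf, ent_one]
    by_cases hy : y' = y
    · rw [if_pos hy, MonoidAlgebra.one_def, MonoidAlgebra.coeff_single, Finsupp.single_apply]
      by_cases hx : x = 1
      · rw [if_pos hx.symm, if_pos ⟨rfl, hy, hx⟩]
      · rw [if_neg fun h => hx h.symm, if_neg fun h => hx h.2.2]
    · rw [if_neg hy, if_neg fun h => hy h.2.1, MonoidAlgebra.coeff_zero]
      rfl
  · rw [Matrix.one_apply_ne hij, cf_zero, if_neg fun h => hij h.1]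

private theorem mcf_Ex (S : FSys Y B C) (d b : ℕ)
    (w : Matrix m m (U Γ k (S.der d b))) (i j : m) :
    mcf (Ex (eps Γ k S d b) w) i j = (1 : Matrix m m (CF Y (MonoidAlgebra k Γ))) i j +
      push Subtype.val_injective (mcf w i j -
        (1 : Matrix m m (CF {y : Y // S.R b y = d} (MonoidAlgebra k Γ))) i j) := by
  by_cases hij : i = j
  · subst hij
    simp only [mcf, Ex, Matrix.map_apply, Matrix.add_apply, Matrix.sub_apply, Matrix.one_apply_eq]
    rfl
  · simp only [mcf, Ex, Matrix.map_apply, Matrix.add_apply, Matrix.sub_apply,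
      Matrix.one_apply_ne hij]
    rfl

private theorem cf_Ex_in (S : FSys Y B C) (d b : ℕ)
    (w : Matrix m m (U Γ k (S.der d b))) (i j : m) (x : Γ)
    (y' y : {y : Y // S.R b y = d}) :
    cf (mcf (Ex (eps Γ k S d b) w) i j) x y'.1 y.1 = cf (mcf w i j) x y' y := by
  classical
  rw [mcf_Ex, cf_add, cf_push, sub_eq_add_neg, cf_add, cf_neg, cfI, cfI]
  simp only [Subtype.ext_iff]
  abel

private theorem cf_Ex_out (S : FSys Y B C) (d b : ℕ)
    (w : Matrix m m (U Γ k (S.der d b))) (i j : m) (x : Γ) (y' y : Y)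
    (hy : ¬ (S.R b y' = d ∧ S.R b y = d)) :
    cf (mcf (Ex (eps Γ k S d b) w) i j) x y' y =
      cf ((1 : Matrix m m (CF Y (MonoidAlgebra k Γ))) i j) x y' y := by
  rw [mcf_Ex, cf_add]
  have h1 : cf (push Subtype.val_injective (mcf w i j -
        (1 : Matrix m m (CF {y : Y // S.R b y = d} (MonoidAlgebra k Γ))) i j)) x y' y = 0 := by
    by_contra hne
    obtain ⟨a, c, rfl, rfl, _⟩ := cf_push_ne Subtype.val_injective hne
    exact hy ⟨a.2, c.2⟩
  rw [h1, add_zero]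

private theorem mon_Ex (S : FSys Y B C) (d b : ℕ)
    (w : Matrix m m (U Γ k (S.der d b))) (hM : Mon (mcf w)) :
    Mon (mcf (Ex (eps Γ k S d b) w)) := by
  classical
  obtain ⟨σ, g, hσ⟩ := hM
  let e : m × {y : Y // S.R b y = d} ≃ {q : m × Y // S.R b q.2 = d} :=
    { toFun := fun q => ⟨(q.1, q.2.1), q.2.2⟩
      invFun := fun q => (q.1.1, ⟨q.1.2, q.2⟩)
      left_inv := fun _ => rfl
      right_inv := fun _ => rfl }
  have key : ∃ g' : m × Y → Γ, (∀ (j : m) (y : Y) (hy : S.R b y = d),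
      g' (j, y) = g (j, ⟨y, hy⟩)) ∧ ∀ (j : m) (y : Y), ¬ S.R b y = d → g' (j, y) = 1 :=
    ⟨fun q => if hq : S.R b q.2 = d then g (q.1, ⟨q.2, hq⟩) else 1,
      fun j y hy => dif_pos hy, fun j y hy => dif_neg hy⟩
  obtain ⟨g', hg1, hg2⟩ := key
  refine ⟨σ.extendDomain e, g', fun i j y' y x => ?_⟩
  by_cases hy : S.R b y = d
  · have hs : σ.extendDomain e (j, y) = ((σ (j, ⟨y, hy⟩)).1, (σ (j, ⟨y, hy⟩)).2.1) :=
      Equiv.Perm.extendDomain_apply_image σ e (j, ⟨y, hy⟩)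
    rw [hs, hg1 j y hy]
    by_cases hy' : S.R b y' = d
    · have h1 := hσ i j ⟨y', hy'⟩ ⟨y, hy⟩ x
      have h2 : cf (mcf (Ex (eps Γ k S d b) w) i j) x y' y = cf (mcf w i j) x ⟨y', hy'⟩ ⟨y, hy⟩ :=
        cf_Ex_in S d b w i j x ⟨y', hy'⟩ ⟨y, hy⟩
      have h3 : ((σ (j, ⟨y, hy⟩)).1, (σ (j, ⟨y, hy⟩)).2.1) = (i, y') ↔
          σ (j, ⟨y, hy⟩) = (i, ⟨y', hy'⟩) := by
        rw [Prod.ext_iff, Prod.ext_iff, Subtype.ext_iff]
      rw [h2, h3]
      exact h1
    · have h3 : ¬ ((σ (j, ⟨y, hy⟩)).1, (σ (j, ⟨y, hy⟩)).2.1) = (i, y') := by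
        intro h5
        rw [Prod.mk.injEq] at h5
        exact hy' (h5.2 ▸ (σ (j, ⟨y, hy⟩)).2.2)
      refine ⟨fun h => absurd h.1 h3, fun _ => ?_⟩
      rw [cf_Ex_out S d b w i j x y' y fun h => hy' h.1, cfI, if_neg]
      rintro ⟨_, rfl, _⟩
      exact hy' hy
  · have hs : σ.extendDomain e (j, y) = (j, y) :=
      Equiv.Perm.extendDomain_apply_not_subtype σ e (b := (j, y)) hy
    rw [hs, hg2 j y hy, cf_Ex_out S d b w i j x y' y fun h => hy h.2, cfI]
    constructor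
    · rintro ⟨h1, rfl⟩
      rw [Prod.mk.injEq] at h1
      exact if_pos ⟨h1.1.symm, h1.2.symm, rfl⟩
    · intro h1
      refine if_neg fun h2 => h1 ⟨?_, h2.2.2⟩
      rw [h2.1, h2.2.1]

private theorem dgO_emb {Y m : Type} [DecidableEq m] {A : Type} [Ring A] {p : Y → Prop}
    (r : m → Option (Bool × (ℕ ↪ {y : Y // p y})))
    (i j : m) : dgO A (fun l => embO (r l)) i j = (1 : Matrix m m (CF Y A)) i j +
      push Subtype.val_injective (dgO A r i j -
        (1 : Matrix m m (CF {y : Y // p y} A)) i j) := by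
  by_cases hij : i = j
  · subst hij
    rw [dgO, dgO, diagonal_apply_eq, diagonal_apply_eq, one_apply_eq, one_apply_eq, shO_emb]
  · rw [dgO, dgO, diagonal_apply_ne _ hij, diagonal_apply_ne _ hij, one_apply_ne hij,
      one_apply_ne hij, sub_zero, map_zero, add_zero]

end Cf

end SpeAux

open SpeAux

theorem spe : S_spe := by
  intro Y B C Γ k _ _ _ _ _ _ _ _ S d b m _ _ w hw
  obtain ⟨r, hu, hM, hr, hc⟩ := hw
  refine ⟨fun l => embO (r l), Ex_unit _ hu, mon_Ex S d b w hM, ?_, ?_⟩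
  · intro l b' ρ hl
    obtain ⟨q, hq, hqe⟩ := Option.map_eq_some_iff.1 hl
    rw [Prod.mk.injEq] at hqe
    obtain ⟨-, rfl⟩ := hqe
    exact (hr l q.1 q.2 hq).der
  · intro i j
    have h1 := push_JR (ι := Subtype.val) Subtype.val_injective (hc i j)
    rw [mcf_Ex, dgO_emb]
    have h2 : ∀ a b c d : CF Y (MonoidAlgebra k Γ), a + b - (a + c) = b - c := fun a b c _ => by
      abel
    rw [h2 _ _ _ 0, ← map_sub]
    have h3 : ∀ a b' c : CF {y : Y // S.R b y = d} (MonoidAlgebra k Γ),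
        a - b' - (c - b') = a - c := fun a b' c => by abel
    rw [h3]
    exact h1

end Pool.Agent.FL
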