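import Pool.Agent.Lib.MP_8f66f0_al_FL.Spec
import Pool.Agent.Lib.MP_8f66f0_al_CC.End.Ext1

/-!
# Flag systems: `triv` of the extension theorem at `d = 1`

`shO_tail`: the shifts along a ray and along a tail of it agree up to finitely many rows. `tail_exists`:
if `1 ⊕ push z` is a shift along `ρ` up to finitely many rows, then a tail of `ρ` consists of objects of
the derived system. `triv1`: the statement `S_triv1`.
-/

set_option autoImplicit false
set_option linter.unusedSectionVars false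

namespace Pool.Agent.FL

open Matrix
open Pool.Agent.CC (KR Cg Ex)
open Pool.Agent.CC.XE

namespace TrivAux

section Sh

variable {Y Y' A : Type} [Ring A]

/-- A matrix with entries in finitely many columns has finitely many rows. -/
theorem fin_of_col {z : CF Y A} {T : Set Y} (hT : T.Finite)
    (h : ∀ y x, ent z y x ≠ 0 → x ∈ T) : z ∈ JR Y A := by
  refine (Set.Finite.biUnion hT fun x _ => ent_col z x).subset ?_
  rintro y ⟨x, hx⟩
  simp only [Set.mem_iUnion]
  exact ⟨x, h y x hx, hx⟩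

/-- A matrix with entries in finitely many rows. -/
theorem fin_of_row {z : CF Y A} {T : Set Y} (hT : T.Finite)
    (h : ∀ y x, ent z y x ≠ 0 → y ∈ T) : z ∈ JR Y A := by
  refine hT.subset ?_
  rintro y ⟨x, hx⟩
  exact h y x hx

variable {ι : Y' → Y} (hι : Function.Injective ι)

theorem pull_fin {z : CF Y A} (hz : z ∈ JR Y A) : pull hι z ∈ JR Y' A := by
  refine (Set.Finite.preimage hι.injOn hz).subset ?_
  rintro y ⟨x, hx⟩
  rw [ent_pull] at hx
  exact ⟨ι x, hx⟩

theorem push_fin {z : CF Y' A} (hz : z ∈ JR Y' A) : push hι z ∈ JR Y A := by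
  refine (Set.Finite.image ι hz).subset ?_
  rintro y ⟨x, hx⟩
  obtain ⟨y', x', h1, _, h3⟩ := ent_push_ne hι hx
  exact ⟨y', ⟨x', h3⟩, h1⟩

include hι

/-- The shift along a tail of a ray. -/
theorem shM_tail (ρ : ℕ ↪ Y) (N : ℕ) (ρ' : ℕ ↪ Y') (h : ∀ n, ι (ρ' n) = ρ (n + N)) (x : Y')
    (hx : ∀ n < N, ι x ≠ ρ n) : shM ρ (ι x) = ι (shM ρ' x) := by
  by_cases h1 : ∃ n, x = ρ' n
  · obtain ⟨n, rfl⟩ := h1
    rw [shM_ray, h, h, shM_ray]
    congr 1
    omega
  · rw [shM_out ρ' h1, shM_out]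
    rintro ⟨n, hn⟩
    by_cases hnN : n < N
    · exact hx n hnN hn
    · refine h1 ⟨n - N, hι ?_⟩
      rw [h, hn]
      congr 1
      omega

theorem fin_tail (ρ : ℕ ↪ Y) (N : ℕ) : {x : Y' | ∃ n < N, ι x = ρ n}.Finite := by
  refine (Set.Finite.preimage hι.injOn ((Finset.range N).finite_toSet.image ρ)).subset ?_
  rintro x ⟨n, h1, h2⟩
  exact ⟨n, Finset.mem_coe.2 (Finset.mem_range.2 h1), h2.symm⟩

theorem shO_tail (b : Bool) (ρ : ℕ ↪ Y) (N : ℕ) (ρ' : ℕ ↪ Y') (h : ∀ n, ι (ρ' n) = ρ (n + N)) :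
    pull hι (shO A (some (b, ρ))) - shO A (some (b, ρ')) ∈ JR Y' A := by
  classical
  cases b with
  | true =>
    refine fin_of_col (fin_tail hι ρ N) fun y x hne => ?_
    by_contra hc
    refine hne ?_
    rw [ent_sub, ent_pull]
    change ent (shR A ρ) (ι y) (ι x) - ent (shR A ρ') y x = 0
    rw [ent_shR, ent_shR, shM_tail hι ρ N ρ' h x fun n hn he => hc ⟨n, hn, he⟩,
      if_congr hι.eq_iff rfl rfl, sub_self]
  | false =>
    refine fin_of_row (fin_tail hι ρ N) fun y x hne => ?_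
    by_contra hc
    refine hne ?_
    rw [ent_sub, ent_pull]
    change ent (shL A ρ) (ι y) (ι x) - ent (shL A ρ') y x = 0
    rw [ent_shL, ent_shL, shM_tail hι ρ N ρ' h y fun n hn he => hc ⟨n, hn, he⟩,
      if_congr hι.eq_iff rfl rfl, sub_self]

omit hι in
/-- If a matrix which is the identity outside `range ι` is a shift along `ρ` up to finitely many rows,
then a tail of `ρ` is in `range ι`. -/
theorem tail_exists [Nontrivial A] (b : Bool) (ρ : ℕ ↪ Y) (e : CF Y A)
    (he : ∀ y x, y ≠ x → ent e y x ≠ 0 → (∃ y', ι y' = y) ∧ ∃ x', ι x' = x)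
    (h : e - shO A (some (b, ρ)) ∈ JR Y A) : ∃ N, ∀ n, ∃ y', ι y' = ρ (n + N) := by
  classical
  have key : ∀ y : ℕ → Y × Y, (Function.Injective fun n => (y n).1) →
      (∀ n, (y n).1 ≠ (y n).2 ∧ ent (shO A (some (b, ρ))) (y n).1 (y n).2 = 1) →
      ∃ N, ∀ n, ent e (y (n + N)).1 (y (n + N)).2 ≠ 0 := by
    intro y hy h1
    have h2 : {n | ent (e - shO A (some (b, ρ))) (y n).1 (y n).2 ≠ 0}.Finite :=
      (Set.Finite.preimage hy.injOn h).subset fun n hn => ⟨(y n).2, hn⟩
    obtain ⟨N, hN⟩ := h2.bddAbove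
    refine ⟨N + 1, fun n => ?_⟩
    have h3 : ent (e - shO A (some (b, ρ))) (y (n + (N + 1))).1 (y (n + (N + 1))).2 = 0 := by
      by_contra hc
      have := hN hc
      omega
    rw [ent_sub, (h1 _).2, sub_eq_zero] at h3
    rw [h3]
    exact one_ne_zero
  have hne : ∀ n, ρ (n + 1) ≠ ρ n := fun n h0 => by
    have := ρ.injective h0
    omega
  cases b with
  | true =>
    obtain ⟨N, hN⟩ := key (fun n => (ρ (n + 1), ρ n))
      (fun n m hnm => by
        have := ρ.injective hnm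
        omega) fun n => ⟨hne n, by
        change ent (shR A ρ) (ρ (n + 1)) (ρ n) = 1
        rw [ent_shR, shM_ray, if_pos rfl]⟩
    exact ⟨N, fun n => (he _ _ (hne (n + N)) (hN n)).2⟩
  | false =>
    obtain ⟨N, hN⟩ := key (fun n => (ρ n, ρ (n + 1)))
      (fun n m hnm => ρ.injective hnm) fun n => ⟨(hne n).symm, by
        change ent (shL A ρ) (ρ n) (ρ (n + 1)) = 1
        rw [ent_shL, shM_ray, if_pos rfl]⟩
    exact ⟨N, fun n => (he _ _ (hne (n + N)).symm (hN n)).1⟩

omit hι in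
theorem pull_one (hι : Function.Injective ι) : pull hι (1 : CF Y A) = 1 := by
  classical
  refine ent_ext fun y x => ?_
  rw [ent_pull, ent_one, ent_one]
  exact if_congr hι.eq_iff rfl rfl

omit hι in
theorem pull_sub (hι : Function.Injective ι)
    (a b : CF Y A) : pull hι (a - b) = pull hι a - pull hι b := by
  refine ent_ext fun y x => ?_
  rw [ent_sub, ent_pull, ent_pull, ent_pull, ent_sub]

omit hι in
theorem ent_one_ne {Z n : Type} [DecidableEq n] {i j : n} {y x : Z} (hyx : y ≠ x) :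
    ent ((1 : Matrix n n (CF Z A)) i j) y x = 0 := by
  classical
  by_cases hij : i = j
  · subst hij
    rw [one_apply_eq, ent_one, if_neg hyx]
  · rw [one_apply_ne hij, ent_zero]

end Sh

section Der

variable {Y B C : Type}

/-- A tail of a ray which consists of objects of the derived system is a ray of the derived system. -/
theorem isRay_tail {S : FSys Y B C} {b : ℕ} {ρ : ℕ ↪ Y} (hρ : IsRay S ρ) {N : ℕ}
    (ρ' : ℕ ↪ {y : Y // S.R b y = 1})
    (h' : ∀ n, (ρ' n).1 = ρ (n + N)) : IsRay (S.der 1 b) ρ' := by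
  classical
  have h0 : (ρ' 0).1 = ρ N := by
    rw [h', zero_add]
  have hm : 1 ∈ S.F b (ρ' 0).1 := by
    have h1 := S.R_mem (h := b) (y := (ρ' 0).1) (by rw [(ρ' 0).2])
    rwa [(ρ' 0).2] at h1
  obtain ⟨m0, hm0, hm1⟩ := S.mem_F.1 hm
  refine ⟨?_, fun n => ?_⟩
  · rw [F_der, add_zero]
    exact hm
  · refine Subtype.ext ?_
    change (ρ' n).1 = (if hφ : Gd (mv n) then
      (⟨S.re (shf b (mv n)) (ρ' 0).1, _⟩ : {y : Y // S.R b y = 1}) else ρ' 0).1
    rw [dif_pos (gd_mv n)]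
    change (ρ' n).1 = S.re (shf b (mv n)) (ρ' 0).1
    have h1 : S.re (shf b (mv n)) (ρ' 0).1 = S.re (mv n) (ρ' 0).1 := by
      refine S.re_congr _ _ (shf_gd b (gd_mv n)) (gd_mv n) _ fun s hs => ?_
      unfold shf mv
      by_cases hs1 : s.1 = 1
      · have : s = (1, m0) := S.inj _ s hs (1, m0) hm0 hs1
        subst this
        rw [if_pos rfl, if_pos rfl, if_neg (not_lt.2 hm1)]
        change b + (m0 - b + n) = m0 + n
        omega
      · rw [if_neg hs1, if_neg hs1]
        split_ifs <;> omega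
    rw [h1, h', h0, ← hρ.succ N n, add_comm]

end Der

section Main

variable {Y B C Γ k : Type} [Group Γ] [PartialOrder B] [MulAction Γ B] [OrdAct Γ B]
  [PartialOrder C] [MulAction Γ C] [OrdAct Γ C] [CommRing k]
variable {S : FSys Y B C}

theorem mcf_mul {n m p : Type} [Fintype m] (a : Matrix n m (U Γ k S)) (b : Matrix m p (U Γ k S)) :
    mcf (a * b) = mcf a * mcf b :=
  Matrix.map_mul (f := (U Γ k S).subtype)

theorem mcf_one {n : Type} [DecidableEq n] :
    mcf (1 : Matrix n n (U Γ k S)) = 1 :=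
  Matrix.map_one (U Γ k S).subtype (map_zero _) (map_one _)

theorem mcf_blocks {n m : Type} (a : Matrix n n (U Γ k S)) (b : Matrix m m (U Γ k S)) :
    mcf (fromBlocks a 0 0 b) = fromBlocks (mcf a) 0 0 (mcf b) := by
  refine Matrix.ext fun i j => ?_
  rcases i with i | i <;> rcases j with j | j <;> rfl

theorem mcf_ex (b : ℕ) {n : Type} [DecidableEq n]
    (r : Matrix n n (U Γ k (S.der 1 b))) (i j : n) :
    mcf (Ex (eps Γ k S 1 b) r) i j = (1 : Matrix n n (CF Y (MonoidAlgebra k Γ))) i j +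
      push Subtype.val_injective (mcf r i j - (1 : Matrix n n
        (CF {y : Y // S.R b y = 1} (MonoidAlgebra k Γ))) i j) := by
  by_cases hij : i = j
  · subst hij
    simp only [mcf, Ex, Matrix.map_apply, Matrix.add_apply, Matrix.sub_apply, Matrix.one_apply_eq]
    rfl
  · simp only [mcf, Ex, Matrix.map_apply, Matrix.add_apply, Matrix.sub_apply,
      Matrix.one_apply_ne hij]
    rfl

theorem pull_ex (b : ℕ) {n : Type} [DecidableEq n]
    (r : Matrix n n (U Γ k (S.der 1 b))) (i j : n) :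
    pull Subtype.val_injective (mcf (Ex (eps Γ k S 1 b) r) i j) = mcf r i j := by
  classical
  refine ent_ext fun y x => ?_
  rw [ent_pull, mcf_ex, ent_add, ent_push, ent_sub]
  have h1 : ent ((1 : Matrix n n (CF Y (MonoidAlgebra k Γ))) i j) y.1 x.1 =
      ent ((1 : Matrix n n (CF {y : Y // S.R b y = 1} (MonoidAlgebra k Γ))) i j) y x := by
    by_cases hij : i = j
    · subst hij
      rw [one_apply_eq, one_apply_eq, ent_one, ent_one]
      exact if_congr Subtype.val_injective.eq_iff rfl rfl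
    · rw [one_apply_ne hij, one_apply_ne hij, ent_zero, ent_zero]
  rw [h1]
  abel

theorem cg_fin {m n : Type} {a b : Matrix m n (U Γ k S)} (h : Cg (J Γ k S 0) a b) :
    Cg (JR Y (MonoidAlgebra k Γ)) (mcf a) (mcf b) := fun i j => mem_J_zero.1 (h i j)

theorem cg_of_fin {m n : Type} {a b : Matrix m n (U Γ k S)}
    (h : Cg (JR Y (MonoidAlgebra k Γ)) (mcf a) (mcf b)) : Cg (J Γ k S 0) a b :=
  fun i j => mem_J_zero.2 (h i j)

/-- The shifts of the derived system. -/
theorem exists_der_shift [Nontrivial k] (b : ℕ) {m : Type} [DecidableEq m]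
    (r : Matrix m m (U Γ k (S.der 1 b))) (ρ : m → Option (Bool × (ℕ ↪ Y))) (hρ : Rys S ρ)
    (hr : Cg (JR Y (MonoidAlgebra k Γ)) (mcf (Ex (eps Γ k S 1 b) r))
      (dgO (MonoidAlgebra k Γ) ρ)) :
    ∃ ρ' : m → Option (Bool × (ℕ ↪ {y : Y // S.R b y = 1})), Rys (S.der 1 b) ρ' ∧
      Cg (JR {y : Y // S.R b y = 1} (MonoidAlgebra k Γ)) (mcf r)
        (dgO (MonoidAlgebra k Γ) ρ') := by
  classical
  have hex : ∀ l : m, ∃ q : Option (Bool × (ℕ ↪ {y : Y // S.R b y = 1})),
      (∀ b' ρ, q = some (b', ρ) → IsRay (S.der 1 b) ρ) ∧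
      pull Subtype.val_injective (shO (MonoidAlgebra k Γ) (ρ l)) -
        shO (MonoidAlgebra k Γ) q ∈ JR {y : Y // S.R b y = 1} (MonoidAlgebra k Γ) := by
    intro l
    rcases hl : ρ l with _ | ⟨b', σ⟩
    · refine ⟨none, fun b ρ h0 => absurd h0 (by simp), ?_⟩
      change pull Subtype.val_injective (1 : CF Y (MonoidAlgebra k Γ)) - 1 ∈ _
      rw [pull_one, sub_self]
      exact Ideal.zero_mem _
    · have h1 := hr l l
      rw [dgO, diagonal_apply_eq, hl] at h1
      obtain ⟨N, hN⟩ := tail_exists (ι := fun y : {y : Y // S.R b y = 1} => y.1) b' σ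
        (mcf (Ex (eps Γ k S 1 b) r) l l) (fun y x hyx hne => by
          rw [mcf_ex, ent_add, ent_one_ne hyx, zero_add] at hne
          obtain ⟨y', x', e1, e2, _⟩ := ent_push_ne _ hne
          exact ⟨⟨y', e1⟩, ⟨x', e2⟩⟩) h1
      choose τ hτ using hN
      have hτi : Function.Injective τ := fun a b' hab => by
        have h2 : σ (a + N) = σ (b' + N) := by rw [← hτ, ← hτ, hab]
        have := σ.injective h2
        omega
      refine ⟨some (b', ⟨τ, hτi⟩), fun b'' ρ' h0 => ?_, ?_⟩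
      · have h2 : ρ' = ⟨τ, hτi⟩ := ((Prod.ext_iff.1 (Option.some_injective _ h0)).2).symm
        subst h2
        exact isRay_tail (hρ l b' σ hl) (N := N) _ fun n => hτ n
      · exact shO_tail Subtype.val_injective b' σ N ⟨τ, hτi⟩ fun n => hτ n
  choose ρ' hρ' using hex
  refine ⟨ρ', fun l b σ hl => (hρ' l).1 b σ hl, fun i j => ?_⟩
  have h1 := pull_fin (Subtype.val_injective (p := fun y => S.R b y = 1)) (hr i j)
  rw [pull_sub, pull_ex] at h1
  have h2 : pull Subtype.val_injective (dgO (MonoidAlgebra k Γ) ρ i j) -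
      dgO (MonoidAlgebra k Γ) ρ' i j ∈
        JR {y : Y // S.R b y = 1} (MonoidAlgebra k Γ) := by
    by_cases hij : i = j
    · subst hij
      rw [dgO, dgO, diagonal_apply_eq, diagonal_apply_eq]
      exact (hρ' i).2
    · rw [dgO, dgO, diagonal_apply_ne _ hij, diagonal_apply_ne _ hij]
      refine Ideal.sub_mem _ (pull_fin _ (Ideal.zero_mem _)) (Ideal.zero_mem _)
  have h3 := Ideal.add_mem _ h1 h2
  rwa [sub_add_sub_cancel] at h3

end Main

end TrivAux

open TrivAux

/-- `triv` of the extension theorem at `d = 1`. -/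
theorem triv1 (hidx : S_idx) (hbal : S_bal) (hspe : S_spe) (hmonc : S_monc) : S_triv1 := by
  classical
  intro Y B C Γ k K _ _ _ _ _ _ _ _ _ _ S κ hκ b n m _ _ _ _ w r x hw hr hx cx e
  obtain ⟨ρ, hw1, hw2, hρ, cw⟩ := hw
  -- `Ex r` is a diagonal matrix of shifts up to finitely many rows
  have hρ1 : Rys S (Sum.elim (fun _ : n => none) ρ) := by
    rintro (l | l) b σ hl
    · exact absurd hl (by simp)
    · exact hρ l b σ hl
  have c1 : Cg (JR Y (MonoidAlgebra k Γ)) (mcf (Ex (eps Γ k S 1 b) r))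
      (dgO (MonoidAlgebra k Γ) (Sum.elim (fun _ : n => none) ρ)) := by
    have h1 : Cg (J Γ k S 0) (Ex (eps Γ k S 1 b) r) (Ex (eps Γ k S 1 b) r * x) := by
      have := cg_symm (cg_mul_left (Ex (eps Γ k S 1 b) r) cx)
      rwa [Matrix.mul_one] at this
    refine cg_trans (cg_fin h1) ?_
    rw [← e, mcf_blocks]
    rintro (i | i) (j | j)
    · by_cases hij : i = j
      · subst hij
        rw [dgO, diagonal_apply_eq, fromBlocks_apply₁₁, mcf_one, one_apply_eq]
        change (1 : CF Y (MonoidAlgebra k Γ)) - 1 ∈ _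
        rw [sub_self]
        exact Ideal.zero_mem _
      · rw [dgO, diagonal_apply_ne _ (by simpa using hij), fromBlocks_apply₁₁, mcf_one,
          one_apply_ne hij, sub_self]
        exact Ideal.zero_mem _
    · rw [dgO, diagonal_apply_ne _ (by simp), fromBlocks_apply₁₂, Matrix.zero_apply, sub_self]
      exact Ideal.zero_mem _
    · rw [dgO, diagonal_apply_ne _ (by simp), fromBlocks_apply₂₁, Matrix.zero_apply, sub_self]
      exact Ideal.zero_mem _
    · have h2 := cw i j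
      rw [fromBlocks_apply₂₂]
      by_cases hij : i = j
      · subst hij
        rw [dgO, diagonal_apply_eq] at h2 ⊢
        exact h2
      · rw [dgO, diagonal_apply_ne _ hij] at h2
        rw [dgO, diagonal_apply_ne _ (by simpa using hij)]
        exact h2
  -- the special matrix of the derived system
  obtain ⟨ρ', hρ', c2⟩ := exists_der_shift b r _ hρ1 c1
  obtain ⟨m', hm1, hm2, hm3, c3⟩ := hbal _ _ _ Γ k (S.der 1 b) (n ⊕ m) ρ' hρ'
    (hidx _ _ _ Γ k (S.der 1 b) (n ⊕ m) ρ' r hρ' hr c2)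
  have c4 : Cg (J Γ k (S.der 1 b) 0) r m' := cg_of_fin (cg_trans c2 (cg_symm c3))
  obtain ⟨_, _, hm5, _⟩ := hspe _ _ _ _ _ S 1 b (n ⊕ m) m' ⟨ρ', hm1, hm2, hm3, c3⟩
  obtain ⟨ri, r1, r2⟩ := ex_inv hr
  obtain ⟨mi, m1, m2⟩ := ex_inv hm1
  have hW : IsUnit (fromBlocks (1 : Matrix n n (U Γ k S)) 0 0 w) := by
    rw [e]
    exact (ex_unit _ hr).mul hx
  have hri : IsUnit ri := isUnit_of r2 r1
  have hmi : IsUnit mi := isUnit_of m2 m1
  -- `x = A * B`
  have eA : Ex (eps Γ k S 1 b) (ri * m') * (Ex (eps Γ k S 1 b) mi * fromBlocks 1 0 0 w) = x := by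
    rw [← Matrix.mul_assoc, ← ex_mul, Matrix.mul_assoc ri m' mi, m1, Matrix.mul_one, e,
      ← Matrix.mul_assoc, ← ex_mul, r2, ex_one, Matrix.one_mul]
  have hA : IsUnit (ri * m') := hri.mul hm1
  have cA : Cg (J Γ k (S.der 1 b) 0) (ri * m') 1 := by
    have := cg_symm (cg_mul_left ri c4)
    rwa [r2] at this
  have cA' : Cg (J Γ k S 0) (Ex (eps Γ k S 1 b) (ri * m')) 1 := fun i j => by
    rw [Ex, Matrix.add_apply, add_sub_cancel_left]
    refine mem_J_zero.2 ?_
    change push Subtype.val_injective ((ri * m' - 1) i j).1 ∈ _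
    have h1 := mem_J_zero.1 (cA i j)
    exact push_fin _ h1
  have hB : IsUnit (Ex (eps Γ k S 1 b) mi * fromBlocks 1 0 0 w) := (ex_unit _ hmi).mul hW
  have cB : Cg (J Γ k S 0) (Ex (eps Γ k S 1 b) mi * fromBlocks 1 0 0 w) 1 := by
    have h1 := cg_symm (cg_mul_right cA' (Ex (eps Γ k S 1 b) mi * fromBlocks 1 0 0 w))
    rw [eA, Matrix.one_mul] at h1
    exact cg_trans h1 cx
  have mB : Mon (mcf (Ex (eps Γ k S 1 b) mi * fromBlocks 1 0 0 w)) := by
    obtain ⟨g1, g2, g3, g4, _⟩ := hmonc Y k Γ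
    rw [mcf_mul]
    refine g2 _ _ _ (g3 _ _ _ hm5 ?_ ?_) ?_
    · rw [← mcf_mul, ← ex_mul, m1, ex_one, mcf_one]
    · rw [← mcf_mul, ← ex_mul, m2, ex_one, mcf_one]
    · rw [mcf_blocks, mcf_one]
      exact g4 _ _ _ _ (g1 _) hw2
  rw [← eA, κ.mul _ _ (ex_unit _ hA) hB cA' cB, hκ.1 1 b le_rfl _ _ hA cA, hκ.2 _ _ hB cB mB,
    mul_one]

end Pool.Agent.FL
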