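import Pool.Agent.Lib.MP_8f66f0_al_FL.SpecR
import Pool.Agent.Lib.MP_8f66f0_al_Wald.K1Lem

/-!
# Uniqueness of relative invariants, one-sided ladders
-/

set_option autoImplicit false

namespace Pool.Agent.FL

open Pool.Agent.Wald Matrix
open Pool.Agent.CC (KR Cg Ex Spc Gen Flq KZ KQ)

section

variable {R : Type} [Ring R] {J : Ideal R} {K : Type} [CommGroup K]

private theorem unc_refl {m n : Type} (A : Matrix m n R) : Cg J A A := fun i j => by
  rw [sub_self]
  exact J.zero_mem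

private theorem unc_blocks {n m : Type} {A A' : Matrix n n R}
    {B B' : Matrix n m R} {C C' : Matrix m n R} {D D' : Matrix m m R} (hA : Cg J A A')
    (hB : Cg J B B') (hC : Cg J C C') (hD : Cg J D D') :
    Cg J (fromBlocks A B C D) (fromBlocks A' B' C' D') := by
  rintro (i | i) (j | j)
  · exact hA i j
  · exact hB i j
  · exact hC i j
  · exact hD i j

private theorem unc_f_one (κ : KR R J K) {n : Type} [Fintype n] [DecidableEq n] :
    κ.f (1 : Matrix n n R) = 1 := by
  have h := κ.mul (1 : Matrix n n R) 1 isUnit_one isUnit_one (unc_refl _) (unc_refl _)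
  rw [one_mul] at h
  exact mul_left_cancel (a := κ.f (1 : Matrix n n R)) (by rw [mul_one]; exact h.symm)

private theorem unc_lower (κ : KR R J K) {n m : Type} [Fintype n] [DecidableEq n] [Fintype m]
    [DecidableEq m] (C : Matrix m n R) (hC : Cg J C 0) :
    κ.f (fromBlocks (1 : Matrix n n R) 0 C (1 : Matrix m m R)) = 1 := by
  have h1 : (fromBlocks (1 : Matrix m m R) C 0 (1 : Matrix n n R)).submatrix
      (Equiv.sumComm n m) (Equiv.sumComm n m) = fromBlocks 1 0 C 1 := by
    ext (i | i) (j | j) <;> rfl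
  have hcg : Cg J (fromBlocks (1 : Matrix m m R) C 0 (1 : Matrix n n R)) 1 := by
    rw [← fromBlocks_one]
    exact unc_blocks (unc_refl _) hC (unc_refl _) (unc_refl _)
  have h2 := κ.reindex (Equiv.sumComm m n) (fromBlocks (1 : Matrix m m R) C 0 (1 : Matrix n n R))
    (K1Fun.isUnit_tri C isUnit_one isUnit_one) hcg
  rw [Equiv.sumComm_symm, h1] at h2
  rw [h2, κ.tri 1 C 1 isUnit_one isUnit_one (unc_refl _) hC (unc_refl _), unc_f_one,
    unc_f_one, one_mul]

private theorem unc_swap (κ : KR R J K) {n m : Type} [Fintype n] [DecidableEq n] [Fintype m]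
    [DecidableEq m] (A : Matrix n m R) (B : Matrix m n R) (hA : Cg J A 0) (hB : Cg J B 0)
    (h1 : IsUnit (1 + A * B)) (h2 : IsUnit (1 + B * A)) (g1 : Cg J (1 + A * B) 1)
    (g2 : Cg J (1 + B * A) 1) : κ.f (1 + A * B) = κ.f (1 + B * A) := by
  have hB' : Cg J (-B) 0 := fun i j => by
    have := J.neg_mem (hB i j)
    simpa using this
  have key : fromBlocks (1 : Matrix n n R) 0 (-B) (1 : Matrix m m R) *
      fromBlocks (1 : Matrix n n R) A 0 (1 + B * A) =
      fromBlocks (1 + A * B) A 0 (1 : Matrix m m R) *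
        fromBlocks (1 : Matrix n n R) 0 (-B) (1 : Matrix m m R) := by
    rw [fromBlocks_multiply, fromBlocks_multiply]
    simp
  have u1 : IsUnit (fromBlocks (1 : Matrix n n R) 0 (-B) (1 : Matrix m m R)) :=
    K1Fun.isUnit_lower (-B) isUnit_one isUnit_one
  have c1 : Cg J (fromBlocks (1 : Matrix n n R) 0 (-B) (1 : Matrix m m R)) 1 := by
    rw [← fromBlocks_one]
    exact unc_blocks (unc_refl _) (unc_refl _) hB' (unc_refl _)
  have c2 : Cg J (fromBlocks (1 : Matrix n n R) A 0 (1 + B * A)) 1 := by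
    rw [← fromBlocks_one]
    exact unc_blocks (unc_refl _) hA (unc_refl _) g2
  have c3 : Cg J (fromBlocks (1 + A * B) A 0 (1 : Matrix m m R)) 1 := by
    rw [← fromBlocks_one]
    exact unc_blocks g1 hA (unc_refl _) (unc_refl _)
  have h3 := congrArg κ.f key
  rw [κ.mul _ _ u1 (K1Fun.isUnit_tri A isUnit_one h2) c1 c2,
    κ.mul _ _ (K1Fun.isUnit_tri A h1 isUnit_one) u1 c3 c1, unc_lower κ _ hB',
    κ.tri _ _ _ isUnit_one h2 (unc_refl _) hA g2, κ.tri _ _ _ h1 isUnit_one g1 hA (unc_refl _),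
    unc_f_one, unc_f_one, one_mul, one_mul, mul_one, mul_one] at h3
  exact h3.symm

/-- `1 + B A` is invertible if `1 + A B` is. -/
private theorem unc_unit {n : Type} [Fintype n] [DecidableEq n] (A B : Matrix n n R)
    (h : IsUnit (1 + A * B)) : IsUnit (1 + B * A) := by
  have h1 : IsUnit (1 - -A * B) := by
    rw [Matrix.neg_mul, sub_neg_eq_add]
    exact h
  have h2 := (sameK_swap (-A) B h1).1
  rwa [Matrix.mul_neg, sub_neg_eq_add] at h2

private theorem unc_cg_mul {n : Type} [Fintype n] [DecidableEq n] [J.IsTwoSided]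
    (A B : Matrix n n R) (hA : Cg J A 0) : Cg J (1 + A * B) 1 := by
  intro i j
  rw [Matrix.add_apply, add_sub_cancel_left, Matrix.mul_apply]
  refine J.sum_mem fun k _ => J.mul_mem_right _ ?_
  have := hA i k
  rwa [Matrix.zero_apply, sub_zero] at this

end

section

variable {R S : Type} [Ring R] [Ring S]

private theorem unl_ex_mul (ε : S →ₙ+* R) {n : Type} [Fintype n] [DecidableEq n]
    (x y : Matrix n n S) : Ex ε (x * y) = Ex ε x * Ex ε y := by
  have hmap : ∀ a b : Matrix n n S, (a * b).map ε = a.map ε * b.map ε := by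
    intro a b
    ext i j
    simp only [Matrix.map_apply, Matrix.mul_apply, map_sum, map_mul]
  have hadd : ∀ a b : Matrix n n S, (a + b).map ε = a.map ε + b.map ε := by
    intro a b
    ext i j
    simp only [Matrix.map_apply, Matrix.add_apply, map_add]
  have h1 : x * y - 1 = (x - 1) + (y - 1) + (x - 1) * (y - 1) := by
    rw [Matrix.sub_mul, Matrix.mul_sub, Matrix.mul_one, Matrix.one_mul]
    abel
  unfold Ex
  rw [h1, hadd, hadd, hmap, Matrix.add_mul, Matrix.mul_add, Matrix.mul_add, Matrix.one_mul,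
    Matrix.mul_one, Matrix.one_mul]
  abel

private theorem unl_ex_one (ε : S →ₙ+* R) {n : Type} [DecidableEq n] :
    Ex ε (1 : Matrix n n S) = 1 := by
  unfold Ex
  rw [sub_self]
  ext i j
  simp

private theorem unl_ex_unit (ε : S →ₙ+* R) {n : Type} [Fintype n] [DecidableEq n]
    {x : Matrix n n S} (hx : IsUnit x) : IsUnit (Ex ε x) := by
  obtain ⟨u, rfl⟩ := hx
  refine ⟨⟨Ex ε u.1, Ex ε u.2, ?_, ?_⟩, rfl⟩
  · rw [← unl_ex_mul, u.val_inv, unl_ex_one]
  · rw [← unl_ex_mul, u.inv_val, unl_ex_one]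

private theorem unl_ex_cg (ε : S →ₙ+* R) (J : Ideal R) (h : ∀ x, ε x ∈ J) {n : Type}
    [DecidableEq n] (x : Matrix n n S) : Cg J (Ex ε x) 1 := by
  intro i j
  unfold Ex
  rw [Matrix.add_apply, add_sub_cancel_left]
  exact h _

private theorem unl_ex_blocks (ε : S →ₙ+* R) {n m : Type} [DecidableEq n] [DecidableEq m]
    (A : Matrix n n S) (B : Matrix n m S) (D : Matrix m m S) :
    Ex ε (fromBlocks A B 0 D) = fromBlocks (Ex ε A) (B.map ε) 0 (Ex ε D) := by
  unfold Ex
  ext (i | i) (j | j) <;> simp [Matrix.one_apply]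

private theorem unl_ex_sub (ε : S →ₙ+* R) {n m : Type} [DecidableEq n] [DecidableEq m]
    (e : n ≃ m) (A : Matrix n n S) :
    Ex ε (A.submatrix e.symm e.symm) = (Ex ε A).submatrix e.symm e.symm := by
  unfold Ex
  ext i j
  simp [Matrix.one_apply]

/-- The pull back of an invariant. -/
private def unl_pull {K : Type} [CommGroup K] (J : Ideal R) (κ : KR R J K) (ε : S →ₙ+* R)
    (h : ∀ x, ε x ∈ J) : K1Fun S K where
  f z := κ.f (Ex ε z)
  mul A B hA hB := by
    rw [unl_ex_mul]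
    exact κ.mul _ _ (unl_ex_unit ε hA) (unl_ex_unit ε hB) (unl_ex_cg ε J h _) (unl_ex_cg ε J h _)
  reindex e A hA := by
    rw [unl_ex_sub]
    exact κ.reindex e _ (unl_ex_unit ε hA) (unl_ex_cg ε J h _)
  tri A B D hA hD := by
    rw [unl_ex_blocks]
    refine κ.tri _ _ _ (unl_ex_unit ε hA) (unl_ex_unit ε hD) (unl_ex_cg ε J h _) ?_
      (unl_ex_cg ε J h _)
    intro i j
    rw [Matrix.zero_apply, sub_zero]
    exact h _

private theorem unl_mul_cg {J : Ideal R} {n : Type} [Fintype n]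
    (a x y : Matrix n n R) (h : Cg J x y) : Cg J (a * x) (a * y) := by
  intro i j
  rw [← Matrix.sub_apply, ← Matrix.mul_sub, Matrix.mul_apply]
  exact J.sum_mem fun k _ => J.mul_mem_left _ (h k j)

end

theorem uniL : S_uniL := by
  classical
  intro R _ J' J _ _ β _ T _ I ε M hL hS hG hF K _ κ hk1 hk2 n _ _ z₀ hz₀ hcz₀
  -- the left unit
  obtain ⟨b, e, heJ, hee, he, heb⟩ := hL.dec
    (Finset.univ.image fun p : n × n => z₀ p.1 p.2 - (1 : Matrix n n R) p.1 p.2) (by
      intro x hx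
      obtain ⟨p, -, rfl⟩ := Finset.mem_image.1 hx
      exact hcz₀ p.1 p.2)
  have he' : ∀ i j, e * (z₀ - 1) i j = (z₀ - 1) i j := fun i j =>
    he _ (Finset.mem_image.2 ⟨(i, j), Finset.mem_univ _, rfl⟩)
  set c : Matrix n n R := z₀ - 1 with hc
  set E : Matrix n n R := Matrix.diagonal fun _ => e with hE
  have hEc : E * c = c := by
    ext i j
    rw [hE, Matrix.diagonal_mul]
    exact he' i j
  have hEJ : Cg J E 0 := by
    intro i j
    rw [Matrix.zero_apply, sub_zero, hE, Matrix.diagonal_apply]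
    split_ifs
    · exact heJ
    · exact J.zero_mem
  have hcJ : Cg J c 0 := by
    intro i j
    rw [Matrix.zero_apply, sub_zero]
    exact hcz₀ i j
  have hz1 : z₀ = 1 + E * c := by
    rw [hEc, hc]
    abel
  have hu1 : IsUnit (1 + E * c) := by
    rw [← hz1]
    exact hz₀
  have hu2 : IsUnit (1 + c * E) := unc_unit _ _ hu1
  have hsw : κ.f z₀ = κ.f (1 + c * E) := by
    rw [← unc_swap κ _ _ hEJ hcJ hu1 hu2 (unc_cg_mul _ _ hEJ) (unc_cg_mul _ _ hcJ), ← hz1]
  rw [hsw]
  have hcz : Cg J (1 + c * E) 1 := unc_cg_mul _ _ hcJ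
  have hz : IsUnit (1 + c * E) := hu2
  -- the corner
  have hcor : ∀ p : n × n, ∃ c' : T b, c p.1 p.2 * e - ε b c' ∈ J' := by
    intro p
    have hcp : c p.1 p.2 ∈ J := hcz₀ p.1 p.2
    obtain ⟨c', hc'⟩ := hL.cor b _ hcp
    refine ⟨c', ?_⟩
    have h1 : c p.1 p.2 * e - ε b c' = (e - ε b 1) * c p.1 p.2 * e +
        ε b 1 * c p.1 p.2 * (e - ε b 1) + (ε b 1 * c p.1 p.2 * ε b 1 - ε b c') := by
      have h2 : c p.1 p.2 = e * c p.1 p.2 := (he' p.1 p.2).symm
      have h3 : c p.1 p.2 * e = e * c p.1 p.2 * e := by rw [← h2]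
      rw [h3]
      noncomm_ring
    rw [h1]
    exact J'.add_mem (J'.add_mem (J'.mul_mem_right _ (J'.mul_mem_right _ heb))
      (J'.mul_mem_left _ heb)) hc'
  choose cb hcb using hcor
  set z : Matrix n n R := 1 + c * E with hzdef
  set z' : Matrix n n (T b) := 1 + Matrix.of fun i j => cb (i, j) with hz'
  have hcz' : Cg J' z (Ex (ε b) z') := by
    intro i j
    have h1 : Ex (ε b) z' i j = (1 : Matrix n n R) i j + ε b (cb (i, j)) := by
      unfold Ex
      rw [hz', add_sub_cancel_left]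
      rfl
    have h2 : z i j = (1 : Matrix n n R) i j + c i j * e := by
      rw [hzdef, Matrix.add_apply, hE, Matrix.mul_diagonal]
    rw [h1, h2, add_sub_add_left_eq_sub]
    exact hcb (i, j)
  obtain ⟨m, _, _, w, r, hw, hr, hcr⟩ := hG b n z z' hz hcz hcz'
  obtain ⟨hwu, hwc⟩ := hS.unit m w hw
  have hZu : IsUnit (fromBlocks z 0 0 w) := K1Fun.isUnit_tri 0 hz hwu
  obtain ⟨u, hu⟩ := unl_ex_unit (ε b) hr
  set x : Matrix (n ⊕ m) (n ⊕ m) R := u.inv * fromBlocks z 0 0 w with hx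
  have huu : IsUnit u.inv := ⟨u⁻¹, rfl⟩
  have hxu : IsUnit x := huu.mul hZu
  have hxc : Cg J' x 1 := by
    have h1 := unl_mul_cg u.inv _ _ hcr
    rw [← hu, u.inv_val] at h1
    exact h1
  have hxc' : Cg J x 1 := fun i j => hL.le (hxc i j)
  have hZ : fromBlocks z 0 0 w = Ex (ε b) r * x := by
    rw [hx, ← Matrix.mul_assoc, ← hu, u.val_inv, Matrix.one_mul]
  have e1 : κ.f (fromBlocks z 0 0 w) = κ.f z * κ.f w := by
    refine κ.tri z 0 w hz hwu hcz ?_ hwc
    intro i j
    rw [sub_self]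
    exact J.zero_mem
  have e2 : κ.f (Ex (ε b) r) = 1 := hF b K (unl_pull J κ (ε b) (hL.mem b)) _ r hr
  have e3 : κ.f (Ex (ε b) r * x) = κ.f (Ex (ε b) r) * κ.f x :=
    κ.mul _ _ (unl_ex_unit (ε b) hr) hxu (unl_ex_cg (ε b) J (hL.mem b) _) hxc'
  rw [← hZ, e1, e2, hk1 _ x hxu hxc, hk2 _ w hw, mul_one, mul_one] at e3
  exact e3

end Pool.Agent.FL
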