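import Pool.Agent.Lib.MP_8f66f0_al_FL.ConjL
import Pool.Agent.Lib.MP_8f66f0_al_FL.UniL
import Pool.Agent.Lib.MP_8f66f0_al_FL.ExtC
import Pool.Agent.Lib.MP_8f66f0_al_FL.ExtL
import Pool.Agent.Lib.MP_8f66f0_al_FL.KzL
import Pool.Agent.Lib.MP_8f66f0_al_FL.Lad
import Pool.Agent.Lib.MP_8f66f0_al_FL.Fin0
import Pool.Agent.Lib.MP_8f66f0_al_FL.Idx0
import Pool.Agent.Lib.MP_8f66f0_al_FL.Idx
import Pool.Agent.Lib.MP_8f66f0_al_FL.Bal
import Pool.Agent.Lib.MP_8f66f0_al_FL.Mon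
import Pool.Agent.Lib.MP_8f66f0_al_FL.Spc
import Pool.Agent.Lib.MP_8f66f0_al_FL.Spe
import Pool.Agent.Lib.MP_8f66f0_al_FL.Gen
import Pool.Agent.Lib.MP_8f66f0_al_FL.M1
import Pool.Agent.Lib.MP_8f66f0_al_FL.Triv1
import Pool.Agent.Lib.MP_8f66f0_al_FL.M2
import Pool.Agent.Lib.MP_8f66f0_al_FL.Ini
import Pool.Agent.Lib.MP_8f66f0_al_FL.FinS
import Pool.Agent.Lib.MP_8f66f0_al_FL.AB
import Pool.Agent.Lib.MP_8f66f0_al_FL.L1
import Pool.Agent.Lib.MP_8f66f0_al_FL.Psi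
import Pool.Agent.Lib.MP_8f66f0_al_FL.SE
import Pool.Agent.Lib.MP_8f66f0_al_FL.Bc
import Pool.Agent.Lib.MP_8f66f0_al_FL.MK
import Pool.Agent.Lib.MP_8f66f0_al_FL.HomU
import Pool.Agent.Lib.MP_8f66f0_al_FL.Fl
import Pool.Agent.Lib.MP_8f66f0_al_FL.End0

/-!
# Project GLn, part D: assembly

The exports of part D without hypotheses: `pE : S_E` (Lemma E), `pM1K : S_M1K`, `pM2K : S_M2K`,
`pHom : S_hom`, `pEnd0 : S_end0`, `bc : S_bc`, `fl : S_fl`.
-/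

set_option autoImplicit false

namespace Pool.Agent.FL

theorem pIdx : S_idx := idx

theorem pSpc : S_spc := spc monc

theorem pGen1 : S_gen1 := gen1 lad pIdx bal

theorem pGenf : S_genf := genf lad

theorem pExt : S_extL := extL conjL extC

theorem pM1 : S_M1 := M1 uniL lad pGen1 pGenf pSpc

theorem pTriv1 : S_triv1 := triv1 pIdx bal spe monc

theorem pTrivf : S_trivf := trivf lad pM1 spe

theorem pM2 : S_M2 := M2 pExt lad pGen1 pGenf pSpc pTriv1 pTrivf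

theorem pIni : S_ini := ini fin0 mon0

/-- Lemma E. -/
theorem pE : S_E := sE lad kzL (ab fs) (l1 fs) psi

theorem pM1K : S_M1K := M1K pM1

theorem pM2K : S_M2K := M2K pM2 pIni pE

theorem pHom : S_hom := homU pM1K

theorem pEnd0 : S_end0 := end0 pM1K fl

theorem pBc : S_bc := bc

theorem pFl : S_fl := fl

end Pool.Agent.FL
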