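import Pool.Agent.Lib.MP_8f66f0_al_TQ.Ker

/-!
# Column finite matrices

`CF Ω A` is the ring of the column finite matrices with rows and columns indexed by `Ω` over the ring
`A`, the ring of endomorphisms of the free right `A`-module `Ω →₀ A`. The entry in the row `y` and the
column `x` is `ent T y x`, and `ent (T * U) y x = ∑ ent T y v * ent U v x`. The names are those of
`MP_8f66f0_al_TQ/Ker.lean` (row and column finite matrices), without the finiteness of the rows.
-/

set_option autoImplicit false

namespace Pool.Agent.FL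

open Finsupp
open Pool.Agent.TQ (entE entE_apply entE_mul entE_ext)

/-- The ring of column finite matrices. -/
def CF (Ω A : Type) [Ring A] : Type := Module.End Aᵐᵒᵖ (Ω →₀ A)

noncomputable instance (Ω A : Type) [Ring A] : Ring (CF Ω A) :=
  inferInstanceAs (Ring (Module.End Aᵐᵒᵖ (Ω →₀ A)))

section Ent

variable {Ω A : Type} [Ring A]

/-- The entry of a column finite matrix in the row `y` and the column `x`. -/
noncomputable def ent (T : CF Ω A) (y x : Ω) : A :=
  entE (show Module.End Aᵐᵒᵖ (Ω →₀ A) from T) y x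

theorem ent_ext {T U : CF Ω A} (h : ∀ y x, ent T y x = ent U y x) : T = U := entE_ext h

theorem ent_col (T : CF Ω A) (x : Ω) : {y | ent T y x ≠ 0}.Finite :=
  Set.Finite.subset ((show Module.End Aᵐᵒᵖ (Ω →₀ A) from T) (single x 1)).support.finite_toSet
    fun y hy => by simpa [ent, entE] using hy

theorem ent_add (T U : CF Ω A) (y x : Ω) : ent (T + U) y x = ent T y x + ent U y x := rfl

theorem ent_sub (T U : CF Ω A) (y x : Ω) : ent (T - U) y x = ent T y x - ent U y x := rfl

theorem ent_neg (T : CF Ω A) (y x : Ω) : ent (-T) y x = - ent T y x := rfl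

theorem ent_zero (y x : Ω) : ent (0 : CF Ω A) y x = 0 := rfl

theorem ent_one [DecidableEq Ω] (y x : Ω) : ent (1 : CF Ω A) y x = if y = x then 1 else 0 := by
  have : ent (1 : CF Ω A) y x = (single x 1 : Ω →₀ A) y := rfl
  rw [this, Finsupp.single_apply]
  simp only [eq_comm]

/-- The product: the sum may be taken over any finite set which contains the rows of the column `x` of
`U` with non-zero entry. -/
theorem ent_mul_col (T U : CF Ω A) (y x : Ω) (s : Finset Ω) (hs : ∀ v, ent U v x ≠ 0 → v ∈ s) :
    ent (T * U) y x = ∑ v ∈ s, ent T y v * ent U v x := by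
  classical
  have h1 : ent (T * U) y x = ((show Module.End Aᵐᵒᵖ (Ω →₀ A) from U) (single x 1)).sum
      fun v a => ent T y v * a := entE_mul (A := A) T U y x
  rw [h1, Finsupp.sum]
  refine (Finset.sum_subset (fun v hv => hs v ?_) fun v _ hv => ?_)
  · simpa [ent, entE] using hv
  · have : ((show Module.End Aᵐᵒᵖ (Ω →₀ A) from U) (single x 1)) v = 0 := by simpa using hv
    rw [this, mul_zero]

/-- The product, for a finite set which contains the columns of the row `y` of `T` with non-zero entry
(if there is one). -/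
theorem ent_mul_row (T U : CF Ω A) (y x : Ω) (s : Finset Ω) (hs : ∀ v, ent T y v ≠ 0 → v ∈ s) :
    ent (T * U) y x = ∑ v ∈ s, ent T y v * ent U v x := by
  classical
  rw [ent_mul_col T U y x (s ∪ (ent_col U x).toFinset) fun v hv => by
    rw [Finset.mem_union, Set.Finite.mem_toFinset]; exact Or.inr hv]
  refine (Finset.sum_subset Finset.subset_union_left fun v _ hv => ?_).symm
  have : ent T y v = 0 := by
    by_contra h
    exact hv (hs v h)
  rw [this, zero_mul]

theorem exists_of_ent_mul {T U : CF Ω A} {y x : Ω} (h : ent (T * U) y x ≠ 0) :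
    ∃ v, ent T y v * ent U v x ≠ 0 := by
  rw [ent_mul_col T U y x (ent_col U x).toFinset fun v hv => by
    rw [Set.Finite.mem_toFinset]; exact hv] at h
  obtain ⟨v, _, hv⟩ := Finset.exists_ne_zero_of_sum_ne_zero h
  exact ⟨v, hv⟩

/-- The column finite matrix with given entries. -/
theorem exists_ent (a : Ω → Ω → A) (hc : ∀ x, {y | a y x ≠ 0}.Finite) :
    ∃ T : CF Ω A, ∀ y x, ent T y x = a y x := by
  classical
  let c : Ω → (Ω →₀ A) := fun x => Finsupp.onFinset (hc x).toFinset (fun y => a y x) fun y hy => by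
    rw [Set.Finite.mem_toFinset]; exact hy
  let T : Module.End Aᵐᵒᵖ (Ω →₀ A) :=
    { toFun := fun f => f.sum fun x b => MulOpposite.op b • c x
      map_add' := fun f g => by
        rw [Finsupp.sum_add_index']
        · intro x; simp
        · intro x b b'; rw [MulOpposite.op_add, add_smul]
      map_smul' := fun b f => by
        rw [Finsupp.sum_smul_index' (by intro x; simp), RingHom.id_apply, Finsupp.smul_sum]
        refine Finsupp.sum_congr fun x _ => ?_
        rw [← mul_smul]
        congr 1 }
  refine ⟨T, fun y x => ?_⟩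
  have h1 : T (single x 1) = MulOpposite.op (1 : A) • c x := by
    change (single x (1 : A)).sum (fun x b => MulOpposite.op b • c x) = _
    rw [Finsupp.sum_single_index (by simp)]
  rw [ent, entE, h1, MulOpposite.op_one, one_smul]
  rfl

/-- The column finite matrix with given entries. -/
noncomputable def mkK (a : Ω → Ω → A) (hc : ∀ x, {y | a y x ≠ 0}.Finite) : CF Ω A :=
  (exists_ent a hc).choose

theorem ent_mkK (a : Ω → Ω → A) (hc : ∀ x, {y | a y x ≠ 0}.Finite) (y x : Ω) :
    ent (mkK a hc) y x = a y x :=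
  (exists_ent a hc).choose_spec y x

end Ent

section Gr

variable {Ω L Γ : Type} [CommRing L] [Group Γ]

/-- The coefficient of `g` in the entry in the row `y` and the column `x`. -/
noncomputable def cf (T : CF Ω (MonoidAlgebra L Γ)) (g : Γ) (y x : Ω) : L := (ent T y x).coeff g

theorem cf_ext {T U : CF Ω (MonoidAlgebra L Γ)} (h : ∀ g y x, cf T g y x = cf U g y x) : T = U :=
  ent_ext fun y x => MonoidAlgebra.ext (Finsupp.ext fun g => h g y x)

theorem cf_ne_of_ne {T : CF Ω (MonoidAlgebra L Γ)} {g : Γ} {y x : Ω} (h : cf T g y x ≠ 0) :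
    ent T y x ≠ 0 := by
  intro h0
  exact h (by rw [cf, h0]; rfl)

theorem cf_add (T U : CF Ω (MonoidAlgebra L Γ)) (g : Γ) (y x : Ω) :
    cf (T + U) g y x = cf T g y x + cf U g y x := by
  rw [cf, ent_add, MonoidAlgebra.coeff_add]
  rfl

theorem cf_neg (T : CF Ω (MonoidAlgebra L Γ)) (g : Γ) (y x : Ω) :
    cf (-T) g y x = - cf T g y x := by
  have h := cf_add (-T) T g y x
  rw [neg_add_cancel] at h
  have h0 : cf (0 : CF Ω (MonoidAlgebra L Γ)) g y x = 0 := by
    rw [cf, ent_zero, MonoidAlgebra.coeff_zero]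
    rfl
  rw [h0] at h
  exact eq_neg_of_add_eq_zero_left h.symm

theorem cf_sub (T U : CF Ω (MonoidAlgebra L Γ)) (g : Γ) (y x : Ω) :
    cf (T - U) g y x = cf T g y x - cf U g y x := by
  rw [sub_eq_add_neg, cf_add, cf_neg, sub_eq_add_neg]

theorem cf_zero (g : Γ) (y x : Ω) : cf (0 : CF Ω (MonoidAlgebra L Γ)) g y x = 0 := by
  rw [cf, ent_zero, MonoidAlgebra.coeff_zero]
  rfl

theorem cf_one_ne {g : Γ} {y x : Ω} (h : cf (1 : CF Ω (MonoidAlgebra L Γ)) g y x ≠ 0) :
    g = 1 ∧ y = x := by
  classical
  rw [cf, ent_one] at h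
  by_cases hyx : y = x
  · refine ⟨?_, hyx⟩
    rw [if_pos hyx] at h
    by_contra hg
    refine h ?_
    rw [MonoidAlgebra.one_def, MonoidAlgebra.coeff_single, Finsupp.single_apply,
      if_neg (fun h => hg h.symm)]
  · rw [if_neg hyx, MonoidAlgebra.coeff_zero] at h
    exact absurd rfl h

theorem cf_one_mem {P : Submodule ℤ L} (hP : (1 : L) ∈ P) (g : Γ) (y x : Ω) :
    cf (1 : CF Ω (MonoidAlgebra L Γ)) g y x ∈ P := by
  classical
  rw [cf, ent_one]
  split_ifs
  · rw [MonoidAlgebra.one_def, MonoidAlgebra.coeff_single, Finsupp.single_apply]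
    split_ifs
    · exact hP
    · exact P.zero_mem
  · rw [MonoidAlgebra.coeff_zero]
    exact P.zero_mem

/-- A non-zero coefficient of a product comes from non-zero coefficients of the factors. -/
theorem exists_of_cf_mul {T U : CF Ω (MonoidAlgebra L Γ)} {g : Γ} {y x : Ω}
    (h : cf (T * U) g y x ≠ 0) :
    ∃ (v : Ω) (k l : Γ), k * l = g ∧ cf T k y v ≠ 0 ∧ cf U l v x ≠ 0 := by
  classical
  obtain ⟨v, k, l, hkl, h1, h2⟩ : ∃ (v : Ω) (k l : Γ), k * l = g ∧
      (ent T y v).coeff k * (ent U v x).coeff l ≠ 0 ∧ True := by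
    by_contra hcon
    push Not at hcon
    refine h ?_
    rw [cf, ent_mul_col T U y x (ent_col U x).toFinset fun v hv => by
      rw [Set.Finite.mem_toFinset]; exact hv, MonoidAlgebra.coeff_sum, Finsupp.finsetSum_apply]
    refine Finset.sum_eq_zero fun v _ => ?_
    rw [MonoidAlgebra.coeff_mul, Finsupp.sum]
    refine Finset.sum_eq_zero fun k _ => ?_
    rw [Finsupp.sum]
    refine Finset.sum_eq_zero fun l _ => ?_
    by_cases hkl : k * l = g
    · rw [if_pos hkl]
      by_contra hne
      exact hcon v k l hkl hne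
    · rw [if_neg hkl]
  exact ⟨v, k, l, hkl, left_ne_zero_of_mul h1, right_ne_zero_of_mul h1⟩

end Gr

end Pool.Agent.FL
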