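import Pool.Agent.Lib.MP_8f66f0_al_FL.SpecR
import Pool.Agent.Lib.MP_8f66f0_al_Wald.K1Lem

/-!
# Conjugation invariance of relative invariants, left local units
-/

set_option autoImplicit false

namespace Pool.Agent.FL

open Pool.Agent.Wald Matrix
open Pool.Agent.CC (KR Cg)

section

variable {R : Type} [Ring R] {J : Ideal R} {K : Type} [CommGroup K]

private theorem conj_refl {m n : Type} (A : Matrix m n R) : Cg J A A := fun i j => by
  rw [sub_self]
  exact J.zero_mem

private theorem conj_blocks {n m : Type} {A A' : Matrix n n R}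
    {B B' : Matrix n m R} {C C' : Matrix m n R} {D D' : Matrix m m R} (hA : Cg J A A')
    (hB : Cg J B B') (hC : Cg J C C') (hD : Cg J D D') :
    Cg J (fromBlocks A B C D) (fromBlocks A' B' C' D') := by
  rintro (i | i) (j | j)
  · exact hA i j
  · exact hB i j
  · exact hC i j
  · exact hD i j

private theorem conj_f_one (κ : KR R J K) {n : Type} [Fintype n] [DecidableEq n] :
    κ.f (1 : Matrix n n R) = 1 := by
  have h := κ.mul (1 : Matrix n n R) 1 isUnit_one isUnit_one (conj_refl _) (conj_refl _)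
  rw [one_mul] at h
  exact mul_left_cancel (a := κ.f (1 : Matrix n n R)) (by rw [mul_one]; exact h.symm)

private theorem conj_lower (κ : KR R J K) {n m : Type} [Fintype n] [DecidableEq n] [Fintype m]
    [DecidableEq m] (C : Matrix m n R) (hC : Cg J C 0) :
    κ.f (fromBlocks (1 : Matrix n n R) 0 C (1 : Matrix m m R)) = 1 := by
  have h1 : (fromBlocks (1 : Matrix m m R) C 0 (1 : Matrix n n R)).submatrix
      (Equiv.sumComm n m) (Equiv.sumComm n m) = fromBlocks 1 0 C 1 := by
    ext (i | i) (j | j) <;> rfl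
  have hcg : Cg J (fromBlocks (1 : Matrix m m R) C 0 (1 : Matrix n n R)) 1 := by
    rw [← fromBlocks_one]
    exact conj_blocks (conj_refl _) hC (conj_refl _) (conj_refl _)
  have h2 := κ.reindex (Equiv.sumComm m n) (fromBlocks (1 : Matrix m m R) C 0 (1 : Matrix n n R))
    (K1Fun.isUnit_tri C isUnit_one isUnit_one) hcg
  rw [Equiv.sumComm_symm, h1] at h2
  rw [h2, κ.tri 1 C 1 isUnit_one isUnit_one (conj_refl _) hC (conj_refl _), conj_f_one,
    conj_f_one, one_mul]

private theorem conj_swap (κ : KR R J K) {n m : Type} [Fintype n] [DecidableEq n] [Fintype m]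
    [DecidableEq m] (A : Matrix n m R) (B : Matrix m n R) (hA : Cg J A 0) (hB : Cg J B 0)
    (h1 : IsUnit (1 + A * B)) (h2 : IsUnit (1 + B * A)) (g1 : Cg J (1 + A * B) 1)
    (g2 : Cg J (1 + B * A) 1) : κ.f (1 + A * B) = κ.f (1 + B * A) := by
  have hB' : Cg J (-B) 0 := fun i j => by
    have := J.neg_mem (hB i j)
    simpa using this
  have key : fromBlocks (1 : Matrix n n R) 0 (-B) (1 : Matrix m m R) *
      fromBlocks (1 : Matrix n n R) A 0 (1 + B * A) =
      fromBlocks (1 + A * B) A 0 (1 : Matrix m m R) *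
        fromBlocks (1 : Matrix n n R) 0 (-B) (1 : Matrix m m R) := by
    rw [fromBlocks_multiply, fromBlocks_multiply]
    simp
  have u1 : IsUnit (fromBlocks (1 : Matrix n n R) 0 (-B) (1 : Matrix m m R)) :=
    K1Fun.isUnit_lower (-B) isUnit_one isUnit_one
  have c1 : Cg J (fromBlocks (1 : Matrix n n R) 0 (-B) (1 : Matrix m m R)) 1 := by
    rw [← fromBlocks_one]
    exact conj_blocks (conj_refl _) (conj_refl _) hB' (conj_refl _)
  have c2 : Cg J (fromBlocks (1 : Matrix n n R) A 0 (1 + B * A)) 1 := by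
    rw [← fromBlocks_one]
    exact conj_blocks (conj_refl _) hA (conj_refl _) g2
  have c3 : Cg J (fromBlocks (1 + A * B) A 0 (1 : Matrix m m R)) 1 := by
    rw [← fromBlocks_one]
    exact conj_blocks g1 hA (conj_refl _) (conj_refl _)
  have h3 := congrArg κ.f key
  rw [κ.mul _ _ u1 (K1Fun.isUnit_tri A isUnit_one h2) c1 c2,
    κ.mul _ _ (K1Fun.isUnit_tri A h1 isUnit_one) u1 c3 c1, conj_lower κ _ hB',
    κ.tri _ _ _ isUnit_one h2 (conj_refl _) hA g2, κ.tri _ _ _ h1 isUnit_one g1 hA (conj_refl _),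
    conj_f_one, conj_f_one, one_mul, one_mul, mul_one, mul_one] at h3
  exact h3.symm

/-- `1 + B A` is invertible if `1 + A B` is. -/
private theorem conj_unit {n : Type} [Fintype n] [DecidableEq n] (A B : Matrix n n R)
    (h : IsUnit (1 + A * B)) : IsUnit (1 + B * A) := by
  have h1 : IsUnit (1 - -A * B) := by
    rw [Matrix.neg_mul, sub_neg_eq_add]
    exact h
  have h2 := (sameK_swap (-A) B h1).1
  rwa [Matrix.mul_neg, sub_neg_eq_add] at h2

private theorem conj_cg_mul {n : Type} [Fintype n] [DecidableEq n] [J.IsTwoSided]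
    (A B : Matrix n n R) (hA : Cg J A 0) : Cg J (1 + A * B) 1 := by
  intro i j
  rw [Matrix.add_apply, add_sub_cancel_left, Matrix.mul_apply]
  refine J.sum_mem fun k _ => J.mul_mem_right _ ?_
  have := hA i k
  rwa [Matrix.zero_apply, sub_zero] at this

end

theorem conjL : S_conjL := by
  classical
  intro R _ J _ K _ κ hLU n _ _ g g' z hgg' hg'g hz hcz
  obtain ⟨e, heJ, hee, he⟩ := hLU
    (Finset.univ.image fun p : n × n => z p.1 p.2 - (1 : Matrix n n R) p.1 p.2) (by
      intro x hx
      obtain ⟨p, -, rfl⟩ := Finset.mem_image.1 hx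
      exact hcz p.1 p.2)
  have he' : ∀ i j, e * (z - 1) i j = (z - 1) i j := fun i j =>
    he _ (Finset.mem_image.2 ⟨(i, j), Finset.mem_univ _, rfl⟩)
  set c : Matrix n n R := z - 1 with hc
  set E : Matrix n n R := Matrix.diagonal fun _ => e with hE
  have hEc : E * c = c := by
    ext i j
    rw [hE, Matrix.diagonal_mul]
    exact he' i j
  have hEJ : Cg J E 0 := by
    intro i j
    rw [Matrix.zero_apply, sub_zero, hE, Matrix.diagonal_apply]
    split_ifs
    · exact heJ
    · exact J.zero_mem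
  have hcJ : Cg J c 0 := by
    intro i j
    rw [Matrix.zero_apply, sub_zero]
    exact hcz i j
  have key : ∀ h h' : Matrix n n R, h * h' = 1 → h' * h = 1 →
      κ.f (h * z * h') = κ.f (1 + c * E) := by
    intro h h' hh hh'
    have hab : h * z * h' = 1 + (h * E) * (c * h') := by
      have h1 : (h * E) * (c * h') = h * c * h' := by
        rw [Matrix.mul_assoc h E, ← Matrix.mul_assoc E c, hEc, ← Matrix.mul_assoc]
      rw [h1, hc, Matrix.mul_sub, Matrix.sub_mul, Matrix.mul_one, hh]
      abel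
    have hba : (c * h') * (h * E) = c * E := by
      rw [Matrix.mul_assoc, ← Matrix.mul_assoc h', hh', Matrix.one_mul]
    have uh : IsUnit h := ⟨⟨h, h', hh, hh'⟩, rfl⟩
    have uh' : IsUnit h' := ⟨⟨h', h, hh', hh⟩, rfl⟩
    have ha : Cg J (h * E) 0 := by
      intro i j
      rw [Matrix.zero_apply, sub_zero, hE, Matrix.mul_diagonal]
      exact J.mul_mem_left _ heJ
    have hb : Cg J (c * h') 0 := by
      intro i j
      rw [Matrix.zero_apply, sub_zero, Matrix.mul_apply]
      exact J.sum_mem fun k _ => J.mul_mem_right _ (hcz i k)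
    have h1 : IsUnit (1 + (h * E) * (c * h')) := by
      rw [← hab]
      exact (uh.mul hz).mul uh'
    have h2 : IsUnit (1 + (c * h') * (h * E)) := conj_unit _ _ h1
    rw [hab, conj_swap κ _ _ ha hb h1 h2 (conj_cg_mul _ _ ha) (conj_cg_mul _ _ hb), hba]
  have k1 := key 1 1 (Matrix.one_mul 1) (Matrix.one_mul 1)
  rw [Matrix.one_mul, Matrix.mul_one] at k1
  rw [key g g' hgg' hg'g, k1]

end Pool.Agent.FL
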