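import Pool.Agent.Lib.MP_8f66f0_al_FL.Push

/-!
# Flag systems and their rings (project GLn)

A flag system `S` has objects `Y`. Every object `y` has a finite set `A y` of slots `(d, n)`, at most one
for every PHASE `d ≥ 1`: the phase `d` is alive at the time `h` if `h ≤ n`. `S.F h y` is the set of the
phases alive at the time `h` and `S.R h y` the largest one (`0` if there is none), the RANK of `y` at the
time `h`. Objects have a base label `base y : B` and labels `lab y d : C` (for the phases `d` of `y`);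
`B` and `C` are partially ordered sets with a monotone action of `Γ`. `re φ` changes the slots `(d, n)`
into `(d, φ d n)`, for strictly monotone `φ d`. There is no action of `Γ` on the objects.

* `U Γ k S`: the COLUMN finite matrices over `k[Γ]` with `Lab` (`g • base y ≤ base y'` on the support),
  `Far` (for all `h'` there is `h` such that the rank at the time `h` of the row is at most the rank at
  the time `h'` of the column, and if they are equal the labels satisfy `g • lab y d ≤ lab y' d`) and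
  `Cof` (the coefficients lie in a finitely generated additive group).
* `J Γ k S j`: the two-sided ideal of the matrices whose rows have, for some time `h`, rank at most `j`.
* `S.der d b`: the derived system; its objects are the `y` of rank `d` at the time `b`; the label `lab d`
  becomes part of the base label.
* `eps`: the inclusion `U (S.der d b) → U S` (extension by zero); it takes values in `J S d`.
* `S.Exact Γ d`: all objects have rank `d` at the time `0`, and the base labels determine the order of the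
  labels of the phase `d`.
-/

set_option autoImplicit false
set_option linter.unusedSectionVars false

namespace Pool.Agent.FL

/-- Monotone actions. -/
class OrdAct (Γ B : Type) [Group Γ] [PartialOrder B] [MulAction Γ B] : Prop where
  smul_le : ∀ (g : Γ) {a b : B}, a ≤ b → g • a ≤ g • b

instance {Γ B C : Type} [Group Γ] [PartialOrder B] [MulAction Γ B] [PartialOrder C] [MulAction Γ C]
    [OrdAct Γ B] [OrdAct Γ C] : OrdAct Γ (B × C) :=
  ⟨fun g {_ _} h => ⟨OrdAct.smul_le g h.1, OrdAct.smul_le g h.2⟩⟩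

/-- Changes of the slots. -/
def Gd (φ : ℕ → ℕ → ℕ) : Prop := ∀ d, StrictMono (φ d)

theorem Gd.le {φ : ℕ → ℕ → ℕ} (h : Gd φ) (d n : ℕ) : n ≤ φ d n := (h d).le_apply

theorem Gd.inj {φ : ℕ → ℕ → ℕ} (h : Gd φ) {d n n' : ℕ} (e : φ d n = φ d n') : n = n' :=
  (h d).injective e

theorem Gd.comp {φ ψ : ℕ → ℕ → ℕ} (h : Gd φ) (h' : Gd ψ) : Gd fun d n => φ d (ψ d n) :=
  fun d => (h d).comp (h' d)

theorem Gd.id : Gd fun _ n => n := fun _ => strictMono_id

/-- Flag systems. -/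
structure FSys (Y B C : Type) where
  /-- the slots -/
  A : Y → Finset (ℕ × ℕ)
  inj : ∀ y, ∀ s ∈ A y, ∀ t ∈ A y, s.1 = t.1 → s = t
  pos : ∀ y, ∀ s ∈ A y, 1 ≤ s.1
  fin : ∀ h : ℕ, {y | ∀ s ∈ A y, s.2 < h}.Finite
  /-- the base label -/
  base : Y → B
  /-- the labels of the phases -/
  lab : Y → ℕ → C
  /-- change of the slots -/
  re : (ℕ → ℕ → ℕ) → Y → Y
  A_re : ∀ φ, Gd φ → ∀ y, A (re φ y) = (A y).image fun s => (s.1, φ s.1 s.2)
  base_re : ∀ φ y, base (re φ y) = base y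
  lab_re : ∀ φ y, lab (re φ y) = lab y
  re_re : ∀ φ ψ, Gd φ → Gd ψ → ∀ y, re φ (re ψ y) = re (fun d n => φ d (ψ d n)) y
  re_congr : ∀ φ ψ, Gd φ → Gd ψ → ∀ y, (∀ s ∈ A y, φ s.1 s.2 = ψ s.1 s.2) → re φ y = re ψ y
  re_id : ∀ y, re (fun _ n => n) y = y
  re_inj : ∀ φ, Gd φ → Function.Injective (re φ)
  /-- objects with a phase `≥ 2` have partners with a long phase `1` -/
  ph1 : ∀ y, (∃ s ∈ A y, 2 ≤ s.1) → ∀ m, ∃ y', (∃ n, m ≤ n ∧ (1, n) ∈ A y') ∧
    (∀ s : ℕ × ℕ, 2 ≤ s.1 → (s ∈ A y' ↔ s ∈ A y)) ∧ base y' = base y ∧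
    ∀ d, 2 ≤ d → lab y' d = lab y d

namespace FSys

variable {Y B C : Type} (S : FSys Y B C)

/-- The set of the phases alive at the time `h`. -/
def F (h : ℕ) (y : Y) : Finset ℕ := ((S.A y).filter fun s => h ≤ s.2).image Prod.fst

theorem mem_F {h : ℕ} {y : Y} {d : ℕ} : d ∈ S.F h y ↔ ∃ n, (d, n) ∈ S.A y ∧ h ≤ n := by
  simp only [F, Finset.mem_image, Finset.mem_filter]
  constructor
  · rintro ⟨⟨o', n⟩, ⟨h1, h2⟩, rfl⟩
    exact ⟨n, h1, h2⟩
  · rintro ⟨n, h1, h2⟩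
    exact ⟨(d, n), ⟨h1, h2⟩, rfl⟩

theorem mem_F_zero {y : Y} {d : ℕ} : d ∈ S.F 0 y ↔ ∃ n, (d, n) ∈ S.A y := by
  rw [mem_F]
  exact ⟨fun ⟨n, h, _⟩ => ⟨n, h⟩, fun ⟨n, h⟩ => ⟨n, h, Nat.zero_le _⟩⟩

theorem F_anti {h h' : ℕ} (hh : h ≤ h') (y : Y) : S.F h' y ⊆ S.F h y := by
  intro d hd
  rw [mem_F] at hd ⊢
  obtain ⟨n, h1, h2⟩ := hd
  exact ⟨n, h1, le_trans hh h2⟩

theorem one_le_of_mem_F {h : ℕ} {y : Y} {d : ℕ} (hd : d ∈ S.F h y) : 1 ≤ d := by
  obtain ⟨n, h1, _⟩ := S.mem_F.1 hd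
  exact S.pos y _ h1

/-- The rank at the time `h`. -/
def R (h : ℕ) (y : Y) : ℕ := (S.F h y).sup id

theorem le_R {h : ℕ} {y : Y} {d : ℕ} (hd : d ∈ S.F h y) : d ≤ S.R h y :=
  Finset.le_sup (f := id) hd

theorem R_le {h : ℕ} {y : Y} {j : ℕ} : S.R h y ≤ j ↔ ∀ d ∈ S.F h y, d ≤ j := Finset.sup_le_iff

theorem R_anti {h h' : ℕ} (hh : h ≤ h') (y : Y) : S.R h' y ≤ S.R h y :=
  Finset.sup_mono (S.F_anti hh y)

theorem R_mem {h : ℕ} {y : Y} (hR : 1 ≤ S.R h y) : S.R h y ∈ S.F h y := by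
  have h1 : (S.F h y).Nonempty := by
    rw [Finset.nonempty_iff_ne_empty]
    intro h0
    rw [R, h0, Finset.sup_empty] at hR
    exact absurd hR (by decide)
  obtain ⟨d, hd, he⟩ := Finset.exists_mem_eq_sup (S.F h y) h1 id
  rw [R, he]
  exact hd

theorem R_eq_zero {h : ℕ} {y : Y} : S.R h y = 0 ↔ ∀ s ∈ S.A y, s.2 < h := by
  constructor
  · intro h0 s hs
    by_contra hc
    have h1 := S.le_R (S.mem_F.2 ⟨s.2, hs, not_lt.1 hc⟩)
    have h2 := S.pos y s hs
    omega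
  · intro h0
    by_contra hc
    obtain ⟨n, h1, h2⟩ := S.mem_F.1 (S.R_mem (Nat.one_le_iff_ne_zero.2 hc))
    have := h0 _ h1
    simp only at this
    omega

theorem R_zero_fin (h : ℕ) : {y | S.R h y = 0}.Finite := by
  refine (S.fin h).subset fun y hy => ?_
  exact S.R_eq_zero.1 hy

theorem exists_dead (y : Y) : ∃ h, S.R h y = 0 := by
  refine ⟨(S.A y).sup (fun s => s.2) + 1, S.R_eq_zero.2 fun s hs => ?_⟩
  exact Nat.lt_succ_of_le (Finset.le_sup (f := fun s : ℕ × ℕ => s.2) hs)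

theorem exists_height (T : Finset Y) : ∃ h, ∀ y ∈ T, S.R h y = 0 := by
  classical
  induction T using Finset.induction_on with
  | empty => exact ⟨0, fun y hy => absurd hy (Finset.notMem_empty y)⟩
  | insert y T _ ih =>
    obtain ⟨h, hh⟩ := ih
    obtain ⟨h', hh'⟩ := S.exists_dead y
    refine ⟨h ⊔ h', fun x hx => ?_⟩
    rcases Finset.mem_insert.1 hx with rfl | hx
    · exact Nat.le_zero.1 (le_trans (S.R_anti le_sup_right x) (le_of_eq hh'))
    · exact Nat.le_zero.1 (le_trans (S.R_anti le_sup_left x) (le_of_eq (hh x hx)))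

theorem mem_F_re {φ : ℕ → ℕ → ℕ} (hφ : Gd φ) {h : ℕ} {y : Y} {d : ℕ} :
    d ∈ S.F h (S.re φ y) ↔ ∃ n, (d, n) ∈ S.A y ∧ h ≤ φ d n := by
  rw [mem_F, S.A_re φ hφ]
  simp only [Finset.mem_image, Prod.mk.injEq, Prod.exists]
  constructor
  · rintro ⟨n, ⟨d', m, h1, rfl, rfl⟩, h2⟩
    exact ⟨m, h1, h2⟩
  · rintro ⟨m, h1, h2⟩
    exact ⟨φ d m, ⟨d, m, h1, rfl, rfl⟩, h2⟩

end FSys

section Ring

variable {Y B C Γ k : Type} [Group Γ] [PartialOrder B] [MulAction Γ B] [OrdAct Γ B]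
  [PartialOrder C] [MulAction Γ C] [OrdAct Γ C] [CommRing k]

/-- Base labels are respected. -/
def Lab (S : FSys Y B C) (z : CF Y (MonoidAlgebra k Γ)) : Prop :=
  ∀ g y' y, cf z g y' y ≠ 0 → g • S.base y ≤ S.base y'

/-- Comparison of the row `y'` at the time `h` with the column `y` at the time `h'`. -/
def Cmp (S : FSys Y B C) (h h' : ℕ) (g : Γ) (y' y : Y) : Prop :=
  S.R h y' ≤ S.R h' y ∧ (S.R h y' = S.R h' y → 1 ≤ S.R h y' →
    g • S.lab y (S.R h y') ≤ S.lab y' (S.R h y'))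

/-- The condition on ranks and labels. -/
def Far (S : FSys Y B C) (z : CF Y (MonoidAlgebra k Γ)) : Prop :=
  ∀ h' : ℕ, ∃ h : ℕ, ∀ g y' y, cf z g y' y ≠ 0 → Cmp S h h' g y' y

/-- The coefficients lie in a finitely generated additive group. -/
def Cof (z : CF Y (MonoidAlgebra k Γ)) : Prop :=
  ∃ P : Submodule ℤ k, P.FG ∧ ∀ g y' y, cf z g y' y ∈ P

theorem Cof.mul {a b : CF Y (MonoidAlgebra k Γ)} (ha : Cof a) (hb : Cof b) : Cof (a * b) := by
  obtain ⟨P, hP, h1⟩ := ha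
  obtain ⟨Q, hQ, h2⟩ := hb
  exact ⟨P * Q, hP.mul hQ, fun g y' y => cf_mul_mem _ g fun v k l =>
    Submodule.mul_mem_mul (h1 k y' v) (h2 l v y)⟩

theorem Cof.add {a b : CF Y (MonoidAlgebra k Γ)} (ha : Cof a) (hb : Cof b) : Cof (a + b) := by
  obtain ⟨P, hP, h1⟩ := ha
  obtain ⟨Q, hQ, h2⟩ := hb
  refine ⟨P ⊔ Q, hP.sup hQ, fun g y' y => ?_⟩
  rw [cf_add]
  exact Submodule.add_mem _ ((le_sup_left : P ≤ P ⊔ Q) (h1 g y' y))
    ((le_sup_right : Q ≤ P ⊔ Q) (h2 g y' y))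

theorem Cof.neg {a : CF Y (MonoidAlgebra k Γ)} (ha : Cof a) : Cof (-a) := by
  obtain ⟨P, hP, h1⟩ := ha
  refine ⟨P, hP, fun g y' y => ?_⟩
  rw [cf_neg]
  exact P.neg_mem (h1 g y' y)

theorem Cof.one : Cof (1 : CF Y (MonoidAlgebra k Γ)) :=
  ⟨Submodule.span ℤ {1}, Submodule.fg_span_singleton _, fun g y x =>
    cf_one_mem (Submodule.mem_span_singleton_self 1) g y x⟩

theorem Cof.zero : Cof (0 : CF Y (MonoidAlgebra k Γ)) :=
  ⟨⊥, Submodule.fg_bot, fun g y x => by rw [cf_zero]; exact Submodule.zero_mem _⟩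

theorem ne_or_ne_of_add {a b : k} (h : a + b ≠ 0) : a ≠ 0 ∨ b ≠ 0 := by
  by_contra hc
  push Not at hc
  exact h (by rw [hc.1, hc.2, add_zero])

theorem Lab.mul {S : FSys Y B C} {a b : CF Y (MonoidAlgebra k Γ)} (ha : Lab S a) (hb : Lab S b) :
    Lab S (a * b) := by
  intro g y' y h
  obtain ⟨v, r, l, rfl, h1, h2⟩ := exists_of_cf_mul h
  rw [mul_smul]
  exact le_trans (OrdAct.smul_le r (hb l v y h2)) (ha r y' v h1)

omit [OrdAct Γ B] in
theorem Lab.add {S : FSys Y B C} {a b : CF Y (MonoidAlgebra k Γ)} (ha : Lab S a) (hb : Lab S b) :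
    Lab S (a + b) := by
  intro g y' y h
  rw [cf_add] at h
  rcases ne_or_ne_of_add h with h | h
  · exact ha g y' y h
  · exact hb g y' y h

omit [OrdAct Γ B] in
theorem Lab.neg {S : FSys Y B C} {a : CF Y (MonoidAlgebra k Γ)} (ha : Lab S a) : Lab S (-a) := by
  intro g y' y h
  rw [cf_neg] at h
  exact ha g y' y (neg_ne_zero.1 h)

omit [OrdAct Γ B] in
theorem Lab.one (S : FSys Y B C) : Lab S (1 : CF Y (MonoidAlgebra k Γ)) := by
  intro g y' y h
  obtain ⟨rfl, rfl⟩ := cf_one_ne h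
  rw [one_smul]

omit [OrdAct Γ B] in
theorem Lab.zero (S : FSys Y B C) : Lab S (0 : CF Y (MonoidAlgebra k Γ)) := by
  intro g y' y h
  exact absurd (cf_zero g y' y) h

theorem Cmp.trans {S : FSys Y B C} {h h1 h' : ℕ} {r l : Γ} {y' v y : Y}
    (H1 : Cmp S h h1 r y' v) (H2 : Cmp S h1 h' l v y) : Cmp S h h' (r * l) y' y := by
  refine ⟨H1.1.trans H2.1, fun he hp => ?_⟩
  have e1 : S.R h y' = S.R h1 v := le_antisymm H1.1 (he ▸ H2.1)
  have e2 : S.R h1 v = S.R h' y := e1.symm.trans he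
  have a1 := H1.2 e1 hp
  have a2 := H2.2 e2 (e1 ▸ hp)
  rw [← e1] at a2
  rw [mul_smul]
  exact le_trans (OrdAct.smul_le r a2) a1

theorem Cmp.mono {S : FSys Y B C} {h h2 h' : ℕ} {g : Γ} {y' y : Y} (hh : h ≤ h2)
    (H : Cmp S h h' g y' y) : Cmp S h2 h' g y' y := by
  refine ⟨(S.R_anti hh y').trans H.1, fun he hp => ?_⟩
  have e1 : S.R h y' = S.R h' y := le_antisymm H.1 (he ▸ S.R_anti hh y')
  rw [he.trans e1.symm] at hp ⊢
  exact H.2 e1 hp

theorem Cmp.refl (S : FSys Y B C) (h : ℕ) (y : Y) : Cmp S h h (1 : Γ) y y :=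
  ⟨le_refl _, fun _ _ => by rw [one_smul]⟩

theorem Far.mul {S : FSys Y B C} {a b : CF Y (MonoidAlgebra k Γ)} (ha : Far S a) (hb : Far S b) :
    Far S (a * b) := by
  intro h'
  obtain ⟨h1, H1⟩ := hb h'
  obtain ⟨h2, H2⟩ := ha h1
  refine ⟨h2, fun g y' y h => ?_⟩
  obtain ⟨v, r, l, rfl, e1, e2⟩ := exists_of_cf_mul h
  exact (H2 r y' v e1).trans (H1 l v y e2)

theorem Far.add {S : FSys Y B C} {a b : CF Y (MonoidAlgebra k Γ)} (ha : Far S a) (hb : Far S b) :
    Far S (a + b) := by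
  intro h'
  obtain ⟨h1, H1⟩ := ha h'
  obtain ⟨h2, H2⟩ := hb h'
  refine ⟨h1 ⊔ h2, fun g y' y h => ?_⟩
  rw [cf_add] at h
  rcases ne_or_ne_of_add h with h | h
  · exact (H1 g y' y h).mono le_sup_left
  · exact (H2 g y' y h).mono le_sup_right

theorem Far.neg {S : FSys Y B C} {a : CF Y (MonoidAlgebra k Γ)} (ha : Far S a) : Far S (-a) := by
  intro h'
  obtain ⟨h, H⟩ := ha h'
  refine ⟨h, fun g y' y h1 => ?_⟩
  rw [cf_neg] at h1
  exact H g y' y (neg_ne_zero.1 h1)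

theorem Far.one (S : FSys Y B C) : Far S (1 : CF Y (MonoidAlgebra k Γ)) := by
  intro h'
  refine ⟨h', fun g y' y h => ?_⟩
  obtain ⟨rfl, rfl⟩ := cf_one_ne h
  exact Cmp.refl S h' _

theorem Far.zero (S : FSys Y B C) : Far S (0 : CF Y (MonoidAlgebra k Γ)) := by
  intro h'
  exact ⟨h', fun g y' y h => absurd (cf_zero g y' y) h⟩

variable (Γ k)

/-- The ring of a flag system. -/
def U (S : FSys Y B C) : Subring (CF Y (MonoidAlgebra k Γ)) where
  carrier := {z | Lab S z ∧ Far S z ∧ Cof z}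
  mul_mem' ha hb := ⟨ha.1.mul hb.1, ha.2.1.mul hb.2.1, ha.2.2.mul hb.2.2⟩
  one_mem' := ⟨Lab.one S, Far.one S, Cof.one⟩
  add_mem' ha hb := ⟨ha.1.add hb.1, ha.2.1.add hb.2.1, ha.2.2.add hb.2.2⟩
  zero_mem' := ⟨Lab.zero S, Far.zero S, Cof.zero⟩
  neg_mem' ha := ⟨ha.1.neg, ha.2.1.neg, ha.2.2.neg⟩

variable {Γ k}

/-- The rows of the support have rank at most `j`, for some time. -/
def Low (S : FSys Y B C) (j : ℕ) (z : CF Y (MonoidAlgebra k Γ)) : Prop :=
  ∃ h : ℕ, ∀ g y' y, cf z g y' y ≠ 0 → S.R h y' ≤ j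

theorem Low.mul_left {S : FSys Y B C} {j : ℕ} {a b : CF Y (MonoidAlgebra k Γ)} (ha : Far S a)
    (hb : Low S j b) : Low S j (a * b) := by
  obtain ⟨h, H⟩ := hb
  obtain ⟨h1, H1⟩ := ha h
  refine ⟨h1, fun g y' y h2 => ?_⟩
  obtain ⟨v, r, l, rfl, e1, e2⟩ := exists_of_cf_mul h2
  exact (H1 r y' v e1).1.trans (H l v y e2)

theorem Low.mul_right {S : FSys Y B C} {j : ℕ} {a b : CF Y (MonoidAlgebra k Γ)}
    (ha : Low S j a) : Low S j (a * b) := by
  obtain ⟨h, H⟩ := ha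
  refine ⟨h, fun g y' y h2 => ?_⟩
  obtain ⟨v, r, l, rfl, e1, e2⟩ := exists_of_cf_mul h2
  exact H r y' v e1

theorem Low.add {S : FSys Y B C} {j : ℕ} {a b : CF Y (MonoidAlgebra k Γ)} (ha : Low S j a)
    (hb : Low S j b) : Low S j (a + b) := by
  obtain ⟨h1, H1⟩ := ha
  obtain ⟨h2, H2⟩ := hb
  refine ⟨h1 ⊔ h2, fun g y' y h => ?_⟩
  rw [cf_add] at h
  rcases ne_or_ne_of_add h with h | h
  · exact (S.R_anti le_sup_left y').trans (H1 g y' y h)
  · exact (S.R_anti le_sup_right y').trans (H2 g y' y h)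

variable (Γ k)

/-- The ideal of the matrices whose rows have rank at most `j`. -/
def J (S : FSys Y B C) (j : ℕ) : Ideal (U Γ k S) where
  carrier := {z | Low S j z.1}
  add_mem' ha hb := Low.add ha hb
  zero_mem' := ⟨0, fun g y' y h => absurd (cf_zero g y' y) h⟩
  smul_mem' c z hz := Low.mul_left c.2.2.1 hz

instance (S : FSys Y B C) (j : ℕ) : (J Γ k S j).IsTwoSided where
  mul_mem_of_left _ ha := Low.mul_right ha

variable {Γ k}

theorem mem_J {S : FSys Y B C} {j : ℕ} {z : U Γ k S} : z ∈ J Γ k S j ↔ Low S j z.1 := Iff.rfl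

theorem J_mono (S : FSys Y B C) {j j' : ℕ} (h : j ≤ j') : J Γ k S j ≤ J Γ k S j' := by
  rintro z ⟨h1, H⟩
  exact ⟨h1, fun g y' y h2 => (H g y' y h2).trans h⟩

variable (Γ) in
/-- Exact systems. -/
def FSys.Exact (S : FSys Y B C) (d : ℕ) : Prop :=
  (∀ y, S.R 0 y = d) ∧ ∀ (g : Γ) (y y' : Y), g • S.base y ≤ S.base y' →
    g • S.lab y d ≤ S.lab y' d

end Ring

section Der

variable {Y B C : Type} (S : FSys Y B C) (d : ℕ) (b : ℕ)

/-- A change of slots which only moves the slots of the phases alive at the time `b`. -/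
def shf (φ : ℕ → ℕ → ℕ) : ℕ → ℕ → ℕ := fun i n => if n < b then n else b + φ i (n - b)

theorem shf_gd {φ : ℕ → ℕ → ℕ} (hφ : Gd φ) : Gd (shf b φ) := by
  intro i n n' hn
  unfold shf
  by_cases h1 : n < b
  · by_cases h2 : n' < b
    · rw [if_pos h1, if_pos h2]
      exact hn
    · rw [if_pos h1, if_neg h2]
      omega
  · rw [if_neg h1, if_neg (by omega)]
    exact Nat.add_lt_add_left (hφ i (by omega)) b

theorem F_re_shf {φ : ℕ → ℕ → ℕ} (hφ : Gd φ) (y : Y) : S.F b (S.re (shf b φ) y) = S.F b y := by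
  ext i
  rw [S.mem_F_re (shf_gd b hφ), S.mem_F]
  constructor
  · rintro ⟨n, h1, h2⟩
    refine ⟨n, h1, ?_⟩
    unfold shf at h2
    split_ifs at h2 <;> omega
  · rintro ⟨n, h1, h2⟩
    refine ⟨n, h1, ?_⟩
    unfold shf
    split_ifs <;> omega

theorem R_re_shf {φ : ℕ → ℕ → ℕ} (hφ : Gd φ) (y : Y) : S.R b (S.re (shf b φ) y) = S.R b y := by
  rw [FSys.R, F_re_shf S b hφ]
  rfl

open Classical in
/-- The derived system. -/
noncomputable def FSys.der : FSys {y : Y // S.R b y = d} (B × C) C where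
  A y := ((S.A y.1).filter fun s => b ≤ s.2).image fun s => (s.1, s.2 - b)
  inj := by
    intro y s hs t ht hst
    rw [Finset.mem_image] at hs ht
    obtain ⟨s', hs', rfl⟩ := hs
    obtain ⟨t', ht', rfl⟩ := ht
    rw [S.inj y.1 s' (Finset.mem_filter.1 hs').1 t' (Finset.mem_filter.1 ht').1 hst]
  pos := by
    intro y s hs
    rw [Finset.mem_image] at hs
    obtain ⟨s', hs', rfl⟩ := hs
    exact S.pos y.1 s' (Finset.mem_filter.1 hs').1
  fin := by
    intro h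
    refine Set.Finite.subset ((S.fin (b + h)).preimage Subtype.val_injective.injOn)
      fun y hy s hs => ?_
    by_contra hc
    have h1 := hy (s.1, s.2 - b) (Finset.mem_image.2 ⟨s, Finset.mem_filter.2 ⟨hs, by omega⟩, rfl⟩)
    simp only at h1
    omega
  base y := (S.base y.1, S.lab y.1 d)
  lab y := S.lab y.1
  re φ y := if hφ : Gd φ then ⟨S.re (shf b φ) y.1, by rw [R_re_shf S b hφ]; exact y.2⟩ else y
  A_re := by
    intro φ hφ y
    rw [dif_pos hφ]
    ext ⟨i, n⟩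
    simp only [S.A_re _ (shf_gd b hφ), Finset.mem_image, Finset.mem_filter, Prod.exists,
      Prod.mk.injEq]
    constructor
    · rintro ⟨i, a, ⟨⟨i', c, h1, rfl, rfl⟩, h2⟩, rfl, rfl⟩
      have hb : b ≤ c := by
        unfold shf at h2
        split_ifs at h2 <;> omega
      refine ⟨i', c - b, ⟨i', c, ⟨h1, hb⟩, rfl, rfl⟩, rfl, ?_⟩
      unfold shf
      rw [if_neg (by omega)]
      omega
    · rintro ⟨i, a, ⟨i', c, ⟨h1, h2⟩, rfl, rfl⟩, rfl, rfl⟩
      refine ⟨i', shf b φ i' c, ⟨⟨i', c, h1, rfl, rfl⟩, ?_⟩, rfl, ?_⟩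
      · unfold shf
        split_ifs <;> omega
      · unfold shf
        rw [if_neg (by omega)]
        omega
  base_re := by
    intro φ y
    split_ifs with hφ
    · exact Prod.ext (S.base_re _ _) (congrFun (S.lab_re _ _) d)
    · rfl
  lab_re := by
    intro φ y
    split_ifs with hφ
    · exact S.lab_re _ _
    · rfl
  re_re := by
    intro φ ψ hφ hψ y
    rw [dif_pos hφ, dif_pos hψ, dif_pos (hφ.comp hψ)]
    refine Subtype.ext ?_
    change S.re _ (S.re _ y.1) = S.re _ y.1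
    rw [S.re_re _ _ (shf_gd b hφ) (shf_gd b hψ)]
    refine congrFun (congrArg S.re ?_) y.1
    funext i n
    change shf b φ i (shf b ψ i n) = shf b (fun i n => φ i (ψ i n)) i n
    unfold shf
    by_cases hn : n < b
    · simp only [if_pos hn]
    · simp only [if_neg hn]
      rw [if_neg (by omega)]
      congr 2
      omega
  re_congr := by
    intro φ ψ hφ hψ y hy
    rw [dif_pos hφ, dif_pos hψ]
    refine Subtype.ext (S.re_congr _ _ (shf_gd b hφ) (shf_gd b hψ) _ fun s hs => ?_)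
    unfold shf
    by_cases hn : s.2 < b
    · rw [if_pos hn, if_pos hn]
    · rw [if_neg hn, if_neg hn]
      have := hy (s.1, s.2 - b) (Finset.mem_image.2 ⟨s, Finset.mem_filter.2
        ⟨hs, by omega⟩, rfl⟩)
      exact congrArg _ this
  re_id := by
    intro y
    rw [dif_pos Gd.id]
    refine Subtype.ext ?_
    change S.re _ y.1 = y.1
    conv_rhs => rw [← S.re_id y.1]
    refine S.re_congr _ _ (shf_gd b Gd.id) Gd.id _ fun s _ => ?_
    change (if s.2 < b then s.2 else b + (s.2 - b)) = s.2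
    split_ifs
    · rfl
    · omega
  re_inj := by
    intro φ hφ y y' h
    simp only [dif_pos hφ] at h
    exact Subtype.ext (S.re_inj _ (shf_gd b hφ) (congrArg Subtype.val h))
  ph1 := by
    rintro y ⟨s, hs, hs2⟩ m
    rw [Finset.mem_image] at hs
    obtain ⟨s', hs', rfl⟩ := hs
    rw [Finset.mem_filter] at hs'
    have hd : 2 ≤ d := by
      rw [← y.2]
      exact le_trans hs2 (S.le_R (S.mem_F.2 ⟨s'.2, hs'.1, hs'.2⟩))
    obtain ⟨y', ⟨n, hn, h1⟩, h2, h3, h4⟩ := S.ph1 y.1 ⟨s', hs'.1, hs2⟩ (b + m)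
    have hR : S.R b y' = d := by
      refine le_antisymm (S.R_le.2 fun i hi => ?_) ?_
      · obtain ⟨a, h5, h6⟩ := S.mem_F.1 hi
        by_cases hi2 : 2 ≤ i
        · rw [← y.2]
          exact S.le_R (S.mem_F.2 ⟨a, (h2 (i, a) hi2).1 h5, h6⟩)
        · omega
      · have h5 : d ∈ S.F b y.1 := by
          have := S.R_mem (h := b) (y := y.1) (by rw [y.2]; omega)
          rwa [y.2] at this
        obtain ⟨a, h6, h7⟩ := S.mem_F.1 h5
        exact S.le_R (S.mem_F.2 ⟨a, (h2 (d, a) hd).2 h6, h7⟩)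
    refine ⟨⟨y', hR⟩, ⟨n - b, by omega, ?_⟩, fun t ht => ?_, ?_, fun i hi => h4 i hi⟩
    · exact Finset.mem_image.2 ⟨(1, n), Finset.mem_filter.2 ⟨h1, by simp only; omega⟩, rfl⟩
    · simp only [Finset.mem_image, Finset.mem_filter]
      constructor
      · rintro ⟨u, ⟨h5, h6⟩, rfl⟩
        exact ⟨u, ⟨(h2 u ht).1 h5, h6⟩, rfl⟩
      · rintro ⟨u, ⟨h5, h6⟩, rfl⟩
        exact ⟨u, ⟨(h2 u ht).2 h5, h6⟩, rfl⟩
    · exact Prod.ext h3 (h4 d hd)

theorem F_der (h : ℕ) (y : {y : Y // S.R b y = d}) : (S.der d b).F h y = S.F (b + h) y.1 := by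
  ext i
  rw [FSys.mem_F, FSys.mem_F]
  change (∃ n, (i, n) ∈ ((S.A y.1).filter fun s => b ≤ s.2).image
    (fun s => (s.1, s.2 - b)) ∧ _) ↔ _
  simp only [Finset.mem_image, Finset.mem_filter, Prod.mk.injEq, Prod.exists]
  constructor
  · rintro ⟨n, ⟨o', m, ⟨h2, h3⟩, rfl, rfl⟩, h4⟩
    exact ⟨m, h2, by omega⟩
  · rintro ⟨n, h2, h3⟩
    exact ⟨n - b, ⟨i, n, ⟨h2, by omega⟩, rfl, rfl⟩, by omega⟩

theorem R_der (h : ℕ) (y : {y : Y // S.R b y = d}) : (S.der d b).R h y = S.R (b + h) y.1 := by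
  rw [FSys.R, F_der]
  rfl

theorem der_exact (Γ : Type) [Group Γ] [PartialOrder B] [MulAction Γ B] [PartialOrder C]
    [MulAction Γ C] : (S.der d b).Exact Γ d :=
  ⟨fun y => by rw [R_der, add_zero]; exact y.2, fun _ _ _ hl => hl.2⟩

end Der

section Eps

variable {Y B C Γ k : Type} [Group Γ] [PartialOrder B] [MulAction Γ B] [OrdAct Γ B]
  [PartialOrder C] [MulAction Γ C] [OrdAct Γ C] [CommRing k]

theorem push_mem_U (S : FSys Y B C) (d b : ℕ) {z : CF {y : Y // S.R b y = d} (MonoidAlgebra k Γ)}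
    (hz : z ∈ U Γ k (S.der d b)) : push Subtype.val_injective z ∈ U Γ k S := by
  obtain ⟨h1, h2, P, hP, h3⟩ := hz
  refine ⟨fun g y' y hc => ?_, fun h' => ?_, P, hP, fun g y' y => ?_⟩
  · obtain ⟨y', y, rfl, rfl, hd⟩ := cf_push_ne _ hc
    exact (h1 g y' y hd).1
  · obtain ⟨h4, H⟩ := h2 h'
    refine ⟨b + h4, fun g y' y hc => ?_⟩
    obtain ⟨y', y, rfl, rfl, hd⟩ := cf_push_ne _ hc
    obtain ⟨H1, H2⟩ := H g y' y hd
    rw [R_der, R_der] at H1 H2
    have a1 : S.R (b + h') y.1 ≤ S.R h' y.1 := S.R_anti (Nat.le_add_left _ _) y.1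
    refine ⟨H1.trans a1, fun he hp => ?_⟩
    exact H2 (le_antisymm H1 (he ▸ a1)) hp
  · by_cases hc : cf (push Subtype.val_injective z) g y' y = 0
    · rw [hc]
      exact P.zero_mem
    · obtain ⟨y', y, rfl, rfl, _⟩ := cf_push_ne _ hc
      rw [cf_push]
      exact h3 g y' y

variable (Γ k) (S : FSys Y B C) (d : ℕ) (b : ℕ)

/-- The inclusion of the ring of the derived system. -/
noncomputable def eps : U Γ k (S.der d b) →ₙ+* U Γ k S where
  toFun z := ⟨push Subtype.val_injective z.1, push_mem_U S d b z.2⟩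
  map_mul' a c := Subtype.ext (map_mul (push Subtype.val_injective) a.1 c.1)
  map_zero' := Subtype.ext (map_zero (push Subtype.val_injective))
  map_add' a c := Subtype.ext (map_add (push Subtype.val_injective) a.1 c.1)

variable {Γ k}

theorem eps_val (z : U Γ k (S.der d b)) :
    (eps Γ k S d b z).1 = push Subtype.val_injective z.1 := rfl

theorem eps_mem_J (z : U Γ k (S.der d b)) : eps Γ k S d b z ∈ J Γ k S d := by
  refine ⟨b, fun g y' y hc => ?_⟩
  obtain ⟨y', y, rfl, rfl, hc⟩ := cf_push_ne _ hc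
  exact le_of_eq y'.2

end Eps

end Pool.Agent.FL
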