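import Pool.Agent.Lib.MP_8f66f0_al_FL.Spec

/-!
# Project GLn: the map to the Laurent series over the ring of a flag system

`psi : S_psi`. The coefficients of an element `z` of `U Γ k' S` lie in a finitely generated additive
subgroup of `k'`, so the Laurent series of its coefficients have a common bound for the poles, and the
coefficients of `t ^ m` form an element of `U Γ k S`. Port of `MP_8f66f0_al_CC/Sys/Psi.lean`.
-/

set_option autoImplicit false
set_option linter.unusedSectionVars false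

namespace Pool.Agent.FL

open Pool.Agent.CC (TwE)

namespace Psi

/-- The product of Laurent series with a common bound for the poles. -/
theorem coeff_mul_Icc {R : Type} [Ring R] (x y : LaurentSeries R) (N : ℤ)
    (hx : ∀ i, i < N → x.coeff i = 0) (hy : ∀ i, i < N → y.coeff i = 0) (m : ℤ) :
    (x * y).coeff m = ∑ i ∈ Finset.Icc N (m - N), x.coeff i * y.coeff (m - i) := by
  classical
  rw [HahnSeries.coeff_mul]
  have h1 : ∑ i ∈ Finset.Icc N (m - N), x.coeff i * y.coeff (m - i) =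
      ∑ ij ∈ (Finset.Icc N (m - N)).image (fun i => ((i, m - i) : ℤ × ℤ)),
        x.coeff ij.1 * y.coeff ij.2 := by
    rw [Finset.sum_image]
    intro a _ b _ hab
    exact congrArg Prod.fst hab
  rw [h1]
  refine Finset.sum_subset (fun ij hij => ?_) fun ij hij hn => ?_
  · rw [Finset.mem_antidiagonal] at hij
    obtain ⟨h2, h3, h4⟩ := hij
    have h5 : ¬ ij.1 < N := fun h => h2 (hx _ h)
    have h6 : ¬ ij.2 < N := fun h => h3 (hy _ h)
    refine Finset.mem_image.2 ⟨ij.1, Finset.mem_Icc.2 ⟨by omega, by omega⟩, ?_⟩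
    exact Prod.ext rfl (by change m - ij.1 = ij.2; omega)
  · obtain ⟨i, _, rfl⟩ := Finset.mem_image.1 hij
    by_cases h2 : x.coeff i = 0
    · rw [h2, zero_mul]
    by_cases h3 : y.coeff (m - i) = 0
    · rw [h3, mul_zero]
    exact absurd (Finset.mem_antidiagonal.2 ⟨h2, h3, by change i + (m - i) = m; omega⟩) hn

section Co

variable {Y Γ k k' : Type} [Group Γ] [CommRing k] [CommRing k']

section Sum

variable {L : Type} [CommRing L]

/-- The coefficients of a product. -/
theorem cf_mul_sum {Ω : Type} (T U : CF Ω (MonoidAlgebra L Γ)) (g : Γ) (y x : Ω) (s : Finset Ω)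
    (t : Finset Γ) (hs : ∀ v l, cf U l v x ≠ 0 → v ∈ s ∧ l ∈ t) :
    cf (T * U) g y x = ∑ l ∈ t, ∑ v ∈ s, cf T (g * l⁻¹) y v * cf U l v x := by
  classical
  have hs' : ∀ v, ent U v x ≠ 0 → v ∈ s := by
    intro v hv
    by_contra hvs
    refine hv (MonoidAlgebra.ext (Finsupp.ext fun l => ?_))
    by_contra h
    exact hvs (hs v l h).1
  rw [cf, ent_mul_col T U y x s hs', MonoidAlgebra.coeff_sum, Finsupp.finsetSum_apply,
    Finset.sum_comm]
  refine Finset.sum_congr rfl fun v _ => ?_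
  rw [MonoidAlgebra.coeff_mul, Finsupp.sum]
  have h1 : ∀ m₁, ((ent U v x).coeff.sum fun m₂ r₂ =>
      if m₁ * m₂ = g then (ent T y v).coeff m₁ * r₂ else 0) =
      ∑ l ∈ t, if m₁ * l = g then (ent T y v).coeff m₁ * (ent U v x).coeff l else 0 := by
    intro m₁
    rw [Finsupp.sum]
    refine Finset.sum_subset (fun l hl => (hs v l (Finsupp.mem_support_iff.1 hl)).2) fun l _ hl => ?_
    rw [Finsupp.notMem_support_iff.1 hl, mul_zero, ite_self]
  simp only [h1]
  rw [Finset.sum_comm]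
  refine Finset.sum_congr rfl fun l _ => ?_
  have h2 : ∀ m₁ : Γ, (m₁ * l = g) ↔ (m₁ = g * l⁻¹) := fun m₁ => eq_mul_inv_iff_mul_eq.symm
  simp only [h2]
  by_cases hm : g * l⁻¹ ∈ (ent T y v).coeff.support
  · rw [Finset.sum_ite_eq' _ _ fun m₁ => (ent T y v).coeff m₁ * (ent U v x).coeff l, if_pos hm]
    rfl
  · rw [Finset.sum_ite_eq' _ _ fun m₁ => (ent T y v).coeff m₁ * (ent U v x).coeff l, if_neg hm]
    have : cf T (g * l⁻¹) y v = 0 := Finsupp.notMem_support_iff.1 hm
    rw [this, zero_mul]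

theorem exists_cf_fin {Ω : Type} (U : CF Ω (MonoidAlgebra L Γ)) (x : Ω) :
    ∃ (s : Finset Ω) (t : Finset Γ), ∀ v l, cf U l v x ≠ 0 → v ∈ s ∧ l ∈ t := by
  classical
  refine ⟨(ent_col U x).toFinset, (ent_col U x).toFinset.biUnion fun v => (ent U v x).coeff.support,
    fun v l h => ?_⟩
  have hv : v ∈ (ent_col U x).toFinset := by
    rw [Set.Finite.mem_toFinset]
    exact cf_ne_of_ne h
  exact ⟨hv, Finset.mem_biUnion.2 ⟨v, hv, Finsupp.mem_support_iff.2 h⟩⟩

end Sum

/-- Coefficientwise application of an additive map. -/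
noncomputable def mapA (θ : k' →+ k) (z : CF Y (MonoidAlgebra k' Γ)) : CF Y (MonoidAlgebra k Γ) :=
  mkK (fun y x => MonoidAlgebra.ofCoeff ((ent z y x).coeff.mapRange θ (map_zero θ)))
    (fun x => (ent_col z x).subset fun y hy h => hy (by
      rw [h, MonoidAlgebra.coeff_zero, Finsupp.mapRange_zero, MonoidAlgebra.ofCoeff_zero]))

theorem cf_mapA (θ : k' →+ k) (z : CF Y (MonoidAlgebra k' Γ)) (g : Γ) (y x : Y) :
    cf (mapA θ z) g y x = θ (cf z g y x) := by
  rw [cf, mapA, ent_mkK, MonoidAlgebra.coeff_ofCoeff, Finsupp.mapRange_apply, cf]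

theorem cf_mapA_ne {θ : k' →+ k} {z : CF Y (MonoidAlgebra k' Γ)} {g : Γ} {y x : Y}
    (h : cf (mapA θ z) g y x ≠ 0) : cf z g y x ≠ 0 := by
  intro h1
  rw [cf_mapA, h1, map_zero] at h
  exact h rfl

/-- Scalar matrices. -/
noncomputable def sc (Y Γ : Type) [Group Γ] (c : k) : CF Y (MonoidAlgebra k Γ) :=
  open Classical in
  mkK (fun y x => if y = x then MonoidAlgebra.single 1 c else 0)
    (fun x => (Set.finite_singleton x).subset fun y hy => by
      by_contra h
      exact hy (if_neg fun h' => h h'))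

theorem cf_sc_eq (c : k) (y : Y) : cf (sc Y Γ c) 1 y y = c := by
  classical
  rw [cf, sc, ent_mkK, if_pos rfl, MonoidAlgebra.coeff_single, Finsupp.single_apply, if_pos rfl]

theorem cf_sc_ne (c : k) {g : Γ} {y x : Y} (h : cf (sc Y Γ c) g y x ≠ 0) : g = 1 ∧ y = x := by
  classical
  rw [cf, sc, ent_mkK] at h
  by_cases hyx : y = x
  · refine ⟨?_, hyx⟩
    rw [if_pos hyx, MonoidAlgebra.coeff_single, Finsupp.single_apply] at h
    by_contra hg
    exact h (if_neg fun h => hg h.symm)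
  · rw [if_neg hyx, MonoidAlgebra.coeff_zero] at h
    exact absurd rfl h

theorem cf_sc_off (c : k) {g : Γ} {y x : Y} (h : ¬ (g = 1 ∧ y = x)) : cf (sc Y Γ c) g y x = 0 := by
  by_contra h1
  exact h (cf_sc_ne c h1)

theorem sc_mul (c : k) (z : CF Y (MonoidAlgebra k Γ)) (g : Γ) (y x : Y) :
    cf (sc Y Γ c * z) g y x = c * cf z g y x := by
  classical
  have h1 : ∀ v, v ≠ y → ent (sc Y Γ c) y v = 0 := by
    intro v hv
    rw [sc, ent_mkK, if_neg fun h => hv h.symm]
  rw [cf, ent_mul_row _ _ y x {y} fun v hv => by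
    rw [Finset.mem_singleton]
    by_contra h
    exact hv (h1 v h)]
  rw [Finset.sum_singleton, sc, ent_mkK, if_pos rfl, MonoidAlgebra.coeff_single_one_mul, cf]

theorem mul_sc (c : k) (z : CF Y (MonoidAlgebra k Γ)) (g : Γ) (y x : Y) :
    cf (z * sc Y Γ c) g y x = cf z g y x * c := by
  classical
  have h1 : ∀ v, v ≠ x → ent (sc Y Γ c) v x = 0 := by
    intro v hv
    rw [sc, ent_mkK, if_neg hv]
  rw [cf, ent_mul_col _ _ y x {x} fun v hv => by
    rw [Finset.mem_singleton]
    by_contra h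
    exact hv (h1 v h)]
  rw [Finset.sum_singleton, sc, ent_mkK, if_pos rfl, MonoidAlgebra.coeff_mul_single_one, cf]

end Co

section Main

variable {Y B C Γ k k' : Type} [Group Γ] [PartialOrder B] [MulAction Γ B] [OrdAct Γ B]
  [PartialOrder C] [MulAction Γ C] [OrdAct Γ C] [CommRing k] [CommRing k']

theorem mem_of_supp {S : FSys Y B C} {z : CF Y (MonoidAlgebra k' Γ)}
    {w : CF Y (MonoidAlgebra k Γ)} (hz : z ∈ U Γ k' S)
    (h : ∀ g y' y, cf w g y' y ≠ 0 → cf z g y' y ≠ 0) (hc : Cof w) : w ∈ U Γ k S := by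
  refine ⟨fun g y' y h1 => hz.1 g y' y (h g y' y h1), fun h' => ?_, hc⟩
  obtain ⟨h1, H⟩ := hz.2.1 h'
  exact ⟨h1, fun g y' y h2 => H g y' y (h g y' y h2)⟩

theorem cof_mapA (θ : k' →+ k) {z : CF Y (MonoidAlgebra k' Γ)} (hz : Cof z) : Cof (mapA θ z) := by
  obtain ⟨P, hP, h1⟩ := hz
  refine ⟨P.map θ.toIntLinearMap, hP.map _, fun g y' y => ?_⟩
  rw [cf_mapA]
  exact Submodule.mem_map_of_mem (f := θ.toIntLinearMap) (h1 g y' y)

/-- Coefficientwise application of an additive map. -/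
noncomputable def mapU (S : FSys Y B C) (θ : k' →+ k) (z : U Γ k' S) : U Γ k S :=
  ⟨mapA θ z.1, mem_of_supp z.2 (fun _ _ _ h => cf_mapA_ne h) (cof_mapA θ z.2.2.2)⟩

theorem cf_mapU (S : FSys Y B C) (θ : k' →+ k) (z : U Γ k' S) (g : Γ) (y x : Y) :
    cf (mapU S θ z).1 g y x = θ (cf z.1 g y x) := cf_mapA θ z.1 g y x

theorem cf_mapU_ne {S : FSys Y B C} {θ : k' →+ k} {z : U Γ k' S} {g : Γ} {y x : Y}
    (h : cf (mapU S θ z).1 g y x ≠ 0) : cf z.1 g y x ≠ 0 := cf_mapA_ne h

theorem cfU_ext {S : FSys Y B C} {a b : U Γ k S} (h : ∀ g y x, cf a.1 g y x = cf b.1 g y x) : a = b :=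
  Subtype.ext (cf_ext h)

theorem mapU_J {S : FSys Y B C} {f : ℕ} (θ : k' →+ k) {z : U Γ k' S} (hz : z ∈ J Γ k' S f) :
    mapU S θ z ∈ J Γ k S f := by
  obtain ⟨h, H⟩ := hz
  refine ⟨h, fun g y' y h1 => H g y' y ?_⟩
  exact cf_mapA_ne h1

/-- The base change. -/
noncomputable def jU (S : FSys Y B C) (i : k →+* k') : U Γ k S →+* U Γ k' S where
  toFun z := mapU S i.toAddMonoidHom z
  map_one' := by
    classical
    refine cfU_ext fun g y x => ?_
    rw [cf_mapU]
    by_cases h : g = 1 ∧ y = x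
    · obtain ⟨rfl, rfl⟩ := h
      have h1 : ∀ (L : Type) [CommRing L], cf (1 : CF Y (MonoidAlgebra L Γ)) 1 y y = 1 := by
        intro L _
        rw [cf, ent_one, if_pos rfl, MonoidAlgebra.one_def, MonoidAlgebra.coeff_single,
          Finsupp.single_apply, if_pos rfl]
      change i (cf (1 : CF Y (MonoidAlgebra k Γ)) 1 y y) = cf (1 : CF Y (MonoidAlgebra k' Γ)) 1 y y
      rw [h1, h1, map_one]
    · have h1 : ∀ (L : Type) [CommRing L], cf (1 : CF Y (MonoidAlgebra L Γ)) g y x = 0 := by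
        intro L _
        by_contra hc
        exact h (cf_one_ne hc)
      change i (cf (1 : CF Y (MonoidAlgebra k Γ)) g y x) = cf (1 : CF Y (MonoidAlgebra k' Γ)) g y x
      rw [h1, h1, map_zero]
  map_mul' a b := by
    refine cfU_ext fun g y x => ?_
    obtain ⟨s, t, hst⟩ := exists_cf_fin b.1 x
    rw [cf_mapU]
    change i (cf (a.1 * b.1) g y x) = cf ((mapU S i.toAddMonoidHom a).1 *
      (mapU S i.toAddMonoidHom b).1) g y x
    rw [cf_mul_sum a.1 b.1 g y x s t hst, cf_mul_sum _ _ g y x s t fun v l h => hst v l (cf_mapU_ne h),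
      map_sum]
    refine Finset.sum_congr rfl fun l _ => ?_
    rw [map_sum]
    refine Finset.sum_congr rfl fun v _ => ?_
    rw [map_mul, cf_mapU, cf_mapU]
    rfl
  map_zero' := by
    refine cfU_ext fun g y x => ?_
    rw [cf_mapU]
    change i (cf (0 : CF Y (MonoidAlgebra k Γ)) g y x) = cf (0 : CF Y (MonoidAlgebra k' Γ)) g y x
    rw [cf_zero, cf_zero, map_zero]
  map_add' a b := by
    refine cfU_ext fun g y x => ?_
    rw [cf_mapU]
    change i (cf (a.1 + b.1) g y x) = cf ((mapU S i.toAddMonoidHom a).1 +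
      (mapU S i.toAddMonoidHom b).1) g y x
    rw [cf_add, cf_add, map_add, cf_mapU, cf_mapU]
    rfl

theorem cf_jU (S : FSys Y B C) (i : k →+* k') (z : U Γ k S) (g : Γ) (y x : Y) :
    cf (jU S i z).1 g y x = i (cf z.1 g y x) := cf_mapA i.toAddMonoidHom z.1 g y x

theorem sc_mem (S : FSys Y B C) (c : k) : sc Y Γ c ∈ U Γ k S := by
  refine ⟨fun g y' y h => ?_, fun h' => ⟨h', fun g y' y h => ?_⟩, Submodule.span ℤ {c},
    Submodule.fg_span_singleton _, fun g y' y => ?_⟩
  · obtain ⟨rfl, rfl⟩ := cf_sc_ne c h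
    rw [one_smul]
  · obtain ⟨rfl, rfl⟩ := cf_sc_ne c h
    exact Cmp.refl S h' _
  · by_cases h : g = 1 ∧ y' = y
    · obtain ⟨rfl, rfl⟩ := h
      rw [cf_sc_eq]
      exact Submodule.mem_span_singleton_self c
    · rw [cf_sc_off c h]
      exact Submodule.zero_mem _

/-- Scalar matrices. -/
noncomputable def scU (Γ : Type) [Group Γ] [MulAction Γ B] [OrdAct Γ B] [MulAction Γ C]
    [OrdAct Γ C] (S : FSys Y B C) (c : k) :
    U Γ k S := ⟨sc Y Γ c, sc_mem S c⟩

theorem scU_mul_scU (S : FSys Y B C) {c d : k} (h : c * d = 1) : scU Γ S c * scU Γ S d = 1 := by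
  classical
  refine cfU_ext fun g y x => ?_
  change cf (sc Y Γ c * sc Y Γ d) g y x = cf (1 : CF Y (MonoidAlgebra k Γ)) g y x
  rw [sc_mul]
  by_cases h1 : g = 1 ∧ y = x
  · obtain ⟨rfl, rfl⟩ := h1
    rw [cf_sc_eq, h, cf, ent_one, if_pos rfl, MonoidAlgebra.one_def, MonoidAlgebra.coeff_single,
      Finsupp.single_apply, if_pos rfl]
  · rw [cf_sc_off d h1, mul_zero]
    by_contra hc
    exact h1 (cf_one_ne fun h2 => hc h2.symm)

/-- The additive map which takes the coefficient of `t ^ m`. -/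
noncomputable def thc (τ : k' →+* LaurentSeries k) (m : ℤ) : k' →+ k where
  toFun a := (τ a).coeff m
  map_zero' := by rw [map_zero, HahnSeries.coeff_zero]
  map_add' a b := by rw [map_add, HahnSeries.coeff_add]

theorem thc_apply (τ : k' →+* LaurentSeries k) (m : ℤ) (a : k') : thc τ m a = (τ a).coeff m := rfl

/-- A common bound for the poles. -/
theorem exists_bd (τ : k' →+* LaurentSeries k) {P : Submodule ℤ k'} (hP : P.FG) :
    ∃ N : ℤ, ∀ a ∈ P, ∀ i, i < N → (τ a).coeff i = 0 := by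
  classical
  obtain ⟨s, rfl⟩ := hP
  induction s using Finset.induction_on with
  | empty =>
    refine ⟨0, fun a ha i _ => ?_⟩
    rw [Finset.coe_empty, Submodule.span_empty, Submodule.mem_bot] at ha
    rw [ha, map_zero, HahnSeries.coeff_zero]
  | insert b s _ ih =>
    obtain ⟨N, hN⟩ := ih
    refine ⟨min N (τ b).order, fun a ha i hi => ?_⟩
    rw [Finset.coe_insert, Submodule.mem_span_insert] at ha
    obtain ⟨n, z, hz, rfl⟩ := ha
    rw [map_add, map_zsmul, HahnSeries.coeff_add, hN z hz i (lt_of_lt_of_le hi (min_le_left _ _)),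
      HahnSeries.coeff_smul,
      HahnSeries.coeff_eq_zero_of_lt_order (lt_of_lt_of_le hi (min_le_right _ _)), smul_zero,
      add_zero]

/-- A common bound for the poles. -/
theorem exists_bdU (τ : k' →+* LaurentSeries k) (S : FSys Y B C) (z : U Γ k' S) :
    ∃ N : ℤ, ∀ i, i < N → mapU S (thc τ i) z = 0 := by
  obtain ⟨P, hP, h1⟩ := z.2.2.2
  obtain ⟨N, hN⟩ := exists_bd τ hP
  refine ⟨N, fun i hi => cfU_ext fun g y x => ?_⟩
  rw [cf_mapU, thc_apply, hN _ (h1 g y x) i hi]
  exact (cf_zero g y x).symm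

/-- The coefficients of the product. -/
theorem mapU_mul (τ : k' →+* LaurentSeries k) (S : FSys Y B C) (a b : U Γ k' S) (N : ℤ)
    (ha : ∀ i, i < N → mapU S (thc τ i) a = 0) (hb : ∀ i, i < N → mapU S (thc τ i) b = 0) (m : ℤ) :
    mapU S (thc τ m) (a * b) =
      ∑ i ∈ Finset.Icc N (m - N), mapU S (thc τ i) a * mapU S (thc τ (m - i)) b := by
  refine cfU_ext fun g y x => ?_
  obtain ⟨s, t, hst⟩ := exists_cf_fin b.1 x
  have h1 : ∀ (c : U Γ k' S), (∀ i, i < N → mapU S (thc τ i) c = 0) → ∀ g y x,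
      ∀ i, i < N → (τ (cf c.1 g y x)).coeff i = 0 := by
    intro c hc g y x i hi
    rw [← thc_apply, ← cf_mapU, hc i hi]
    exact cf_zero g y x
  have h2 : cf (∑ i ∈ Finset.Icc N (m - N), mapU S (thc τ i) a * mapU S (thc τ (m - i)) b).1 g y x =
      ∑ i ∈ Finset.Icc N (m - N), cf ((mapU S (thc τ i) a).1 * (mapU S (thc τ (m - i)) b).1) g y x := by
    have h3 : ∀ (s : Finset ℤ) (F : ℤ → U Γ k S),
        cf (∑ i ∈ s, F i).1 g y x = ∑ i ∈ s, cf (F i).1 g y x := by
      intro s F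
      classical
      induction s using Finset.induction_on with
      | empty => exact cf_zero g y x
      | insert i s hi ih =>
        rw [Finset.sum_insert hi, Finset.sum_insert hi, ← ih]
        exact cf_add _ _ g y x
    rw [h3]
    rfl
  rw [h2, cf_mapU]
  change thc τ m (cf (a.1 * b.1) g y x) = _
  have h4 : ∀ i, cf ((mapU S (thc τ i) a).1 * (mapU S (thc τ (m - i)) b).1) g y x =
      ∑ l ∈ t, ∑ v ∈ s, (τ (cf a.1 (g * l⁻¹) y v)).coeff i * (τ (cf b.1 l v x)).coeff (m - i) := by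
    intro i
    rw [cf_mul_sum _ _ g y x s t fun v l h => hst v l (cf_mapU_ne h)]
    simp only [cf_mapU, thc_apply]
  simp only [h4]
  rw [cf_mul_sum a.1 b.1 g y x s t hst, map_sum, Finset.sum_comm]
  refine Finset.sum_congr rfl fun l _ => ?_
  rw [map_sum, Finset.sum_comm]
  refine Finset.sum_congr rfl fun v _ => ?_
  rw [thc_apply, map_mul, coeff_mul_Icc _ _ N (h1 a ha _ _ _) (h1 b hb _ _ _)]

/-- The map to the Laurent series. -/
noncomputable def psiH (τ : k' →+* LaurentSeries k) (S : FSys Y B C) (f : ℕ) (z : U Γ k' S) :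
    LaurentSeries (U Γ k S ⧸ J Γ k S f) where
  coeff m := Ideal.Quotient.mk (J Γ k S f) (mapU S (thc τ m) z)
  isPWO_support' := by
    obtain ⟨N, hN⟩ := exists_bdU τ S z
    refine Set.IsWF.isPWO (BddBelow.isWF ⟨N, fun i hi => ?_⟩)
    by_contra hc
    refine hi ?_
    change Ideal.Quotient.mk (J Γ k S f) (mapU S (thc τ i) z) = 0
    rw [hN i (not_le.1 hc), map_zero]

theorem coeff_psiH (τ : k' →+* LaurentSeries k) (S : FSys Y B C) (f : ℕ) (z : U Γ k' S) (m : ℤ) :
    (psiH τ S f z).coeff m = Ideal.Quotient.mk (J Γ k S f) (mapU S (thc τ m) z) := rfl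

theorem mapU_jU (D : TwE k k') (S : FSys Y B C) (z : U Γ k S) (m : ℤ) :
    mapU S (thc D.τ m) (jU S D.i z) = if m = 0 then z else 0 := by
  refine cfU_ext fun g y x => ?_
  rw [cf_mapU, cf_jU, thc_apply, D.hi, HahnSeries.C_apply, HahnSeries.coeff_single]
  split_ifs
  · rfl
  · exact (cf_zero g y x).symm

theorem psiH_jU (D : TwE k k') (S : FSys Y B C) (f : ℕ) (z : U Γ k S) :
    psiH D.τ S f (jU S D.i z) = HahnSeries.C (Ideal.Quotient.mk (J Γ k S f) z) := by
  ext m
  rw [coeff_psiH, mapU_jU, HahnSeries.C_apply, HahnSeries.coeff_single]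
  split_ifs
  · rfl
  · rw [map_zero]

theorem psiH_mul (τ : k' →+* LaurentSeries k) (S : FSys Y B C) (f : ℕ) (a b : U Γ k' S) :
    psiH τ S f (a * b) = psiH τ S f a * psiH τ S f b := by
  obtain ⟨N, hN⟩ := exists_bdU τ S a
  obtain ⟨N', hN'⟩ := exists_bdU τ S b
  have ha : ∀ i, i < min N N' → mapU S (thc τ i) a = 0 := fun i hi =>
    hN i (lt_of_lt_of_le hi (min_le_left _ _))
  have hb : ∀ i, i < min N N' → mapU S (thc τ i) b = 0 := fun i hi =>
    hN' i (lt_of_lt_of_le hi (min_le_right _ _))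
  ext m
  rw [coeff_mul_Icc _ _ (min N N') (fun i hi => by rw [coeff_psiH, ha i hi, map_zero])
    (fun i hi => by rw [coeff_psiH, hb i hi, map_zero]), coeff_psiH, mapU_mul τ S a b _ ha hb,
    map_sum]
  refine Finset.sum_congr rfl fun i _ => ?_
  rw [map_mul, coeff_psiH, coeff_psiH]

theorem mapU_scU (D : TwE k k') (S : FSys Y B C) (m : ℤ) :
    mapU S (thc D.τ m) (scU Γ S D.y) = if m = 1 then 1 else 0 := by
  classical
  refine cfU_ext fun g y x => ?_
  rw [cf_mapU]
  change thc D.τ m (cf (sc Y Γ D.y) g y x) = _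
  by_cases h1 : g = 1 ∧ y = x
  · obtain ⟨rfl, rfl⟩ := h1
    rw [cf_sc_eq, thc_apply, D.hy, HahnSeries.coeff_single]
    split_ifs
    · change 1 = cf (1 : CF Y (MonoidAlgebra k Γ)) 1 y y
      rw [cf, ent_one, if_pos rfl, MonoidAlgebra.one_def, MonoidAlgebra.coeff_single,
        Finsupp.single_apply, if_pos rfl]
    · exact (cf_zero 1 y y).symm
  · rw [cf_sc_off _ h1, map_zero]
    split_ifs
    · change 0 = cf (1 : CF Y (MonoidAlgebra k Γ)) g y x
      by_contra hc
      exact h1 (cf_one_ne fun h2 => hc h2.symm)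
    · exact (cf_zero g y x).symm

/-- The homomorphism to the Laurent series. -/
noncomputable def psiR (D : TwE k k') (S : FSys Y B C) (f : ℕ) :
    U Γ k' S →+* LaurentSeries (U Γ k S ⧸ J Γ k S f) where
  toFun := psiH D.τ S f
  map_one' := by
    have h := psiH_jU D S f (1 : U Γ k S)
    rwa [map_one, map_one, map_one] at h
  map_mul' := psiH_mul D.τ S f
  map_zero' := by
    have h := psiH_jU D S f (0 : U Γ k S)
    rwa [map_zero, map_zero, map_zero] at h
  map_add' a b := by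
    ext m
    rw [HahnSeries.coeff_add, coeff_psiH, coeff_psiH, coeff_psiH, ← map_add]
    refine congrArg _ (cfU_ext fun g y x => ?_)
    rw [cf_mapU]
    change thc D.τ m (cf (a.1 + b.1) g y x) = cf ((mapU S (thc D.τ m) a).1 +
      (mapU S (thc D.τ m) b).1) g y x
    rw [cf_add, cf_add, map_add, cf_mapU, cf_mapU]

end Main

end Psi

open Psi in
/-- The base change and the map to the Laurent series. -/
theorem psi : S_psi := by
  intro Y B C Γ k k' _ _ _ _ _ _ _ _ _ D S f
  refine ⟨jU S D.i, scU Γ S D.y, scU Γ S D.y', psiR D S f, fun x g v w => cf_jU S D.i x g v w,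
    fun x => psiH_jU D S f x, ?_, fun z hz => ?_, fun x => ?_, scU_mul_scU S D.yy',
    scU_mul_scU S (by rw [mul_comm]; exact D.yy')⟩
  · ext m
    change (psiH D.τ S f (scU Γ S D.y)).coeff m = _
    rw [coeff_psiH, mapU_scU, HahnSeries.coeff_single]
    split_ifs
    · rw [map_one]
    · rw [map_zero]
  · ext m
    change (psiH D.τ S f z).coeff m = _
    rw [coeff_psiH, HahnSeries.coeff_zero]
    exact Ideal.Quotient.eq_zero_iff_mem.2 (mapU_J _ hz)
  · refine cfU_ext fun g v w => ?_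
    change cf (sc Y Γ D.y * (jU S D.i x).1) g v w = cf ((jU S D.i x).1 * sc Y Γ D.y) g v w
    rw [sc_mul, mul_sc, mul_comm]

end Pool.Agent.FL
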