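import Pool.Agent.Lib.MP_8f66f0_al_FL.CF

/-!
# Column finite matrices: extension by zero and restriction

`push ι` is the extension by zero along an injection `ι : Y' → Y`, `pull ι` the restriction. `cf_mul_mem`:
the coefficients of a product.
-/

set_option autoImplicit false

namespace Pool.Agent.FL

section Push

variable {Y Y' A : Type} [Ring A] (ι : Y' → Y) (hι : Function.Injective ι)

open Classical in
/-- The extension by zero, entries. -/
noncomputable def pushE (z : CF Y' A) (y x : Y) : A :=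
  if h : (∃ y', ι y' = y) ∧ ∃ x', ι x' = x then ent z h.1.choose h.2.choose else 0

variable {ι}

include hι in
theorem pushE_ι (z : CF Y' A) (y x : Y') : pushE ι z (ι y) (ι x) = ent z y x := by
  have h : (∃ y', ι y' = ι y) ∧ ∃ x', ι x' = ι x := ⟨⟨y, rfl⟩, ⟨x, rfl⟩⟩
  rw [pushE, dif_pos h, hι h.1.choose_spec, hι h.2.choose_spec]

include hι in
theorem pushE_ne {z : CF Y' A} {y x : Y} (h : pushE ι z y x ≠ 0) :
    ∃ y' x', ι y' = y ∧ ι x' = x ∧ ent z y' x' ≠ 0 := by
  by_cases hc : (∃ y', ι y' = y) ∧ ∃ x', ι x' = x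
  · obtain ⟨⟨y', rfl⟩, ⟨x', rfl⟩⟩ := hc
    exact ⟨y', x', rfl, rfl, by rwa [pushE_ι hι] at h⟩
  · rw [pushE, dif_neg hc] at h
    exact absurd rfl h

/-- The extension by zero. -/
noncomputable def pushK (z : CF Y' A) : CF Y A :=
  mkK (pushE ι z)
    (fun x => by
      by_cases hx' : ∃ x', ι x' = x
      · obtain ⟨x', rfl⟩ := hx'
        refine ((ent_col z x').image ι).subset fun y hy => ?_
        obtain ⟨y'', x'', h1, h2, h3⟩ := pushE_ne hι hy
        rw [hι h2] at h3
        exact ⟨y'', h3, h1⟩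
      · refine Set.finite_empty.subset fun y hy => ?_
        obtain ⟨y'', x'', h1, h2, h3⟩ := pushE_ne hι hy
        exact hx' ⟨x'', h2⟩)

theorem ent_pushK (z : CF Y' A) (y x : Y') : ent (pushK hι z) (ι y) (ι x) = ent z y x := by
  rw [pushK, ent_mkK, pushE_ι hι]

theorem ent_pushK_ne {z : CF Y' A} {y x : Y} (h : ent (pushK hι z) y x ≠ 0) :
    ∃ y' x', ι y' = y ∧ ι x' = x ∧ ent z y' x' ≠ 0 := by
  rw [pushK, ent_mkK] at h
  exact pushE_ne hι h

theorem ent_pushK_left {z : CF Y' A} {y x : Y} (h : ¬ ∃ y', ι y' = y) :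
    ent (pushK hι z) y x = 0 := by
  by_contra hne
  obtain ⟨y', x', h1, _, _⟩ := ent_pushK_ne hι hne
  exact h ⟨y', h1⟩

theorem ent_pushK_right {z : CF Y' A} {y x : Y} (h : ¬ ∃ x', ι x' = x) :
    ent (pushK hι z) y x = 0 := by
  by_contra hne
  obtain ⟨y', x', _, h1, _⟩ := ent_pushK_ne hι hne
  exact h ⟨x', h1⟩

/-- The extension by zero along an injection, a non-unital ring homomorphism. -/
noncomputable def push : CF Y' A →ₙ+* CF Y A where
  toFun := pushK hι
  map_mul' a b := by
    classical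
    refine ent_ext fun y x => ?_
    by_cases hy : ∃ y', ι y' = y
    · by_cases hx : ∃ x', ι x' = x
      · obtain ⟨y, rfl⟩ := hy
        obtain ⟨x, rfl⟩ := hx
        rw [ent_pushK, ent_mul_col a b y x (ent_col b x).toFinset fun v hv => by
          rw [Set.Finite.mem_toFinset]; exact hv,
          ent_mul_col (pushK hι a) (pushK hι b) (ι y) (ι x) ((ent_col b x).toFinset.image ι)
            fun v hv => ?_, Finset.sum_image fun a _ b _ h => hι h]
        · simp only [ent_pushK]
        · obtain ⟨v', x', h1, h2, h3⟩ := ent_pushK_ne hι hv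
          rw [hι h2] at h3
          rw [Finset.mem_image]
          exact ⟨v', by rw [Set.Finite.mem_toFinset]; exact h3, h1⟩
      · rw [ent_pushK_right hι hx]
        by_contra hne
        obtain ⟨v, hv⟩ := exists_of_ent_mul (Ne.symm hne)
        exact hv (by rw [ent_pushK_right hι hx, mul_zero])
    · rw [ent_pushK_left hι hy]
      by_contra hne
      obtain ⟨v, hv⟩ := exists_of_ent_mul (Ne.symm hne)
      exact hv (by rw [ent_pushK_left hι hy, zero_mul])
  map_zero' := by
    refine ent_ext fun y x => ?_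
    by_contra hne
    rw [ent_zero] at hne
    obtain ⟨y', x', h1, h2, h3⟩ := ent_pushK_ne hι hne
    exact h3 (ent_zero y' x')
  map_add' a b := by
    refine ent_ext fun y x => ?_
    rw [ent_add]
    by_cases hy : ∃ y', ι y' = y
    · by_cases hx : ∃ x', ι x' = x
      · obtain ⟨y, rfl⟩ := hy
        obtain ⟨x, rfl⟩ := hx
        rw [ent_pushK, ent_pushK, ent_pushK, ent_add]
      · rw [ent_pushK_right hι hx, ent_pushK_right hι hx, ent_pushK_right hι hx, add_zero]
    · rw [ent_pushK_left hι hy, ent_pushK_left hι hy, ent_pushK_left hι hy, add_zero]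

theorem ent_push (z : CF Y' A) (y x : Y') : ent (push hι z) (ι y) (ι x) = ent z y x :=
  ent_pushK hι z y x

theorem ent_push_ne {z : CF Y' A} {y x : Y} (h : ent (push hι z) y x ≠ 0) :
    ∃ y' x', ι y' = y ∧ ι x' = x ∧ ent z y' x' ≠ 0 := ent_pushK_ne hι h

/-- The restriction along an injection. -/
noncomputable def pull (z : CF Y A) : CF Y' A :=
  mkK (fun y x => ent z (ι y) (ι x))
    (fun x => ((ent_col z (ι x)).preimage hι.injOn).subset fun _ hy => hy)

theorem ent_pull (z : CF Y A) (y x : Y') : ent (pull hι z) y x = ent z (ι y) (ι x) := by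
  rw [pull, ent_mkK]

end Push

section Cf

variable {Y Y' L Γ : Type} [CommRing L] [Group Γ] {ι : Y' → Y} (hι : Function.Injective ι)

theorem cf_push (z : CF Y' (MonoidAlgebra L Γ)) (g : Γ) (y x : Y') :
    cf (push hι z) g (ι y) (ι x) = cf z g y x := by
  rw [cf, ent_push, cf]

theorem cf_push_ne {z : CF Y' (MonoidAlgebra L Γ)} {g : Γ} {y x : Y}
    (h : cf (push hι z) g y x ≠ 0) : ∃ y' x', ι y' = y ∧ ι x' = x ∧ cf z g y' x' ≠ 0 := by
  obtain ⟨y', x', rfl, rfl, h3⟩ := ent_push_ne hι (cf_ne_of_ne h)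
  exact ⟨y', x', rfl, rfl, by rwa [cf_push] at h⟩

theorem cf_pull (z : CF Y (MonoidAlgebra L Γ)) (g : Γ) (y x : Y') :
    cf (pull hι z) g y x = cf z g (ι y) (ι x) := by
  rw [cf, ent_pull, cf]

/-- The coefficients of a product lie in a submodule which contains the products of coefficients. -/
theorem cf_mul_mem {T U : CF Y (MonoidAlgebra L Γ)} (P : Submodule ℤ L) {y x : Y} (g : Γ)
    (h : ∀ v (k l : Γ), cf T k y v * cf U l v x ∈ P) : cf (T * U) g y x ∈ P := by
  classical
  rw [cf, ent_mul_col T U y x (ent_col U x).toFinset fun v hv => by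
    rw [Set.Finite.mem_toFinset]; exact hv, MonoidAlgebra.coeff_sum, Finsupp.finsetSum_apply]
  refine Submodule.sum_mem _ fun v _ => ?_
  rw [MonoidAlgebra.coeff_mul, Finsupp.sum]
  refine Submodule.sum_mem _ fun k _ => ?_
  rw [Finsupp.sum]
  refine Submodule.sum_mem _ fun l _ => ?_
  by_cases hkl : k * l = g
  · rw [if_pos hkl]
    exact h v k l
  · rw [if_neg hkl]
    exact P.zero_mem

end Cf

end Pool.Agent.FL
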