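import Pool.Agent.Lib.MP_8f66f0_al_FL.Tools

/-!
# Project GLn: matrices with finitely many rows, single entries and rays in `U Γ k S`

* `JR Y A`: the ideal of the matrices with finitely many rows; `mem_J_zero`: `J 0` consists of the
  elements of `U` with finitely many rows; `memU_row`: a matrix with finitely many rows is in `U` if it
  respects the base labels and has coefficients in a finitely generated group.
* `E S k g y' y h`: the matrix with the entry `g` at the place `(y', y)`, where `g • base y ≤ base y'`.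
* `shM ρ`, `shR A ρ`, `shL A ρ`: the map `ρ n ↦ ρ (n + 1)` of a ray (an injective sequence of objects),
  its isometry and the adjoint.
* `IsRay S ρ`: the rays of a flag system: `ρ n` is `ρ 0` with the slot `(1, m)` of the phase `1`
  replaced by `(1, m + n)`. The shifts along rays are in `U`, and `1` modulo `J 1`.
-/

set_option autoImplicit false
set_option linter.unusedSectionVars false

namespace Pool.Agent.FL

section JR

variable (Y A : Type) [Ring A]

/-- The ideal of the matrices with finitely many rows. -/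
def JR : Ideal (CF Y A) where
  carrier := {z | {y' : Y | ∃ y, ent z y' y ≠ 0}.Finite}
  add_mem' := by
    intro a b ha hb
    refine Set.Finite.subset (ha.union hb) ?_
    rintro y' ⟨y, hy⟩
    by_contra h
    rw [Set.mem_union, not_or] at h
    have h1 : ent a y' y = 0 := by
      by_contra h0
      exact h.1 ⟨y, h0⟩
    have h2 : ent b y' y = 0 := by
      by_contra h0
      exact h.2 ⟨y, h0⟩
    refine hy ?_
    rw [ent_add, h1, h2, add_zero]
  zero_mem' := by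
    refine Set.finite_empty.subset ?_
    rintro y' ⟨y, hy⟩
    exact hy (ent_zero y' y)
  smul_mem' := by
    intro r z hz
    have h1 : (⋃ v ∈ {y' : Y | ∃ y, ent z y' y ≠ 0}, {y' | ent r y' v ≠ 0}).Finite :=
      Set.Finite.biUnion hz fun v _ => ent_col r v
    refine h1.subset ?_
    rintro y' ⟨y, hy⟩
    rw [smul_eq_mul] at hy
    obtain ⟨v, hv⟩ := exists_of_ent_mul hy
    simp only [Set.mem_iUnion]
    exact ⟨v, ⟨y, right_ne_zero_of_mul hv⟩, left_ne_zero_of_mul hv⟩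

theorem mem_JR (z : CF Y A) : z ∈ JR Y A ↔ {y' : Y | ∃ y, ent z y' y ≠ 0}.Finite := Iff.rfl

instance : (JR Y A).IsTwoSided where
  mul_mem_of_left := by
    intro z r hz
    refine Set.Finite.subset hz ?_
    rintro y' ⟨y, hy⟩
    obtain ⟨v, hv⟩ := exists_of_ent_mul hy
    exact ⟨v, left_ne_zero_of_mul hv⟩

end JR

section

variable {Y B C Γ k : Type} [Group Γ] [PartialOrder B] [MulAction Γ B] [OrdAct Γ B]
  [PartialOrder C] [MulAction Γ C] [OrdAct Γ C] [CommRing k]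
variable {S : FSys Y B C}

theorem exists_cf_ne {z : CF Y (MonoidAlgebra k Γ)} {y' y : Y} (h : ent z y' y ≠ 0) :
    ∃ g, cf z g y' y ≠ 0 := by
  by_contra hc
  push Not at hc
  exact h (MonoidAlgebra.ext (Finsupp.ext fun g => hc g))

theorem exists_height_fin (S : FSys Y B C) {T : Set Y} (hT : T.Finite) :
    ∃ h, ∀ y ∈ T, S.R h y = 0 := by
  obtain ⟨h, hh⟩ := S.exists_height hT.toFinset
  exact ⟨h, fun y hy => hh y (hT.mem_toFinset.2 hy)⟩

/-- Matrices with finitely many rows. -/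
theorem memU_row {z : CF Y (MonoidAlgebra k Γ)} (hz : z ∈ JR Y (MonoidAlgebra k Γ))
    (hl : Lab S z) (hc : Cof z) : z ∈ U Γ k S ∧ Low S 0 z := by
  obtain ⟨h, hh⟩ := exists_height_fin S hz
  have key : ∀ g y' y, cf z g y' y ≠ 0 → S.R h y' = 0 := fun g y' y hc =>
    hh y' ⟨y, cf_ne_of_ne hc⟩
  refine ⟨⟨hl, fun h' => ⟨h, fun g y' y h1 => ?_⟩, hc⟩, h, fun g y' y h1 => ?_⟩
  · refine ⟨?_, fun _ hp => ?_⟩
    · rw [key g y' y h1]
      exact Nat.zero_le _
    · rw [key g y' y h1] at hp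
      exact absurd hp (by decide)
  · rw [key g y' y h1]

theorem mem_J_zero {z : U Γ k S} : z ∈ J Γ k S 0 ↔ z.1 ∈ JR Y (MonoidAlgebra k Γ) := by
  constructor
  · rintro ⟨h, H⟩
    refine (S.R_zero_fin h).subset ?_
    rintro y' ⟨y, hy⟩
    obtain ⟨g, hg⟩ := exists_cf_ne hy
    exact Nat.le_zero.1 (H g y' y hg)
  · intro hz
    exact (memU_row hz z.2.1 z.2.2.2).2

/-- Finite matrices have coefficients in a finitely generated group. -/
theorem cof_fin {z : CF Y (MonoidAlgebra k Γ)}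
    (hz : {p : Y × Y | ent z p.1 p.2 ≠ 0}.Finite) : Cof z := by
  classical
  refine ⟨Submodule.span ℤ ((hz.toFinset.biUnion fun p => (ent z p.1 p.2).coeff.support.image
      fun g => (ent z p.1 p.2).coeff g : Finset k) : Set k), Submodule.fg_span (Finset.finite_toSet _),
      fun g y' y => ?_⟩
  by_cases hc : cf z g y' y = 0
  · rw [hc]
    exact Submodule.zero_mem _
  · refine Submodule.subset_span ?_
    rw [Finset.mem_coe, Finset.mem_biUnion]
    refine ⟨(y', y), hz.mem_toFinset.2 (cf_ne_of_ne hc), Finset.mem_image.2 ⟨g, ?_, rfl⟩⟩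
    rw [Finsupp.mem_support_iff]
    exact hc

open Classical in
/-- The matrix with the entry `g` at the place `(y', y)`. -/
noncomputable def EK (k : Type) [CommRing k] (g : Γ) (y' y : Y) : CF Y (MonoidAlgebra k Γ) :=
  mkK (fun v x => if v = y' ∧ x = y then MonoidAlgebra.single g 1 else 0)
    (fun x => (Set.finite_singleton y').subset fun v hv => by
      by_contra hne
      exact hv (if_neg fun h => hne h.1))

open Classical in
theorem ent_EK (g : Γ) (y' y v x : Y) :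
    ent (EK k g y' y) v x = if v = y' ∧ x = y then MonoidAlgebra.single g 1 else 0 := by
  rw [EK, ent_mkK]

theorem EK_ne {g : Γ} {y' y v x : Y} (h : ent (EK k g y' y) v x ≠ 0) : v = y' ∧ x = y := by
  classical
  rw [ent_EK] at h
  by_contra hc
  exact h (if_neg hc)

theorem EK_row (g : Γ) (y' y : Y) : EK k g y' y ∈ JR Y (MonoidAlgebra k Γ) := by
  refine (Set.finite_singleton y').subset ?_
  rintro v ⟨x, hx⟩
  exact (EK_ne hx).1

theorem EK_fin (g : Γ) (y' y : Y) : {p : Y × Y | ent (EK k g y' y) p.1 p.2 ≠ 0}.Finite := by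
  refine (Set.finite_singleton (y', y)).subset fun p hp => ?_
  obtain ⟨h1, h2⟩ := EK_ne hp
  exact Prod.ext h1 h2

theorem EK_lab {g : Γ} {y' y : Y} (h : g • S.base y ≤ S.base y') :
    Lab S (EK k g y' y) := by
  intro r v x hc
  obtain ⟨rfl, rfl⟩ := EK_ne (cf_ne_of_ne hc)
  classical
  rw [cf, ent_EK, if_pos ⟨rfl, rfl⟩, MonoidAlgebra.coeff_single, Finsupp.single_apply] at hc
  have : g = r := by
    by_contra hne
    exact hc (if_neg hne)
  rw [← this]
  exact h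

/-- The matrix with the entry `g` at the place `(y', y)`, in `U`. -/
noncomputable def E (S : FSys Y B C) (k : Type) [CommRing k] (g : Γ) (y' y : Y)
    (h : g • S.base y ≤ S.base y') : U Γ k S :=
  ⟨EK k g y' y, (memU_row (EK_row g y' y) (EK_lab h) (cof_fin (EK_fin g y' y))).1⟩

theorem E_mem_J (g : Γ) (y' y : Y) (h : g • S.base y ≤ S.base y') :
    E S k g y' y h ∈ J Γ k S 0 :=
  mem_J_zero.2 (EK_row g y' y)

theorem EK_mul (g g' : Γ) (y'' y' y : Y) :
    EK k g y'' y' * EK k g' y' y = EK k (g * g') y'' y := by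
  classical
  refine ent_ext fun v x => ?_
  rw [ent_mul_row _ _ v x {y'} fun w hw => by
    rw [Finset.mem_singleton]; exact (EK_ne hw).2, Finset.sum_singleton, ent_EK, ent_EK, ent_EK]
  by_cases h1 : v = y''
  · by_cases h2 : x = y
    · rw [if_pos ⟨h1, rfl⟩, if_pos ⟨rfl, h2⟩, if_pos ⟨h1, h2⟩, MonoidAlgebra.single_mul_single,
        one_mul]
    · rw [if_neg (c := y' = y' ∧ x = y) fun h => h2 h.2,
        if_neg (c := v = y'' ∧ x = y) fun h => h2 h.2, mul_zero]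
  · rw [if_neg (c := v = y'' ∧ y' = y') fun h => h1 h.1,
      if_neg (c := v = y'' ∧ x = y) fun h => h1 h.1, zero_mul]

theorem EK_mul_ne (g g' : Γ) (y'' y' x' y : Y) (h : y' ≠ x') :
    EK k g y'' y' * EK k g' x' y = 0 := by
  classical
  refine ent_ext fun v x => ?_
  rw [ent_zero]
  by_contra hne
  obtain ⟨w, hw⟩ := exists_of_ent_mul hne
  exact h ((EK_ne (left_ne_zero_of_mul hw)).2.symm.trans (EK_ne (right_ne_zero_of_mul hw)).1)

theorem EK_one (y : Y) : EK k (1 : Γ) y y = prK (MonoidAlgebra k Γ) {y} := by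
  classical
  refine ent_ext fun v x => ?_
  rw [ent_EK, ent_prK]
  by_cases h : v = y ∧ x = y
  · obtain ⟨rfl, rfl⟩ := h
    rw [if_pos ⟨rfl, rfl⟩, if_pos ⟨rfl, rfl⟩, MonoidAlgebra.one_def]
  · rw [if_neg h, if_neg]
    rintro ⟨rfl, h1⟩
    exact h ⟨h1, h1⟩

end

/-! ### The shift of a sequence -/

section Sh

variable {Y A : Type} [Ring A]

open Classical in
/-- The map `ρ n ↦ ρ (n + 1)`, the identity outside the ray. -/
noncomputable def shM (ρ : ℕ ↪ Y) (x : Y) : Y := if h : ∃ n, x = ρ n then ρ (h.choose + 1) else x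

theorem shM_ray (ρ : ℕ ↪ Y) (n : ℕ) : shM ρ (ρ n) = ρ (n + 1) := by
  have h : ∃ k, ρ n = ρ k := ⟨n, rfl⟩
  rw [shM, dif_pos h]
  congr 2
  exact (ρ.injective h.choose_spec).symm

theorem shM_out (ρ : ℕ ↪ Y) {x : Y} (h : ¬ ∃ n, x = ρ n) : shM ρ x = x := by
  rw [shM, dif_neg h]

theorem shM_inj (ρ : ℕ ↪ Y) : Function.Injective (shM ρ) := by
  intro x y hxy
  by_cases hx : ∃ n, x = ρ n
  · obtain ⟨n, rfl⟩ := hx
    by_cases hy : ∃ k, y = ρ k
    · obtain ⟨k, rfl⟩ := hy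
      rw [shM_ray, shM_ray] at hxy
      have := ρ.injective hxy
      rw [show n = k by omega]
    · rw [shM_ray, shM_out ρ hy] at hxy
      exact absurd ⟨n + 1, hxy.symm⟩ hy
  · by_cases hy : ∃ k, y = ρ k
    · obtain ⟨k, rfl⟩ := hy
      rw [shM_ray, shM_out ρ hx] at hxy
      exact absurd ⟨k + 1, hxy⟩ hx
    · rwa [shM_out ρ hx, shM_out ρ hy] at hxy

theorem shM_ne (ρ : ℕ ↪ Y) (x : Y) : shM ρ x ≠ ρ 0 := by
  intro h
  by_cases hx : ∃ n, x = ρ n
  · obtain ⟨n, rfl⟩ := hx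
    rw [shM_ray] at h
    have := ρ.injective h
    omega
  · rw [shM_out ρ hx] at h
    exact hx ⟨0, h⟩

theorem shM_surj (ρ : ℕ ↪ Y) {y : Y} (hy : y ≠ ρ 0) : ∃ x, shM ρ x = y := by
  by_cases h : ∃ n, y = ρ n
  · obtain ⟨n, rfl⟩ := h
    cases n with
    | zero => exact absurd rfl hy
    | succ n => exact ⟨ρ n, shM_ray ρ n⟩
  · exact ⟨y, shM_out ρ h⟩

theorem shM_range (ρ : ℕ ↪ Y) : Set.range (shM ρ) = {y | y ≠ ρ 0} := by
  ext y
  exact ⟨fun ⟨x, hx⟩ => hx ▸ shM_ne ρ x, fun hy => shM_surj ρ hy⟩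

/-- The isometry of a ray: `ρ n ↦ ρ (n + 1)`, the identity outside the ray. -/
noncomputable def shR (A : Type) [Ring A] (ρ : ℕ ↪ Y) : CF Y A := isoK A (shM ρ) (shM_inj ρ)

/-- The adjoint of `shR`. -/
noncomputable def shL (A : Type) [Ring A] (ρ : ℕ ↪ Y) : CF Y A := adjK A (shM ρ) (shM_inj ρ)

open Classical in
theorem ent_shR (ρ : ℕ ↪ Y) (y x : Y) : ent (shR A ρ) y x = if shM ρ x = y then 1 else 0 :=
  ent_isoK _ _ _ _

open Classical in
theorem ent_shL (ρ : ℕ ↪ Y) (x y : Y) : ent (shL A ρ) x y = if shM ρ x = y then 1 else 0 :=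
  ent_adjK _ _ _ _

theorem shL_mul_shR (ρ : ℕ ↪ Y) : shL A ρ * shR A ρ = 1 := adjK_mul_isoK _ _

theorem shR_mul_shL (ρ : ℕ ↪ Y) : shR A ρ * shL A ρ = prK A {y | y ≠ ρ 0} := by
  rw [shR, shL, isoK_mul_adjK, shM_range]

/-- `1 - shR * shL` is the projection onto `ρ 0`. -/
theorem one_sub_shR_shL (ρ : ℕ ↪ Y) : 1 - shR A ρ * shL A ρ = prK A {ρ 0} := by
  classical
  refine ent_ext fun y x => ?_
  rw [shR_mul_shL, ent_sub, ent_one, ent_prK, ent_prK]
  by_cases hyx : y = x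
  · subst hyx
    by_cases hy : y = ρ 0
    · rw [if_pos rfl, if_neg fun h => h.2 hy, if_pos ⟨rfl, hy⟩, sub_zero]
    · rw [if_pos rfl, if_pos ⟨rfl, hy⟩, if_neg fun h => hy h.2, sub_self]
  · rw [if_neg hyx, if_neg fun h => hyx h.1, if_neg fun h => hyx h.1, sub_zero]

/-- A shift (outwards for `true`) along a ray, or the identity. -/
noncomputable def shO (A : Type) [Ring A] (r : Option (Bool × (ℕ ↪ Y))) : CF Y A :=
  match r with
  | none => 1
  | some (true, ρ) => shR A ρ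
  | some (false, ρ) => shL A ρ

/-- The diagonal matrix of shifts. -/
noncomputable def dgO (A : Type) [Ring A] {m : Type} [DecidableEq m]
    (r : m → Option (Bool × (ℕ ↪ Y))) : Matrix m m (CF Y A) := Matrix.diagonal fun l => shO A (r l)

/-- The sign of a shift. -/
def sgn (r : Option (Bool × (ℕ ↪ Y))) : ℤ :=
  match r with
  | none => 0
  | some (true, _) => 1
  | some (false, _) => -1

/-- The entries of shifts: `0`, or `1` at a place of two successive points of the ray or on the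
diagonal. -/
theorem ent_shO (A : Type) [Ring A] (b : Bool) (ρ : ℕ ↪ Y) (y' y : Y) :
    ent (shO A (some (b, ρ))) y' y = 0 ∨ (ent (shO A (some (b, ρ))) y' y = 1 ∧
      ((∃ n, y = ρ n ∧ y' = ρ (n + 1)) ∨ (∃ n, y' = ρ n ∧ y = ρ (n + 1)) ∨ y' = y)) := by
  classical
  have key : ∀ x v, shM ρ x = v → (∃ n, x = ρ n ∧ v = ρ (n + 1)) ∨ v = x := by
    intro x v h
    by_cases hx : ∃ n, x = ρ n
    · obtain ⟨n, rfl⟩ := hx
      rw [shM_ray] at h
      exact Or.inl ⟨n, rfl, h.symm⟩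
    · rw [shM_out ρ hx] at h
      exact Or.inr h.symm
  cases b with
  | true =>
    change ent (shR A ρ) y' y = 0 ∨ (ent (shR A ρ) y' y = 1 ∧ _)
    rw [ent_shR]
    by_cases h : shM ρ y = y'
    · refine Or.inr ⟨if_pos h, ?_⟩
      rcases key _ _ h with h1 | h1
      · exact Or.inl h1
      · exact Or.inr (Or.inr h1)
    · exact Or.inl (if_neg h)
  | false =>
    change ent (shL A ρ) y' y = 0 ∨ (ent (shL A ρ) y' y = 1 ∧ _)
    rw [ent_shL]
    by_cases h : shM ρ y' = y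
    · refine Or.inr ⟨if_pos h, ?_⟩
      rcases key _ _ h with h1 | h1
      · exact Or.inr (Or.inl h1)
      · exact Or.inr (Or.inr h1.symm)
    · exact Or.inl (if_neg h)

/-- Outside the ray a shift is the identity. -/
theorem ent_shO_out (A : Type) [Ring A] (b : Bool) (ρ : ℕ ↪ Y) (y' y : Y)
    (h : (∀ n, y ≠ ρ n) ∨ ∀ n, y' ≠ ρ n) :
    ent (shO A (some (b, ρ))) y' y = ent (1 : CF Y A) y' y := by
  classical
  have key : ∀ x v, (∀ n, x ≠ ρ n) ∨ (∀ n, v ≠ ρ n) → (shM ρ x = v ↔ v = x) := by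
    intro x v hxv
    by_cases hx : ∃ n, x = ρ n
    · obtain ⟨n, rfl⟩ := hx
      rw [shM_ray]
      rcases hxv with h1 | h1
      · exact absurd rfl (h1 n)
      · constructor
        · intro h2
          exact absurd h2.symm (h1 (n + 1))
        · intro h2
          exact absurd h2 (h1 n)
    · rw [shM_out ρ hx]
      exact eq_comm
  cases b with
  | true =>
    change ent (shR A ρ) y' y = _
    rw [ent_shR, ent_one]
    exact if_congr (key y y' h) rfl rfl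
  | false =>
    change ent (shL A ρ) y' y = _
    rw [ent_shL, ent_one]
    exact if_congr ((key y' y h.symm).trans eq_comm) rfl rfl

end Sh

/-! ### Rays of a flag system -/

/-- The change of slots which adds `n` to the slot of the phase `1`. -/
def mv (n : ℕ) : ℕ → ℕ → ℕ := fun o m => if o = 1 then m + n else m

theorem gd_mv (n : ℕ) : Gd (mv n) := by
  intro o a b h
  unfold mv
  by_cases ho : o = 1
  · rw [if_pos ho, if_pos ho]
    omega
  · rw [if_neg ho, if_neg ho]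
    exact h

theorem mv_mv (n m : ℕ) : (fun d a => mv n d (mv m d a)) = mv (m + n) := by
  funext d a
  unfold mv
  by_cases hd : d = 1
  · rw [if_pos hd, if_pos hd, if_pos hd]
    omega
  · rw [if_neg hd, if_neg hd, if_neg hd]

section Ray

variable {Y B C : Type} (S : FSys Y B C)

theorem mem_F_mv {n h : ℕ} {y : Y} {d : ℕ} :
    d ∈ S.F h (S.re (mv n) y) ↔ (d = 1 ∧ ∃ m, (1, m) ∈ S.A y ∧ h ≤ m + n) ∨
      (d ≠ 1 ∧ d ∈ S.F h y) := by
  rw [S.mem_F_re (gd_mv n), S.mem_F]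
  constructor
  · rintro ⟨m, h1, h2⟩
    unfold mv at h2
    by_cases hd : d = 1
    · subst hd
      rw [if_pos rfl] at h2
      exact Or.inl ⟨rfl, m, h1, h2⟩
    · rw [if_neg hd] at h2
      exact Or.inr ⟨hd, m, h1, h2⟩
  · rintro (⟨rfl, m, h1, h2⟩ | ⟨hd, m, h1, h2⟩)
    · exact ⟨m, h1, by unfold mv; rw [if_pos rfl]; exact h2⟩
    · exact ⟨m, h1, by unfold mv; rw [if_neg hd]; exact h2⟩

theorem mv_injective {y : Y} (h1 : 1 ∈ S.F 0 y) : Function.Injective fun n => S.re (mv n) y := by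
  intro n m hnm
  obtain ⟨a, ha⟩ := S.mem_F_zero.1 h1
  have h2 : (1, a + n) ∈ S.A (S.re (mv n) y) := by
    rw [S.A_re _ (gd_mv n)]
    exact Finset.mem_image.2 ⟨(1, a), ha, by simp only [mv, if_true]⟩
  have h3 : S.re (mv n) y = S.re (mv m) y := hnm
  rw [h3, S.A_re _ (gd_mv m), Finset.mem_image] at h2
  obtain ⟨s, hs, h4⟩ := h2
  obtain ⟨h5, h6⟩ := Prod.ext_iff.1 h4
  change s.1 = 1 at h5
  change mv m s.1 s.2 = a + n at h6
  unfold mv at h6
  rw [if_pos h5] at h6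
  have h7 := S.inj y s hs (1, a) ha h5
  rw [h7] at h6
  change a + m = a + n at h6
  omega

/-- The rays of a flag system. -/
structure IsRay (S : FSys Y B C) (ρ : ℕ ↪ Y) : Prop where
  mem : 1 ∈ S.F 0 (ρ 0)
  eq : ∀ n, ρ n = S.re (mv n) (ρ 0)

/-- The ray through `y`. -/
def FSys.ray (y : Y) (h : 1 ∈ S.F 0 y) : ℕ ↪ Y := ⟨fun n => S.re (mv n) y, mv_injective S h⟩

theorem mv_zero (y : Y) : S.re (mv 0) y = y := by
  conv_rhs => rw [← S.re_id y]
  refine S.re_congr _ _ (gd_mv 0) Gd.id _ fun s _ => ?_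
  unfold mv
  split_ifs <;> rfl

theorem FSys.ray_zero (y : Y) (h : 1 ∈ S.F 0 y) : S.ray y h 0 = y := mv_zero S y

theorem FSys.ray_isRay (y : Y) (h : 1 ∈ S.F 0 y) : IsRay S (S.ray y h) where
  mem := by
    rw [S.ray_zero]
    exact h
  eq n := by
    rw [S.ray_zero]
    rfl

variable {S}

theorem IsRay.ext {ρ ρ' : ℕ ↪ Y} (h : IsRay S ρ) (h' : IsRay S ρ') (h0 : ρ 0 = ρ' 0) :
    ρ = ρ' := by
  refine DFunLike.ext _ _ fun n => ?_
  rw [h.eq, h'.eq, h0]

theorem IsRay.succ {ρ : ℕ ↪ Y} (hρ : IsRay S ρ) (n m : ℕ) : ρ (n + m) = S.re (mv m) (ρ n) := by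
  rw [hρ.eq (n + m), hρ.eq n, S.re_re _ _ (gd_mv m) (gd_mv n), mv_mv]

/-- The tails of a ray are rays. -/
def tl (ρ : ℕ ↪ Y) (n : ℕ) : ℕ ↪ Y := ⟨fun m => ρ (n + m), fun a b h => by
  have := ρ.injective h
  omega⟩

theorem tl_apply (ρ : ℕ ↪ Y) (n m : ℕ) : tl ρ n m = ρ (n + m) := rfl

theorem IsRay.mem_n {ρ : ℕ ↪ Y} (hρ : IsRay S ρ) (n : ℕ) : 1 ∈ S.F 0 (ρ n) := by
  rw [hρ.eq n, mem_F_mv]
  obtain ⟨a, ha⟩ := S.mem_F_zero.1 hρ.mem
  exact Or.inl ⟨rfl, a, ha, Nat.zero_le _⟩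

theorem IsRay.tail {ρ : ℕ ↪ Y} (hρ : IsRay S ρ) (n : ℕ) : IsRay S (tl ρ n) where
  mem := hρ.mem_n _
  eq m := by
    rw [tl_apply, tl_apply, add_zero]
    exact hρ.succ n m

theorem IsRay.base_eq {ρ : ℕ ↪ Y} (hρ : IsRay S ρ) (n : ℕ) : S.base (ρ n) = S.base (ρ 0) := by
  rw [hρ.eq n, S.base_re]

theorem IsRay.lab_eq {ρ : ℕ ↪ Y} (hρ : IsRay S ρ) (n : ℕ) : S.lab (ρ n) = S.lab (ρ 0) := by
  rw [hρ.eq n, S.lab_re]

theorem IsRay.up {ρ : ℕ ↪ Y} (hρ : IsRay S ρ) (h n : ℕ) : S.R h (ρ n) ≤ S.R h (ρ (n + 1)) := by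
  rw [hρ.succ n 1]
  refine S.R_le.2 fun d hd => S.le_R ((mem_F_mv S).2 ?_)
  by_cases h1 : d = 1
  · subst h1
    obtain ⟨m, h2, h3⟩ := S.mem_F.1 hd
    exact Or.inl ⟨rfl, m, h2, by omega⟩
  · exact Or.inr ⟨h1, hd⟩

theorem IsRay.down {ρ : ℕ ↪ Y} (hρ : IsRay S ρ) (h n : ℕ) :
    S.R (h + 1) (ρ (n + 1)) ≤ S.R h (ρ n) := by
  rw [hρ.succ n 1]
  refine S.R_le.2 fun d hd => S.le_R ?_
  rcases (mem_F_mv S).1 hd with ⟨rfl, m, h1, h2⟩ | ⟨_, h1⟩
  · exact S.mem_F.2 ⟨m, h1, by omega⟩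
  · exact S.F_anti (Nat.le_succ h) _ h1

theorem IsRay.one {ρ : ℕ ↪ Y} (hρ : IsRay S ρ) : ∃ h, ∀ n, S.R h (ρ n) ≤ 1 := by
  obtain ⟨h, hh⟩ := S.exists_dead (ρ 0)
  refine ⟨h, fun n => S.R_le.2 fun d hd => ?_⟩
  rw [hρ.eq n] at hd
  rcases (mem_F_mv S).1 hd with ⟨rfl, _⟩ | ⟨_, h1⟩
  · exact le_refl _
  · have := S.le_R h1
    omega

theorem IsRay.dead {ρ : ℕ ↪ Y} (hρ : IsRay S ρ) {h n : ℕ} (hn : h ≤ n) : 1 ∈ S.F h (ρ n) := by
  obtain ⟨a, ha⟩ := S.mem_F_zero.1 hρ.mem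
  rw [hρ.eq n]
  exact (mem_F_mv S).2 (Or.inl ⟨rfl, a, ha, by omega⟩)

/-- Rays of a derived system are rays. -/
theorem IsRay.der {d b : ℕ} {ρ : ℕ ↪ {y : Y // S.R b y = d}} (hρ : IsRay (S.der d b) ρ) :
    IsRay S (ρ.trans (Function.Embedding.subtype _)) := by
  classical
  have hm : 1 ∈ S.F b (ρ 0).1 := by
    have h1 := hρ.mem
    rwa [F_der, add_zero] at h1
  obtain ⟨n0, h0, h1⟩ := S.mem_F.1 hm
  refine ⟨S.F_anti (Nat.zero_le b) _ hm, fun n => ?_⟩
  change (ρ n).1 = S.re (mv n) (ρ 0).1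
  rw [hρ.eq n]
  change (if hφ : Gd (mv n) then (⟨S.re (shf b (mv n)) (ρ 0).1, _⟩ : {y : Y // S.R b y = d})
    else ρ 0).1 = _
  rw [dif_pos (gd_mv n)]
  refine S.re_congr _ _ (shf_gd b (gd_mv n)) (gd_mv n) _ fun s hs => ?_
  unfold shf mv
  by_cases hs1 : s.1 = 1
  · have : s = (1, n0) := S.inj _ s hs (1, n0) h0 hs1
    subst this
    rw [if_pos rfl, if_pos rfl, if_neg (not_lt.2 h1)]
    change b + (n0 - b + n) = n0 + n
    omega
  · rw [if_neg hs1, if_neg hs1]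
    split_ifs <;> omega

end Ray

section RayU

variable {Y B C Γ k : Type} [Group Γ] [PartialOrder B] [MulAction Γ B] [OrdAct Γ B]
  [PartialOrder C] [MulAction Γ C] [OrdAct Γ C] [CommRing k]
variable {S : FSys Y B C}

theorem shO_mem {b : Bool} {ρ : ℕ ↪ Y} (hρ : IsRay S ρ) :
    shO (MonoidAlgebra k Γ) (some (b, ρ)) ∈ U Γ k S := by
  refine memU_of (fun y' y => (∃ n, y = ρ n ∧ y' = ρ (n + 1)) ∨ (∃ n, y' = ρ n ∧ y = ρ (n + 1)) ∨
    y' = y) (fun y' y => ent_shO _ b ρ y' y) ?_ ?_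
  · rintro y' y (⟨n, rfl, rfl⟩ | ⟨n, rfl, rfl⟩ | rfl)
    · exact ⟨by rw [hρ.base_eq, hρ.base_eq n], by rw [hρ.lab_eq, hρ.lab_eq n]⟩
    · exact ⟨by rw [hρ.base_eq (n + 1), hρ.base_eq n], by rw [hρ.lab_eq (n + 1), hρ.lab_eq n]⟩
    · exact ⟨rfl, rfl⟩
  · intro h'
    refine ⟨h' + 1, ?_⟩
    rintro y' y (⟨n, rfl, rfl⟩ | ⟨n, rfl, rfl⟩ | rfl)
    · exact hρ.down h' n
    · exact (hρ.up _ n).trans (S.R_anti (Nat.le_succ h') _)
    · exact S.R_anti (Nat.le_succ h') _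

/-- All shifts are along rays of `S`. -/
def Rys (S : FSys Y B C) {m : Type} (r : m → Option (Bool × (ℕ ↪ Y))) : Prop :=
  ∀ l b ρ, r l = some (b, ρ) → IsRay S ρ

theorem shO_mem_U (r : Option (Bool × (ℕ ↪ Y))) (hr : ∀ b ρ, r = some (b, ρ) → IsRay S ρ) :
    shO (MonoidAlgebra k Γ) r ∈ U Γ k S := by
  match r, hr with
  | none, _ => exact one_mem _
  | some (b, ρ), hr => exact shO_mem (hr b ρ rfl)

/-- The shift along a ray of `S`, in `U`. -/
noncomputable def shU (Γ k : Type) [Group Γ] [MulAction Γ B] [OrdAct Γ B] [MulAction Γ C]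
    [OrdAct Γ C] [CommRing k] {S : FSys Y B C} (r : Option (Bool × (ℕ ↪ Y)))
    (hr : ∀ b ρ, r = some (b, ρ) → IsRay S ρ) : U Γ k S :=
  ⟨shO (MonoidAlgebra k Γ) r, shO_mem_U r hr⟩

theorem shU_sub_one (r : Option (Bool × (ℕ ↪ Y))) (hr : ∀ b ρ, r = some (b, ρ) → IsRay S ρ) :
    shU Γ k r hr - 1 ∈ J Γ k S 1 := by
  match r, hr with
  | none, _ =>
    change (1 : U Γ k S) - 1 ∈ _
    rw [sub_self]
    exact zero_mem _
  | some (b, ρ), hr =>
    obtain ⟨h, H⟩ := (hr b ρ rfl).one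
    refine ⟨h, fun g y' y hc => ?_⟩
    have h1 := cf_ne_of_ne hc
    change ent (shO (MonoidAlgebra k Γ) (some (b, ρ)) - 1) y' y ≠ 0 at h1
    rw [ent_sub] at h1
    by_cases h2 : (∀ n, y ≠ ρ n) ∨ ∀ n, y' ≠ ρ n
    · rw [ent_shO_out _ b ρ y' y h2, sub_self] at h1
      exact absurd rfl h1
    · push Not at h2
      obtain ⟨_, m, rfl⟩ := h2
      exact H m

end RayU

end Pool.Agent.FL
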