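import Pool.Agent.Lib.MP_8f66f0_al_FL.Defs

/-!
# Project GLn: standard elements of `U Γ k S` (`S` a flag system)

* `isoK a`, `adjK a`: the isometry of an injection and its adjoint, `prK T`: the projection onto the
  set `T` of objects.
* `memU_of`: a matrix with entries in `{0, 1}` which respects labels and controls ranks is in `U`.
* `RL S a`: the map `a` keeps the labels and controls the ranks; `isoU`, `adjU`, `prU`.
-/

set_option autoImplicit false
set_option linter.unusedSectionVars false

namespace Pool.Agent.FL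

section Iso

variable {Y A : Type} [Ring A]

open Classical in
/-- The matrix of a map. -/
noncomputable def isoK (A : Type) [Ring A] (a : Y → Y) (ha : Function.Injective a) : CF Y A :=
  mkK (fun y x => if a x = y then 1 else 0)
    (fun x => (Set.finite_singleton (a x)).subset fun y hy => by
      by_contra hne
      exact hy (if_neg fun h => hne h.symm))

open Classical in
/-- The transposed matrix of a map. -/
noncomputable def adjK (A : Type) [Ring A] (a : Y → Y) (ha : Function.Injective a) : CF Y A :=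
  mkK (fun x y => if a x = y then 1 else 0)
    (fun y => by
      by_cases h : ∃ x, a x = y
      · obtain ⟨x, rfl⟩ := h
        refine (Set.finite_singleton x).subset fun x' hx' => ?_
        by_contra hne
        exact hx' (if_neg fun h => hne (ha h))
      · refine Set.finite_empty.subset fun x hx => ?_
        exact absurd (if_neg fun h' => h ⟨x, h'⟩) hx)

open Classical in
theorem ent_isoK (a : Y → Y) (ha : Function.Injective a) (y x : Y) :
    ent (isoK A a ha) y x = if a x = y then 1 else 0 := by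
  rw [isoK, ent_mkK]

open Classical in
theorem ent_adjK (a : Y → Y) (ha : Function.Injective a) (x y : Y) :
    ent (adjK A a ha) x y = if a x = y then 1 else 0 := by
  rw [adjK, ent_mkK]

/-- Multiplication by the matrix of a map moves the columns. -/
theorem ent_mul_isoK (z : CF Y A) (a : Y → Y) (ha : Function.Injective a) (y x : Y) :
    ent (z * isoK A a ha) y x = ent z y (a x) := by
  classical
  rw [ent_mul_col _ _ y x {a x} fun v hv => ?_, Finset.sum_singleton, ent_isoK, if_pos rfl, mul_one]
  rw [Finset.mem_singleton]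
  by_contra hne
  exact hv (by rw [ent_isoK, if_neg fun h => hne h.symm])

/-- Multiplication by the transposed matrix of a map moves the rows. -/
theorem ent_adjK_mul (z : CF Y A) (a : Y → Y) (ha : Function.Injective a) (y x : Y) :
    ent (adjK A a ha * z) y x = ent z (a y) x := by
  classical
  rw [ent_mul_row _ _ y x {a y} fun v hv => ?_, Finset.sum_singleton, ent_adjK, if_pos rfl, one_mul]
  rw [Finset.mem_singleton]
  by_contra hne
  exact hv (by rw [ent_adjK, if_neg fun h => hne h.symm])

theorem ent_isoK_mul (z : CF Y A) (a : Y → Y) (ha : Function.Injective a) (y x : Y) :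
    ent (isoK A a ha * z) (a y) x = ent z y x := by
  classical
  rw [ent_mul_row _ _ (a y) x {y} fun v hv => ?_, Finset.sum_singleton, ent_isoK, if_pos rfl,
    one_mul]
  rw [Finset.mem_singleton]
  by_contra hne
  exact hv (by rw [ent_isoK, if_neg fun h => hne (ha h)])

theorem ent_isoK_mul_zero (z : CF Y A) (a : Y → Y) (ha : Function.Injective a) (y x : Y)
    (hy : y ∉ Set.range a) : ent (isoK A a ha * z) y x = 0 := by
  classical
  rw [ent_mul_row _ _ y x ∅ fun v hv => ?_, Finset.sum_empty]
  exact absurd (by rw [ent_isoK, if_neg fun h => hy ⟨v, h⟩]) hv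

theorem ent_mul_adjK (z : CF Y A) (a : Y → Y) (ha : Function.Injective a) (y x : Y) :
    ent (z * adjK A a ha) y (a x) = ent z y x := by
  classical
  rw [ent_mul_col _ _ y (a x) {x} fun v hv => ?_, Finset.sum_singleton, ent_adjK, if_pos rfl,
    mul_one]
  rw [Finset.mem_singleton]
  by_contra hne
  exact hv (by rw [ent_adjK, if_neg fun h => hne (ha h)])

theorem ent_mul_adjK_zero (z : CF Y A) (a : Y → Y) (ha : Function.Injective a) (y x : Y)
    (hx : x ∉ Set.range a) : ent (z * adjK A a ha) y x = 0 := by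
  classical
  rw [ent_mul_col _ _ y x ∅ fun v hv => ?_, Finset.sum_empty]
  exact absurd (by rw [ent_adjK, if_neg fun h => hx ⟨v, h⟩]) hv

theorem adjK_mul_isoK (a : Y → Y) (ha : Function.Injective a) :
    adjK A a ha * isoK A a ha = 1 := by
  classical
  refine ent_ext fun y x => ?_
  rw [ent_adjK_mul, ent_isoK, ent_one]
  by_cases h : y = x
  · rw [if_pos (by rw [h]), if_pos h]
  · rw [if_neg fun h' => h (ha h').symm, if_neg h]

theorem isoK_comp (a b : Y → Y) (ha : Function.Injective a) (hb : Function.Injective b) :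
    isoK A a ha * isoK A b hb = isoK A (a ∘ b) (ha.comp hb) := by
  classical
  refine ent_ext fun y x => ?_
  rw [ent_mul_isoK, ent_isoK, ent_isoK]
  rfl

open Classical in
/-- The projection onto the set `T` of objects. -/
noncomputable def prK (A : Type) [Ring A] (T : Set Y) : CF Y A :=
  mkK (fun y x => if y = x ∧ x ∈ T then 1 else 0)
    (fun x => (Set.finite_singleton x).subset fun y hy => by
      by_contra hne
      exact hy (if_neg fun h => hne h.1))

open Classical in
theorem ent_prK (T : Set Y) (y x : Y) :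
    ent (prK A T) y x = if y = x ∧ x ∈ T then 1 else 0 := by
  rw [prK, ent_mkK]

open Classical in
theorem ent_prK_mul (T : Set Y) (z : CF Y A) (y x : Y) :
    ent (prK A T * z) y x = if y ∈ T then ent z y x else 0 := by
  rw [ent_mul_row _ _ y x {y} fun v hv => ?_, Finset.sum_singleton, ent_prK]
  · by_cases hy : y ∈ T
    · rw [if_pos ⟨rfl, hy⟩, if_pos hy, one_mul]
    · rw [if_neg fun h => hy h.2, if_neg hy, zero_mul]
  · rw [Finset.mem_singleton]
    by_contra hne
    exact hv (by rw [ent_prK, if_neg fun h => hne h.1.symm])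

open Classical in
theorem ent_mul_prK (T : Set Y) (z : CF Y A) (y x : Y) :
    ent (z * prK A T) y x = if x ∈ T then ent z y x else 0 := by
  rw [ent_mul_col _ _ y x {x} fun v hv => ?_, Finset.sum_singleton, ent_prK]
  · by_cases hx : x ∈ T
    · rw [if_pos ⟨rfl, hx⟩, if_pos hx, mul_one]
    · rw [if_neg fun h => hx h.2, if_neg hx, mul_zero]
  · rw [Finset.mem_singleton]
    by_contra hne
    exact hv (by rw [ent_prK, if_neg fun h => hne h.1])

theorem prK_mul_self (T : Set Y) : prK A T * prK A T = prK A T := by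
  classical
  refine ent_ext fun y x => ?_
  rw [ent_prK_mul]
  by_cases hy : y ∈ T
  · rw [if_pos hy]
  · rw [if_neg hy, ent_prK, if_neg]
    rintro ⟨rfl, h⟩
    exact hy h

theorem isoK_mul_adjK (a : Y → Y) (ha : Function.Injective a) :
    isoK A a ha * adjK A a ha = prK A (Set.range a) := by
  classical
  refine ent_ext fun y x => ?_
  by_cases hy : y ∈ Set.range a
  · obtain ⟨y, rfl⟩ := hy
    rw [ent_isoK_mul, ent_adjK, ent_prK]
    by_cases h : a y = x
    · rw [if_pos h, if_pos ⟨h, y, h⟩]
    · rw [if_neg h, if_neg fun h' => h h'.1]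
  · rw [ent_isoK_mul_zero _ _ _ _ _ hy, ent_prK, if_neg]
    rintro ⟨rfl, h⟩
    exact hy h

end Iso

section U

variable {Y B C Γ k : Type} [Group Γ] [PartialOrder B] [MulAction Γ B] [OrdAct Γ B]
  [PartialOrder C] [MulAction Γ C] [OrdAct Γ C] [CommRing k]
variable (S : FSys Y B C)

/-- The map `a` keeps the labels and controls the ranks. -/
structure RL (a : Y → Y) : Prop where
  base : ∀ y, S.base (a y) = S.base y
  lab : ∀ y, S.lab (a y) = S.lab y
  up : ∀ h', ∃ h, ∀ y, S.R h y ≤ S.R h' (a y)
  down : ∀ h', ∃ h, ∀ y, S.R h (a y) ≤ S.R h' y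

variable {S}

theorem coeff_one_ne {g : Γ} (h : (1 : MonoidAlgebra k Γ).coeff g ≠ 0) : g = 1 := by
  classical
  by_contra hg
  refine h ?_
  rw [MonoidAlgebra.one_def, MonoidAlgebra.coeff_single, Finsupp.single_apply,
    if_neg (fun h => hg h.symm)]

theorem coeff_one_mem (g : Γ) :
    (1 : MonoidAlgebra k Γ).coeff g ∈ Submodule.span ℤ ({1} : Set k) := by
  classical
  rw [MonoidAlgebra.one_def, MonoidAlgebra.coeff_single, Finsupp.single_apply]
  by_cases hg : 1 = g
  · rw [if_pos hg]
    exact Submodule.mem_span_singleton_self 1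
  · rw [if_neg hg]
    exact Submodule.zero_mem _

/-- A matrix whose non-zero entries are `1` at places `(y', y)` with a relation `Q`. -/
theorem memU_of {z : CF Y (MonoidAlgebra k Γ)} (Q : Y → Y → Prop)
    (hz : ∀ y' y, ent z y' y = 0 ∨ (ent z y' y = 1 ∧ Q y' y))
    (h1 : ∀ y' y, Q y' y → S.base y' = S.base y ∧ S.lab y' = S.lab y)
    (h2 : ∀ h', ∃ h, ∀ y' y, Q y' y → S.R h y' ≤ S.R h' y) : z ∈ U Γ k S := by
  have hg : ∀ g y' y, cf z g y' y ≠ 0 → g = 1 ∧ Q y' y := by
    intro g y' y hc
    rcases hz y' y with h0 | ⟨h0, hR⟩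
    · exact absurd h0 (cf_ne_of_ne hc)
    · rw [cf, h0] at hc
      exact ⟨coeff_one_ne hc, hR⟩
  refine ⟨fun g y' y hc => ?_, fun h' => ?_, Submodule.span ℤ {1},
    Submodule.fg_span_singleton _, fun g y' y => ?_⟩
  · obtain ⟨rfl, hR⟩ := hg g y' y hc
    rw [one_smul, (h1 y' y hR).1]
  · obtain ⟨h, H⟩ := h2 h'
    refine ⟨h, fun g y' y hc => ?_⟩
    obtain ⟨rfl, hR⟩ := hg g y' y hc
    refine ⟨H y' y hR, fun _ _ => ?_⟩
    rw [one_smul, (h1 y' y hR).2]
  · rcases hz y' y with h0 | ⟨h0, hR⟩
    · rw [cf, h0]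
      exact Submodule.zero_mem _
    · rw [cf, h0]
      exact coeff_one_mem g

theorem prK_mem (T : Set Y) : prK (MonoidAlgebra k Γ) T ∈ U Γ k S := by
  classical
  refine memU_of (fun y' y => y' = y) (fun y' y => ?_) (fun _ _ h => by rw [h]; exact ⟨rfl, rfl⟩)
    (fun h' => ⟨h', fun _ _ h => by rw [h]⟩)
  rw [ent_prK]
  by_cases h : y' = y ∧ y ∈ T
  · exact Or.inr ⟨if_pos h, h.1⟩
  · exact Or.inl (if_neg h)

theorem isoK_mem {a : Y → Y} (ha : Function.Injective a) (hS : RL S a) :
    isoK (MonoidAlgebra k Γ) a ha ∈ U Γ k S := by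
  classical
  refine memU_of (fun y' y => a y = y') (fun y' y => ?_)
    (fun _ _ h => by rw [← h, hS.base, hS.lab]; exact ⟨rfl, rfl⟩) (fun h' => ?_)
  · rw [ent_isoK]
    by_cases h : a y = y'
    · exact Or.inr ⟨if_pos h, h⟩
    · exact Or.inl (if_neg h)
  · obtain ⟨h, H⟩ := hS.down h'
    exact ⟨h, fun _ y e => e ▸ H y⟩

theorem adjK_mem {a : Y → Y} (ha : Function.Injective a) (hS : RL S a) :
    adjK (MonoidAlgebra k Γ) a ha ∈ U Γ k S := by
  classical
  refine memU_of (fun y' y => a y' = y) (fun y' y => ?_)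
    (fun _ _ h => by rw [← h, hS.base, hS.lab]; exact ⟨rfl, rfl⟩) (fun h' => ?_)
  · rw [ent_adjK]
    by_cases h : a y' = y
    · exact Or.inr ⟨if_pos h, h⟩
    · exact Or.inl (if_neg h)
  · obtain ⟨h, H⟩ := hS.up h'
    exact ⟨h, fun y _ e => e ▸ H y⟩

variable (Γ k S)

/-- The projection onto the set `T` of objects. -/
noncomputable def prU (T : Set Y) : U Γ k S := ⟨prK (MonoidAlgebra k Γ) T, prK_mem T⟩

/-- The isometry of an injection. -/
noncomputable def isoU (a : Y → Y) (ha : Function.Injective a) (hS : RL S a) : U Γ k S :=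
  ⟨isoK (MonoidAlgebra k Γ) a ha, isoK_mem ha hS⟩

/-- The adjoint of the isometry of an injection. -/
noncomputable def adjU (a : Y → Y) (ha : Function.Injective a) (hS : RL S a) : U Γ k S :=
  ⟨adjK (MonoidAlgebra k Γ) a ha, adjK_mem ha hS⟩

theorem adjU_mul_isoU (a : Y → Y) (ha : Function.Injective a) (hS : RL S a) :
    adjU Γ k S a ha hS * isoU Γ k S a ha hS = 1 := Subtype.ext (adjK_mul_isoK a ha)

theorem isoU_mul_adjU (a : Y → Y) (ha : Function.Injective a) (hS : RL S a) :
    isoU Γ k S a ha hS * adjU Γ k S a ha hS = prU Γ k S (Set.range a) :=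
  Subtype.ext (isoK_mul_adjK a ha)

variable {Γ k S}

/-- `prU T` is in `J j` if the objects in `T` have rank at most `j`, for some time. -/
theorem prU_mem_J {T : Set Y} {j : ℕ} (h : ℕ) (hT : ∀ y ∈ T, S.R h y ≤ j) :
    prU Γ k S T ∈ J Γ k S j := by
  classical
  refine ⟨h, fun g y' y hc => ?_⟩
  have h1 := cf_ne_of_ne hc
  change ent (prK (MonoidAlgebra k Γ) T) y' y ≠ 0 at h1
  rw [ent_prK, ne_eq, ite_eq_right_iff, Classical.not_imp] at h1
  obtain ⟨⟨rfl, h2⟩, _⟩ := h1
  exact hT _ h2

theorem prU_mul_self (T : Set Y) : prU Γ k S T * prU Γ k S T = prU Γ k S T :=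
  Subtype.ext (prK_mul_self T)

/-- The elements of `J j` have LEFT local units, the projections onto the objects of rank at most `j` at
a time `h`. -/
theorem exists_prU_mul {j : ℕ} {z : U Γ k S} (hz : z ∈ J Γ k S j) :
    ∃ h, ∀ h1, h ≤ h1 → prU Γ k S {y | S.R h1 y ≤ j} * z = z := by
  classical
  obtain ⟨h, H⟩ := hz
  refine ⟨h, fun h1 hh => Subtype.ext (ent_ext fun y' y => ?_)⟩
  change ent (prK (MonoidAlgebra k Γ) {y | S.R h1 y ≤ j} * z.1) y' y = _
  rw [ent_prK_mul]
  by_cases hy : y' ∈ {y | S.R h1 y ≤ j}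
  · rw [if_pos hy]
  · rw [if_neg hy]
    by_contra hne
    have h2 : ∃ g, cf z.1 g y' y ≠ 0 := by
      by_contra hc
      push Not at hc
      exact hne (MonoidAlgebra.ext (Finsupp.ext fun g => (hc g).symm))
    obtain ⟨g, hg⟩ := h2
    exact hy ((S.R_anti hh y').trans (H g y' y hg))

theorem prU_J (h j : ℕ) : prU Γ k S {y | S.R h y ≤ j} ∈ J Γ k S j := prU_mem_J h fun _ hy => hy

end U

end Pool.Agent.FL
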